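import Mathlib

set_option autoImplicit false

open Complex Metric Set Filter MeasureTheory
open scoped Real Topology ComplexConjugate NNReal ENNReal

namespace Pool.Agent.Helper203.Hardy

/-- normalised arc length on the circle, in the angle coordinate -/
noncomputable def mT : Measure ℝ := (ENNReal.ofReal (2 * π))⁻¹ • volume.restrict (Ioc 0 (2 * π))

/-- The Hardy space `H²` as the Hilbert space of square summable Taylor coefficient sequences. -/
noncomputable abbrev H2 := lp (fun _ : ℕ => ℂ) 2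

/-- The analytic function with Taylor coefficients `f`. -/
noncomputable def ev (f : H2) (z : ℂ) : ℂ := ∑' n, f n * z ^ n

theorem sq_summable (f : H2) : Summable (fun n => ‖f n‖ ^ 2) := by
  have := (lp.memℓp f).summable (by norm_num)
  simpa using this

theorem norm_sq (f : H2) : ‖f‖ ^ 2 = ∑' n, ‖f n‖ ^ 2 := by
  have := lp.norm_rpow_eq_tsum (p := 2) (by norm_num) f
  simpa using this

/-- right shift of a sequence -/
def shiftFun (a : ℕ → ℂ) : ℕ → ℂ
  | 0 => 0
  | (n + 1) => a n

theorem shift_summable (f : H2) : Summable (fun n => ‖shiftFun f n‖ ^ 2) := by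
  rw [← summable_nat_add_iff 1]
  exact (sq_summable f).congr fun n => rfl

theorem shift_memlp (f : H2) : Memℓp (shiftFun f) 2 := by
  apply memℓp_gen
  simpa using shift_summable f

theorem shift_norm (f : H2) : ‖(⟨shiftFun f, shift_memlp f⟩ : H2)‖ = ‖f‖ := by
  have h : ‖(⟨shiftFun f, shift_memlp f⟩ : H2)‖ ^ 2 = ‖f‖ ^ 2 := by
    rw [norm_sq, norm_sq]
    have h1 := (shift_summable f).tsum_eq_zero_add
    have e : ∀ n, ‖(⟨shiftFun f, shift_memlp f⟩ : H2) n‖ ^ 2 = ‖shiftFun f n‖ ^ 2 := fun n => rfl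
    simp only [e]
    rw [h1]
    simp [shiftFun]
  exact (pow_left_inj₀ (norm_nonneg _) (norm_nonneg _) two_ne_zero).1 h

/-- The radial boundary function of `φ`, in the angle coordinate. -/
noncomputable def bv (φ : ℂ → ℂ) (θ : ℝ) : ℂ :=
  limUnder (𝓝[<] (1 : ℝ)) (fun r : ℝ => φ (circleMap 0 r θ))

/-- squared modulus of the normalised reproducing kernel at `a`, evaluated at `z` -/
noncomputable def kr (a z : ℂ) : ℝ := (1 - ‖a‖ ^ 2) / ‖1 - conj a * z‖ ^ 2

/-- Restriction to the open unit disc of the pull-back `mφ⁻¹` of normalised arc length under the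
radial boundary function of `φ`. -/
noncomputable def pull (φ : ℂ → ℂ) : Measure ℂ := (Measure.map (bv φ) mT).restrict (ball 0 1)

/-- `μ` is a vanishing Carleson measure: `μ {z : |z - ζ| ≤ h} = o(h)` as `h → 0`, uniformly in
`ζ` on the unit circle. -/
def VanishingCarleson (μ : Measure ℂ) : Prop :=
  ∀ ε > 0, ∃ δ > 0, ∀ ζ : ℂ, ‖ζ‖ = 1 → ∀ h : ℝ, 0 < h → h < δ →
    μ (closedBall ζ h) ≤ ENNReal.ofReal (ε * h)

end Pool.Agent.Helper203.Hardy
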