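import Mathlib
import Pool.Agent.Helper203.H2Base

set_option autoImplicit false

open Complex Metric Set Filter MeasureTheory
open scoped Real Topology ComplexConjugate NNReal ENNReal

namespace Pool.Agent.Helper203.Hardy

/-! ### shift -/

/-- `M_z`, the unilateral shift on `H²`. -/
noncomputable def Mz : H2 →L[ℂ] H2 :=
  LinearMap.mkContinuous
    { toFun := fun f => ⟨shiftFun f, shift_memlp f⟩
      map_add' := fun f g => by
        ext n
        cases n
        · show (0 : ℂ) = 0 + 0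
          simp
        · rfl
      map_smul' := fun c f => by
        ext n
        cases n
        · show (0 : ℂ) = c * 0
          simp
        · rfl } 1 (fun f => by
      rw [one_mul]
      exact (shift_norm f).le)

theorem Mz_apply (f : H2) (n : ℕ) : Mz f n = shiftFun f n := rfl

theorem Mz_norm (f : H2) : ‖Mz f‖ = ‖f‖ := shift_norm f

theorem Mz_pow_norm (n : ℕ) (f : H2) : ‖(Mz ^ n) f‖ = ‖f‖ := by
  induction n generalizing f with
  | zero => simp
  | succ n ih => rw [pow_succ, mul_apply_eq_comp, ih, Mz_norm]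

/-- `M_z` is multiplication by the coordinate. -/
theorem ev_Mz (f : H2) {z : ℂ} (hz : ‖z‖ < 1) : ev (Mz f) z = z * ev f z := by
  rw [ev, (ev_summable (Mz f) hz).tsum_eq_zero_add, ev, ← tsum_mul_left]
  simp only [Mz_apply, shiftFun, zero_mul, zero_add]
  congr 1
  funext n
  ring

theorem ev_Mz_pow (f : H2) (n : ℕ) {z : ℂ} (hz : ‖z‖ < 1) : ev ((Mz ^ n) f) z = z ^ n * ev f z := by
  induction n generalizing f with
  | zero => simp
  | succ n ih => rw [pow_succ, mul_apply_eq_comp, ih, ev_Mz f hz]; ring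

theorem Mz_single (n : ℕ) : Mz (lp.single 2 n (1 : ℂ)) = lp.single 2 (n + 1) (1 : ℂ) := by
  ext k
  rw [Mz_apply]
  cases k with
  | zero =>
    rw [shiftFun, lp.single_apply_ne]
    omega
  | succ k =>
    rw [shiftFun]
    by_cases h : k = n
    · subst h; rw [lp.single_apply_self, lp.single_apply_self]
    · rw [lp.single_apply_ne _ _ _ h, lp.single_apply_ne]
      omega

theorem adj_Mz (f : H2) (n : ℕ) : (ContinuousLinearMap.adjoint Mz) f n = f (n + 1) := by
  have h1 : inner ℂ (lp.single 2 n (1 : ℂ)) ((ContinuousLinearMap.adjoint Mz) f) =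
      (ContinuousLinearMap.adjoint Mz) f n := by
    rw [lp.inner_single_left]; simp
  rw [← h1, ContinuousLinearMap.adjoint_inner_right, Mz_single, lp.inner_single_left]
  simp

theorem adj_Mz_pow (f : H2) (m n : ℕ) :
    (ContinuousLinearMap.adjoint (Mz ^ m)) f n = f (m + n) := by
  induction m generalizing f n with
  | zero =>
    have : ContinuousLinearMap.adjoint (1 : H2 →L[ℂ] H2) = 1 := star_one _
    rw [pow_zero, this]; simp
  | succ m ih =>
    have : ContinuousLinearMap.adjoint (Mz ^ (m + 1)) =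
        ContinuousLinearMap.adjoint (Mz ^ m) * ContinuousLinearMap.adjoint Mz := by
      rw [pow_succ']
      exact star_mul _ _
    rw [this, mul_apply_eq_comp, ih, adj_Mz]
    have e : m + n + 1 = m + 1 + n := by omega
    rw [e]

/-! ### Poisson kernel -/

/-- Poisson kernel -/
noncomputable def PK (z : ℂ) (θ : ℝ) : ℝ := (1 - ‖z‖ ^ 2) / ‖circleMap 0 1 θ - z‖ ^ 2

theorem norm_cm1 (θ : ℝ) : ‖circleMap 0 1 θ‖ = 1 := by simp

theorem PK_eq (z : ℂ) (θ : ℝ) : PK z θ = poissonKernel 0 z (circleMap 0 1 θ) := by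
  rw [PK, poissonKernel_def, sub_zero, sub_zero, norm_cm1, one_pow]

theorem PK_re (z : ℂ) (θ : ℝ) :
    PK z θ = ((circleMap 0 1 θ + z) / (circleMap 0 1 θ - z)).re := by
  rw [PK_eq, poissonKernel_eq_re_herglotzRieszKernel]
  simp [herglotzRieszKernel_def]

theorem cm_sub_ne {z : ℂ} (hz : ‖z‖ < 1) (θ : ℝ) : circleMap 0 1 θ - z ≠ 0 := by
  intro h
  have : circleMap 0 1 θ = z := sub_eq_zero.1 h
  rw [← this, norm_cm1] at hz
  exact lt_irrefl _ hz

theorem PK_pos {z : ℂ} (hz : ‖z‖ < 1) (θ : ℝ) : 0 < PK z θ := by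
  rw [PK]
  apply div_pos
  · nlinarith [norm_nonneg z]
  · have := norm_pos_iff.2 (cm_sub_ne hz θ)
    positivity

theorem PK_le {z : ℂ} (hz : ‖z‖ < 1) (θ : ℝ) : PK z θ ≤ (1 + ‖z‖) / (1 - ‖z‖) := by
  have h1 : 1 - ‖z‖ ≤ ‖circleMap 0 1 θ - z‖ := by
    have := norm_sub_norm_le (circleMap 0 1 θ) z
    rwa [norm_cm1] at this
  have h0 : 0 < 1 - ‖z‖ := by linarith
  have h00 : 0 < ‖circleMap 0 1 θ - z‖ := h0.trans_le h1
  rw [PK, div_le_div_iff₀ (by positivity) h0]
  have : (1 - ‖z‖) ^ 2 ≤ ‖circleMap 0 1 θ - z‖ ^ 2 := by gcongr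
  have h2 : 0 ≤ 1 + ‖z‖ := by positivity
  calc (1 - ‖z‖ ^ 2) * (1 - ‖z‖) = (1 + ‖z‖) * (1 - ‖z‖) ^ 2 := by ring
    _ ≤ _ := by gcongr

theorem cont_integrable {f : ℝ → ℝ} (hf : Continuous f) : Integrable f mT := by
  rw [mT]
  apply Integrable.smul_measure
  · exact hf.integrableOn_Ioc
  · exact ENNReal.inv_ne_top.2 ofReal_two_pi_ne_zero

theorem PK_cont {z : ℂ} (hz : ‖z‖ < 1) : Continuous (PK z) := by
  unfold PK
  apply Continuous.div (by fun_prop) (by fun_prop)
  intro θ
  have := norm_pos_iff.2 (cm_sub_ne hz θ)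
  positivity

/-- Poisson bound for analytic functions -/
theorem poisson_le {f : ℂ → ℂ} (hf : DiffContOnCl ℂ f (ball 0 1)) {z : ℂ} (hz : ‖z‖ < 1) :
    ‖f z‖ ≤ ∫ θ, PK z θ * ‖f (circleMap 0 1 θ)‖ ∂mT := by
  have h1 := hf.circleAverage_poissonKernel_smul (mem_ball_zero_iff.2 hz)
  rw [← integral_mT_circle] at h1
  rw [← h1]
  refine (norm_integral_le_integral_norm _).trans (le_of_eq ?_)
  congr 1
  funext θ
  rw [Pi.smul_apply', norm_smul, ← PK_eq, Real.norm_of_nonneg (PK_pos hz θ).le]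

/-- mean value property of the Poisson kernel along an analytic self-map -/
theorem PK_mean {ψ : ℂ → ℂ} (hψ : DifferentiableOn ℂ ψ (ball 0 1))
    (hm : MapsTo ψ (ball (0 : ℂ) 1) (ball 0 1)) {r : ℝ} (h0 : 0 ≤ r) (h1 : r < 1) (t : ℝ) :
    ∫ θ, PK (ψ (circleMap 0 r θ)) t ∂mT = PK (ψ 0) t := by
  set F : ℂ → ℂ := fun z => (circleMap 0 1 t + ψ z) / (circleMap 0 1 t - ψ z) with hF
  have hFd : DifferentiableOn ℂ F (ball 0 1) := by
    simp only [hF]
    refine DifferentiableOn.div (by fun_prop) (by fun_prop) ?_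
    intro z hz
    exact cm_sub_ne (mem_ball_zero_iff.1 (hm hz)) t
  have hsub : closedBall (0 : ℂ) |r| ⊆ ball 0 1 := by
    rw [abs_of_nonneg h0]
    exact closedBall_subset_ball h1
  have hcl : DiffContOnCl ℂ F (ball 0 |r|) := by
    apply DifferentiableOn.diffContOnCl
    exact hFd.mono (closure_ball_subset_closedBall.trans hsub)
  have h2 := hcl.circleAverage
  rw [← integral_mT_circle] at h2
  have hcb : ∀ θ, circleMap 0 r θ ∈ ball (0 : ℂ) 1 := by
    intro θ
    rw [mem_ball_zero_iff, norm_circleMap_zero, abs_of_nonneg h0]; exact h1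
  have hcont : Continuous fun θ => F (circleMap 0 r θ) :=
    hFd.continuousOn.comp_continuous (continuous_circleMap 0 _) hcb
  have hint : Integrable (fun θ => F (circleMap 0 r θ)) mT := by
    rw [mT]
    apply Integrable.smul_measure
    · exact hcont.integrableOn_Ioc
    · exact ENNReal.inv_ne_top.2 ofReal_two_pi_ne_zero
  have h3 : ∫ θ, (F (circleMap 0 r θ)).re ∂mT = (∫ θ, F (circleMap 0 r θ) ∂mT).re :=
    integral_re (𝕜 := ℂ) hint
  rw [h2] at h3
  simp only [hF, ← PK_re] at h3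
  exact h3

theorem lint_eq {f : ℝ → ℝ} (hf : Continuous f) (h0 : ∀ θ, 0 ≤ f θ) :
    ∫⁻ θ, ENNReal.ofReal (f θ) ∂mT = ENNReal.ofReal (∫ θ, f θ ∂mT) :=
  (ofReal_integral_eq_lintegral_ofReal (cont_integrable hf) (Eventually.of_forall h0)).symm

/-- Littlewood's inequality for functions continuous on the closed disc -/
theorem littlewood_cont {ψ : ℂ → ℂ} (hψ : DifferentiableOn ℂ ψ (ball 0 1))
    (hm : MapsTo ψ (ball (0 : ℂ) 1) (ball 0 1)) {f : ℂ → ℂ} (hf : DiffContOnCl ℂ f (ball 0 1))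
    {r : ℝ} (h0 : 0 ≤ r) (h1 : r < 1) :
    ∫ θ, ‖f (ψ (circleMap 0 r θ))‖ ^ 2 ∂mT ≤
      (1 + ‖ψ 0‖) / (1 - ‖ψ 0‖) * ∫ t, ‖f (circleMap 0 1 t)‖ ^ 2 ∂mT := by
  have hcl : closure (ball (0 : ℂ) 1) = closedBall 0 1 := closure_ball 0 one_ne_zero
  have hcb : ∀ θ, circleMap 0 r θ ∈ ball (0 : ℂ) 1 := by
    intro θ
    rw [mem_ball_zero_iff, norm_circleMap_zero, abs_of_nonneg h0]; exact h1
  have hψc : Continuous fun θ => ψ (circleMap 0 r θ) :=
    hψ.continuousOn.comp_continuous (continuous_circleMap 0 _) hcb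
  have hψb : ∀ θ, ‖ψ (circleMap 0 r θ)‖ < 1 := fun θ => mem_ball_zero_iff.1 (hm (hcb θ))
  have hfc : Continuous fun θ => f (ψ (circleMap 0 r θ)) :=
    hf.1.continuousOn.comp_continuous hψc (fun θ => hm (hcb θ))
  have hfc1 : Continuous fun θ => f (circleMap 0 1 θ) := by
    apply hf.2.comp_continuous (continuous_circleMap 0 _)
    intro θ
    rw [hcl]; simp
  have hP0 : ‖ψ 0‖ < 1 := mem_ball_zero_iff.1 (hm (by simp))
  have hc0 : 0 ≤ (1 + ‖ψ 0‖) / (1 - ‖ψ 0‖) := by
    apply div_nonneg (by positivity); linarith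
  have key : ∫⁻ θ, ENNReal.ofReal (‖f (ψ (circleMap 0 r θ))‖ ^ 2) ∂mT ≤
      ∫⁻ t, ENNReal.ofReal ((1 + ‖ψ 0‖) / (1 - ‖ψ 0‖) * ‖f (circleMap 0 1 t)‖ ^ 2) ∂mT := by
    calc ∫⁻ θ, ENNReal.ofReal (‖f (ψ (circleMap 0 r θ))‖ ^ 2) ∂mT
        ≤ ∫⁻ θ, ∫⁻ t, ENNReal.ofReal (PK (ψ (circleMap 0 r θ)) t * ‖f (circleMap 0 1 t)‖ ^ 2)
            ∂mT ∂mT := by
          apply lintegral_mono
          intro θ
          dsimp only
          have hz := hψb θ
          have h2 := poisson_le (f := fun z => f z ^ 2) (by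
            constructor
            · exact hf.1.pow 2
            · exact hf.2.pow 2) hz
          simp only [norm_pow] at h2
          rw [lint_eq (f := fun t => PK (ψ (circleMap 0 r θ)) t * ‖f (circleMap 0 1 t)‖ ^ 2)
            ((PK_cont hz).mul (hfc1.norm.pow 2))
            (fun t => mul_nonneg (PK_pos hz t).le (by positivity))]
          exact ENNReal.ofReal_le_ofReal h2
      _ = ∫⁻ t, ∫⁻ θ, ENNReal.ofReal (PK (ψ (circleMap 0 r θ)) t * ‖f (circleMap 0 1 t)‖ ^ 2)
            ∂mT ∂mT := by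
          apply lintegral_lintegral_swap
          apply Measurable.aemeasurable
          apply ENNReal.measurable_ofReal.comp
          apply Continuous.measurable
          have e : (Function.uncurry fun θ t => PK (ψ (circleMap 0 r θ)) t *
              ‖f (circleMap 0 1 t)‖ ^ 2) = fun p : ℝ × ℝ => PK (ψ (circleMap 0 r p.1)) p.2 *
              ‖f (circleMap 0 1 p.2)‖ ^ 2 := rfl
          show Continuous fun p : ℝ × ℝ => PK (ψ (circleMap 0 r p.1)) p.2 *
              ‖f (circleMap 0 1 p.2)‖ ^ 2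
          apply Continuous.mul
          · unfold PK
            have h3 : Continuous fun p : ℝ × ℝ => ψ (circleMap 0 r p.1) :=
                hψc.comp continuous_fst
            apply Continuous.div
            · exact continuous_const.sub (h3.norm.pow 2)
            · exact (((continuous_circleMap 0 1).comp continuous_snd).sub h3).norm.pow 2
            · intro p
              have := norm_pos_iff.2 (cm_sub_ne (hψb p.1) p.2)
              positivity
          · exact (hfc1.comp continuous_snd).norm.pow 2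
      _ ≤ _ := by
          apply lintegral_mono
          intro t
          dsimp only
          have hPc : Continuous fun θ => PK (ψ (circleMap 0 r θ)) t := by
            unfold PK
            apply Continuous.div (continuous_const.sub (hψc.norm.pow 2))
              ((continuous_const.sub hψc).norm.pow 2)
            intro θ
            exact (pow_pos (norm_pos_iff.2 (cm_sub_ne (hψb θ) t)) 2).ne'
          rw [lint_eq (f := fun θ => PK (ψ (circleMap 0 r θ)) t * ‖f (circleMap 0 1 t)‖ ^ 2)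
            (hPc.mul continuous_const)
            (fun θ => mul_nonneg (PK_pos (hψb θ) t).le (by positivity))]
          apply ENNReal.ofReal_le_ofReal
          rw [integral_mul_const, PK_mean hψ hm h0 h1 t]
          gcongr
          exact PK_le hP0 t
  rw [lint_eq (f := fun θ => ‖f (ψ (circleMap 0 r θ))‖ ^ 2) (hfc.norm.pow 2)
      (fun θ => by positivity),
    lint_eq (f := fun t => (1 + ‖ψ 0‖) / (1 - ‖ψ 0‖) * ‖f (circleMap 0 1 t)‖ ^ 2)
      (continuous_const.mul (hfc1.norm.pow 2)) (fun t => by positivity),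
    integral_const_mul] at key
  rwa [ENNReal.ofReal_le_ofReal_iff] at key
  apply mul_nonneg hc0
  exact integral_nonneg fun t => by positivity

theorem dil_diff (f : H2) {s : ℝ} (h0 : 0 ≤ s) (h1 : s < 1) :
    DiffContOnCl ℂ (fun z => ev f (s * z)) (ball 0 1) := by
  have hd : DifferentiableOn ℂ (fun z => ev f (s * z)) (closedBall 0 1) := by
    have h2 : DifferentiableOn ℂ (fun z : ℂ => (s : ℂ) * z) (closedBall 0 1) := by fun_prop
    refine (ev_diff f).comp h2 ?_
    intro z hz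
    rw [mem_closedBall_zero_iff] at hz
    rw [mem_ball_zero_iff, norm_mul, Complex.norm_real, Real.norm_of_nonneg h0]
    calc s * ‖z‖ ≤ s * 1 := by gcongr
      _ < 1 := by linarith
  apply DifferentiableOn.diffContOnCl
  rw [closure_ball (0 : ℂ) one_ne_zero]
  exact hd

theorem littlewood {ψ : ℂ → ℂ} (hψ : DifferentiableOn ℂ ψ (ball 0 1))
    (hm : MapsTo ψ (ball (0 : ℂ) 1) (ball 0 1)) (f : H2) {r : ℝ} (h0 : 0 ≤ r) (h1 : r < 1) :
    ∫ θ, ‖ev f (ψ (circleMap 0 r θ))‖ ^ 2 ∂mT ≤ (1 + ‖ψ 0‖) / (1 - ‖ψ 0‖) * ‖f‖ ^ 2 := by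
  have hcb : ∀ θ, circleMap 0 r θ ∈ ball (0 : ℂ) 1 := by
    intro θ
    rw [mem_ball_zero_iff, norm_circleMap_zero, abs_of_nonneg h0]; exact h1
  have hψc : Continuous fun θ => ψ (circleMap 0 r θ) :=
    hψ.continuousOn.comp_continuous (continuous_circleMap 0 _) hcb
  have hP0 : ‖ψ 0‖ < 1 := mem_ball_zero_iff.1 (hm (by simp))
  have hc0 : 0 ≤ (1 + ‖ψ 0‖) / (1 - ‖ψ 0‖) := by
    apply div_nonneg (by positivity); linarith
  -- uniform bound of ‖ψ‖ on the circle
  obtain ⟨ρ, hρ1, hρ⟩ : ∃ ρ < 1, ∀ θ, ‖ψ (circleMap 0 r θ)‖ ≤ ρ := by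
    have hK : IsCompact (closedBall (0 : ℂ) r) := isCompact_closedBall 0 r
    have hne : (closedBall (0 : ℂ) r).Nonempty := ⟨0, by simp [h0]⟩
    have hsub : closedBall (0 : ℂ) r ⊆ ball 0 1 := closedBall_subset_ball h1
    obtain ⟨x, hx, hmax⟩ := hK.exists_isMaxOn hne (hψ.continuousOn.mono hsub).norm
    refine ⟨‖ψ x‖, mem_ball_zero_iff.1 (hm (hsub hx)), fun θ => hmax ?_⟩
    rw [mem_closedBall_zero_iff, norm_circleMap_zero, abs_of_nonneg h0]
  have hρ0 : 0 ≤ ρ := (norm_nonneg _).trans (hρ 0)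
  have hs : ∀ n : ℕ, ∫ θ, ‖ev f (rad n * ψ (circleMap 0 r θ))‖ ^ 2 ∂mT ≤
      (1 + ‖ψ 0‖) / (1 - ‖ψ 0‖) * ‖f‖ ^ 2 := by
    intro n
    have h2 := littlewood_cont hψ hm (dil_diff f (rad_nonneg n) (rad_lt n)) h0 h1
    refine h2.trans ?_
    gcongr
    have e : ∀ t, ev f (rad n * circleMap 0 1 t) = ev f (circleMap 0 (rad n) t) := by
      intro t; congr 1; simp [circleMap_zero]
    simp only [e]
    exact ev_circle_le f (rad_nonneg n) (rad_lt n)
  have hlim : Tendsto (fun n : ℕ => ∫ θ, ‖ev f (rad n * ψ (circleMap 0 r θ))‖ ^ 2 ∂mT) atTop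
      (𝓝 (∫ θ, ‖ev f (ψ (circleMap 0 r θ))‖ ^ 2 ∂mT)) := by
    have hin : ∀ (n : ℕ) θ, ‖(rad n : ℂ) * ψ (circleMap 0 r θ)‖ ≤ ρ := by
      intro n θ
      rw [norm_mul, Complex.norm_real, Real.norm_of_nonneg (rad_nonneg n)]
      calc rad n * ‖ψ (circleMap 0 r θ)‖ ≤ 1 * ρ := by
            gcongr
            · exact (rad_lt n).le
            · exact hρ θ
        _ = ρ := one_mul _
    apply tendsto_integral_of_dominated_convergence (fun _ => (‖f‖ * (1 - ρ)⁻¹) ^ 2)
    · intro n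
      apply Continuous.aestronglyMeasurable
      have : Continuous fun θ => ev f (rad n * ψ (circleMap 0 r θ)) := by
        apply (ev_diff f).continuousOn.comp_continuous (continuous_const.mul hψc)
        intro θ
        exact mem_ball_zero_iff.2 ((hin n θ).trans_lt hρ1)
      exact this.norm.pow 2
    · exact integrable_const _
    · intro n
      filter_upwards with θ
      rw [Real.norm_of_nonneg (by positivity)]
      have := ev_norm_le f (hin n θ) hρ1
      gcongr
    · filter_upwards with θ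
      have hmem : ψ (circleMap 0 r θ) ∈ ball (0 : ℂ) 1 := hm (hcb θ)
      have hca : ContinuousAt (ev f) (ψ (circleMap 0 r θ)) :=
        ((ev_diff f).differentiableAt (isOpen_ball.mem_nhds hmem)).continuousAt
      have ht : Tendsto (fun n : ℕ => (rad n : ℂ) * ψ (circleMap 0 r θ)) atTop
          (𝓝 (ψ (circleMap 0 r θ))) := by
        have h3 : Tendsto (fun n : ℕ => ((rad n : ℝ) : ℂ)) atTop (𝓝 ((1 : ℝ) : ℂ)) :=
          (Complex.continuous_ofReal.tendsto 1).comp rad_tendsto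
        have := h3.mul_const (ψ (circleMap 0 r θ))
        simpa using this
      exact ((hca.tendsto.comp ht).norm).pow 2
  exact le_of_tendsto hlim (Eventually.of_forall hs)

/-- Littlewood: `C_φ` is a bounded operator on `H²`. -/
theorem exists_comp {φ : ℂ → ℂ} (hφ : DifferentiableOn ℂ φ (ball 0 1))
    (hm : MapsTo φ (ball (0 : ℂ) 1) (ball 0 1)) :
    ∃ C : H2 →L[ℂ] H2, ∀ f : H2, ∀ z ∈ ball (0 : ℂ) 1, ev (C f) z = ev f (φ z) := by
  have hP0 : ‖φ 0‖ < 1 := mem_ball_zero_iff.1 (hm (by simp))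
  set c : ℝ := (1 + ‖φ 0‖) / (1 - ‖φ 0‖) with hc
  have hc0 : 0 ≤ c := by
    rw [hc]; apply div_nonneg (by positivity); linarith
  have hex : ∀ f : H2, ∃ F : H2, (∀ z ∈ ball (0 : ℂ) 1, ev F z = ev f (φ z)) ∧
      ‖F‖ ^ 2 ≤ c * ‖f‖ ^ 2 := by
    intro f
    apply exists_ev (h := fun z => ev f (φ z)) ((ev_diff f).comp hφ hm) (by positivity)
    intro r h0 h1
    exact littlewood hφ hm f h0 h1
  choose F hF1 hF2 using hex
  refine ⟨LinearMap.mkContinuous
    { toFun := F
      map_add' := fun f g => ?_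
      map_smul' := fun a f => ?_ } (Real.sqrt c) (fun f => ?_), fun f z hz => hF1 f z hz⟩
  · apply ev_injective
    intro z hz
    have hz' := mem_ball_zero_iff.1 hz
    rw [ev_add _ _ hz', hF1 _ z hz, hF1 _ z hz, hF1 _ z hz,
      ev_add _ _ (mem_ball_zero_iff.1 (hm hz))]
  · apply ev_injective
    intro z hz
    rw [RingHom.id_apply, ev_smul, hF1 _ z hz, hF1 _ z hz, ev_smul]
  · show ‖F f‖ ≤ Real.sqrt c * ‖f‖
    rw [← Real.sqrt_sq (norm_nonneg (F f)), ← Real.sqrt_sq (norm_nonneg f), ← Real.sqrt_mul hc0]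
    exact Real.sqrt_le_sqrt (hF2 f)

end Pool.Agent.Helper203.Hardy
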