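import Mathlib
import Pool.Agent.Helper203.Comp

set_option autoImplicit false

open Complex Metric Set Filter MeasureTheory
open scoped Real Topology ComplexConjugate NNReal ENNReal

namespace Pool.Agent.Helper203.Hardy

section abstract

variable {X : Type*} [MeasurableSpace X] {ν : Measure X}

theorem cs_ennreal {f g : X → ℝ≥0∞} (hf : AEMeasurable f ν) (hg : AEMeasurable g ν) :
    (∫⁻ x, f x * g x ∂ν) ^ 2 ≤ (∫⁻ x, f x ^ 2 ∂ν) * ∫⁻ x, g x ^ 2 ∂ν := by
  have h := ENNReal.lintegral_mul_le_Lp_mul_Lq ν Real.HolderConjugate.two_two hf hg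
  have h2 : (∫⁻ x, f x * g x ∂ν) ^ 2 ≤
      ((∫⁻ x, f x ^ (2 : ℝ) ∂ν) ^ (1 / (2 : ℝ)) * (∫⁻ x, g x ^ (2 : ℝ) ∂ν) ^ (1 / (2 : ℝ))) ^ 2 := by
    gcongr
    exact h
  refine h2.trans (le_of_eq ?_)
  rw [mul_pow, ← ENNReal.rpow_natCast, ← ENNReal.rpow_natCast, ← ENNReal.rpow_mul,
    ← ENNReal.rpow_mul]
  norm_num

theorem sq_le_sq_ennreal {a b : ℝ≥0∞} (h : a ^ 2 ≤ b ^ 2) : a ≤ b :=
  (ENNReal.pow_right_strictMono two_ne_zero).le_iff_le.1 h

theorem vs_core [SFinite ν] {k : X → X → ℝ≥0∞} (hk : Measurable (Function.uncurry k)) {A : ℝ≥0∞}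
    (hV : ∀ t x, ∫⁻ s, k s t * k s x ∂ν ≤ A * (k t x + k x t)) {g : X → ℝ≥0∞} (hg : Measurable g)
    (hfin : ∫⁻ s, (∫⁻ t, k s t * g t ∂ν) ^ 2 ∂ν ≠ ⊤) :
    ∫⁻ s, (∫⁻ t, k s t * g t ∂ν) * g s ∂ν ≤ 2 * A * ∫⁻ s, g s ^ 2 ∂ν := by
  set J : X → ℝ≥0∞ := fun s => ∫⁻ t, k s t * g t ∂ν with hJ
  have hkm : Measurable fun p : X × X => k p.1 p.2 := hk
  have hJm : Measurable J := by
    apply Measurable.lintegral_prod_right'
      (f := fun p : X × X => k p.1 p.2 * g p.2)
    exact hkm.mul (hg.comp measurable_snd)
  set N := ∫⁻ s, J s ^ 2 ∂ν with hN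
  set D := ∫⁻ s, J s * g s ∂ν with hD
  set G := ∫⁻ s, g s ^ 2 ∂ν with hG
  have h1 : N = ∫⁻ t, ∫⁻ x, ∫⁻ s, (k s t * g t) * (k s x * g x) ∂ν ∂ν ∂ν := by
    have e1 : ∀ s, J s ^ 2 = ∫⁻ t, ∫⁻ x, (k s t * g t) * (k s x * g x) ∂ν ∂ν := by
      intro s
      have hks : Measurable fun t => k s t * g t :=
        (hkm.comp (measurable_const.prodMk measurable_id)).mul hg
      have e2 : ∀ t, ∫⁻ x, (k s t * g t) * (k s x * g x) ∂ν = (k s t * g t) * J s := by
        intro t
        rw [lintegral_const_mul _ hks]
      simp only [e2]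
      rw [lintegral_mul_const _ hks, sq]
    rw [hN]
    simp only [e1]
    have hm3 : Measurable fun p : X × X × X => (k p.1 p.2.1 * g p.2.1) * (k p.1 p.2.2 * g p.2.2) := by
      have a1 : Measurable fun p : X × X × X => k p.1 p.2.1 :=
        hkm.comp (measurable_fst.prodMk (measurable_fst.comp measurable_snd))
      have a2 : Measurable fun p : X × X × X => k p.1 p.2.2 :=
        hkm.comp (measurable_fst.prodMk (measurable_snd.comp measurable_snd))
      exact (a1.mul (hg.comp (measurable_fst.comp measurable_snd))).mul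
        (a2.mul (hg.comp (measurable_snd.comp measurable_snd)))
    rw [lintegral_lintegral_swap (f := fun s t => ∫⁻ x, (k s t * g t) * (k s x * g x) ∂ν)]
    · congr 1
      funext t
      rw [lintegral_lintegral_swap (f := fun s x => (k s t * g t) * (k s x * g x))]
      apply Measurable.aemeasurable
      exact hm3.comp (measurable_fst.prodMk (measurable_const.prodMk measurable_snd))
    · apply Measurable.aemeasurable
      show Measurable fun p : X × X => ∫⁻ x, (k p.1 p.2 * g p.2) * (k p.1 x * g x) ∂ν
      apply Measurable.lintegral_prod_right'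
        (f := fun q : (X × X) × X => (k q.1.1 q.1.2 * g q.1.2) * (k q.1.1 q.2 * g q.2))
      exact hm3.comp ((measurable_fst.comp measurable_fst).prodMk
        ((measurable_snd.comp measurable_fst).prodMk measurable_snd))
  have h2 : N ≤ 2 * A * D := by
    rw [h1]
    calc ∫⁻ t, ∫⁻ x, ∫⁻ s, (k s t * g t) * (k s x * g x) ∂ν ∂ν ∂ν
        ≤ ∫⁻ t, ∫⁻ x, (A * (g t * (k t x * g x)) + A * (g t * (k x t * g x))) ∂ν ∂ν := by
          apply lintegral_mono; intro t
          apply lintegral_mono; intro x
          dsimp only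
          have e : ∀ s, (k s t * g t) * (k s x * g x) = (g t * g x) * (k s t * k s x) := by
            intro s; ring
          simp only [e]
          have hm1 : Measurable fun s => k s t * k s x :=
            (hkm.comp (measurable_id.prodMk measurable_const)).mul
              (hkm.comp (measurable_id.prodMk measurable_const))
          rw [lintegral_const_mul _ hm1]
          calc (g t * g x) * ∫⁻ s, k s t * k s x ∂ν ≤ (g t * g x) * (A * (k t x + k x t)) := by
                gcongr; exact hV t x
            _ = _ := by ring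
      _ = A * D + A * D := by
          have m1 : Measurable fun p : X × X => A * (g p.1 * (k p.1 p.2 * g p.2)) :=
            measurable_const.mul ((hg.comp measurable_fst).mul (hkm.mul (hg.comp measurable_snd)))
          have m2 : Measurable fun p : X × X => A * (g p.1 * (k p.2 p.1 * g p.2)) :=
            measurable_const.mul ((hg.comp measurable_fst).mul
              ((hkm.comp measurable_swap).mul (hg.comp measurable_snd)))
          have e1 : ∀ t, ∫⁻ x, (A * (g t * (k t x * g x)) + A * (g t * (k x t * g x))) ∂ν =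
              (∫⁻ x, A * (g t * (k t x * g x)) ∂ν) + ∫⁻ x, A * (g t * (k x t * g x)) ∂ν := by
            intro t
            exact lintegral_add_left (m1.comp (measurable_const.prodMk measurable_id)) _
          simp only [e1]
          rw [lintegral_add_left m1.lintegral_prod_right']
          congr 1
          · rw [hD, ← lintegral_const_mul (f := fun s => J s * g s) _ (hJm.mul hg)]
            congr 1
            funext t
            have hks : Measurable fun x => k t x * g x :=
              (hkm.comp (measurable_const.prodMk measurable_id)).mul hg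
            have e2 : ∀ x, A * (g t * (k t x * g x)) = (A * g t) * (k t x * g x) := by
              intro x; ring
            show ∫⁻ x, A * (g t * (k t x * g x)) ∂ν = A * (J t * g t)
            simp only [e2]
            rw [lintegral_const_mul _ hks]
            ring
          · rw [lintegral_lintegral_swap (f := fun t x => A * (g t * (k x t * g x))) m2.aemeasurable]
            rw [hD, ← lintegral_const_mul (f := fun s => J s * g s) _ (hJm.mul hg)]
            congr 1
            funext x
            have hks : Measurable fun t => k x t * g t :=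
              (hkm.comp (measurable_const.prodMk measurable_id)).mul hg
            have e2 : ∀ t, A * (g t * (k x t * g x)) = (A * g x) * (k x t * g t) := by
              intro t; ring
            simp only [e2]
            rw [lintegral_const_mul _ hks]
            ring
      _ = 2 * A * D := by ring
  have h3 : D ^ 2 ≤ N * G := cs_ennreal hJm.aemeasurable hg.aemeasurable
  -- conclusion
  by_cases hN0 : N = 0
  · rw [hN0, zero_mul] at h3
    have : D = 0 := by simpa using h3
    rw [this]
    exact bot_le
  · have h4 : N ≤ (2 * A) ^ 2 * G := by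
      have h5 : N * N ≤ N * ((2 * A) ^ 2 * G) := by
        calc N * N = N ^ 2 := by ring
          _ ≤ (2 * A * D) ^ 2 := by gcongr
          _ = (2 * A) ^ 2 * D ^ 2 := by ring
          _ ≤ (2 * A) ^ 2 * (N * G) := by gcongr
          _ = N * ((2 * A) ^ 2 * G) := by ring
      exact (ENNReal.mul_le_mul_iff_right hN0 hfin).1 h5
    apply sq_le_sq_ennreal
    calc D ^ 2 ≤ N * G := h3
      _ ≤ ((2 * A) ^ 2 * G) * G := by gcongr
      _ = (2 * A * G) ^ 2 := by ring

end abstract

end Pool.Agent.Helper203.Hardy
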