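import Mathlib
import Pool.Agent.Helper203.Carl

set_option autoImplicit false

open Complex Metric Set Filter MeasureTheory
open scoped Real Topology ComplexConjugate NNReal ENNReal

namespace Pool.Agent.Helper203.Hardy

theorem norm_one_sub_comm (a b : ℂ) : ‖1 - conj a * b‖ = ‖1 - conj b * a‖ := by
  have : 1 - conj a * b = conj (1 - conj b * a) := by
    simp only [map_sub, map_one, map_mul, Complex.conj_conj]
    ring
  rw [this, RCLike.norm_conj]

theorem one_sub_pos {a b : ℂ} (ha : ‖a‖ < 1) (hb : ‖b‖ ≤ 1) : 0 < ‖1 - conj a * b‖ := by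
  rw [norm_pos_iff]
  intro h
  have h1 : conj a * b = 1 := (sub_eq_zero.1 h).symm
  have h2 : ‖conj a * b‖ = 1 := by rw [h1, norm_one]
  rw [norm_mul, RCLike.norm_conj] at h2
  nlinarith [norm_nonneg a, norm_nonneg b]

theorem mob_sq (a b : ℂ) :
    ‖1 - conj a * b‖ ^ 2 - ‖b - a‖ ^ 2 = (1 - ‖a‖ ^ 2) * (1 - ‖b‖ ^ 2) := by
  rw [Complex.sq_norm, Complex.sq_norm, Complex.sq_norm, Complex.sq_norm, Complex.normSq_apply,
    Complex.normSq_apply, Complex.normSq_apply, Complex.normSq_apply]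
  simp
  ring

theorem dist_le_one_sub {a b : ℂ} (ha : ‖a‖ ≤ 1) (hb : ‖b‖ ≤ 1) : ‖b - a‖ ≤ ‖1 - conj a * b‖ := by
  have h := mob_sq a b
  have h1 : 0 ≤ (1 - ‖a‖ ^ 2) * (1 - ‖b‖ ^ 2) := by
    apply mul_nonneg <;> nlinarith [norm_nonneg a, norm_nonneg b]
  exact (sq_le_sq₀ (norm_nonneg _) (norm_nonneg _)).1 (by linarith)

theorem quasi {a b s : ℂ} (ha : ‖a‖ ≤ 1) (hb : ‖b‖ ≤ 1) (hs : ‖s‖ ≤ 1) :
    ‖1 - conj a * b‖ ≤ ‖1 - conj a * s‖ + ‖1 - conj b * s‖ := by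
  have e : 1 - conj a * b = (1 - conj a * s) + conj a * (s - b) := by ring
  rw [e]
  refine (norm_add_le _ _).trans ?_
  gcongr
  rw [norm_mul, RCLike.norm_conj]
  calc ‖a‖ * ‖s - b‖ ≤ 1 * ‖1 - conj b * s‖ := by
        gcongr
        exact dist_le_one_sub hb hs
    _ = _ := one_mul _

theorem kr_mul_le {a b s : ℂ} (ha : ‖a‖ < 1) (hb : ‖b‖ < 1) (hs : ‖s‖ ≤ 1) :
    kr a s * kr b s ≤ (2 * (1 - ‖b‖ ^ 2) / ‖1 - conj a * b‖ ^ 2) * kr a s +
      (2 * (1 - ‖a‖ ^ 2) / ‖1 - conj a * b‖ ^ 2) * kr b s := by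
  have hp := one_sub_pos ha hs
  have hq := one_sub_pos hb hs
  have hd := one_sub_pos ha hb.le
  have hpq := quasi ha.le hb.le hs
  have h1 : 0 < 1 - ‖a‖ ^ 2 := by nlinarith [norm_nonneg a]
  have h2 : 0 < 1 - ‖b‖ ^ 2 := by nlinarith [norm_nonneg b]
  unfold kr
  set α := 1 - ‖a‖ ^ 2
  set β := 1 - ‖b‖ ^ 2
  set p := ‖1 - conj a * s‖
  set q := ‖1 - conj b * s‖
  set d := ‖1 - conj a * b‖
  have e : (2 * β / d ^ 2) * (α / p ^ 2) + (2 * α / d ^ 2) * (β / q ^ 2) - (α / p ^ 2) * (β / q ^ 2)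
      = α * β * (2 * (p ^ 2 + q ^ 2) - d ^ 2) / (d ^ 2 * p ^ 2 * q ^ 2) := by
    field_simp
    ring
  have h3 : 0 ≤ 2 * (p ^ 2 + q ^ 2) - d ^ 2 := by
    nlinarith [sq_nonneg (p - q), hp, hq, hd]
  have h4 : 0 ≤ α * β * (2 * (p ^ 2 + q ^ 2) - d ^ 2) / (d ^ 2 * p ^ 2 * q ^ 2) := by positivity
  linarith

theorem kr_nonneg {a : ℂ} (ha : ‖a‖ ≤ 1) (z : ℂ) : 0 ≤ kr a z := by
  unfold kr
  apply div_nonneg _ (by positivity)
  nlinarith [norm_nonneg a]

theorem kr_le {a z : ℂ} (ha : ‖a‖ < 1) (hz : ‖z‖ ≤ 1) : kr a z ≤ 1 / (1 - ‖a‖) ^ 2 := by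
  have h1 : 1 - ‖a‖ ≤ ‖1 - conj a * z‖ := by
    have h2 : ‖conj a * z‖ ≤ ‖a‖ := by
      rw [norm_mul, RCLike.norm_conj]
      exact mul_le_of_le_one_right (norm_nonneg _) hz
    have h3 := norm_sub_norm_le (1 : ℂ) (conj a * z)
    rw [norm_one] at h3
    linarith
  have h0 : 0 < 1 - ‖a‖ := by linarith
  unfold kr
  gcongr
  nlinarith [norm_nonneg a]

theorem kr_cont (a : ℂ) : Measurable (kr a) := by
  unfold kr
  fun_prop

theorem re_cayley (u : ℂ) (hu : 1 - u ≠ 0) :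
    ((1 + u) / (1 - u)).re = (1 - ‖u‖ ^ 2) / ‖1 - u‖ ^ 2 := by
  rw [Complex.div_re, ← Complex.normSq_eq_norm_sq, ← Complex.normSq_eq_norm_sq]
  have h : Complex.normSq (1 - u) ≠ 0 := by
    rw [Ne, Complex.normSq_eq_zero]; exact hu
  rw [← add_div]
  congr 1
  rw [Complex.normSq_apply]
  simp
  ring

theorem PK_re' {w : ℂ} (hw : ‖w‖ < 1) (θ : ℝ) :
    PK w θ = ((1 + conj w * circleMap 0 1 θ) / (1 - conj w * circleMap 0 1 θ)).re := by
  have h1 := one_sub_pos hw (norm_cm1 θ).le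
  rw [re_cayley _ (norm_pos_iff.1 h1), PK, norm_mul, RCLike.norm_conj, norm_cm1, mul_one]
  congr 2
  have h3 : circleMap 0 1 θ * conj (circleMap 0 1 θ) = 1 := by
    rw [Complex.mul_conj, Complex.normSq_eq_norm_sq, norm_cm1]; norm_num
  have e : circleMap 0 1 θ - w = circleMap 0 1 θ * conj (1 - conj w * circleMap 0 1 θ) := by
    simp only [map_sub, map_one, map_mul, Complex.conj_conj]
    linear_combination (w) * h3
  rw [e, norm_mul, norm_cm1, one_mul, RCLike.norm_conj]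

theorem PK_PK {z w : ℂ} (hz : ‖z‖ < 1) (hw : ‖w‖ < 1) :
    ∫ θ, PK z θ * PK w θ ∂mT = (1 - ‖w‖ ^ 2 * ‖z‖ ^ 2) / ‖1 - conj w * z‖ ^ 2 := by
  set F : ℂ → ℂ := fun ζ => (1 + conj w * ζ) / (1 - conj w * ζ) with hF
  have hne : ∀ ζ ∈ closedBall (0 : ℂ) 1, 1 - conj w * ζ ≠ 0 := fun ζ hζ =>
    norm_pos_iff.1 (one_sub_pos hw (mem_closedBall_zero_iff.1 hζ))
  have hd : DiffContOnCl ℂ F (ball 0 1) := by
    apply DifferentiableOn.diffContOnCl
    rw [closure_ball (0 : ℂ) one_ne_zero]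
    simp only [hF]
    exact DifferentiableOn.div (by fun_prop) (by fun_prop) hne
  have h1 := hd.circleAverage_poissonKernel_smul (mem_ball_zero_iff.2 hz)
  rw [← integral_mT_circle] at h1
  have hcont : Continuous fun θ => (poissonKernel 0 z • F) (circleMap 0 1 θ) := by
    have e : (fun θ => (poissonKernel 0 z • F) (circleMap 0 1 θ)) =
        fun θ => ((PK z θ : ℝ) : ℂ) * F (circleMap 0 1 θ) := by
      funext θ
      rw [Pi.smul_apply', ← PK_eq, Complex.real_smul]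
    rw [e]
    have hFc : Continuous fun θ => F (circleMap 0 1 θ) := by
      simp only [hF]
      apply Continuous.div (by fun_prop) (by fun_prop)
      intro θ
      exact hne _ (by simp)
    exact (Complex.continuous_ofReal.comp (PK_cont hz)).mul hFc
  have hint : Integrable (fun θ => (poissonKernel 0 z • F) (circleMap 0 1 θ)) mT := by
    rw [mT]
    apply Integrable.smul_measure
    · exact hcont.integrableOn_Ioc
    · exact ENNReal.inv_ne_top.2 ofReal_two_pi_ne_zero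
  have h2 : ∫ θ, ((poissonKernel 0 z • F) (circleMap 0 1 θ)).re ∂mT =
      (∫ θ, (poissonKernel 0 z • F) (circleMap 0 1 θ) ∂mT).re := integral_re (𝕜 := ℂ) hint
  rw [h1] at h2
  have h3 : (F z).re = (1 - ‖w‖ ^ 2 * ‖z‖ ^ 2) / ‖1 - conj w * z‖ ^ 2 := by
    simp only [hF]
    rw [re_cayley _ (hne z (mem_closedBall_zero_iff.2 hz.le)), norm_mul, RCLike.norm_conj, mul_pow]
  rw [← h3, ← h2]
  congr 1
  funext θ
  rw [Pi.smul_apply', ← PK_eq, Complex.real_smul, Complex.re_ofReal_mul, PK_re' hw]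

section carleson

variable {X : Type*} [MeasurableSpace X] {ν : Measure X} {ψ : X → ℂ}

open Classical in
/-- truncated kernel -/
noncomputable def kk (ψ : X → ℂ) (s t : X) : ℝ≥0∞ :=
  if ‖ψ t‖ ≤ ‖ψ s‖ then ENNReal.ofReal (kr (ψ t) (ψ s)) else 0

theorem kk_meas (hψ : Measurable ψ) : Measurable (Function.uncurry (kk ψ)) := by
  have h1 : Measurable fun p : X × X => ψ p.1 := hψ.comp measurable_fst
  have h2 : Measurable fun p : X × X => ψ p.2 := hψ.comp measurable_snd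
  show Measurable fun p : X × X => kk ψ p.1 p.2
  unfold kk kr
  apply Measurable.ite
  · exact measurableSet_le h2.norm h1.norm
  · apply ENNReal.measurable_ofReal.comp
    apply Measurable.div
    · exact measurable_const.sub (h2.norm.pow_const 2)
    · have h3 : Measurable fun p : X × X => conj (ψ p.2) :=
        Complex.continuous_conj.measurable.comp h2
      exact ((measurable_const.sub (h3.mul h1)).norm).pow_const 2
  · exact measurable_const

theorem kk_V (hψ : Measurable ψ) (hψ1 : ∀ x, ‖ψ x‖ < 1) {A : ℝ≥0∞}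
    (hA : ∀ a : ℂ, ‖a‖ < 1 → ∫⁻ x, ENNReal.ofReal (kr a (ψ x)) ∂ν ≤ A) (t x : X) :
    ∫⁻ s, kk ψ s t * kk ψ s x ∂ν ≤ 4 * A * (kk ψ t x + kk ψ x t) := by
  have hmeas : ∀ a, Measurable fun s => ENNReal.ofReal (kr a (ψ s)) := fun a =>
    ENNReal.measurable_ofReal.comp ((kr_cont a).comp hψ)
  have hd := one_sub_pos (hψ1 t) (hψ1 x).le
  have hα : 0 < 1 - ‖ψ t‖ ^ 2 := by nlinarith [norm_nonneg (ψ t), hψ1 t]
  have hβ : 0 < 1 - ‖ψ x‖ ^ 2 := by nlinarith [norm_nonneg (ψ x), hψ1 x]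
  -- general bound
  have hgen : ∫⁻ s, kk ψ s t * kk ψ s x ∂ν ≤
      (ENNReal.ofReal (2 * (1 - ‖ψ x‖ ^ 2) / ‖1 - conj (ψ t) * ψ x‖ ^ 2) +
        ENNReal.ofReal (2 * (1 - ‖ψ t‖ ^ 2) / ‖1 - conj (ψ t) * ψ x‖ ^ 2)) * A := by
    calc ∫⁻ s, kk ψ s t * kk ψ s x ∂ν
        ≤ ∫⁻ s, (ENNReal.ofReal (2 * (1 - ‖ψ x‖ ^ 2) / ‖1 - conj (ψ t) * ψ x‖ ^ 2) *
            ENNReal.ofReal (kr (ψ t) (ψ s)) +
            ENNReal.ofReal (2 * (1 - ‖ψ t‖ ^ 2) / ‖1 - conj (ψ t) * ψ x‖ ^ 2) *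
            ENNReal.ofReal (kr (ψ x) (ψ s))) ∂ν := by
          apply lintegral_mono
          intro s
          dsimp only
          have h1 : kk ψ s t * kk ψ s x ≤
              ENNReal.ofReal (kr (ψ t) (ψ s)) * ENNReal.ofReal (kr (ψ x) (ψ s)) := by
            unfold kk
            split_ifs <;> simp
          refine h1.trans ?_
          rw [← ENNReal.ofReal_mul (kr_nonneg (hψ1 t).le _), ← ENNReal.ofReal_mul (by positivity),
            ← ENNReal.ofReal_mul (by positivity), ← ENNReal.ofReal_add]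
          · exact ENNReal.ofReal_le_ofReal (kr_mul_le (hψ1 t) (hψ1 x) (hψ1 s).le)
          · exact mul_nonneg (by positivity) (kr_nonneg (hψ1 t).le _)
          · exact mul_nonneg (by positivity) (kr_nonneg (hψ1 x).le _)
      _ ≤ _ := by
          rw [lintegral_add_left ((hmeas _).const_mul _), lintegral_const_mul _ (hmeas _),
            lintegral_const_mul _ (hmeas _), add_mul]
          gcongr
          · exact hA _ (hψ1 t)
          · exact hA _ (hψ1 x)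
  refine hgen.trans ?_
  rcases le_total ‖ψ t‖ ‖ψ x‖ with h | h
  · have h1 : kk ψ x t = ENNReal.ofReal (kr (ψ t) (ψ x)) := by unfold kk; rw [if_pos h]
    have h2 : ENNReal.ofReal (2 * (1 - ‖ψ x‖ ^ 2) / ‖1 - conj (ψ t) * ψ x‖ ^ 2) ≤
        2 * ENNReal.ofReal (kr (ψ t) (ψ x)) := by
      rw [← ENNReal.ofReal_ofNat, ← ENNReal.ofReal_mul (by norm_num)]
      apply ENNReal.ofReal_le_ofReal
      unfold kr
      rw [mul_div_assoc]
      gcongr
    have h3 : ENNReal.ofReal (2 * (1 - ‖ψ t‖ ^ 2) / ‖1 - conj (ψ t) * ψ x‖ ^ 2) ≤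
        2 * ENNReal.ofReal (kr (ψ t) (ψ x)) := by
      rw [← ENNReal.ofReal_ofNat, ← ENNReal.ofReal_mul (by norm_num)]
      apply ENNReal.ofReal_le_ofReal
      unfold kr
      rw [mul_div_assoc]
    calc _ ≤ (2 * ENNReal.ofReal (kr (ψ t) (ψ x)) + 2 * ENNReal.ofReal (kr (ψ t) (ψ x))) * A := by
          gcongr
      _ = 4 * A * kk ψ x t := by rw [h1]; ring
      _ ≤ _ := by
          gcongr
          exact le_add_self
  · have h1 : kk ψ t x = ENNReal.ofReal (kr (ψ x) (ψ t)) := by unfold kk; rw [if_pos h]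
    have h2 : ENNReal.ofReal (2 * (1 - ‖ψ x‖ ^ 2) / ‖1 - conj (ψ t) * ψ x‖ ^ 2) ≤
        2 * ENNReal.ofReal (kr (ψ x) (ψ t)) := by
      rw [← ENNReal.ofReal_ofNat, ← ENNReal.ofReal_mul (by norm_num)]
      apply ENNReal.ofReal_le_ofReal
      unfold kr
      rw [mul_div_assoc, norm_one_sub_comm]
    have h3 : ENNReal.ofReal (2 * (1 - ‖ψ t‖ ^ 2) / ‖1 - conj (ψ t) * ψ x‖ ^ 2) ≤
        2 * ENNReal.ofReal (kr (ψ x) (ψ t)) := by
      rw [← ENNReal.ofReal_ofNat, ← ENNReal.ofReal_mul (by norm_num)]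
      apply ENNReal.ofReal_le_ofReal
      unfold kr
      rw [mul_div_assoc, norm_one_sub_comm]
      gcongr
    calc _ ≤ (2 * ENNReal.ofReal (kr (ψ x) (ψ t)) + 2 * ENNReal.ofReal (kr (ψ x) (ψ t))) * A := by
          gcongr
      _ = 4 * A * kk ψ t x := by rw [h1]; ring
      _ ≤ _ := by
          gcongr
          exact le_self_add

theorem PK_PK_le (hψ1 : ∀ x, ‖ψ x‖ < 1) (x y : X) :
    ∫⁻ θ, ENNReal.ofReal (PK (ψ x) θ) * ENNReal.ofReal (PK (ψ y) θ) ∂mT ≤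
      2 * (kk ψ x y + kk ψ y x) := by
  have e : ∀ θ, ENNReal.ofReal (PK (ψ x) θ) * ENNReal.ofReal (PK (ψ y) θ) =
      ENNReal.ofReal (PK (ψ x) θ * PK (ψ y) θ) := fun θ =>
    (ENNReal.ofReal_mul (PK_pos (hψ1 x) θ).le).symm
  simp only [e]
  rw [lint_eq (f := fun θ => PK (ψ x) θ * PK (ψ y) θ) ((PK_cont (hψ1 x)).mul (PK_cont (hψ1 y)))
    (fun θ => (mul_pos (PK_pos (hψ1 x) θ) (PK_pos (hψ1 y) θ)).le), PK_PK (hψ1 x) (hψ1 y)]
  have hx := hψ1 x
  have hy := hψ1 y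
  have nx := norm_nonneg (ψ x)
  have ny := norm_nonneg (ψ y)
  rcases le_total ‖ψ x‖ ‖ψ y‖ with h | h
  · have h1 : kk ψ y x = ENNReal.ofReal (kr (ψ x) (ψ y)) := by unfold kk; rw [if_pos h]
    calc _ ≤ ENNReal.ofReal (2 * kr (ψ x) (ψ y)) := by
          apply ENNReal.ofReal_le_ofReal
          unfold kr
          rw [norm_one_sub_comm (ψ y) (ψ x), ← mul_div_assoc]
          gcongr
          have : ‖ψ x‖ ^ 2 ≤ ‖ψ y‖ ^ 2 := by gcongr
          nlinarith [mul_nonneg nx nx, mul_le_mul this (le_refl (‖ψ x‖ ^ 2)) (by positivity) (by positivity),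
            mul_nonneg (sq_nonneg ‖ψ x‖) (sq_nonneg ‖ψ x‖), sq_nonneg (1 - ‖ψ x‖ ^ 2)]
      _ = 2 * kk ψ y x := by
          rw [h1, ENNReal.ofReal_mul (by norm_num), ENNReal.ofReal_ofNat]
      _ ≤ _ := by gcongr; exact le_add_self
  · have h1 : kk ψ x y = ENNReal.ofReal (kr (ψ y) (ψ x)) := by unfold kk; rw [if_pos h]
    calc _ ≤ ENNReal.ofReal (2 * kr (ψ y) (ψ x)) := by
          apply ENNReal.ofReal_le_ofReal
          unfold kr
          rw [← mul_div_assoc]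
          gcongr
          have : ‖ψ y‖ ^ 2 ≤ ‖ψ x‖ ^ 2 := by gcongr
          nlinarith [mul_nonneg ny ny, mul_le_mul this (le_refl (‖ψ y‖ ^ 2)) (by positivity) (by positivity),
            mul_nonneg (sq_nonneg ‖ψ y‖) (sq_nonneg ‖ψ y‖), sq_nonneg (1 - ‖ψ y‖ ^ 2)]
      _ = 2 * kk ψ x y := by
          rw [h1, ENNReal.ofReal_mul (by norm_num), ENNReal.ofReal_ofNat]
      _ ≤ _ := by gcongr; exact le_self_add

end carleson

end Pool.Agent.Helper203.Hardy
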