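import Mathlib
import Pool.Agent.Helper203.Carl2

set_option autoImplicit false

open Complex Metric Set Filter MeasureTheory
open scoped Real Topology ComplexConjugate NNReal ENNReal

namespace Pool.Agent.Helper203.Hardy

section carleson

variable {X : Type*} [MeasurableSpace X] {ν : Measure X} {ψ : X → ℂ}

theorem meas_comp {f : ℂ → ℂ} (hf : ContinuousOn f (ball 0 1)) (hψ : Measurable ψ)
    (hψ1 : ∀ x, ‖ψ x‖ < 1) : Measurable fun x => f (ψ x) := by
  classical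
  have h1 : Measurable ((ball (0 : ℂ) 1).indicator f) := by
    have := ContinuousOn.measurable_piecewise (f := f) (g := fun _ => (0 : ℂ)) hf continuousOn_const
      isOpen_ball.measurableSet
    have e : (ball (0 : ℂ) 1).piecewise f (fun _ => (0 : ℂ)) = (ball (0 : ℂ) 1).indicator f :=
      Set.piecewise_eq_indicator
    rwa [e] at this
  have h2 : (fun x => f (ψ x)) = fun x => (ball (0 : ℂ) 1).indicator f (ψ x) := by
    funext x
    rw [indicator_of_mem (mem_ball_zero_iff.2 (hψ1 x))]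
  rw [h2]
  exact h1.comp hψ

theorem PKm (hψ : Measurable ψ) :
    Measurable fun p : X × ℝ => ENNReal.ofReal (PK (ψ p.1) p.2) := by
  apply ENNReal.measurable_ofReal.comp
  unfold PK
  have h1 : Measurable fun p : X × ℝ => ψ p.1 := hψ.comp measurable_fst
  have h2 : Measurable fun p : X × ℝ => circleMap 0 1 p.2 :=
    (continuous_circleMap 0 1).measurable.comp measurable_snd
  exact (measurable_const.sub (h1.norm.pow_const 2)).div ((h2.sub h1).norm.pow_const 2)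

theorem HD_abs [SFinite ν] {k : X → X → ℝ≥0∞} (hk : Measurable (Function.uncurry k))
    {P : X → ℝ → ℝ≥0∞} (hP : Measurable (Function.uncurry P))
    (hPP : ∀ x y, ∫⁻ θ, P x θ * P y θ ∂mT ≤ 2 * (k x y + k y x)) {g : X → ℝ≥0∞}
    (hgm : Measurable g) :
    ∫⁻ θ, (∫⁻ x, P x θ * g x ∂ν) ^ 2 ∂mT ≤ 4 * ∫⁻ s, (∫⁻ t, k s t * g t ∂ν) * g s ∂ν := by
  have hkm' : Measurable fun p : X × X => k p.1 p.2 := hk
  have hPm : Measurable fun p : X × ℝ => P p.1 p.2 := hP
  have hPm' : Measurable fun p : ℝ × X => P p.2 p.1 * g p.2 :=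
    (hPm.comp measurable_swap).mul (hgm.comp measurable_snd)
  have hcs : ∀ θ, Measurable fun x => P x θ * g x := fun θ =>
    hPm'.comp (measurable_const.prodMk measurable_id)
  have e1 : ∀ θ, (∫⁻ x, P x θ * g x ∂ν) ^ 2 = ∫⁻ x, ∫⁻ y, (P x θ * g x) * (P y θ * g y) ∂ν ∂ν := by
    intro θ
    have e2 : ∀ x, ∫⁻ y, (P x θ * g x) * (P y θ * g y) ∂ν = (P x θ * g x) *
        ∫⁻ y, P y θ * g y ∂ν := by
      intro x
      rw [lintegral_const_mul _ (hcs θ)]
    simp only [e2]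
    rw [lintegral_mul_const _ (hcs θ), sq]
  simp only [e1]
  have m3 : Measurable fun p : ℝ × X × X => (P p.2.1 p.1 * g p.2.1) * (P p.2.2 p.1 * g p.2.2) :=
    (hPm'.comp (measurable_fst.prodMk (measurable_fst.comp measurable_snd))).mul
      (hPm'.comp (measurable_fst.prodMk (measurable_snd.comp measurable_snd)))
  have hsw : ∫⁻ θ, ∫⁻ x, ∫⁻ y, (P x θ * g x) * (P y θ * g y) ∂ν ∂ν ∂mT =
      ∫⁻ x, ∫⁻ θ, ∫⁻ y, (P x θ * g x) * (P y θ * g y) ∂ν ∂mT ∂ν := by
    apply lintegral_lintegral_swap (f := fun θ x => ∫⁻ y, (P x θ * g x) * (P y θ * g y) ∂ν)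
    apply Measurable.aemeasurable
    show Measurable fun p : ℝ × X => ∫⁻ y, (P p.2 p.1 * g p.2) * (P y p.1 * g y) ∂ν
    apply Measurable.lintegral_prod_right'
      (f := fun q : (ℝ × X) × X => (P q.1.2 q.1.1 * g q.1.2) * (P q.2 q.1.1 * g q.2))
    exact m3.comp ((measurable_fst.comp measurable_fst).prodMk
      ((measurable_snd.comp measurable_fst).prodMk measurable_snd))
  rw [hsw]
  have hin : ∀ x, ∫⁻ θ, ∫⁻ y, (P x θ * g x) * (P y θ * g y) ∂ν ∂mT ≤
      ∫⁻ y, (2 * (g x * (k x y * g y)) + 2 * (g x * (k y x * g y))) ∂ν := by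
    intro x
    rw [lintegral_lintegral_swap (f := fun θ y => (P x θ * g x) * (P y θ * g y))]
    · apply lintegral_mono
      intro y
      dsimp only
      have e3 : ∀ θ, (P x θ * g x) * (P y θ * g y) = (g x * g y) * (P x θ * P y θ) := by
        intro θ; ring
      simp only [e3]
      rw [lintegral_const_mul]
      · calc (g x * g y) * ∫⁻ θ, P x θ * P y θ ∂mT
            ≤ (g x * g y) * (2 * (k x y + k y x)) := by
              gcongr
              exact hPP x y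
          _ = _ := by ring
      · exact (hPm.comp (measurable_const.prodMk measurable_id)).mul
          (hPm.comp (measurable_const.prodMk measurable_id))
    · apply Measurable.aemeasurable
      exact m3.comp (measurable_fst.prodMk (measurable_const.prodMk measurable_snd))
  refine (lintegral_mono hin).trans ?_
  have m1 : Measurable fun p : X × X => 2 * (g p.1 * (k p.1 p.2 * g p.2)) :=
    measurable_const.mul ((hgm.comp measurable_fst).mul
      (hkm'.mul (hgm.comp measurable_snd)))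
  have m2 : Measurable fun p : X × X => 2 * (g p.1 * (k p.2 p.1 * g p.2)) :=
    measurable_const.mul ((hgm.comp measurable_fst).mul
      ((hkm'.comp measurable_swap).mul (hgm.comp measurable_snd)))
  have hJm : Measurable fun s => ∫⁻ t, k s t * g t ∂ν := by
    apply Measurable.lintegral_prod_right'
      (f := fun p : X × X => k p.1 p.2 * g p.2)
    exact hkm'.mul (hgm.comp measurable_snd)
  have hks : ∀ t, Measurable fun x => k t x * g x := fun t =>
    (hkm'.comp (measurable_const.prodMk measurable_id)).mul hgm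
  have e1 : ∀ t, ∫⁻ x, (2 * (g t * (k t x * g x)) + 2 * (g t * (k x t * g x))) ∂ν =
      (∫⁻ x, 2 * (g t * (k t x * g x)) ∂ν) + ∫⁻ x, 2 * (g t * (k x t * g x)) ∂ν := by
    intro t
    exact lintegral_add_left (m1.comp (measurable_const.prodMk measurable_id)) _
  simp only [e1]
  have p1 : ∫⁻ t, ∫⁻ x, 2 * (g t * (k t x * g x)) ∂ν ∂ν =
      2 * ∫⁻ s, (∫⁻ t, k s t * g t ∂ν) * g s ∂ν := by
    rw [← lintegral_const_mul (f := fun s => (∫⁻ t, k s t * g t ∂ν) * g s) _ (hJm.mul hgm)]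
    congr 1
    funext t
    have e2 : ∀ x, 2 * (g t * (k t x * g x)) = (2 * g t) * (k t x * g x) := by
      intro x; ring
    simp only [e2]
    rw [lintegral_const_mul _ (hks t)]
    ring
  have p2 : ∫⁻ t, ∫⁻ x, 2 * (g t * (k x t * g x)) ∂ν ∂ν =
      2 * ∫⁻ s, (∫⁻ t, k s t * g t ∂ν) * g s ∂ν := by
    rw [lintegral_lintegral_swap (f := fun t x => 2 * (g t * (k x t * g x)))
      m2.aemeasurable]
    rw [← lintegral_const_mul (f := fun s => (∫⁻ t, k s t * g t ∂ν) * g s) _ (hJm.mul hgm)]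
    congr 1
    funext x
    have e2 : ∀ t, 2 * (g t * (k x t * g x)) = (2 * g x) * (k x t * g t) := by
      intro t; ring
    simp only [e2]
    rw [lintegral_const_mul _ (hks x)]
    ring
  have m1' : Measurable fun t => ∫⁻ x, 2 * (g t * (k t x * g x)) ∂ν :=
    Measurable.lintegral_prod_right' m1
  rw [lintegral_add_left m1', p1, p2]
  apply le_of_eq
  ring

theorem GFH_abs [SFinite ν] {P : X → ℝ → ℝ≥0∞} (hP : Measurable (Function.uncurry P))
    {g : X → ℝ≥0∞} (hgm : Measurable g) {F : ℝ → ℝ≥0∞} (hFm : Measurable F)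
    (h : ∀ x, g x ≤ ∫⁻ θ, F θ * P x θ ∂mT) :
    ∫⁻ x, g x ^ 2 ∂ν ≤ ∫⁻ θ, F θ * (∫⁻ x, P x θ * g x ∂ν) ∂mT := by
  have hPm : Measurable fun p : X × ℝ => P p.1 p.2 := hP
  have hin : ∀ x, g x ^ 2 ≤ ∫⁻ θ, F θ * (P x θ * g x) ∂mT := by
    intro x
    have h6 : ∀ θ, F θ * (P x θ * g x) = (F θ * P x θ) * g x := by
      intro θ; ring
    simp only [h6]
    rw [lintegral_mul_const, sq]
    · exact mul_le_mul_left (h x) _
    · exact hFm.mul (hPm.comp (measurable_const.prodMk measurable_id))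
  refine (lintegral_mono hin).trans (le_of_eq ?_)
  rw [lintegral_lintegral_swap (f := fun x θ => F θ * (P x θ * g x))]
  · congr 1
    funext θ
    rw [lintegral_const_mul]
    exact (hPm.comp (measurable_id.prodMk measurable_const)).mul hgm
  · apply Measurable.aemeasurable
    exact (hFm.comp measurable_snd).mul (hPm.mul (hgm.comp measurable_fst))

theorem h_aux (hψ1 : ∀ x, ‖ψ x‖ < 1)
    {f : ℂ → ℂ} (hf : DiffContOnCl ℂ f (ball 0 1)) (hfc1 : Continuous fun θ => f (circleMap 0 1 θ))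
    (x : X) :
    ENNReal.ofReal ‖f (ψ x)‖ ≤
        ∫⁻ θ, ENNReal.ofReal ‖f (circleMap 0 1 θ)‖ * ENNReal.ofReal (PK (ψ x) θ) ∂mT := by
  have h3 := poisson_le hf (hψ1 x)
  have h4 := lint_eq (f := fun θ => PK (ψ x) θ * ‖f (circleMap 0 1 θ)‖)
    ((PK_cont (hψ1 x)).mul hfc1.norm)
    (fun θ => mul_nonneg (PK_pos (hψ1 x) θ).le (norm_nonneg _))
  have h5 : (fun θ => ENNReal.ofReal ‖f (circleMap 0 1 θ)‖ * ENNReal.ofReal (PK (ψ x) θ)) =
      fun θ => ENNReal.ofReal (PK (ψ x) θ * ‖f (circleMap 0 1 θ)‖) := by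
    funext θ
    rw [ENNReal.ofReal_mul (PK_pos (hψ1 x) θ).le, mul_comm]
  rw [h5, h4]
  exact ENNReal.ofReal_le_ofReal h3

theorem carl_final {G A D F H : ℝ≥0∞} {U : ℝ≥0∞} (h1 : G ≤ U) (h2 : U ^ 2 ≤ F * H)
    (h3 : H ≤ 4 * D) (hD : D ≤ 2 * (4 * A) * G) (hG : G ≠ ⊤) : G ≤ 32 * A * F := by
  have h3 : G ^ 2 ≤ F * (32 * A * G) := by
    calc G ^ 2 ≤ U ^ 2 := by gcongr
      _ ≤ F * H := h2
      _ ≤ F * (4 * D) := by gcongr
      _ ≤ F * (4 * (2 * (4 * A) * G)) := by gcongr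
      _ = _ := by ring
  by_cases hG0 : G = 0
  · rw [hG0]; exact bot_le
  · have h5 : G * G ≤ G * (32 * A * F) := by
      calc G * G = G ^ 2 := by ring
        _ ≤ _ := h3
        _ = _ := by ring
    exact (ENNReal.mul_le_mul_iff_right hG0 hG).1 h5

/-- Carleson embedding, compactly supported case -/
theorem carleson_aux [IsFiniteMeasure ν] (hψ : Measurable ψ) {ρ : ℝ} (hρ : ρ < 1)
    (hψρ : ∀ x, ‖ψ x‖ ≤ ρ) {A : ℝ≥0∞}
    (hA : ∀ a : ℂ, ‖a‖ < 1 → ∫⁻ x, ENNReal.ofReal (kr a (ψ x)) ∂ν ≤ A)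
    {f : ℂ → ℂ} (hf : DiffContOnCl ℂ f (ball 0 1)) :
    ∫⁻ x, ENNReal.ofReal ‖f (ψ x)‖ ^ 2 ∂ν ≤
      32 * A * ∫⁻ θ, ENNReal.ofReal ‖f (circleMap 0 1 θ)‖ ^ 2 ∂mT := by
  have hψ1 : ∀ x, ‖ψ x‖ < 1 := fun x => (hψρ x).trans_lt hρ
  have hcl : closure (ball (0 : ℂ) 1) = closedBall 0 1 := closure_ball 0 one_ne_zero
  have hfc1 : Continuous fun θ => f (circleMap 0 1 θ) := by
    apply hf.2.comp_continuous (continuous_circleMap 0 _)
    intro θ
    rw [hcl]; simp
  obtain ⟨M, hM⟩ : ∃ M : ℝ, ∀ z ∈ closedBall (0 : ℂ) 1, ‖f z‖ ≤ M := by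
    have := (isCompact_closedBall (0 : ℂ) 1).exists_bound_of_continuousOn (hcl ▸ hf.2)
    exact this
  have hgm : Measurable fun x => ENNReal.ofReal ‖f (ψ x)‖ :=
    ENNReal.measurable_ofReal.comp (meas_comp hf.1.continuousOn hψ hψ1).norm
  have hgb : ∀ x, ENNReal.ofReal ‖f (ψ x)‖ ≤ ENNReal.ofReal M := fun x =>
    ENNReal.ofReal_le_ofReal (hM _ (mem_closedBall_zero_iff.2 (hψ1 x).le))
  have hkb : ∀ s t, kk ψ s t ≤ ENNReal.ofReal (1 / (1 - ρ) ^ 2) := by
    intro s t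
    unfold kk
    split_ifs
    · apply ENNReal.ofReal_le_ofReal
      refine (kr_le (hψ1 t) (hψ1 s).le).trans ?_
      have h1 := hψρ t
      gcongr
    · exact bot_le
  have hIb : ∀ s, ∫⁻ t, kk ψ s t * ENNReal.ofReal ‖f (ψ t)‖ ∂ν ≤
      ENNReal.ofReal (1 / (1 - ρ) ^ 2) * ENNReal.ofReal M * ν univ := by
    intro s
    calc ∫⁻ t, kk ψ s t * ENNReal.ofReal ‖f (ψ t)‖ ∂ν
        ≤ ∫⁻ _t, ENNReal.ofReal (1 / (1 - ρ) ^ 2) * ENNReal.ofReal M ∂ν := by
          apply lintegral_mono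
          intro t
          exact mul_le_mul' (hkb s t) (hgb t)
      _ = _ := by rw [lintegral_const]
  have hfin : ∫⁻ s, (∫⁻ t, kk ψ s t * ENNReal.ofReal ‖f (ψ t)‖ ∂ν) ^ 2 ∂ν ≠ ⊤ := by
    refine ne_top_of_le_ne_top ?_ (lintegral_mono fun s => pow_le_pow_left' (hIb s) 2)
    rw [lintegral_const]
    exact ENNReal.mul_ne_top (ENNReal.pow_ne_top (ENNReal.mul_ne_top (ENNReal.mul_ne_top
      ENNReal.ofReal_ne_top ENNReal.ofReal_ne_top) (measure_ne_top _ _))) (measure_ne_top _ _)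
  have hGfin : ∫⁻ s, ENNReal.ofReal ‖f (ψ s)‖ ^ 2 ∂ν ≠ ⊤ := by
    refine ne_top_of_le_ne_top ?_ (lintegral_mono fun s => pow_le_pow_left' (hgb s) 2)
    rw [lintegral_const]
    exact ENNReal.mul_ne_top (ENNReal.pow_ne_top ENNReal.ofReal_ne_top) (measure_ne_top _ _)
  have hFm : Measurable fun θ => ENNReal.ofReal ‖f (circleMap 0 1 θ)‖ :=
    ENNReal.measurable_ofReal.comp hfc1.norm.measurable
  have hPm' : Measurable fun p : ℝ × X => ENNReal.ofReal (PK (ψ p.2) p.1) *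
      ENNReal.ofReal ‖f (ψ p.2)‖ :=
    ((PKm (X := X) hψ).comp measurable_swap).mul (hgm.comp measurable_snd)
  have hHm : Measurable fun θ => ∫⁻ x, ENNReal.ofReal (PK (ψ x) θ) *
      ENNReal.ofReal ‖f (ψ x)‖ ∂ν := Measurable.lintegral_prod_right' hPm'
  have hPu : Measurable (Function.uncurry fun (x : X) (θ : ℝ) => ENNReal.ofReal (PK (ψ x) θ)) :=
    PKm (X := X) hψ
  have a1 := GFH_abs (ν := ν) hPu hgm hFm (h_aux hψ1 hf hfc1)
  have a2 := cs_ennreal (ν := mT) hFm.aemeasurable hHm.aemeasurable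
  have a3 := HD_abs (ν := ν) (kk_meas hψ) hPu (PK_PK_le hψ1) hgm
  have a4 := vs_core (kk_meas hψ) (kk_V hψ hψ1 hA) hgm hfin
  exact carl_final a1 a2 a3 a4 hGfin

/-- Carleson embedding theorem with the reproducing kernel condition. -/
theorem carleson [IsFiniteMeasure ν] (hψ : Measurable ψ) (hψ1 : ∀ᵐ x ∂ν, ‖ψ x‖ < 1) {A : ℝ≥0∞}
    (hA : ∀ a : ℂ, ‖a‖ < 1 → ∫⁻ x, ENNReal.ofReal (kr a (ψ x)) ∂ν ≤ A)
    {f : ℂ → ℂ} (hf : DiffContOnCl ℂ f (ball 0 1)) :
    ∫⁻ x, ENNReal.ofReal ‖f (ψ x)‖ ^ 2 ∂ν ≤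
      32 * A * ∫⁻ θ, ENNReal.ofReal ‖f (circleMap 0 1 θ)‖ ^ 2 ∂mT := by
  classical
  set E : ℕ → Set X := fun n => {x | ‖ψ x‖ ≤ rad n} with hE
  have hEm : ∀ n, MeasurableSet (E n) := fun n => measurableSet_le hψ.norm measurable_const
  have hmono : Monotone rad := by
    intro m n hmn
    unfold rad
    have : (m : ℝ) ≤ n := by exact_mod_cast hmn
    gcongr
  have hEmono : Monotone E := fun m n hmn x hx => le_trans hx (hmono hmn)
  have hstep : ∀ n, ∫⁻ x in E n, ENNReal.ofReal ‖f (ψ x)‖ ^ 2 ∂ν ≤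
      32 * A * ∫⁻ θ, ENNReal.ofReal ‖f (circleMap 0 1 θ)‖ ^ 2 ∂mT := by
    intro n
    set ψ' : X → ℂ := (E n).indicator ψ with hψ'
    have h1 : ∀ x ∈ E n, ψ' x = ψ x := fun x hx => indicator_of_mem hx _
    have h2 := carleson_aux (ν := ν.restrict (E n)) (ψ := ψ') (hψ.indicator (hEm n)) (rad_lt n)
      (by
        intro x
        by_cases hx : x ∈ E n
        · rw [h1 x hx]; exact hx
        · rw [hψ', indicator_of_notMem hx, norm_zero]; exact rad_nonneg n) (A := A) (by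
        intro a ha
        refine le_trans (le_of_eq ?_) ((setLIntegral_le_lintegral (E n) _).trans (hA a ha))
        apply setLIntegral_congr_fun (hEm n)
        intro x hx
        dsimp only
        rw [h1 x hx]) hf
    refine le_trans (le_of_eq ?_) h2
    apply setLIntegral_congr_fun (hEm n)
    intro x hx
    dsimp only
    rw [h1 x hx]
  have hun : ∫⁻ x, ENNReal.ofReal ‖f (ψ x)‖ ^ 2 ∂ν =
      ∫⁻ x in ⋃ n, E n, ENNReal.ofReal ‖f (ψ x)‖ ^ 2 ∂ν := by
    rw [← setLIntegral_univ]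
    apply setLIntegral_congr
    apply (ae_eq_univ.2 _).symm
    have h3 : ∀ᵐ x ∂ν, x ∈ ⋃ n, E n := by
      filter_upwards [hψ1] with x hx
      have h4 : ∀ᶠ n in atTop, ‖ψ x‖ < rad n := rad_tendsto.eventually_const_lt hx
      obtain ⟨n, hn⟩ := h4.exists
      exact mem_iUnion.2 ⟨n, hn.le⟩
    exact mem_ae_iff.1 h3
  rw [hun, setLIntegral_iUnion_of_directed _ hEmono.directed_le]
  exact iSup_le hstep

end carleson

end Pool.Agent.Helper203.Hardy
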