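import Mathlib
import Pool.Agent.Helper203.Carl3

set_option autoImplicit false

open Complex Metric Set Filter MeasureTheory
open scoped Real Topology ComplexConjugate NNReal ENNReal

namespace Pool.Agent.Helper203.Hardy

variable {φ : ℂ → ℂ}

theorem bv_tendsto (hφ : DifferentiableOn ℂ φ (ball 0 1))
    (hm : MapsTo φ (ball (0 : ℂ) 1) (ball 0 1)) :
    ∀ᵐ θ ∂mT, Tendsto (fun r : ℝ => φ (circleMap 0 r θ)) (𝓝[<] 1) (𝓝 (bv φ θ)) := by
  apply ae_mT_of_ae
  have h := fatou hφ (M := 1) (fun z hz => (mem_ball_zero_iff.1 (hm hz)).le)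
  filter_upwards [h] with θ hθ
  exact tendsto_nhds_limUnder hθ

theorem circle_mem (n : ℕ) (θ : ℝ) : circleMap 0 (rad n) θ ∈ ball (0 : ℂ) 1 := by
  rw [mem_ball_zero_iff, norm_circleMap_zero, abs_of_nonneg (rad_nonneg n)]; exact rad_lt n

theorem bv_aemeas (hφ : DifferentiableOn ℂ φ (ball 0 1))
    (hm : MapsTo φ (ball (0 : ℂ) 1) (ball 0 1)) : AEMeasurable (bv φ) mT := by
  apply aemeasurable_of_tendsto_metrizable_ae (u := atTop)
    (f := fun n θ => φ (circleMap 0 (rad n) θ))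
  · intro n
    apply Continuous.aemeasurable
    exact hφ.continuousOn.comp_continuous (continuous_circleMap 0 _) (circle_mem n)
  · filter_upwards [bv_tendsto hφ hm] with θ hθ
    exact hθ.comp rad_tendsto'

theorem bv_le (hφ : DifferentiableOn ℂ φ (ball 0 1))
    (hm : MapsTo φ (ball (0 : ℂ) 1) (ball 0 1)) : ∀ᵐ θ ∂mT, ‖bv φ θ‖ ≤ 1 := by
  filter_upwards [bv_tendsto hφ hm] with θ hθ
  refine le_of_tendsto (hθ.comp rad_tendsto').norm (Eventually.of_forall fun n => ?_)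
  exact (mem_ball_zero_iff.1 (hm (circle_mem n θ))).le

/-! ### functions with absolutely summable coefficients -/

theorem evW_cont (f : H2) (hs : Summable fun n => ‖f n‖) :
    ContinuousOn (ev f) (closedBall 0 1) := by
  apply continuousOn_tsum (u := fun n => ‖f n‖)
  · intro n; fun_prop
  · exact hs
  · intro n z hz
    rw [mem_closedBall_zero_iff] at hz
    rw [norm_mul, norm_pow]
    exact mul_le_of_le_one_right (norm_nonneg _) (pow_le_one₀ (norm_nonneg _) hz)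

theorem evW_diff (f : H2) (hs : Summable fun n => ‖f n‖) : DiffContOnCl ℂ (ev f) (ball 0 1) :=
  ⟨ev_diff f, by rw [closure_ball (0 : ℂ) one_ne_zero]; exact evW_cont f hs⟩

theorem evW_norm_le (f : H2) (hs : Summable fun n => ‖f n‖) {z : ℂ} (hz : ‖z‖ ≤ 1) :
    ‖ev f z‖ ≤ ∑' n, ‖f n‖ := by
  refine tsum_of_norm_bounded hs.hasSum (fun n => ?_)
  rw [norm_mul, norm_pow]
  exact mul_le_of_le_one_right (norm_nonneg _) (pow_le_one₀ (norm_nonneg _) hz)

theorem evW_parseval (f : H2) (hs : Summable fun n => ‖f n‖) :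
    ∫⁻ θ, ENNReal.ofReal ‖ev f (circleMap 0 1 θ)‖ ^ 2 ∂mT = ENNReal.ofReal (‖f‖ ^ 2) := by
  have hc : Continuous fun θ => ev f (circleMap 0 1 θ) := by
    apply (evW_cont f hs).comp_continuous (continuous_circleMap 0 _)
    intro θ; simp
  have h1 : ∀ θ, ENNReal.ofReal ‖ev f (circleMap 0 1 θ)‖ ^ 2 =
      ENNReal.ofReal (‖ev f (circleMap 0 1 θ)‖ ^ 2) := by
    intro θ; rw [ENNReal.ofReal_pow (norm_nonneg _)]
  simp only [h1]
  rw [lint_eq (f := fun θ => ‖ev f (circleMap 0 1 θ)‖ ^ 2) (hc.norm.pow 2) (fun θ => by positivity)]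
  congr 1
  have h2 := parseval_power f (r := 1) zero_le_one (by simpa using hs)
  rw [norm_sq]
  simp only [one_pow, mul_one] at h2
  exact h2

/-- the norm of `C_φ M_z^n f` through the boundary function of `φ` -/
theorem comp_norm_sq (hφ : DifferentiableOn ℂ φ (ball 0 1))
    (hm : MapsTo φ (ball (0 : ℂ) 1) (ball 0 1)) {C : H2 →L[ℂ] H2}
    (hC : ∀ f : H2, ∀ z ∈ ball (0 : ℂ) 1, ev (C f) z = ev f (φ z))
    (f : H2) (hs : Summable fun n => ‖f n‖) (n : ℕ) :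
    ‖C ((Mz ^ n) f)‖ ^ 2 = ∫ θ, ‖bv φ θ‖ ^ (2 * n) * ‖ev f (bv φ θ)‖ ^ 2 ∂mT := by
  have hev : ∀ z ∈ ball (0 : ℂ) 1, ev (C ((Mz ^ n) f)) z = φ z ^ n * ev f (φ z) := by
    intro z hz
    rw [hC _ z hz, ev_Mz_pow _ _ (mem_ball_zero_iff.1 (hm hz))]
  have h1 := norm_sq_bdry (C ((Mz ^ n) f)) (M := ∑' n, ‖f n‖) (b := fun θ => bv φ θ ^ n *
    ev f (bv φ θ)) (by
      intro z hz
      rw [hev z hz, norm_mul, norm_pow]
      have h2 := (mem_ball_zero_iff.1 (hm hz)).le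
      calc ‖φ z‖ ^ n * ‖ev f (φ z)‖ ≤ 1 * ∑' n, ‖f n‖ := by
            gcongr
            · exact pow_le_one₀ (norm_nonneg _) h2
            · exact evW_norm_le f hs h2
        _ = _ := one_mul _) (by
      filter_upwards [bv_tendsto hφ hm, bv_le hφ hm] with θ hθ hθ1
      have hin : ∀ᶠ r : ℝ in 𝓝[<] 1, circleMap 0 r θ ∈ ball (0 : ℂ) 1 := by
        filter_upwards [Ioo_mem_nhdsLT (show (0 : ℝ) < 1 from one_pos)] with r hr
        rw [mem_ball_zero_iff, norm_circleMap_zero, abs_of_nonneg hr.1.le]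
        exact hr.2
      have h3 : Tendsto (fun r : ℝ => φ (circleMap 0 r θ) ^ n * ev f (φ (circleMap 0 r θ)))
          (𝓝[<] 1) (𝓝 (bv φ θ ^ n * ev f (bv φ θ))) := by
        apply (hθ.pow n).mul
        have h4 : ContinuousWithinAt (ev f) (closedBall 0 1) (bv φ θ) :=
          evW_cont f hs _ (mem_closedBall_zero_iff.2 hθ1)
        apply h4.tendsto.comp
        rw [tendsto_nhdsWithin_iff]
        refine ⟨hθ, ?_⟩
        filter_upwards [hin] with r hr
        exact ball_subset_closedBall (hm hr)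
      refine h3.congr' ?_
      filter_upwards [hin] with r hr
      rw [hev _ hr])
  rw [h1]
  congr 1
  funext θ
  rw [norm_mul, norm_pow, mul_pow, ← pow_mul, mul_comm n 2]

/-! ### kernel functions -/

theorem ker_summable {a : ℂ} (ha : ‖a‖ < 1) : Summable (fun n : ℕ => ‖(conj a) ^ n‖ ^ 2) := by
  have e : ∀ n : ℕ, ‖(conj a) ^ n‖ ^ 2 = (‖a‖ ^ 2) ^ n := by
    intro n
    rw [norm_pow, RCLike.norm_conj, ← pow_mul, ← pow_mul, mul_comm]
  simp only [e]
  exact summable_geometric_of_lt_one (by positivity) (by nlinarith [norm_nonneg a])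

theorem ker_memlp {a : ℂ} (ha : ‖a‖ < 1) : Memℓp (fun n : ℕ => (conj a) ^ n) 2 := by
  apply memℓp_gen
  simpa using ker_summable ha

/-- the reproducing kernel -/
noncomputable def ker {a : ℂ} (ha : ‖a‖ < 1) : H2 := ⟨fun n : ℕ => (conj a) ^ n, ker_memlp ha⟩

theorem ker_apply {a : ℂ} (ha : ‖a‖ < 1) (n : ℕ) : (ker ha) n = (conj a) ^ n := rfl

theorem ker_sum {a : ℂ} (ha : ‖a‖ < 1) : Summable fun n => ‖(ker ha) n‖ := by
  have e : ∀ n : ℕ, ‖(ker ha) n‖ = ‖a‖ ^ n := by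
    intro n
    rw [ker_apply, norm_pow, RCLike.norm_conj]
  simp only [e]
  exact summable_geometric_of_lt_one (norm_nonneg _) ha

theorem ker_norm {a : ℂ} (ha : ‖a‖ < 1) : ‖ker ha‖ ^ 2 = (1 - ‖a‖ ^ 2)⁻¹ := by
  rw [norm_sq]
  have e : ∀ n : ℕ, ‖(ker ha) n‖ ^ 2 = (‖a‖ ^ 2) ^ n := by
    intro n
    rw [ker_apply, norm_pow, RCLike.norm_conj, ← pow_mul, ← pow_mul, mul_comm]
  simp only [e]
  exact tsum_geometric_of_lt_one (by positivity) (by nlinarith [norm_nonneg a])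

theorem ker_ev {a : ℂ} (ha : ‖a‖ < 1) {z : ℂ} (hz : ‖z‖ ≤ 1) :
    ev (ker ha) z = (1 - conj a * z)⁻¹ := by
  have h1 : ‖conj a * z‖ < 1 := by
    rw [norm_mul, RCLike.norm_conj]
    calc ‖a‖ * ‖z‖ ≤ ‖a‖ * 1 := by gcongr
      _ < 1 := by linarith
  rw [← tsum_geometric_of_norm_lt_one h1, ev]
  congr 1
  funext n
  rw [ker_apply, mul_pow]

theorem ker_ev_sq {a : ℂ} (ha : ‖a‖ < 1) {z : ℂ} (hz : ‖z‖ ≤ 1) :
    (1 - ‖a‖ ^ 2) * ‖ev (ker ha) z‖ ^ 2 = kr a z := by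
  rw [ker_ev ha hz, norm_inv, kr]
  field_simp

end Pool.Agent.Helper203.Hardy
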