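import Mathlib
import Pool.Agent.Helper203.Bdry

set_option autoImplicit false

open Complex Metric Set Filter MeasureTheory ContinuousLinearMap
open scoped Real Topology ComplexConjugate NNReal ENNReal

namespace Pool.Agent.Helper203.Hardy

variable {φ : ℂ → ℂ}

/-- `M_z^{*n} T M_z^n` -/
noncomputable def compress (T : H2 →L[ℂ] H2) (n : ℕ) : H2 →L[ℂ] H2 :=
  adjoint (Mz ^ n) ∘L T ∘L (Mz ^ n)

theorem compress_form (C : H2 →L[ℂ] H2) (n : ℕ) (f : H2) :
    inner ℂ (compress (adjoint C ∘L C) n f) f = ((‖C ((Mz ^ n) f)‖ ^ 2 : ℝ) : ℂ) := by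
  unfold compress
  rw [comp_apply, comp_apply, adjoint_inner_left, comp_apply, adjoint_inner_left,
    inner_self_eq_norm_sq_to_K]
  norm_cast

/-- the inner part of the boundary circle: where `|φ| < 1` -/
def In (φ : ℂ → ℂ) : Set ℝ := {θ | ‖bv φ θ‖ < 1}

theorem In_null (hφ : DifferentiableOn ℂ φ (ball 0 1))
    (hm : MapsTo φ (ball (0 : ℂ) 1) (ball 0 1)) : NullMeasurableSet (In φ) mT :=
  nullMeasurableSet_lt (bv_aemeas hφ hm).norm aemeasurable_const

/-- integrability of bounded functions of the boundary values -/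
theorem int_bv {F : ℂ → ℝ} (hF : Measurable F) (hφ : DifferentiableOn ℂ φ (ball 0 1))
    (hm : MapsTo φ (ball (0 : ℂ) 1) (ball 0 1)) {M : ℝ} (hM : ∀ z, ‖z‖ ≤ 1 → ‖F z‖ ≤ M) :
    Integrable (fun θ => F (bv φ θ)) mT := by
  apply Integrable.of_bound (hF.comp_aemeasurable (bv_aemeas hφ hm)).aestronglyMeasurable M
  filter_upwards [bv_le hφ hm] with θ hθ
  exact hM _ hθ

/-- a measurable version of `ev f` on the closed disc -/
noncomputable def evm (f : H2) : ℂ → ℂ := (closedBall (0 : ℂ) 1).indicator (ev f)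

theorem evm_meas (f : H2) (hs : Summable fun n => ‖f n‖) : Measurable (evm f) := by
  classical
  have := ContinuousOn.measurable_piecewise (f := ev f) (g := fun _ => (0 : ℂ)) (evW_cont f hs)
    continuousOn_const isClosed_closedBall.measurableSet
  have e : (closedBall (0 : ℂ) 1).piecewise (ev f) (fun _ => (0 : ℂ)) = evm f :=
      Set.piecewise_eq_indicator
  rwa [e] at this

theorem evm_eq (f : H2) {z : ℂ} (hz : ‖z‖ ≤ 1) : evm f z = ev f z :=
  indicator_of_mem (mem_closedBall_zero_iff.2 hz) _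

theorem evm_le (f : H2) (hs : Summable fun n => ‖f n‖) (z : ℂ) : ‖evm f z‖ ≤ ∑' n, ‖f n‖ := by
  by_cases hz : ‖z‖ ≤ 1
  · rw [evm_eq f hz]; exact evW_norm_le f hs hz
  · unfold evm
    rw [indicator_of_notMem (by rwa [mem_closedBall_zero_iff]), norm_zero]
    exact tsum_nonneg fun n => norm_nonneg _

/-- form of the compression in terms of the boundary function -/
noncomputable def qf (φ : ℂ → ℂ) (f : H2) (n : ℕ) : ℝ :=
  ∫ θ, ‖bv φ θ‖ ^ (2 * n) * ‖ev f (bv φ θ)‖ ^ 2 ∂mT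

/-- the part inside the disc -/
noncomputable def qi (φ : ℂ → ℂ) (f : H2) (n : ℕ) : ℝ :=
  ∫ θ, (if ‖bv φ θ‖ < 1 then ‖bv φ θ‖ ^ (2 * n) * ‖ev f (bv φ θ)‖ ^ 2 else 0) ∂mT

/-- the part on the circle -/
noncomputable def qb (φ : ℂ → ℂ) (f : H2) : ℝ :=
  ∫ θ, (if ‖bv φ θ‖ < 1 then 0 else ‖ev f (bv φ θ)‖ ^ 2) ∂mT

theorem pow_evm_le (f : H2) (hs : Summable fun n => ‖f n‖) (n : ℕ) {z : ℂ} (hz : ‖z‖ ≤ 1) :
    ‖z‖ ^ (2 * n) * ‖evm f z‖ ^ 2 ≤ (∑' n, ‖f n‖) ^ 2 := by
  have h1 := evm_le f hs z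
  calc ‖z‖ ^ (2 * n) * ‖evm f z‖ ^ 2 ≤ 1 * (∑' n, ‖f n‖) ^ 2 := by
        gcongr
        exact pow_le_one₀ (norm_nonneg _) hz
    _ = _ := one_mul _

theorem q_split (hφ : DifferentiableOn ℂ φ (ball 0 1))
    (hm : MapsTo φ (ball (0 : ℂ) 1) (ball 0 1)) (f : H2) (hs : Summable fun n => ‖f n‖) (n : ℕ) :
    qf φ f n = qi φ f n + qb φ f := by
  have hmm := evm_meas f hs
  have i1 : Integrable (fun θ => if ‖bv φ θ‖ < 1 then ‖bv φ θ‖ ^ (2 * n) * ‖evm f (bv φ θ)‖ ^ 2
      else 0) mT := by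
    apply int_bv (F := fun z => if ‖z‖ < 1 then ‖z‖ ^ (2 * n) * ‖evm f z‖ ^ 2 else 0) _ hφ hm
      (M := (∑' n, ‖f n‖) ^ 2)
    · intro z hz
      have := pow_evm_le f hs n hz
      split_ifs
      · rw [Real.norm_of_nonneg (by positivity)]; exact this
      · rw [norm_zero]; positivity
    · apply Measurable.ite (measurableSet_lt measurable_norm measurable_const)
      · fun_prop
      · exact measurable_const
  have i2 : Integrable (fun θ => if ‖bv φ θ‖ < 1 then 0 else ‖evm f (bv φ θ)‖ ^ 2) mT := by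
    apply int_bv (F := fun z => if ‖z‖ < 1 then 0 else ‖evm f z‖ ^ 2) _ hφ hm
      (M := (∑' n, ‖f n‖) ^ 2)
    · intro z hz
      have := pow_evm_le f hs 0 hz
      split_ifs
      · rw [norm_zero]; positivity
      · rw [Real.norm_of_nonneg (by positivity)]; simpa using this
    · apply Measurable.ite (measurableSet_lt measurable_norm measurable_const)
      · exact measurable_const
      · fun_prop
  have e1 : qi φ f n = ∫ θ, (if ‖bv φ θ‖ < 1 then ‖bv φ θ‖ ^ (2 * n) * ‖evm f (bv φ θ)‖ ^ 2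
      else 0) ∂mT := by
    apply integral_congr_ae
    filter_upwards [bv_le hφ hm] with θ hθ
    rw [evm_eq f hθ]
  have e2 : qb φ f = ∫ θ, (if ‖bv φ θ‖ < 1 then 0 else ‖evm f (bv φ θ)‖ ^ 2) ∂mT := by
    apply integral_congr_ae
    filter_upwards [bv_le hφ hm] with θ hθ
    rw [evm_eq f hθ]
  rw [e1, e2, ← integral_add i1 i2]
  apply integral_congr_ae
  filter_upwards [bv_le hφ hm] with θ hθ
  rw [evm_eq f hθ]
  split_ifs with h
  · rw [add_zero]
  · have : ‖bv φ θ‖ = 1 := le_antisymm hθ (not_lt.1 h)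
    rw [this, one_pow, one_mul, zero_add]

theorem qi_tendsto (hφ : DifferentiableOn ℂ φ (ball 0 1))
    (hm : MapsTo φ (ball (0 : ℂ) 1) (ball 0 1)) (f : H2) (hs : Summable fun n => ‖f n‖) :
    Tendsto (qi φ f) atTop (𝓝 0) := by
  have hmm := evm_meas f hs
  have h1 : Tendsto (fun n => ∫ θ, (if ‖bv φ θ‖ < 1 then ‖bv φ θ‖ ^ (2 * n) *
      ‖evm f (bv φ θ)‖ ^ 2 else 0) ∂mT) atTop (𝓝 (∫ _θ : ℝ, (0 : ℝ) ∂mT)) := by
    apply tendsto_integral_of_dominated_convergence (fun _ => (∑' n, ‖f n‖) ^ 2)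
    · intro n
      refine (Measurable.comp_aemeasurable (g := fun z : ℂ => if ‖z‖ < 1 then
        ‖z‖ ^ (2 * n) * ‖evm f z‖ ^ 2 else 0) ?_ (bv_aemeas hφ hm)).aestronglyMeasurable
      apply Measurable.ite (measurableSet_lt measurable_norm measurable_const)
      · fun_prop
      · exact measurable_const
    · exact integrable_const _
    · intro n
      filter_upwards [bv_le hφ hm] with θ hθ
      have := pow_evm_le f hs n hθ
      split_ifs
      · rw [Real.norm_of_nonneg (by positivity)]; exact this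
      · rw [norm_zero]; positivity
    · filter_upwards [bv_le hφ hm] with θ hθ
      split_ifs with h
      · have h2 : Tendsto (fun n : ℕ => ‖bv φ θ‖ ^ (2 * n)) atTop (𝓝 0) := by
          have h3 := (tendsto_pow_atTop_nhds_zero_of_lt_one (norm_nonneg _) h).comp
            (tendsto_id.nsmul_atTop two_pos)
          refine h3.congr fun n => ?_
          simp
        have := h2.mul_const (‖evm f (bv φ θ)‖ ^ 2)
        rwa [zero_mul] at this
      · exact tendsto_const_nhds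
  rw [integral_zero] at h1
  refine h1.congr fun n => ?_
  apply integral_congr_ae
  filter_upwards [bv_le hφ hm] with θ hθ
  rw [evm_eq f hθ]

end Pool.Agent.Helper203.Hardy
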