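import Mathlib
import Pool.Agent.Helper203.UAT

set_option autoImplicit false

open Complex Metric Set Filter MeasureTheory ContinuousLinearMap
open scoped Real Topology ComplexConjugate NNReal ENNReal

namespace Pool.Agent.Helper203.Hardy

variable {φ : ℂ → ℂ}

/-- kernel condition on the part of the pull-back measure in the open disc -/
def KC (φ : ℂ → ℂ) : Prop :=
  ∀ ε > 0, ∃ δ > 0, ∀ a : ℂ, 1 - δ < ‖a‖ → ‖a‖ < 1 →
    ∫ θ, (if ‖bv φ θ‖ < 1 then kr a (bv φ θ) else 0) ∂mT ≤ ε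

theorem one_sub_pow_le {x : ℝ} (h0 : 0 ≤ x) (_h1 : x ≤ 1) (N : ℕ) :
    1 - x ^ (2 * N) ≤ 2 * N * (1 - x) := by
  have := one_add_mul_le_pow (a := x - 1) (by linarith) (2 * N)
  push_cast at this
  have e : 1 + (x - 1) = x := by ring
  rw [e] at this
  linarith

theorem kr_weight {a z : ℂ} (ha : ‖a‖ < 1) (hz : ‖z‖ < 1) (N : ℕ) :
    (1 - ‖z‖ ^ (2 * N)) * kr a z ≤ 2 * (N : ℝ) * min 2 ((1 - ‖a‖ ^ 2) / (1 - ‖z‖)) := by
  have hna := norm_nonneg a
  have hnz := norm_nonneg z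
  have h1 : 1 - ‖a‖ * ‖z‖ ≤ ‖1 - conj a * z‖ := by
    have h3 := norm_sub_norm_le (1 : ℂ) (conj a * z)
    rw [norm_one, norm_mul, RCLike.norm_conj] at h3
    exact h3
  have ha' : 1 - ‖a‖ ≤ ‖1 - conj a * z‖ := by nlinarith
  have hz' : 1 - ‖z‖ ≤ ‖1 - conj a * z‖ := by nlinarith
  have h0a : 0 < 1 - ‖a‖ := by linarith
  have h0z : 0 < 1 - ‖z‖ := by linarith
  have hd : 0 < ‖1 - conj a * z‖ := h0a.trans_le ha'
  have hsq : 0 ≤ 1 - ‖a‖ ^ 2 := by nlinarith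
  have hk : (1 - ‖z‖) * kr a z ≤ min 2 ((1 - ‖a‖ ^ 2) / (1 - ‖z‖)) := by
    apply le_min
    · unfold kr
      rw [← mul_div_assoc, div_le_iff₀ (by positivity)]
      calc (1 - ‖z‖) * (1 - ‖a‖ ^ 2) = (1 + ‖a‖) * ((1 - ‖z‖) * (1 - ‖a‖)) := by ring
        _ ≤ 2 * (‖1 - conj a * z‖ * ‖1 - conj a * z‖) := by
            gcongr
            linarith
        _ = _ := by ring
    · unfold kr
      rw [← mul_div_assoc, div_le_div_iff₀ (by positivity) h0z]
      calc (1 - ‖z‖) * (1 - ‖a‖ ^ 2) * (1 - ‖z‖) = (1 - ‖a‖ ^ 2) * ((1 - ‖z‖) * (1 - ‖z‖)) := by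
            ring
        _ ≤ (1 - ‖a‖ ^ 2) * (‖1 - conj a * z‖ * ‖1 - conj a * z‖) := by gcongr
        _ = _ := by ring
  have h2 := one_sub_pow_le hnz hz.le N
  calc (1 - ‖z‖ ^ (2 * N)) * kr a z ≤ (2 * N * (1 - ‖z‖)) * kr a z := by
        gcongr
        exact kr_nonneg ha.le z
    _ = 2 * N * ((1 - ‖z‖) * kr a z) := by ring
    _ ≤ _ := by gcongr

theorem form_le (A : H2 →L[ℂ] H2) (f : H2) : (inner ℂ (A f) f).re ≤ ‖A‖ * ‖f‖ ^ 2 := by
  calc (inner ℂ (A f) f).re ≤ ‖inner ℂ (A f) f‖ := Complex.re_le_norm _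
    _ ≤ ‖A f‖ * ‖f‖ := norm_inner_le_norm _ _
    _ ≤ (‖A‖ * ‖f‖) * ‖f‖ := by gcongr; exact A.le_opNorm f
    _ = _ := by ring

theorem uat_qi (hφ : DifferentiableOn ℂ φ (ball 0 1))
    (hm : MapsTo φ (ball (0 : ℂ) 1) (ball 0 1)) {C : H2 →L[ℂ] H2}
    (hC : ∀ f : H2, ∀ z ∈ ball (0 : ℂ) 1, ev (C f) z = ev f (φ z))
    {T : H2 →L[ℂ] H2} (hT : Tendsto (compress (adjoint C ∘L C)) atTop (𝓝 T)) {ε : ℝ}
    (hε : 0 < ε) : ∃ N : ℕ, ∀ f : H2, Summable (fun n => ‖f n‖) → qi φ f N ≤ ε * ‖f‖ ^ 2 := by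
  have hc : CauchySeq (compress (adjoint C ∘L C)) := hT.cauchySeq
  rw [Metric.cauchySeq_iff'] at hc
  obtain ⟨N, hN⟩ := hc ε hε
  refine ⟨N, fun f hs => ?_⟩
  have h1 : ∀ n ≥ N, qi φ f N - qi φ f n ≤ ε * ‖f‖ ^ 2 := by
    intro n hn
    have h2 := hN n hn
    rw [dist_comm, dist_eq_norm] at h2
    have h3 := form_le (compress (adjoint C ∘L C) N - compress (adjoint C ∘L C) n) f
    rw [sub_apply, inner_sub_left, compress_form, compress_form, Complex.sub_re,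
      Complex.ofReal_re, Complex.ofReal_re, comp_norm_sq hφ hm hC f hs,
      comp_norm_sq hφ hm hC f hs] at h3
    have h4 := q_split hφ hm f hs N
    have h5 := q_split hφ hm f hs n
    unfold qf at h4 h5
    rw [h4, h5] at h3
    have h6 : ‖compress (adjoint C ∘L C) N - compress (adjoint C ∘L C) n‖ * ‖f‖ ^ 2 ≤
        ε * ‖f‖ ^ 2 := by gcongr
    linarith
  have h2 : Tendsto (fun n => qi φ f N - qi φ f n) atTop (𝓝 (qi φ f N - 0)) :=
    (qi_tendsto hφ hm f hs).const_sub _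
  rw [sub_zero] at h2
  exact le_of_tendsto h2 (eventually_atTop.2 ⟨N, h1⟩)

theorem uat_imp_KC (hφ : DifferentiableOn ℂ φ (ball 0 1))
    (hm : MapsTo φ (ball (0 : ℂ) 1) (ball 0 1)) {C : H2 →L[ℂ] H2}
    (hC : ∀ f : H2, ∀ z ∈ ball (0 : ℂ) 1, ev (C f) z = ev f (φ z))
    {T : H2 →L[ℂ] H2} (hT : Tendsto (compress (adjoint C ∘L C)) atTop (𝓝 T)) : KC φ := by
  intro ε hε
  obtain ⟨N, hN⟩ := uat_qi hφ hm hC hT (half_pos hε)
  -- the remainder
  have hlim : Tendsto (fun s : ℝ => ∫ θ, (if ‖bv φ θ‖ < 1 then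
      2 * (N : ℝ) * min 2 ((1 - s ^ 2) / (1 - ‖bv φ θ‖)) else 0) ∂mT) (𝓝[<] 1)
      (𝓝 (∫ _θ : ℝ, (0 : ℝ) ∂mT)) := by
    apply tendsto_integral_filter_of_dominated_convergence (fun _ => 2 * N * 2)
    · filter_upwards with s
      refine (Measurable.comp_aemeasurable (g := fun z : ℂ => if ‖z‖ < 1 then
        2 * (N : ℝ) * min 2 ((1 - s ^ 2) / (1 - ‖z‖)) else 0) ?_ (bv_aemeas hφ hm)).aestronglyMeasurable
      apply Measurable.ite (measurableSet_lt measurable_norm measurable_const)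
      · fun_prop
      · exact measurable_const
    · filter_upwards [Ioo_mem_nhdsLT (show (0 : ℝ) < 1 from one_pos)] with s hs
      filter_upwards with θ
      split_ifs with h
      · have h1 : 0 ≤ (1 - s ^ 2) / (1 - ‖bv φ θ‖) := by
          apply div_nonneg <;> nlinarith [hs.1, hs.2]
        rw [Real.norm_of_nonneg (by positivity)]
        gcongr
        exact min_le_left _ _
      · rw [norm_zero]; positivity
    · exact integrable_const _
    · filter_upwards with θ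
      split_ifs with h
      · have h1 : Tendsto (fun s : ℝ => 2 * (N : ℝ) * min 2 ((1 - s ^ 2) / (1 - ‖bv φ θ‖))) (𝓝[<] 1)
            (𝓝 (2 * (N : ℝ) * min 2 ((1 - (1 : ℝ) ^ 2) / (1 - ‖bv φ θ‖)))) := by
          have : Continuous fun s : ℝ => 2 * (N : ℝ) * min 2 ((1 - s ^ 2) / (1 - ‖bv φ θ‖)) := by
            fun_prop
          exact this.continuousWithinAt
        have e : 2 * (N : ℝ) * min 2 ((1 - (1 : ℝ) ^ 2) / (1 - ‖bv φ θ‖)) = 0 := by
          norm_num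
        rwa [e] at h1
      · exact tendsto_const_nhds
  rw [integral_zero] at hlim
  have h2 := hlim.eventually_lt_const (half_pos hε)
  rw [(nhdsLT_basis (1 : ℝ)).eventually_iff] at h2
  obtain ⟨s₀, hs₀, h3⟩ := h2
  refine ⟨min (1 - s₀) 1, lt_min (by linarith) one_pos, fun a ha1 ha => ?_⟩
  have hs : ‖a‖ ∈ Ioo s₀ 1 := ⟨by
    have := min_le_left (1 - s₀) 1
    linarith, ha⟩
  have h4 := h3 hs
  have h5 := hN (ker ha) (ker_sum ha)
  rw [ker_norm ha] at h5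
  have hpos : 0 < 1 - ‖a‖ ^ 2 := by nlinarith [norm_nonneg a]
  have h6 : (1 - ‖a‖ ^ 2) * qi φ (ker ha) N ≤ ε / 2 := by
    calc (1 - ‖a‖ ^ 2) * qi φ (ker ha) N ≤ (1 - ‖a‖ ^ 2) * (ε / 2 * (1 - ‖a‖ ^ 2)⁻¹) := by gcongr
      _ = ε / 2 := by field_simp
  -- split
  have hmeas : ∀ F : ℂ → ℝ, Measurable F → Measurable fun z : ℂ => if ‖z‖ < 1 then F z else 0 :=
    fun F hF => Measurable.ite (measurableSet_lt measurable_norm measurable_const) hF
      measurable_const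
  have hkb : ∀ z : ℂ, ‖z‖ < 1 → kr a z ≤ 1 / (1 - ‖a‖) ^ 2 := fun z hz => kr_le ha hz.le
  have hkn : ∀ z : ℂ, 0 ≤ kr a z := fun z => kr_nonneg ha.le z
  have i1 : Integrable (fun θ => if ‖bv φ θ‖ < 1 then ‖bv φ θ‖ ^ (2 * N) * kr a (bv φ θ) else 0)
      mT := by
    apply int_bv (F := fun z => if ‖z‖ < 1 then ‖z‖ ^ (2 * N) * kr a z else 0) _ hφ hm
      (M := 1 / (1 - ‖a‖) ^ 2)
    · intro z _
      split_ifs with h
      · rw [Real.norm_of_nonneg (mul_nonneg (by positivity) (hkn z))]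
        refine le_trans ?_ (hkb z h)
        exact mul_le_of_le_one_left (hkn z) (pow_le_one₀ (norm_nonneg _) h.le)
      · rw [norm_zero]; positivity
    · exact hmeas _ ((measurable_norm.pow_const _).mul (kr_cont a))
  have i2 : Integrable (fun θ => if ‖bv φ θ‖ < 1 then
      2 * (N : ℝ) * min 2 ((1 - ‖a‖ ^ 2) / (1 - ‖bv φ θ‖)) else 0) mT := by
    apply int_bv (F := fun z => if ‖z‖ < 1 then 2 * (N : ℝ) * min 2 ((1 - ‖a‖ ^ 2) / (1 - ‖z‖)) else 0)
      _ hφ hm (M := 2 * N * 2)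
    · intro z _
      split_ifs with h
      · have h1 : 0 ≤ (1 - ‖a‖ ^ 2) / (1 - ‖z‖) := by
          apply div_nonneg hpos.le; linarith
        rw [Real.norm_of_nonneg (by positivity)]
        gcongr
        exact min_le_left _ _
      · rw [norm_zero]; positivity
    · apply hmeas; fun_prop
  have i0 : Integrable (fun θ => if ‖bv φ θ‖ < 1 then kr a (bv φ θ) else 0) mT := by
    apply int_bv (F := fun z => if ‖z‖ < 1 then kr a z else 0) _ hφ hm
      (M := 1 / (1 - ‖a‖) ^ 2)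
    · intro z _
      split_ifs with h
      · rw [Real.norm_of_nonneg (hkn z)]; exact hkb z h
      · rw [norm_zero]; positivity
    · exact hmeas _ (kr_cont a)
  have e1 : (1 - ‖a‖ ^ 2) * qi φ (ker ha) N =
      ∫ θ, (if ‖bv φ θ‖ < 1 then ‖bv φ θ‖ ^ (2 * N) * kr a (bv φ θ) else 0) ∂mT := by
    unfold qi
    rw [← integral_const_mul]
    congr 1
    funext θ
    split_ifs with h
    · rw [← ker_ev_sq ha h.le]; ring
    · rw [mul_zero]
  calc ∫ θ, (if ‖bv φ θ‖ < 1 then kr a (bv φ θ) else 0) ∂mT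
      ≤ ∫ θ, ((if ‖bv φ θ‖ < 1 then ‖bv φ θ‖ ^ (2 * N) * kr a (bv φ θ) else 0) +
          (if ‖bv φ θ‖ < 1 then 2 * (N : ℝ) * min 2 ((1 - ‖a‖ ^ 2) / (1 - ‖bv φ θ‖)) else 0)) ∂mT := by
        apply integral_mono i0 (i1.add i2)
        intro θ
        simp only [Pi.add_apply]
        split_ifs with h
        · have := kr_weight ha h N
          linarith
        · simp
    _ = (1 - ‖a‖ ^ 2) * qi φ (ker ha) N + _ := by rw [integral_add i1 i2, e1]
    _ ≤ ε / 2 + ε / 2 := by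
        gcongr
    _ = ε := by ring

end Pool.Agent.Helper203.Hardy
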