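import Mathlib
import Pool.Agent.Helper203.UAT2

set_option autoImplicit false

open Complex Metric Set Filter MeasureTheory ContinuousLinearMap
open scoped Real Topology ComplexConjugate NNReal ENNReal

namespace Pool.Agent.Helper203.Hardy

variable {φ : ℂ → ℂ}

theorem tail_small (hφ : DifferentiableOn ℂ φ (ball 0 1))
    (hm : MapsTo φ (ball (0 : ℂ) 1) (ball 0 1)) (K : ℝ) {η : ℝ} (hη : 0 < η) :
    ∃ k : ℕ, ∫ θ, (if ‖bv φ θ‖ < 1 ∧ rad k ≤ ‖bv φ θ‖ then K else 0) ∂mT ≤ η := by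
  have hlim : Tendsto (fun k : ℕ => ∫ θ, (if ‖bv φ θ‖ < 1 ∧ rad k ≤ ‖bv φ θ‖ then K else 0) ∂mT)
      atTop (𝓝 (∫ _θ : ℝ, (0 : ℝ) ∂mT)) := by
    apply tendsto_integral_of_dominated_convergence (fun _ => ‖K‖)
    · intro k
      refine (Measurable.comp_aemeasurable (g := fun z : ℂ => if ‖z‖ < 1 ∧ rad k ≤ ‖z‖ then
        K else 0) ?_ (bv_aemeas hφ hm)).aestronglyMeasurable
      apply Measurable.ite _ measurable_const measurable_const
      exact (measurableSet_lt measurable_norm measurable_const).inter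
        (measurableSet_le measurable_const measurable_norm)
    · exact integrable_const _
    · intro k
      filter_upwards with θ
      split_ifs
      · exact le_rfl
      · rw [norm_zero]; positivity
    · filter_upwards with θ
      by_cases h : ‖bv φ θ‖ < 1
      · apply tendsto_const_nhds.congr'
        filter_upwards [rad_tendsto.eventually_const_lt h] with k hk
        rw [if_neg]
        rintro ⟨_, h2⟩
        exact absurd hk (not_lt.2 h2)
      · apply tendsto_const_nhds.congr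
        intro k
        rw [if_neg]
        exact fun h2 => h h2.1
  rw [integral_zero] at hlim
  obtain ⟨k, hk⟩ := (hlim.eventually_lt_const hη).exists
  exact ⟨k, hk.le⟩

/-- Carleson estimate for the boundary function on an outer annulus -/
theorem carl_annulus (hφ : DifferentiableOn ℂ φ (ball 0 1))
    (hm : MapsTo φ (ball (0 : ℂ) 1) (ball 0 1)) {η : ℝ} (hη : 0 < η) (hK : KC φ) :
    ∃ k : ℕ, ∀ f : H2, Summable (fun n => ‖f n‖) →
      ∫ θ, (if ‖bv φ θ‖ < 1 ∧ rad k ≤ ‖bv φ θ‖ then ‖ev f (bv φ θ)‖ ^ 2 else 0) ∂mT ≤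
        32 * η * ‖f‖ ^ 2 := by
  obtain ⟨δ, hδ, hδ'⟩ := hK η hη
  obtain ⟨k, hk⟩ := tail_small hφ hm (1 / δ ^ 2) hη
  refine ⟨k, fun f hs => ?_⟩
  set b : ℝ → ℂ := (bv_aemeas hφ hm).mk with hb
  have hbm : Measurable b := (bv_aemeas hφ hm).measurable_mk
  have hbe : bv φ =ᵐ[mT] b := (bv_aemeas hφ hm).ae_eq_mk
  set S : Set ℝ := {θ | ‖b θ‖ < 1 ∧ rad k ≤ ‖b θ‖} with hS
  have hSm : MeasurableSet S := (measurableSet_lt hbm.norm measurable_const).inter
    (measurableSet_le measurable_const hbm.norm)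
  have hann : ∀ F : ℂ → ℝ, Measurable F → Measurable fun z : ℂ =>
      if ‖z‖ < 1 ∧ rad k ≤ ‖z‖ then F z else 0 := fun F hF =>
    Measurable.ite ((measurableSet_lt measurable_norm measurable_const).inter
      (measurableSet_le measurable_const measurable_norm)) hF measurable_const
  -- conversion
  have hconv : ∀ F : ℂ → ℝ, Measurable F → (∀ z : ℂ, ‖z‖ < 1 → 0 ≤ F z) → ∀ M : ℝ,
      (∀ z : ℂ, ‖z‖ < 1 → F z ≤ M) →
      ∫⁻ θ in S, ENNReal.ofReal (F (b θ)) ∂mT =
        ENNReal.ofReal (∫ θ, (if ‖bv φ θ‖ < 1 ∧ rad k ≤ ‖bv φ θ‖ then F (bv φ θ) else 0) ∂mT) := by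
    intro F hF hF0 M hM
    have hM0 : 0 ≤ M := (hF0 0 (by simp)).trans (hM 0 (by simp))
    rw [ofReal_integral_eq_lintegral_ofReal]
    · rw [← lintegral_indicator hSm]
      apply lintegral_congr_ae
      filter_upwards [hbe] with θ hθ
      by_cases h : θ ∈ S
      · have h' : ‖b θ‖ < 1 ∧ rad k ≤ ‖b θ‖ := h
        rw [indicator_of_mem h, hθ, if_pos h']
      · have h' : ¬ (‖b θ‖ < 1 ∧ rad k ≤ ‖b θ‖) := h
        rw [indicator_of_notMem h, hθ, if_neg h', ENNReal.ofReal_zero]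
    · apply int_bv (F := fun z => if ‖z‖ < 1 ∧ rad k ≤ ‖z‖ then F z else 0) (hann F hF) hφ hm
        (M := M)
      intro z _
      split_ifs with h
      · rw [Real.norm_of_nonneg (hF0 z h.1)]; exact hM z h.1
      · rw [norm_zero]; exact hM0
    · filter_upwards with θ
      by_cases h : ‖bv φ θ‖ < 1 ∧ rad k ≤ ‖bv φ θ‖
      · simp only [if_pos h, Pi.zero_apply]; exact hF0 _ h.1
      · simp only [if_neg h, Pi.zero_apply]; exact le_rfl
  have hA : ∀ a : ℂ, ‖a‖ < 1 → ∫⁻ x, ENNReal.ofReal (kr a (b x)) ∂(mT.restrict S) ≤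
      ENNReal.ofReal η := by
    intro a ha
    rw [hconv (kr a) (kr_cont a) (fun z _ => kr_nonneg ha.le z) (1 / (1 - ‖a‖) ^ 2)
      (fun z hz => kr_le ha hz.le)]
    apply ENNReal.ofReal_le_ofReal
    have ia : Integrable (fun θ => if ‖bv φ θ‖ < 1 ∧ rad k ≤ ‖bv φ θ‖ then kr a (bv φ θ) else 0)
        mT := by
      apply int_bv (F := fun z => if ‖z‖ < 1 ∧ rad k ≤ ‖z‖ then kr a z else 0)
        (hann _ (kr_cont a)) hφ hm (M := 1 / (1 - ‖a‖) ^ 2)
      intro z _
      split_ifs with h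
      · rw [Real.norm_of_nonneg (kr_nonneg ha.le z)]; exact kr_le ha h.1.le
      · rw [norm_zero]; positivity
    by_cases hc : 1 - δ < ‖a‖
    · refine le_trans ?_ (hδ' a hc ha)
      apply integral_mono ia
      · apply int_bv (F := fun z => if ‖z‖ < 1 then kr a z else 0) _ hφ hm
          (M := 1 / (1 - ‖a‖) ^ 2)
        · intro z _
          split_ifs with h
          · rw [Real.norm_of_nonneg (kr_nonneg ha.le z)]; exact kr_le ha h.le
          · rw [norm_zero]; positivity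
        · exact Measurable.ite (measurableSet_lt measurable_norm measurable_const) (kr_cont a)
            measurable_const
      · intro θ
        dsimp only
        by_cases h1 : ‖bv φ θ‖ < 1
        · rw [if_pos h1]
          split_ifs
          · exact le_rfl
          · exact kr_nonneg ha.le _
        · rw [if_neg h1, if_neg (fun h2 => h1 h2.1)]
    · push Not at hc
      refine le_trans ?_ hk
      apply integral_mono ia
      · apply int_bv (F := fun z => if ‖z‖ < 1 ∧ rad k ≤ ‖z‖ then 1 / δ ^ 2 else 0)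
          (hann _ measurable_const) hφ hm (M := 1 / δ ^ 2)
        intro z _
        split_ifs with h
        · rw [Real.norm_of_nonneg (by positivity)]
        · rw [norm_zero]; positivity
      · intro θ
        dsimp only
        split_ifs with h
        · refine (kr_le ha h.1.le).trans ?_
          have : δ ≤ 1 - ‖a‖ := by linarith
          gcongr
        · exact le_rfl
  have hc := carleson (ν := mT.restrict S) hbm (by
    rw [ae_restrict_iff' hSm]
    filter_upwards with θ hθ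
    exact hθ.1) hA (evW_diff f hs)
  rw [evW_parseval f hs] at hc
  have hev : ∀ θ ∈ S, ENNReal.ofReal ‖ev f (b θ)‖ ^ 2 = ENNReal.ofReal (‖evm f (b θ)‖ ^ 2) := by
    intro θ hθ
    rw [evm_eq f hθ.1.le, ENNReal.ofReal_pow (norm_nonneg _)]
  rw [setLIntegral_congr_fun hSm hev,
    hconv (fun z => ‖evm f z‖ ^ 2) ((evm_meas f hs).norm.pow_const 2) (fun z _ => by positivity)
      ((∑' n, ‖f n‖) ^ 2) (fun z _ => by
        have := evm_le f hs z
        gcongr)] at hc
  have e32 : (32 : ℝ≥0∞) * ENNReal.ofReal η * ENNReal.ofReal (‖f‖ ^ 2) =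
      ENNReal.ofReal (32 * η * ‖f‖ ^ 2) := by
    rw [ENNReal.ofReal_mul (by positivity), ENNReal.ofReal_mul (by norm_num)]
    norm_num
  rw [e32, ENNReal.ofReal_le_ofReal_iff (by positivity)] at hc
  refine le_trans (le_of_eq ?_) hc
  congr 1
  funext θ
  split_ifs with h
  · rw [evm_eq f h.1.le]
  · rfl

theorem KC_qi (hφ : DifferentiableOn ℂ φ (ball 0 1))
    (hm : MapsTo φ (ball (0 : ℂ) 1) (ball 0 1)) {C : H2 →L[ℂ] H2}
    (hC : ∀ f : H2, ∀ z ∈ ball (0 : ℂ) 1, ev (C f) z = ev f (φ z)) (hK : KC φ)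
    {ε : ℝ} (hε : 0 < ε) :
    ∃ N : ℕ, ∀ n ≥ N, ∀ f : H2, Summable (fun n => ‖f n‖) → qi φ f n ≤ ε * ‖f‖ ^ 2 := by
  obtain ⟨k, hk⟩ := carl_annulus hφ hm (show 0 < ε / 64 by positivity) hK
  have hr0 := rad_nonneg k
  have hr1 := rad_lt k
  obtain ⟨N, hN⟩ : ∃ N : ℕ, ∀ n ≥ N, rad k ^ (2 * n) * ‖C‖ ^ 2 ≤ ε / 2 := by
    have h1 : Tendsto (fun n : ℕ => rad k ^ (2 * n) * ‖C‖ ^ 2) atTop (𝓝 (0 * ‖C‖ ^ 2)) := by
      apply Tendsto.mul_const
      have h3 := (tendsto_pow_atTop_nhds_zero_of_lt_one hr0 hr1).comp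
        (tendsto_id.nsmul_atTop two_pos)
      refine h3.congr fun n => ?_
      simp
    rw [zero_mul] at h1
    have h2 := h1.eventually_lt_const (half_pos hε)
    rw [eventually_atTop] at h2
    obtain ⟨N, hN⟩ := h2
    exact ⟨N, fun n hn => (hN n hn).le⟩
  refine ⟨N, fun n hn f hs => ?_⟩
  have hmm := evm_meas f hs
  have hMb : ∀ z, ‖evm f z‖ ^ 2 ≤ (∑' n, ‖f n‖) ^ 2 := fun z => by
    have := evm_le f hs z
    gcongr
  have i1 : Integrable (fun θ => if ‖bv φ θ‖ < 1 ∧ rad k ≤ ‖bv φ θ‖ then ‖evm f (bv φ θ)‖ ^ 2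
      else 0) mT := by
    apply int_bv (F := fun z => if ‖z‖ < 1 ∧ rad k ≤ ‖z‖ then ‖evm f z‖ ^ 2 else 0) _ hφ hm
      (M := (∑' n, ‖f n‖) ^ 2)
    · intro z _
      split_ifs
      · rw [Real.norm_of_nonneg (by positivity)]; exact hMb z
      · rw [norm_zero]; positivity
    · exact Measurable.ite ((measurableSet_lt measurable_norm measurable_const).inter
        (measurableSet_le measurable_const measurable_norm)) (hmm.norm.pow_const 2)
        measurable_const
  have i2 : Integrable (fun θ => rad k ^ (2 * n) * ‖evm f (bv φ θ)‖ ^ 2) mT := by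
    apply int_bv (F := fun z => rad k ^ (2 * n) * ‖evm f z‖ ^ 2) _ hφ hm
      (M := (∑' n, ‖f n‖) ^ 2)
    · intro z _
      rw [Real.norm_of_nonneg (by positivity)]
      calc rad k ^ (2 * n) * ‖evm f z‖ ^ 2 ≤ 1 * (∑' n, ‖f n‖) ^ 2 := by
            gcongr
            · exact pow_le_one₀ hr0 hr1.le
            · exact evm_le f hs z
        _ = _ := one_mul _
    · exact (hmm.norm.pow_const 2).const_mul _
  have i0 : Integrable (fun θ => if ‖bv φ θ‖ < 1 then ‖bv φ θ‖ ^ (2 * n) * ‖evm f (bv φ θ)‖ ^ 2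
      else 0) mT := by
    apply int_bv (F := fun z => if ‖z‖ < 1 then ‖z‖ ^ (2 * n) * ‖evm f z‖ ^ 2 else 0) _ hφ hm
      (M := (∑' n, ‖f n‖) ^ 2)
    · intro z hz
      have := pow_evm_le f hs n hz
      split_ifs
      · rw [Real.norm_of_nonneg (by positivity)]; exact this
      · rw [norm_zero]; positivity
    · apply Measurable.ite (measurableSet_lt measurable_norm measurable_const)
      · fun_prop
      · exact measurable_const
  have e0 : qi φ f n = ∫ θ, (if ‖bv φ θ‖ < 1 then ‖bv φ θ‖ ^ (2 * n) * ‖evm f (bv φ θ)‖ ^ 2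
      else 0) ∂mT := by
    apply integral_congr_ae
    filter_upwards [bv_le hφ hm] with θ hθ
    rw [evm_eq f hθ]
  have e1 : ∫ θ, (if ‖bv φ θ‖ < 1 ∧ rad k ≤ ‖bv φ θ‖ then ‖evm f (bv φ θ)‖ ^ 2 else 0) ∂mT ≤
      32 * (ε / 64) * ‖f‖ ^ 2 := by
    refine le_trans (le_of_eq ?_) (hk f hs)
    congr 1
    funext θ
    split_ifs with h
    · rw [evm_eq f h.1.le]
    · rfl
  have e2 : ∫ θ, rad k ^ (2 * n) * ‖evm f (bv φ θ)‖ ^ 2 ∂mT ≤ ε / 2 * ‖f‖ ^ 2 := by
    rw [integral_const_mul]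
    have h1 : ∫ θ, ‖evm f (bv φ θ)‖ ^ 2 ∂mT = ‖C f‖ ^ 2 := by
      have h2 := comp_norm_sq hφ hm hC f hs 0
      simp only [mul_zero, pow_zero, one_mul] at h2
      have h3 : (1 : H2 →L[ℂ] H2) f = f := rfl
      rw [h3] at h2
      rw [h2]
      apply integral_congr_ae
      filter_upwards [bv_le hφ hm] with θ hθ
      rw [evm_eq f hθ]
    rw [h1]
    calc rad k ^ (2 * n) * ‖C f‖ ^ 2 ≤ rad k ^ (2 * n) * (‖C‖ * ‖f‖) ^ 2 := by
          gcongr
          exact C.le_opNorm f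
      _ = (rad k ^ (2 * n) * ‖C‖ ^ 2) * ‖f‖ ^ 2 := by ring
      _ ≤ _ := by
          gcongr
          exact hN n hn
  rw [e0]
  calc ∫ θ, (if ‖bv φ θ‖ < 1 then ‖bv φ θ‖ ^ (2 * n) * ‖evm f (bv φ θ)‖ ^ 2 else 0) ∂mT
      ≤ ∫ θ, ((if ‖bv φ θ‖ < 1 ∧ rad k ≤ ‖bv φ θ‖ then ‖evm f (bv φ θ)‖ ^ 2 else 0) +
        rad k ^ (2 * n) * ‖evm f (bv φ θ)‖ ^ 2) ∂mT := by
        apply integral_mono i0 (i1.add i2)
        intro θ
        simp only [Pi.add_apply]
        by_cases h1 : ‖bv φ θ‖ < 1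
        · rw [if_pos h1]
          by_cases h2 : rad k ≤ ‖bv φ θ‖
          · rw [if_pos ⟨h1, h2⟩]
            have h3 : ‖bv φ θ‖ ^ (2 * n) ≤ 1 := pow_le_one₀ (norm_nonneg _) h1.le
            have h4 : 0 ≤ rad k ^ (2 * n) * ‖evm f (bv φ θ)‖ ^ 2 := by positivity
            have h5 : ‖bv φ θ‖ ^ (2 * n) * ‖evm f (bv φ θ)‖ ^ 2 ≤ 1 * ‖evm f (bv φ θ)‖ ^ 2 := by
              gcongr
            linarith
          · rw [if_neg (fun h => h2 h.2), zero_add]
            push Not at h2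
            gcongr
        · rw [if_neg h1, if_neg (fun h => h1 h.1)]
          positivity
    _ = _ := integral_add i1 i2
    _ ≤ 32 * (ε / 64) * ‖f‖ ^ 2 + ε / 2 * ‖f‖ ^ 2 := add_le_add e1 e2
    _ = ε * ‖f‖ ^ 2 := by ring

theorem dense_W (f : H2) : ∃ g : ℕ → H2, (∀ N, Summable fun n => ‖g N n‖) ∧
    Tendsto g atTop (𝓝 f) := by
  refine ⟨fun N => ∑ i ∈ Finset.range N, lp.single 2 i (f i), fun N => ?_, ?_⟩
  · apply summable_of_ne_finset_zero (s := Finset.range N)
    intro n hn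
    rw [norm_eq_zero]
    have : ((∑ i ∈ Finset.range N, lp.single 2 i (f i) : H2) : ℕ → ℂ) n =
        ∑ i ∈ Finset.range N, (lp.single 2 i (f i) : H2) n := by
      rw [lp.coeFn_sum, Finset.sum_apply]
    rw [this]
    apply Finset.sum_eq_zero
    intro i hi
    rw [lp.single_apply_ne]
    rintro rfl
    exact hn hi
  · exact (lp.hasSum_single (by norm_num) f).tendsto_sum_nat

theorem KC_imp_uat (hφ : DifferentiableOn ℂ φ (ball 0 1))
    (hm : MapsTo φ (ball (0 : ℂ) 1) (ball 0 1)) {C : H2 →L[ℂ] H2}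
    (hC : ∀ f : H2, ∀ z ∈ ball (0 : ℂ) 1, ev (C f) z = ev f (φ z)) (hK : KC φ) :
    ∃ T : H2 →L[ℂ] H2, Tendsto (compress (adjoint C ∘L C)) atTop (𝓝 T) := by
  apply cauchySeq_tendsto_of_complete
  rw [Metric.cauchySeq_iff']
  intro ε hε
  obtain ⟨N, hN⟩ := KC_qi hφ hm hC hK (half_pos hε)
  refine ⟨N, fun n hn => ?_⟩
  rw [dist_comm, dist_eq_norm]
  -- bounds on the form for nice f
  have hW : ∀ f : H2, Summable (fun n => ‖f n‖) →
      ‖C ((Mz ^ n) f)‖ ^ 2 ≤ ‖C ((Mz ^ N) f)‖ ^ 2 ∧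
      ‖C ((Mz ^ N) f)‖ ^ 2 - ‖C ((Mz ^ n) f)‖ ^ 2 ≤ ε / 2 * ‖f‖ ^ 2 := by
    intro f hs
    have h4 := q_split hφ hm f hs N
    have h5 := q_split hφ hm f hs n
    unfold qf at h4 h5
    rw [comp_norm_sq hφ hm hC f hs, comp_norm_sq hφ hm hC f hs, h4, h5]
    have h6 := hN N le_rfl f hs
    have h7 : 0 ≤ qi φ f n := by
      apply integral_nonneg
      intro θ
      by_cases h : ‖bv φ θ‖ < 1
      · simp only [if_pos h, Pi.zero_apply]; positivity
      · simp only [if_neg h, Pi.zero_apply]; exact le_rfl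
    have h8 : qi φ f n ≤ qi φ f N := by
      rw [← add_le_add_iff_right (qb φ f), ← h4, ← h5]
      have hint : ∀ m : ℕ, Integrable (fun θ => ‖bv φ θ‖ ^ (2 * m) * ‖ev f (bv φ θ)‖ ^ 2) mT := by
        intro m
        have h9 : Integrable (fun θ => ‖bv φ θ‖ ^ (2 * m) * ‖evm f (bv φ θ)‖ ^ 2) mT := by
          have hmm := evm_meas f hs
          apply int_bv (F := fun z => ‖z‖ ^ (2 * m) * ‖evm f z‖ ^ 2) (by fun_prop) hφ hm
            (M := (∑' n, ‖f n‖) ^ 2)
          intro z hz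
          rw [Real.norm_of_nonneg (by positivity)]
          exact pow_evm_le f hs m hz
        apply h9.congr
        filter_upwards [bv_le hφ hm] with θ hθ
        rw [evm_eq f hθ]
      apply integral_mono_ae (hint n) (hint N)
      filter_upwards [bv_le hφ hm] with θ hθ
      have : ‖bv φ θ‖ ^ (2 * n) ≤ ‖bv φ θ‖ ^ (2 * N) :=
        pow_le_pow_of_le_one (norm_nonneg _) hθ (by omega)
      gcongr
    constructor
    · linarith
    · linarith
  -- extend by density
  have hall : ∀ f : H2,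
      ‖C ((Mz ^ n) f)‖ ^ 2 ≤ ‖C ((Mz ^ N) f)‖ ^ 2 ∧
      ‖C ((Mz ^ N) f)‖ ^ 2 - ‖C ((Mz ^ n) f)‖ ^ 2 ≤ ε / 2 * ‖f‖ ^ 2 := by
    intro f
    obtain ⟨g, hg1, hg2⟩ := dense_W f
    have hc : ∀ m : ℕ, Tendsto (fun k => ‖C ((Mz ^ m) (g k))‖ ^ 2) atTop
        (𝓝 (‖C ((Mz ^ m) f)‖ ^ 2)) := by
      intro m
      have : Continuous fun f : H2 => ‖C ((Mz ^ m) f)‖ ^ 2 := by fun_prop
      exact (this.tendsto f).comp hg2
    constructor
    · exact le_of_tendsto_of_tendsto' (hc n) (hc N) fun k => (hW (g k) (hg1 k)).1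
    · exact le_of_tendsto_of_tendsto' ((hc N).sub (hc n)) ((hg2.norm.pow 2).const_mul _)
        fun k => (hW (g k) (hg1 k)).2
  set A := compress (adjoint C ∘L C) N - compress (adjoint C ∘L C) n with hA
  have hform : ∀ f : H2, inner ℂ (A f) f =
      ((‖C ((Mz ^ N) f)‖ ^ 2 - ‖C ((Mz ^ n) f)‖ ^ 2 : ℝ) : ℂ) := by
    intro f
    rw [hA, sub_apply, inner_sub_left, compress_form, compress_form]
    push_cast
    ring
  have hApos : 0 ≤ A := by
    rw [ContinuousLinearMap.nonneg_iff_isPositive, ContinuousLinearMap.isPositive_iff_complex]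
    intro f
    rw [hform]
    simp only [RCLike.re_to_complex, Complex.ofReal_re]
    refine ⟨trivial, ?_⟩
    have := (hall f).1
    linarith
  have hAle : A ≤ ((ε / 2 : ℝ) : ℂ) • ContinuousLinearMap.id ℂ H2 := by
    rw [ContinuousLinearMap.le_def, ContinuousLinearMap.isPositive_iff_complex]
    intro f
    have e : inner ℂ ((((ε / 2 : ℝ) : ℂ) • ContinuousLinearMap.id ℂ H2 - A) f) f =
        ((ε / 2 * ‖f‖ ^ 2 - (‖C ((Mz ^ N) f)‖ ^ 2 - ‖C ((Mz ^ n) f)‖ ^ 2) : ℝ) : ℂ) := by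
      rw [sub_apply, inner_sub_left, hform, smul_apply, id_apply, inner_smul_left,
        inner_self_eq_norm_sq_to_K]
      simp only [Complex.conj_ofReal]
      push_cast
      rfl
    rw [e]
    simp only [RCLike.re_to_complex, Complex.ofReal_re]
    refine ⟨trivial, ?_⟩
    have := (hall f).2
    linarith
  have h1 := CStarAlgebra.norm_le_norm_of_nonneg_of_le hApos hAle
  have h2 : ‖((ε / 2 : ℝ) : ℂ) • ContinuousLinearMap.id ℂ H2‖ ≤ ε / 2 := by
    apply ContinuousLinearMap.opNorm_le_bound _ (by positivity)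
    intro f
    rw [smul_apply, id_apply, norm_smul, Complex.norm_real, Real.norm_of_nonneg (by positivity)]
  linarith

end Pool.Agent.Helper203.Hardy
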