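import Mathlib
import Pool.Agent.Helper203.UAT3

set_option autoImplicit false

open Complex Metric Set Filter MeasureTheory ContinuousLinearMap
open scoped Real Topology ComplexConjugate NNReal ENNReal

namespace Pool.Agent.Helper203.Hardy

variable {φ : ℂ → ℂ}

theorem pull_le (hφ : DifferentiableOn ℂ φ (ball 0 1))
    (hm : MapsTo φ (ball (0 : ℂ) 1) (ball 0 1)) (S : Set ℂ) : pull φ S ≤ 1 := by
  have : IsProbabilityMeasure (Measure.map (bv φ) mT) :=
    Measure.isProbabilityMeasure_map (bv_aemeas hφ hm)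
  exact (Measure.restrict_apply_le _ _).trans prob_le_one

theorem pull_integral (hφ : DifferentiableOn ℂ φ (ball 0 1))
    (hm : MapsTo φ (ball (0 : ℂ) 1) (ball 0 1)) (a : ℂ) :
    ∫ z, kr a z ∂(pull φ) = ∫ θ, (if ‖bv φ θ‖ < 1 then kr a (bv φ θ) else 0) ∂mT := by
  unfold pull
  rw [← integral_indicator isOpen_ball.measurableSet]
  rw [integral_map (bv_aemeas hφ hm)]
  · congr 1
    funext θ
    by_cases h : ‖bv φ θ‖ < 1
    · rw [if_pos h, indicator_of_mem (mem_ball_zero_iff.2 h)]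
    · rw [if_neg h, indicator_of_notMem (by rwa [mem_ball_zero_iff])]
  · exact ((kr_cont a).indicator isOpen_ball.measurableSet).aestronglyMeasurable

theorem pull_integrable (hφ : DifferentiableOn ℂ φ (ball 0 1))
    (hm : MapsTo φ (ball (0 : ℂ) 1) (ball 0 1)) {a : ℂ} (ha : ‖a‖ < 1) :
    Integrable (kr a) (pull φ) := by
  have : IsProbabilityMeasure (Measure.map (bv φ) mT) :=
    Measure.isProbabilityMeasure_map (bv_aemeas hφ hm)
  unfold pull
  apply Integrable.of_bound (kr_cont a).aestronglyMeasurable (1 / (1 - ‖a‖) ^ 2)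
  rw [ae_restrict_iff' isOpen_ball.measurableSet]
  filter_upwards with z hz
  rw [mem_ball_zero_iff] at hz
  rw [Real.norm_of_nonneg (kr_nonneg ha.le z)]
  exact kr_le ha hz.le

theorem pull_lint (hφ : DifferentiableOn ℂ φ (ball 0 1))
    (hm : MapsTo φ (ball (0 : ℂ) 1) (ball 0 1)) {a : ℂ} (ha : ‖a‖ < 1) :
    ∫⁻ z, ENNReal.ofReal (kr a z) ∂(pull φ) = ENNReal.ofReal (∫ z, kr a z ∂(pull φ)) :=
  (ofReal_integral_eq_lintegral_ofReal (pull_integrable hφ hm ha)
    (Eventually.of_forall fun z => kr_nonneg ha.le z)).symm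

theorem kr_ge_box {ζ z : ℂ} (hζ : ‖ζ‖ = 1) {h : ℝ} (h0 : 0 < h) (h1 : h < 1)
    (hz : ‖z - ζ‖ ≤ h) (hz1 : ‖z‖ < 1) : 1 / (4 * h) ≤ kr (((1 - h : ℝ) : ℂ) * ζ) z := by
  have hna : ‖((1 - h : ℝ) : ℂ) * ζ‖ = 1 - h := by
    rw [norm_mul, hζ, mul_one, Complex.norm_real, Real.norm_of_nonneg (by linarith)]
  have hcz : conj ζ * ζ = 1 := by
    rw [mul_comm, Complex.mul_conj, Complex.normSq_eq_norm_sq, hζ]; norm_num
  have e : 1 - conj (((1 - h : ℝ) : ℂ) * ζ) * z = -conj ζ * (z - ζ) + (h : ℂ) * (conj ζ * z) := by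
    rw [map_mul, Complex.conj_ofReal]
    push_cast
    linear_combination -hcz
  have hd : ‖1 - conj (((1 - h : ℝ) : ℂ) * ζ) * z‖ ≤ 2 * h := by
    rw [e]
    refine (norm_add_le _ _).trans ?_
    rw [norm_mul, norm_neg, RCLike.norm_conj, hζ, one_mul, norm_mul, norm_mul, RCLike.norm_conj, hζ,
      one_mul, Complex.norm_real, Real.norm_of_nonneg h0.le]
    nlinarith
  have hpos : 0 < ‖1 - conj (((1 - h : ℝ) : ℂ) * ζ) * z‖ :=
    one_sub_pos (by rw [hna]; linarith) hz1.le
  unfold kr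
  rw [hna, div_le_div_iff₀ (by positivity) (by positivity)]
  have h2 : ‖1 - conj (((1 - h : ℝ) : ℂ) * ζ) * z‖ ^ 2 ≤ (2 * h) ^ 2 := by gcongr
  nlinarith [mul_pos h0 h0, mul_pos (mul_pos h0 h0) h0, mul_pos h0 (sub_pos.2 h1)]

theorem KC_imp_VC (hφ : DifferentiableOn ℂ φ (ball 0 1))
    (hm : MapsTo φ (ball (0 : ℂ) 1) (ball 0 1))
    (hK : ∀ ε > 0, ∃ δ > 0, ∀ a : ℂ, 1 - δ < ‖a‖ → ‖a‖ < 1 → ∫ z, kr a z ∂(pull φ) ≤ ε) :
    VanishingCarleson (pull φ) := by
  intro ε hε
  obtain ⟨δ, hδ, hK'⟩ := hK (ε / 4) (by positivity)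
  refine ⟨min δ 1, lt_min hδ one_pos, fun ζ hζ h h0 h1 => ?_⟩
  have hh1 : h < 1 := h1.trans_le (min_le_right _ _)
  have hhδ : h < δ := h1.trans_le (min_le_left _ _)
  set a : ℂ := ((1 - h : ℝ) : ℂ) * ζ with ha
  have hna : ‖a‖ = 1 - h := by
    rw [ha, norm_mul, hζ, mul_one, Complex.norm_real, Real.norm_of_nonneg (by linarith)]
  have ha1 : ‖a‖ < 1 := by rw [hna]; linarith
  have h2 := hK' a (by rw [hna]; linarith) ha1
  have h3 : ENNReal.ofReal (1 / (4 * h)) * pull φ (closedBall ζ h) ≤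
      ∫⁻ z, ENNReal.ofReal (kr a z) ∂(pull φ) := by
    have h4 : ∀ᵐ z ∂(pull φ), (closedBall ζ h).indicator (fun _ => ENNReal.ofReal (1 / (4 * h))) z ≤
        ENNReal.ofReal (kr a z) := by
      unfold pull
      rw [ae_restrict_iff' isOpen_ball.measurableSet]
      filter_upwards with z hz
      rw [mem_ball_zero_iff] at hz
      by_cases hzb : z ∈ closedBall ζ h
      · rw [indicator_of_mem hzb]
        apply ENNReal.ofReal_le_ofReal
        rw [mem_closedBall, dist_eq_norm] at hzb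
        exact kr_ge_box hζ h0 hh1 hzb hz
      · rw [indicator_of_notMem hzb]; exact bot_le
    have h5 := lintegral_mono_ae h4
    rwa [lintegral_indicator_const isClosed_closedBall.measurableSet] at h5
  rw [pull_lint hφ hm ha1] at h3
  have h6 : ENNReal.ofReal (1 / (4 * h)) * pull φ (closedBall ζ h) ≤ ENNReal.ofReal (ε / 4) :=
    h3.trans (ENNReal.ofReal_le_ofReal h2)
  have hc : ENNReal.ofReal (4 * h) * ENNReal.ofReal (1 / (4 * h)) = 1 := by
    rw [← ENNReal.ofReal_mul (by positivity)]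
    rw [mul_one_div_cancel (by positivity), ENNReal.ofReal_one]
  calc pull φ (closedBall ζ h) = ENNReal.ofReal (4 * h) *
        (ENNReal.ofReal (1 / (4 * h)) * pull φ (closedBall ζ h)) := by
        rw [← mul_assoc, hc, one_mul]
    _ ≤ ENNReal.ofReal (4 * h) * ENNReal.ofReal (ε / 4) := by gcongr
    _ = ENNReal.ofReal (ε * h) := by
        rw [← ENNReal.ofReal_mul (by positivity)]
        congr 1
        ring

theorem kr_dyadic {a z ζ : ℂ} {h δ₀ : ℝ} (h0 : 0 < h) (h1 : h ≤ 1) (hζ : ‖ζ‖ = 1)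
    (ha : a = ((1 - h : ℝ) : ℂ) * ζ) (hδ₀ : 0 < δ₀) (hz1 : ‖z‖ < 1) :
    ENNReal.ofReal (kr a z) ≤ (∑' j : ℕ, ENNReal.ofReal (32 / (4 ^ j * h)) *
      (closedBall ζ (min (2 ^ j * h) δ₀)).indicator 1 z) + ENNReal.ofReal (8 * h / δ₀ ^ 2) := by
  have hna : ‖a‖ = 1 - h := by
    rw [ha, norm_mul, hζ, mul_one, Complex.norm_real, Real.norm_of_nonneg (by linarith)]
  have hcz : conj ζ * ζ = 1 := by
    rw [mul_comm, Complex.mul_conj, Complex.normSq_eq_norm_sq, hζ]; norm_num
  have hD1 : h ≤ ‖1 - conj a * z‖ := by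
    have h3 := norm_sub_norm_le (1 : ℂ) (conj a * z)
    rw [norm_one, norm_mul, RCLike.norm_conj, hna] at h3
    nlinarith [norm_nonneg z]
  have hD2 : ‖z - ζ‖ ≤ 2 * ‖1 - conj a * z‖ := by
    have e : z - ζ = -ζ * ((1 - conj a * z) - (h : ℂ) * (conj ζ * z)) := by
      rw [ha, map_mul, Complex.conj_ofReal]
      push_cast
      linear_combination (-z) * hcz
    rw [e, norm_mul, norm_neg, hζ, one_mul]
    refine (norm_sub_le _ _).trans ?_
    rw [norm_mul, norm_mul, RCLike.norm_conj, hζ, one_mul, Complex.norm_real,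
      Real.norm_of_nonneg h0.le]
    nlinarith [norm_nonneg z]
  have hDpos : 0 < ‖1 - conj a * z‖ := h0.trans_le hD1
  have hnum : 1 - ‖a‖ ^ 2 ≤ 2 * h := by rw [hna]; nlinarith
  by_cases hfar : δ₀ < ‖z - ζ‖
  · refine le_trans ?_ le_add_self
    apply ENNReal.ofReal_le_ofReal
    unfold kr
    rw [div_le_div_iff₀ (by positivity) (by positivity)]
    have h4 : δ₀ ^ 2 ≤ (2 * ‖1 - conj a * z‖) ^ 2 := by
      have : δ₀ ≤ 2 * ‖1 - conj a * z‖ := by linarith
      gcongr
    calc (1 - ‖a‖ ^ 2) * δ₀ ^ 2 ≤ 2 * h * (2 * ‖1 - conj a * z‖) ^ 2 := by gcongr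
      _ = _ := by ring
  · push Not at hfar
    refine le_trans ?_ le_self_add
    -- find the dyadic index
    have hex : ∃ j : ℕ, ‖z - ζ‖ ≤ 2 ^ j * h := by
      obtain ⟨j, hj⟩ := pow_unbounded_of_one_lt (‖z - ζ‖ / h) (one_lt_two)
      exact ⟨j, by rw [div_lt_iff₀ h0] at hj; exact hj.le⟩
    classical
    set j := Nat.find hex with hj
    have hj1 : ‖z - ζ‖ ≤ 2 ^ j * h := Nat.find_spec hex
    have hmem : z ∈ closedBall ζ (min (2 ^ j * h) δ₀) := by
      rw [mem_closedBall, dist_eq_norm]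
      exact le_min hj1 hfar
    refine le_trans ?_ (ENNReal.le_tsum j)
    rw [indicator_of_mem hmem, Pi.one_apply, mul_one]
    apply ENNReal.ofReal_le_ofReal
    unfold kr
    rw [div_le_div_iff₀ (by positivity) (by positivity)]
    rcases Nat.eq_zero_or_pos j with hz0 | hpos
    · rw [hz0, pow_zero, one_mul]
      have h5 : h ^ 2 ≤ ‖1 - conj a * z‖ ^ 2 := by gcongr
      calc (1 - ‖a‖ ^ 2) * h ≤ 2 * h * h := by gcongr
        _ = 2 * h ^ 2 := by ring
        _ ≤ 32 * ‖1 - conj a * z‖ ^ 2 := by nlinarith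
    · obtain ⟨i, hi⟩ : ∃ i, j = i + 1 := ⟨j - 1, by omega⟩
      have h6 : ¬ ‖z - ζ‖ ≤ 2 ^ i * h := Nat.find_min hex (by omega)
      push Not at h6
      have h7 : 2 ^ i * h ≤ 2 * ‖1 - conj a * z‖ := by linarith
      have h8 : (2 ^ i * h) ^ 2 ≤ (2 * ‖1 - conj a * z‖) ^ 2 := by gcongr
      rw [hi]
      have e4 : (4 : ℝ) ^ (i + 1) = 4 * (2 ^ i) ^ 2 := by
        rw [pow_succ, show (4 : ℝ) = 2 ^ 2 by norm_num, ← pow_mul, ← pow_mul]
        ring
      calc (1 - ‖a‖ ^ 2) * (4 ^ (i + 1) * h) ≤ 2 * h * (4 ^ (i + 1) * h) := by gcongr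
        _ = 8 * (2 ^ i * h) ^ 2 := by rw [e4]; ring
        _ ≤ 8 * (2 * ‖1 - conj a * z‖) ^ 2 := by gcongr
        _ = 32 * ‖1 - conj a * z‖ ^ 2 := by ring

theorem VC_imp_KC (hφ : DifferentiableOn ℂ φ (ball 0 1))
    (hm : MapsTo φ (ball (0 : ℂ) 1) (ball 0 1)) (hV : VanishingCarleson (pull φ)) :
    ∀ ε > 0, ∃ δ > 0, ∀ a : ℂ, 1 - δ < ‖a‖ → ‖a‖ < 1 → ∫ z, kr a z ∂(pull φ) ≤ ε := by
  intro ε hε
  obtain ⟨δ, hδ, hV'⟩ := hV (ε / 128) (by positivity)
  set δ₀ : ℝ := δ / 2 with hδ₀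
  have hδ₀p : 0 < δ₀ := by positivity
  refine ⟨min (ε * δ₀ ^ 2 / 16) 1, by positivity, fun a ha1 ha => ?_⟩
  set h : ℝ := 1 - ‖a‖ with hh
  have h0 : 0 < h := by linarith
  have hh1 : h ≤ 1 := by rw [hh]; linarith [norm_nonneg a]
  have hhs : h ≤ ε * δ₀ ^ 2 / 16 := by
    have := min_le_left (ε * δ₀ ^ 2 / 16) 1
    linarith
  have hlt1 : h < 1 := by
    have := min_le_right (ε * δ₀ ^ 2 / 16) 1
    linarith
  have hane : a ≠ 0 := by
    intro h2
    rw [h2, norm_zero] at hh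
    linarith
  have hnpos : 0 < ‖a‖ := norm_pos_iff.2 hane
  set ζ : ℂ := a / (‖a‖ : ℂ) with hζdef
  have hζ : ‖ζ‖ = 1 := by
    rw [hζdef, norm_div, Complex.norm_real, norm_norm, div_self hnpos.ne']
  have haeq : a = ((1 - h : ℝ) : ℂ) * ζ := by
    have : (1 - h : ℝ) = ‖a‖ := by rw [hh]; ring
    rw [this, hζdef]
    have : (‖a‖ : ℂ) ≠ 0 := by exact_mod_cast hnpos.ne'
    field_simp
  have hbox : ∀ j : ℕ, pull φ (closedBall ζ (min (2 ^ j * h) δ₀)) ≤
      ENNReal.ofReal (ε / 128 * (2 ^ j * h)) := by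
    intro j
    refine (hV' ζ hζ (min (2 ^ j * h) δ₀) (by positivity) ?_).trans ?_
    · calc min (2 ^ j * h) δ₀ ≤ δ₀ := min_le_right _ _
        _ < δ := by rw [hδ₀]; linarith
    · apply ENNReal.ofReal_le_ofReal
      gcongr
      exact min_le_left _ _
  have key : ∫⁻ z, ENNReal.ofReal (kr a z) ∂(pull φ) ≤ ENNReal.ofReal ε := by
    calc ∫⁻ z, ENNReal.ofReal (kr a z) ∂(pull φ)
        ≤ ∫⁻ z, ((∑' j : ℕ, ENNReal.ofReal (32 / (4 ^ j * h)) *
          (closedBall ζ (min (2 ^ j * h) δ₀)).indicator 1 z) +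
          ENNReal.ofReal (8 * h / δ₀ ^ 2)) ∂(pull φ) := by
          apply lintegral_mono_ae
          unfold pull
          rw [ae_restrict_iff' isOpen_ball.measurableSet]
          filter_upwards with z hz
          rw [mem_ball_zero_iff] at hz
          exact kr_dyadic h0 hh1 hζ haeq hδ₀p hz
      _ = (∑' j : ℕ, ENNReal.ofReal (32 / (4 ^ j * h)) *
          pull φ (closedBall ζ (min (2 ^ j * h) δ₀))) +
          ENNReal.ofReal (8 * h / δ₀ ^ 2) * pull φ univ := by
          rw [lintegral_add_right _ measurable_const, lintegral_const]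
          congr 1
          rw [lintegral_tsum]
          · congr 1
            funext j
            rw [lintegral_const_mul]
            · rw [lintegral_indicator_one isClosed_closedBall.measurableSet]
            · exact measurable_one.indicator isClosed_closedBall.measurableSet
          · intro j
            apply Measurable.aemeasurable
            exact (measurable_one.indicator isClosed_closedBall.measurableSet).const_mul _
      _ ≤ (∑' j : ℕ, ENNReal.ofReal (ε / 4 * (1 / 2) ^ j)) + ENNReal.ofReal (ε / 2) * 1 := by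
          refine add_le_add (ENNReal.tsum_le_tsum fun j => ?_)
            (mul_le_mul' (ENNReal.ofReal_le_ofReal ?_) (pull_le hφ hm univ))
          · calc ENNReal.ofReal (32 / (4 ^ j * h)) * pull φ (closedBall ζ (min (2 ^ j * h) δ₀))
                ≤ ENNReal.ofReal (32 / (4 ^ j * h)) * ENNReal.ofReal (ε / 128 * (2 ^ j * h)) := by
                  gcongr
                  exact hbox j
              _ = ENNReal.ofReal (ε / 4 * (1 / 2) ^ j) := by
                  rw [← ENNReal.ofReal_mul (by positivity)]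
                  congr 1
                  have e4 : (4 : ℝ) ^ j = 2 ^ j * 2 ^ j := by
                    rw [← mul_pow]; norm_num
                  rw [e4, one_div, inv_pow]
                  field_simp
                  norm_num
          · rw [div_le_iff₀ (by positivity)]
            linarith
      _ = ENNReal.ofReal ε := by
          rw [← ENNReal.ofReal_tsum_of_nonneg (fun j => by positivity)
            ((summable_geometric_of_lt_one (by norm_num) (by norm_num)).mul_left _),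
            tsum_mul_left, tsum_geometric_of_lt_one (by norm_num) (by norm_num), mul_one,
            ← ENNReal.ofReal_add (by positivity) (by positivity)]
          congr 1
          ring
  rw [pull_lint hφ hm ha, ENNReal.ofReal_le_ofReal_iff hε.le] at key
  exact key

end Pool.Agent.Helper203.Hardy
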