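import Mathlib
import Pool.Agent.Helper203.HDefs

set_option autoImplicit false

open Complex Metric Set Filter MeasureTheory
open scoped Real Topology ComplexConjugate NNReal ENNReal

namespace Pool.Agent.Helper203.Hardy

/-- The Hardy space `H²`, as the Hilbert space `ℓ²(ℕ)` of Taylor coefficient sequences. -/
def HS : Type := lp (fun _ : ℕ => ℂ) 2

noncomputable instance hsN : NormedAddCommGroup HS :=
  lp.normedAddCommGroup (E := fun _ : ℕ => ℂ) (p := 2)

noncomputable instance hsI : InnerProductSpace ℂ HS :=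
  lp.instInnerProductSpace (𝕜 := ℂ) (G := fun _ : ℕ => ℂ)

instance hsC : CompleteSpace HS :=
  lp.completeSpace (E := fun _ : ℕ => ℂ) (p := 2)

/-- The `n`-th Taylor coefficient of `f`. -/
def coef (f : HS) (n : ℕ) : ℂ := (id f : lp (fun _ : ℕ => ℂ) 2) n

/-- The value at `z` of the analytic function `f`. -/
noncomputable def eval (f : HS) (z : ℂ) : ℂ := ∑' n, coef f n * z ^ n

/-- The bounded linear operators on `H²`. -/
abbrev Op := HS →L[ℂ] HS

/-- `S` is the operator `M_z` of multiplication by the coordinate function. -/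
def IsMz (S : Op) : Prop := ∀ f : HS, ∀ z ∈ ball (0 : ℂ) 1, eval (S f) z = z * eval f z

/-- `C` is the composition operator `f ↦ f ∘ φ`. -/
def IsCompOp (φ : ℂ → ℂ) (C : Op) : Prop :=
  ∀ f : HS, ∀ z ∈ ball (0 : ℂ) 1, eval (C f) z = eval f (φ z)

/-- `T` is uniformly asymptotically Toeplitz: `S^{*n} T S^n` converges in operator norm. Here
`S = M_z`, the multiplication of `Op` is composition and `star` is the Hilbert space adjoint. -/
def UAT (S T : Op) : Prop :=
  ∃ L : Op, Tendsto (fun n : ℕ => star (S ^ n) * T * S ^ n) atTop (𝓝 L)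

/-- `T` is strongly asymptotically Toeplitz: `S^{*n} T S^n` converges strongly. -/
def SAT (S T : Op) : Prop :=
  ∃ L : Op, ∀ f : HS, Tendsto (fun n : ℕ => (star (S ^ n) * T * S ^ n) f) atTop (𝓝 (L f))

end Pool.Agent.Helper203.Hardy
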