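import Pool.Agent.Helper203.NSF

set_option autoImplicit false

open Complex Metric Set Filter MeasureTheory
open scoped Real Topology ComplexConjugate Interval

namespace Pool.Agent.Helper203.NS

variable {φ : ℂ → ℂ}

/-- directions along which `‖φ‖` stays above the modulus -/
def AS (φ : ℂ → ℂ) : Set ℝ :=
  {α | ∀ ρ : ℝ, 0 ≤ ρ → ρ < 1 → ρ ≤ ‖φ (circleMap 0 ρ α)‖}

theorem cm_norm {ρ : ℝ} (h0 : 0 ≤ ρ) (α : ℝ) : ‖circleMap 0 ρ α‖ = ρ := by
  rw [norm_circleMap_zero, abs_of_nonneg h0]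

theorem cm_eq (ρ α : ℝ) : circleMap 0 ρ α = ρ * cexp (α * I) := circleMap_zero ρ α

theorem exp_norm (α : ℝ) : ‖cexp (α * I)‖ = 1 := Complex.norm_exp_ofReal_mul_I α

theorem phi_cm_cont (hφ : DifferentiableOn ℂ φ (ball (0 : ℂ) 1)) {ρ : ℝ} (h0 : 0 ≤ ρ)
    (h1 : ρ < 1) : Continuous (fun α : ℝ => φ (circleMap 0 ρ α)) := by
  apply hφ.continuousOn.comp_continuous (continuous_circleMap 0 ρ)
  intro θ
  rw [mem_ball_zero_iff, cm_norm h0]
  exact h1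

theorem AS_closed (hφ : DifferentiableOn ℂ φ (ball (0 : ℂ) 1)) : IsClosed (AS φ) := by
  have : AS φ = ⋂ ρ : ℝ, ⋂ _ : 0 ≤ ρ, ⋂ _ : ρ < 1, {α | ρ ≤ ‖φ (circleMap 0 ρ α)‖} := by
    ext α; simp [AS]
  rw [this]
  apply isClosed_iInter; intro ρ
  apply isClosed_iInter; intro h0
  apply isClosed_iInter; intro h1
  exact isClosed_le continuous_const (phi_cm_cont hφ h0 h1).norm

theorem AS_periodic (α : ℝ) : α + 2 * π ∈ AS φ ↔ α ∈ AS φ := by
  simp only [AS, mem_ofPred_eq, (periodic_circleMap 0 _ _)]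

theorem not_AS_ray (hφ : DifferentiableOn ℂ φ (ball (0 : ℂ) 1))
    (hm : MapsTo φ (ball (0 : ℂ) 1) (ball (0 : ℂ) 1)) {α ρ₀ ρ : ℝ} (h0 : 0 ≤ ρ₀)
    (h : ‖φ (circleMap 0 ρ₀ α)‖ < ρ₀) (h01 : ρ₀ ≤ ρ) (h1 : ρ < 1) :
    ‖φ (circleMap 0 ρ α)‖ < ρ := by
  rcases h01.eq_or_lt with h2 | h2
  · rw [← h2]; exact h
  · rw [cm_eq] at h ⊢
    exact radial_lt hφ hm (exp_norm α) h0 h2 h1 h

/-- strictness along rays in `AS` when `φ 0 ≠ 0` -/
theorem AS_strict (hφ : DifferentiableOn ℂ φ (ball (0 : ℂ) 1))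
    (hm : MapsTo φ (ball (0 : ℂ) 1) (ball (0 : ℂ) 1)) (hφ0 : φ 0 ≠ 0) {α ρ₀ : ℝ}
    (hα : α ∈ AS φ) (h0 : 0 ≤ ρ₀) (h1 : ρ₀ < 1) : ρ₀ < ‖φ (circleMap 0 ρ₀ α)‖ := by
  rcases (hα ρ₀ h0 h1).lt_or_eq with h | h
  · exact h
  exfalso
  set e := cexp (α * I) with he
  have hen : ‖e‖ = 1 := exp_norm α
  have heq : ∀ ρ : ℝ, ρ₀ < ρ → ρ < 1 → ‖φ (ρ * e)‖ = ρ := by
    intro ρ h2 h3
    apply le_antisymm
    · apply radial_le hφ hm hen h0 h2 h3
      rw [← cm_eq]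
      exact h.symm.le
    · have := hα ρ (h0.trans h2.le) h3
      rwa [cm_eq] at this
  set F : ℂ → ℂ := fun z => φ (z * e) * conj (φ (conj z * e)) - z ^ 2 with hF
  have hd1 : ∀ z ∈ ball (0 : ℂ) 1, DifferentiableAt ℂ (fun z => φ (z * e)) z := by
    intro z hz
    have hz' : ‖z * e‖ < 1 := by
      rw [norm_mul, hen, mul_one]; simpa using hz
    have h4 : DifferentiableAt ℂ φ (z * e) :=
      hφ.differentiableAt (isOpen_ball.mem_nhds (by simpa using hz'))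
    exact h4.comp z (by fun_prop)
  have hd2 : ∀ z ∈ ball (0 : ℂ) 1, DifferentiableAt ℂ (fun z => conj (φ (conj z * e))) z := by
    intro z hz
    have hz' : conj z ∈ ball (0 : ℂ) 1 := by
      rw [mem_ball_zero_iff, RCLike.norm_conj]; simpa using hz
    have h4 := (hd1 _ hz').conj_conj
    simp only [Complex.conj_conj] at h4
    exact h4
  have hFd : DifferentiableOn ℂ F (ball (0 : ℂ) 1) := by
    intro z hz
    apply DifferentiableAt.differentiableWithinAt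
    exact ((hd1 z hz).mul (hd2 z hz)).sub (by fun_prop)
  have hFa : AnalyticOnNhd ℂ F (ball (0 : ℂ) 1) := hFd.analyticOnNhd isOpen_ball
  have hzero : ∀ ρ : ℝ, ρ₀ < ρ → ρ < 1 → F ρ = 0 := by
    intro ρ h2 h3
    simp only [hF, Complex.conj_ofReal]
    rw [Complex.mul_conj, Complex.normSq_eq_norm_sq, heq ρ h2 h3]
    push_cast
    ring
  set ρ₁ : ℝ := (ρ₀ + 1) / 2 with hρ₁
  have hρ₁a : ρ₀ < ρ₁ := by rw [hρ₁]; linarith
  have hρ₁b : ρ₁ < 1 := by rw [hρ₁]; linarith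
  have hmem : (ρ₁ : ℂ) ∈ ball (0 : ℂ) 1 := by
    rw [mem_ball_zero_iff, Complex.norm_real, Real.norm_eq_abs, abs_of_nonneg (by linarith)]
    exact hρ₁b
  have hfreq : ∃ᶠ z in 𝓝[≠] (ρ₁ : ℂ), F z = 0 := by
    have ht : Tendsto (fun x : ℝ => (x : ℂ)) (𝓝[>] ρ₁) (𝓝[≠] (ρ₁ : ℂ)) := by
      apply tendsto_nhdsWithin_of_tendsto_nhds_of_eventually_within
      · exact (Complex.continuous_ofReal.tendsto ρ₁).mono_left nhdsWithin_le_nhds
      · filter_upwards [self_mem_nhdsWithin] with x hx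
        simp only [mem_compl_iff, mem_singleton_iff, Complex.ofReal_inj]
        exact ne_of_gt hx
    apply ht.frequently
    apply Eventually.frequently
    filter_upwards [Ioo_mem_nhdsGT hρ₁b] with x hx
    exact hzero x (hρ₁a.trans hx.1) hx.2
  have h0' := hFa.eqOn_zero_of_preconnected_of_frequently_eq_zero
    (convex_ball (0 : ℂ) 1).isPreconnected hmem hfreq (mem_ball_self one_pos)
  simp only [hF, Pi.zero_apply, zero_mul, map_zero] at h0'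
  rw [Complex.mul_conj] at h0'
  simp at h0'
  exact hφ0 h0'

theorem lip_ray (hφ : DifferentiableOn ℂ φ (ball (0 : ℂ) 1))
    (hm : MapsTo φ (ball (0 : ℂ) 1) (ball (0 : ℂ) 1)) {α : ℝ} (hα : α ∈ AS φ) {ρ ρ' : ℝ}
    (h0 : 0 ≤ ρ) (h1 : ρ < 1) (h0' : 0 ≤ ρ') (h1' : ρ' < 1) :
    ‖φ (circleMap 0 ρ' α) - φ (circleMap 0 ρ α)‖ ≤ |ρ' - ρ| := by
  set e := cexp (α * I) with he
  have hen : ‖e‖ = 1 := exp_norm α
  have key := Convex.norm_image_sub_le_of_norm_hasDerivWithin_le (𝕜 := ℝ)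
    (f := fun x : ℝ => φ (x * e)) (f' := fun x : ℝ => deriv φ (x * e) * e) (C := 1)
    (s := Ico (0 : ℝ) 1) (x := ρ) (y := ρ') ?_ ?_ (convex_Ico 0 1) ⟨h0, h1⟩ ⟨h0', h1'⟩
  · rw [cm_eq, cm_eq]
    simpa using key
  · intro x hx
    have hx' : ‖(x : ℂ) * e‖ < 1 := by
      rw [norm_mul, hen, mul_one, Complex.norm_real, Real.norm_eq_abs, abs_of_nonneg hx.1]
      exact hx.2
    have h4 : HasDerivAt φ (deriv φ (x * e)) (x * e) :=
      (hφ.differentiableAt (isOpen_ball.mem_nhds (by simpa using hx'))).hasDerivAt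
    have h5 : HasDerivAt (fun z : ℂ => z * e) e (x : ℂ) := by
      simpa using (hasDerivAt_id (x : ℂ)).mul_const e
    exact ((h4.comp (x : ℂ) h5).comp_ofReal).hasDerivWithinAt
  · intro x hx
    have hx' : ‖(x : ℂ) * e‖ = x := by
      rw [norm_mul, hen, mul_one, Complex.norm_real, Real.norm_eq_abs, abs_of_nonneg hx.1]
    rw [norm_mul, hen, mul_one]
    apply deriv_le_one hφ hm
    · rw [hx']; exact hx.2
    · rw [hx']
      have := hα x hx.1 hx.2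
      rwa [cm_eq] at this

/-- boundary values along rays -/
noncomputable def Bd (φ : ℂ → ℂ) (α : ℝ) : ℂ :=
  limUnder (𝓝[<] (1 : ℝ)) (fun ρ => φ (circleMap 0 ρ α))

theorem Bd_tendsto (hφ : DifferentiableOn ℂ φ (ball (0 : ℂ) 1))
    (hm : MapsTo φ (ball (0 : ℂ) 1) (ball (0 : ℂ) 1)) {α : ℝ} (hα : α ∈ AS φ) :
    Tendsto (fun ρ : ℝ => φ (circleMap 0 ρ α)) (𝓝[<] 1) (𝓝 (Bd φ α)) := by
  apply tendsto_nhds_limUnder
  apply cauchy_map_iff_exists_tendsto.mp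
  rw [Metric.cauchy_iff]
  refine ⟨inferInstance, fun ε hε => ?_⟩
  refine ⟨(fun ρ : ℝ => φ (circleMap 0 ρ α)) '' (Ioo (max 0 (1 - ε)) 1), ?_, ?_⟩
  · apply image_mem_map
    apply Ioo_mem_nhdsLT
    apply max_lt <;> linarith
  · rintro x ⟨ρ, hρ, rfl⟩ y ⟨ρ', hρ', rfl⟩
    have h1 := (le_max_left 0 (1 - ε)).trans_lt hρ.1
    have h2 := (le_max_left 0 (1 - ε)).trans_lt hρ'.1
    have h3 := (le_max_right 0 (1 - ε)).trans_lt hρ.1
    have h4 := (le_max_right 0 (1 - ε)).trans_lt hρ'.1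
    rw [dist_eq_norm]
    refine (lip_ray hφ hm hα h2.le hρ'.2 h1.le hρ.2).trans_lt ?_
    rw [abs_lt]
    constructor <;> linarith [hρ.2, hρ'.2]

theorem Bd_dist (hφ : DifferentiableOn ℂ φ (ball (0 : ℂ) 1))
    (hm : MapsTo φ (ball (0 : ℂ) 1) (ball (0 : ℂ) 1)) {α : ℝ} (hα : α ∈ AS φ) {ρ : ℝ}
    (h0 : 0 ≤ ρ) (h1 : ρ < 1) : ‖Bd φ α - φ (circleMap 0 ρ α)‖ ≤ 1 - ρ := by
  have ht : Tendsto (fun ρ' : ℝ => ‖φ (circleMap 0 ρ' α) - φ (circleMap 0 ρ α)‖) (𝓝[<] 1)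
      (𝓝 ‖Bd φ α - φ (circleMap 0 ρ α)‖) := ((Bd_tendsto hφ hm hα).sub_const _).norm
  apply le_of_tendsto ht
  filter_upwards [Ioo_mem_nhdsLT h1] with ρ' hρ'
  refine (lip_ray hφ hm hα h0 h1 (h0.trans hρ'.1.le) hρ'.2).trans ?_
  rw [abs_of_nonneg (by linarith [hρ'.1])]
  linarith [hρ'.2]

theorem Bd_norm (hφ : DifferentiableOn ℂ φ (ball (0 : ℂ) 1))
    (hm : MapsTo φ (ball (0 : ℂ) 1) (ball (0 : ℂ) 1)) {α : ℝ} (hα : α ∈ AS φ) :
    ‖Bd φ α‖ = 1 := by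
  have ht := (Bd_tendsto hφ hm hα).norm
  apply le_antisymm
  · apply le_of_tendsto ht
    filter_upwards [Ioo_mem_nhdsLT (show (0 : ℝ) < 1 by norm_num)] with ρ hρ
    exact (norm_lt_of hm (by rw [cm_norm hρ.1.le]; exact hρ.2)).le
  · have h1 : Tendsto (fun ρ : ℝ => ρ) (𝓝[<] 1) (𝓝 1) := tendsto_id.mono_left nhdsWithin_le_nhds
    apply le_of_tendsto_of_tendsto h1 ht
    filter_upwards [Ioo_mem_nhdsLT (show (0 : ℝ) < 1 by norm_num)] with ρ hρ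
    exact hα ρ hρ.1.le hρ.2

theorem Bd_periodic (α : ℝ) : Bd φ (α + 2 * π) = Bd φ α := by
  unfold Bd
  congr 1
  funext ρ
  rw [periodic_circleMap]

theorem Bd_meas (hφ : DifferentiableOn ℂ φ (ball (0 : ℂ) 1))
    (hm : MapsTo φ (ball (0 : ℂ) 1) (ball (0 : ℂ) 1)) :
    AEStronglyMeasurable (Bd φ) (volume.restrict (AS φ)) := by
  set R : ℕ → ℝ := fun n => 1 - 1 / ((n : ℝ) + 1) with hR
  have hR0 : ∀ n, 0 ≤ R n := by
    intro n
    have : 1 / ((n : ℝ) + 1) ≤ 1 := by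
      rw [div_le_one (by positivity)]
      have : (0 : ℝ) ≤ n := Nat.cast_nonneg n
      linarith
    simp only [hR]; linarith
  have hR1 : ∀ n, R n < 1 := by
    intro n
    have : 0 < 1 / ((n : ℝ) + 1) := by positivity
    simp only [hR]; linarith
  have hRt : Tendsto R atTop (𝓝[<] 1) := by
    apply tendsto_nhdsWithin_of_tendsto_nhds_of_eventually_within
    · have := (tendsto_one_div_add_atTop_nhds_zero_nat (𝕜 := ℝ)).const_sub 1
      simpa [hR] using this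
    · exact Eventually.of_forall hR1
  apply aestronglyMeasurable_of_tendsto_ae atTop
    (f := fun n α => φ (circleMap 0 (R n) α))
  · intro n
    exact (phi_cm_cont hφ (hR0 n) (hR1 n)).aestronglyMeasurable
  · rw [ae_restrict_iff' (AS_closed hφ).measurableSet]
    apply Eventually.of_forall
    intro α hα
    exact (Bd_tendsto hφ hm hα).comp hRt

/-- unimodular boundary function of `φ/z` on `AS` -/
noncomputable def Us (φ : ℂ → ℂ) (α : ℝ) : ℂ := Bd φ α * cexp (-(α * I))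

theorem Us_norm (hφ : DifferentiableOn ℂ φ (ball (0 : ℂ) 1))
    (hm : MapsTo φ (ball (0 : ℂ) 1) (ball (0 : ℂ) 1)) {α : ℝ} (hα : α ∈ AS φ) :
    ‖Us φ α‖ = 1 := by
  have : cexp (-(α * I)) = cexp (((-α : ℝ) : ℂ) * I) := by congr 1; push_cast; ring
  rw [Us, norm_mul, Bd_norm hφ hm hα, this, exp_norm, mul_one]

theorem Us_periodic (α : ℝ) : Us φ (α + 2 * π) = Us φ α := by
  unfold Us
  rw [Bd_periodic]
  congr 1
  have : -(((α + 2 * π : ℝ) : ℂ) * I) = -(α * I) - 2 * π * I := by push_cast; ring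
  rw [this, Complex.exp_sub, Complex.exp_two_pi_mul_I, div_one]

end Pool.Agent.Helper203.NS
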