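import Mathlib

set_option autoImplicit false

open Complex Metric Set Filter MeasureTheory
open scoped Real Topology ComplexConjugate Interval

namespace Pool.Agent.Helper203.NS

/-- difference of squares for the Moebius maps -/
theorem mob_id (a b : ℂ) :
    ‖1 - conj a * b‖ ^ 2 - ‖b - a‖ ^ 2 = (1 - ‖a‖ ^ 2) * (1 - ‖b‖ ^ 2) := by
  simp only [← Complex.normSq_eq_norm_sq, Complex.normSq_apply]
  simp
  ring

theorem one_sub_ne {a b : ℂ} (ha : ‖a‖ < 1) (hb : ‖b‖ < 1) : 1 - conj a * b ≠ 0 := by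
  intro h
  have h1 : conj a * b = 1 := (sub_eq_zero.mp h).symm
  have h2 : ‖conj a * b‖ < 1 := by
    rw [norm_mul, RCLike.norm_conj]
    calc ‖a‖ * ‖b‖ ≤ ‖a‖ * 1 := by gcongr
      _ < 1 := by linarith
  rw [h1] at h2
  simp at h2

theorem mob_lt {a b : ℂ} (ha : ‖a‖ < 1) (hb : ‖b‖ < 1) : ‖(b - a) / (1 - conj a * b)‖ < 1 := by
  have h0 : 0 < ‖1 - conj a * b‖ := norm_pos_iff.mpr (one_sub_ne ha hb)
  rw [norm_div, div_lt_one h0]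
  have h := mob_id a b
  have h1 : 0 < (1 - ‖a‖ ^ 2) * (1 - ‖b‖ ^ 2) := by
    have := norm_nonneg a
    have := norm_nonneg b
    apply mul_pos <;> nlinarith
  have h2 : ‖b - a‖ ^ 2 < ‖1 - conj a * b‖ ^ 2 := by linarith
  exact lt_of_pow_lt_pow_left₀ 2 h0.le h2

/-- two point Schwarz-Pick inequality -/
theorem schwarz_pick {φ : ℂ → ℂ} (hφ : DifferentiableOn ℂ φ (ball (0 : ℂ) 1))
    (hm : MapsTo φ (ball (0 : ℂ) 1) (ball (0 : ℂ) 1)) {z w : ℂ} (hz : ‖z‖ < 1) (hw : ‖w‖ < 1) :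
    ‖φ z - φ w‖ * ‖1 - conj w * z‖ ≤ ‖z - w‖ * ‖1 - conj (φ w) * φ z‖ := by
  have hmn : ∀ x : ℂ, ‖x‖ < 1 → ‖φ x‖ < 1 := fun x hx => by
    simpa using hm (by simpa using hx)
  have hw' : ‖-w‖ < 1 := by simpa using hw
  set M : ℂ → ℂ := fun ζ => (ζ - (-w)) / (1 - conj (-w) * ζ) with hM
  have hMm : ∀ ζ : ℂ, ‖ζ‖ < 1 → ‖M ζ‖ < 1 := fun ζ hζ => mob_lt hw' hζ
  have hMd : DifferentiableOn ℂ M (ball (0 : ℂ) 1) := by
    intro ζ hζ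
    have hζ' : ‖ζ‖ < 1 := by simpa using hζ
    apply DifferentiableAt.differentiableWithinAt
    apply DifferentiableAt.div
    · fun_prop
    · fun_prop
    · exact one_sub_ne hw' hζ'
  set f : ℂ → ℂ := fun ζ => (φ (M ζ) - φ w) / (1 - conj (φ w) * φ (M ζ)) with hf
  have hfd : DifferentiableOn ℂ f (ball (0 : ℂ) 1) := by
    have hc : DifferentiableOn ℂ (fun ζ => φ (M ζ)) (ball (0 : ℂ) 1) :=
      hφ.comp hMd (fun ζ hζ => by simpa using hMm ζ (by simpa using hζ))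
    apply DifferentiableOn.div
    · exact hc.sub_const _
    · exact (hc.const_mul _).const_sub _
    · intro ζ hζ
      exact one_sub_ne (hmn _ hw) (hmn _ (hMm ζ (by simpa using hζ)))
  have hf0 : f 0 = 0 := by simp [hf, hM]
  have hfm : MapsTo f (ball (0 : ℂ) 1) (closedBall (0 : ℂ) 1) := by
    intro ζ hζ
    have := mob_lt (hmn _ hw) (hmn _ (hMm ζ (by simpa using hζ)))
    rw [mem_closedBall_zero_iff]
    exact this.le
  have hζ : ‖(z - w) / (1 - conj w * z)‖ < 1 := mob_lt hw hz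
  have key := norm_le_norm_of_mapsTo_ball hfd hfm hf0 hζ
  have hne : 1 - conj w * z ≠ 0 := one_sub_ne hw hz
  have hww : 1 - conj w * w ≠ 0 := one_sub_ne hw hw
  have hMz : M ((z - w) / (1 - conj w * z)) = z := by
    have h2 : 1 - conj (-w) * ((z - w) / (1 - conj w * z)) ≠ 0 := one_sub_ne hw' hζ
    simp only [hM]
    rw [div_eq_iff h2]
    simp only [map_neg]
    generalize hq : (starRingEnd ℂ) w = q at hne hww ⊢
    have : (z - w) / (1 - q * z) * (1 - q * z) = z - w := div_mul_cancel₀ _ hne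
    generalize (z - w) / (1 - q * z) = X at this ⊢
    have hX : X - X * q * z = z - w := by linear_combination this
    linear_combination hX
  have hfz : f ((z - w) / (1 - conj w * z)) = (φ z - φ w) / (1 - conj (φ w) * φ z) := by
    simp only [hf, hMz]
  rw [hfz, norm_div, norm_div, div_le_div_iff₀
    (norm_pos_iff.mpr (one_sub_ne (hmn _ hw) (hmn _ hz))) (norm_pos_iff.mpr hne)] at key
  exact key

/-- infinitesimal Schwarz-Pick inequality -/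
theorem schwarz_pick_deriv {φ : ℂ → ℂ} (hφ : DifferentiableOn ℂ φ (ball (0 : ℂ) 1))
    (hm : MapsTo φ (ball (0 : ℂ) 1) (ball (0 : ℂ) 1)) {w : ℂ} (hw : ‖w‖ < 1) :
    ‖deriv φ w‖ * (1 - ‖w‖ ^ 2) ≤ 1 - ‖φ w‖ ^ 2 := by
  have hmn : ∀ x : ℂ, ‖x‖ < 1 → ‖φ x‖ < 1 := fun x hx => by
    simpa using hm (by simpa using hx)
  have hwm : w ∈ ball (0 : ℂ) 1 := by simpa using hw
  have hd : DifferentiableAt ℂ φ w := hφ.differentiableAt (isOpen_ball.mem_nhds hwm)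
  have h1 : Tendsto (fun z => ‖slope φ w z‖ * ‖1 - conj w * z‖) (𝓝[≠] w)
      (𝓝 (‖deriv φ w‖ * ‖1 - conj w * w‖)) := by
    apply Tendsto.mul
    · exact (hasDerivAt_iff_tendsto_slope.mp hd.hasDerivAt).norm
    · apply Tendsto.mono_left _ nhdsWithin_le_nhds
      exact (Continuous.tendsto (by fun_prop) w)
  have h2 : Tendsto (fun z => ‖1 - conj (φ w) * φ z‖) (𝓝[≠] w)
      (𝓝 (‖1 - conj (φ w) * φ w‖)) := by
    apply Tendsto.mono_left _ nhdsWithin_le_nhds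
    apply Tendsto.norm
    apply Tendsto.const_sub
    apply Tendsto.const_mul
    exact hd.continuousAt.tendsto
  have h3 : ‖deriv φ w‖ * ‖1 - conj w * w‖ ≤ ‖1 - conj (φ w) * φ w‖ := by
    apply le_of_tendsto_of_tendsto h1 h2
    have hb : ∀ᶠ z in 𝓝[≠] w, z ∈ ball (0 : ℂ) 1 :=
      nhdsWithin_le_nhds (isOpen_ball.mem_nhds hwm)
    filter_upwards [hb, self_mem_nhdsWithin] with z hz hzw
    have hz' : ‖z‖ < 1 := by simpa using hz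
    have hpos : 0 < ‖z - w‖ := norm_pos_iff.mpr (sub_ne_zero.mpr hzw)
    have := schwarz_pick hφ hm hz' hw
    rw [slope_def_field, norm_div, div_mul_eq_mul_div, div_le_iff₀ hpos]
    linarith
  have e1 : ∀ x : ℂ, ‖x‖ < 1 → ‖1 - conj x * x‖ = 1 - ‖x‖ ^ 2 := by
    intro x hx
    have : (1 : ℂ) - conj x * x = ((1 - ‖x‖ ^ 2 : ℝ) : ℂ) := by
      rw [mul_comm, Complex.mul_conj, Complex.normSq_eq_norm_sq]
      push_cast
      ring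
    rw [this, Complex.norm_real, Real.norm_eq_abs, abs_of_nonneg]
    have := norm_nonneg x
    nlinarith
  rw [e1 w hw, e1 _ (hmn w hw)] at h3
  exact h3

/-- radial comparison: along a ray, the modulus bound propagates outwards. -/
theorem radial {φ : ℂ → ℂ} (hφ : DifferentiableOn ℂ φ (ball (0 : ℂ) 1))
    (hm : MapsTo φ (ball (0 : ℂ) 1) (ball (0 : ℂ) 1)) {e : ℂ} (he : ‖e‖ = 1)
    {ρ₀ ρ : ℝ} (h0 : 0 ≤ ρ₀) (h01 : ρ₀ < ρ) (h1 : ρ < 1) :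
    (‖φ (ρ * e)‖ - ‖φ (ρ₀ * e)‖) * (1 - ρ * ρ₀) ≤
      (ρ - ρ₀) * (1 - ‖φ (ρ₀ * e)‖ * ‖φ (ρ * e)‖) := by
  have hmn : ∀ x : ℂ, ‖x‖ < 1 → ‖φ x‖ < 1 := fun x hx => by
    simpa using hm (by simpa using hx)
  have hz : ‖(ρ : ℂ) * e‖ < 1 := by
    rw [norm_mul, he, mul_one, Complex.norm_real, Real.norm_eq_abs, abs_of_nonneg (by linarith)]
    exact h1
  have hw : ‖(ρ₀ : ℂ) * e‖ < 1 := by
    rw [norm_mul, he, mul_one, Complex.norm_real, Real.norm_eq_abs, abs_of_nonneg h0]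
    linarith
  have key := schwarz_pick hφ hm hz hw
  have ee : conj e * e = 1 := by
    rw [mul_comm, Complex.mul_conj, Complex.normSq_eq_norm_sq, he]; simp
  have e1 : ‖1 - conj ((ρ₀ : ℂ) * e) * ((ρ : ℂ) * e)‖ = 1 - ρ * ρ₀ := by
    have : (1 : ℂ) - conj ((ρ₀ : ℂ) * e) * ((ρ : ℂ) * e) = ((1 - ρ * ρ₀ : ℝ) : ℂ) := by
      rw [map_mul, Complex.conj_ofReal]
      have : (ρ₀ : ℂ) * conj e * ((ρ : ℂ) * e) = (ρ₀ : ℂ) * ρ * (conj e * e) := by ring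
      rw [this, ee]; push_cast; ring
    rw [this, Complex.norm_real, Real.norm_eq_abs, abs_of_nonneg]
    nlinarith
  have e2 : ‖(ρ : ℂ) * e - (ρ₀ : ℂ) * e‖ = ρ - ρ₀ := by
    have : (ρ : ℂ) * e - (ρ₀ : ℂ) * e = ((ρ - ρ₀ : ℝ) : ℂ) * e := by push_cast; ring
    rw [this, norm_mul, he, mul_one, Complex.norm_real, Real.norm_eq_abs, abs_of_nonneg]
    linarith
  rw [e1, e2] at key
  set a := φ ((ρ₀ : ℂ) * e) with ha
  set b := φ ((ρ : ℂ) * e) with hb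
  have ha1 : ‖a‖ < 1 := hmn _ hw
  have hb1 : ‖b‖ < 1 := hmn _ hz
  have hid := mob_id a b
  have h3 : ‖b - a‖ ^ 2 * (1 - ρ * ρ₀) ^ 2 ≤ (ρ - ρ₀) ^ 2 * ‖1 - conj a * b‖ ^ 2 := by
    have : 0 ≤ ‖b - a‖ * (1 - ρ * ρ₀) := by
      apply mul_nonneg (norm_nonneg _)
      nlinarith
    have := pow_le_pow_left₀ this key 2
    rw [mul_pow, mul_pow] at this
    exact this
  -- D ≥ (1 - xy)^2
  have hD : (1 - ‖a‖ * ‖b‖) ^ 2 ≤ ‖1 - conj a * b‖ ^ 2 := by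
    have h4 : 1 - ‖a‖ * ‖b‖ ≤ ‖1 - conj a * b‖ := by
      have := norm_sub_norm_le (1 : ℂ) (conj a * b)
      rw [norm_mul, RCLike.norm_conj, norm_one] at this
      exact this
    apply pow_le_pow_left₀ _ h4
    have := norm_nonneg a
    have := norm_nonneg b
    nlinarith
  have hx := norm_nonneg a
  have hy := norm_nonneg b
  have hρ : (1 - ρ * ρ₀) ^ 2 - (ρ - ρ₀) ^ 2 = (1 - ρ ^ 2) * (1 - ρ₀ ^ 2) := by ring
  have hpos : 0 ≤ (1 - ρ ^ 2) * (1 - ρ₀ ^ 2) := by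
    apply mul_nonneg <;> nlinarith
  have h5 : (1 - ‖a‖ * ‖b‖) ^ 2 * ((1 - ρ ^ 2) * (1 - ρ₀ ^ 2)) ≤
      (1 - ‖a‖ ^ 2) * (1 - ‖b‖ ^ 2) * (1 - ρ * ρ₀) ^ 2 := by
    have h6 : ‖1 - conj a * b‖ ^ 2 * ((1 - ρ ^ 2) * (1 - ρ₀ ^ 2)) ≤
      (1 - ‖a‖ ^ 2) * (1 - ‖b‖ ^ 2) * (1 - ρ * ρ₀) ^ 2 := by
      rw [← hid, ← hρ]
      nlinarith
    refine le_trans ?_ h6
    gcongr
  have h7 : ((‖b‖ - ‖a‖) * (1 - ρ * ρ₀)) ^ 2 ≤ ((ρ - ρ₀) * (1 - ‖a‖ * ‖b‖)) ^ 2 := by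
    nlinarith
  have h8 : 0 ≤ (ρ - ρ₀) * (1 - ‖a‖ * ‖b‖) := by
    apply mul_nonneg <;> nlinarith
  exact le_trans (le_abs_self _) (abs_le_of_sq_le_sq h7 h8)

theorem radial_lt {φ : ℂ → ℂ} (hφ : DifferentiableOn ℂ φ (ball (0 : ℂ) 1))
    (hm : MapsTo φ (ball (0 : ℂ) 1) (ball (0 : ℂ) 1)) {e : ℂ} (he : ‖e‖ = 1)
    {ρ₀ ρ : ℝ} (h0 : 0 ≤ ρ₀) (h01 : ρ₀ < ρ) (h1 : ρ < 1) (h : ‖φ (ρ₀ * e)‖ < ρ₀) :
    ‖φ (ρ * e)‖ < ρ := by
  have key := radial hφ hm he h0 h01 h1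
  by_contra hc
  push Not at hc
  have hx := norm_nonneg (φ (ρ₀ * e))
  set x := ‖φ (ρ₀ * e)‖
  set y := ‖φ (ρ * e)‖
  have hs : 0 < (1 - ρ * ρ₀) + x * (ρ - ρ₀) := by nlinarith
  have hb : 0 < (ρ₀ - x) * (1 - ρ ^ 2) := by
    apply mul_pos <;> nlinarith
  nlinarith [mul_nonneg hs.le (sub_nonneg.mpr hc)]

theorem radial_le {φ : ℂ → ℂ} (hφ : DifferentiableOn ℂ φ (ball (0 : ℂ) 1))
    (hm : MapsTo φ (ball (0 : ℂ) 1) (ball (0 : ℂ) 1)) {e : ℂ} (he : ‖e‖ = 1)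
    {ρ₀ ρ : ℝ} (h0 : 0 ≤ ρ₀) (h01 : ρ₀ < ρ) (h1 : ρ < 1) (h : ‖φ (ρ₀ * e)‖ ≤ ρ₀) :
    ‖φ (ρ * e)‖ ≤ ρ := by
  have key := radial hφ hm he h0 h01 h1
  by_contra hc
  push Not at hc
  have hx := norm_nonneg (φ (ρ₀ * e))
  set x := ‖φ (ρ₀ * e)‖
  set y := ‖φ (ρ * e)‖
  have hs : 0 < (1 - ρ * ρ₀) + x * (ρ - ρ₀) := by nlinarith
  have hb : 0 ≤ (ρ₀ - x) * (1 - ρ ^ 2) := by
    apply mul_nonneg <;> nlinarith
  nlinarith [mul_pos hs (sub_pos.mpr hc)]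

end Pool.Agent.Helper203.NS
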