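import Pool.Agent.Helper203.NSW

set_option autoImplicit false

open Complex Metric Set Filter MeasureTheory
open scoped Real Topology ComplexConjugate Interval

namespace Pool.Agent.Helper203.NS

variable {φ : ℂ → ℂ}

/-- the matrix entries -/
noncomputable def cf (φ : ℂ → ℂ) (j k n : ℕ) : ℂ :=
  iteratedDeriv (n + k) (fun z => φ z ^ (n + j)) 0 / ((n + k).factorial : ℂ)

theorem cf_eq (hφ : DifferentiableOn ℂ φ (ball (0 : ℂ) 1)) (j k n : ℕ) {R : ℝ} (h0 : 0 < R)
    (h1 : R < 1) :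
    ∫ θ in (0 : ℝ)..2 * π, φ (circleMap 0 R θ) ^ (n + j) / (circleMap 0 R θ) ^ (n + k)
      = 2 * π * cf φ j k n := by
  have hd : DifferentiableOn ℂ (fun z => φ z ^ (n + j)) (closedBall (0 : ℂ) R) :=
    (hφ.mono (closedBall_subset_ball h1)).pow _
  have key := hd.circleIntegral_one_div_sub_center_pow_smul h0 (n + k)
  rw [circleIntegral] at key
  have e : ∀ θ : ℝ, deriv (circleMap 0 R) θ • ((1 / (circleMap 0 R θ - 0) ^ (n + k + 1)) •
      φ (circleMap 0 R θ) ^ (n + j)) =
      I * (φ (circleMap 0 R θ) ^ (n + j) / (circleMap 0 R θ) ^ (n + k)) := by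
    intro θ
    have hne : circleMap 0 R θ ≠ 0 := circleMap_ne_center h0.ne'
    rw [deriv_circleMap, smul_eq_mul, smul_eq_mul, sub_zero, pow_succ]
    field_simp
  simp only [e] at key
  rw [intervalIntegral.integral_const_mul] at key
  have hI : I ≠ 0 := I_ne_zero
  apply mul_left_cancel₀ hI
  rw [key, cf, smul_eq_mul]
  ring

/-- strict inequality used for uniqueness of the fixed point -/
theorem strict_aux {a b : ℂ} (ha : ‖a‖ < 1) (hb : ‖b‖ < 1) {r : ℝ} (hr0 : 0 ≤ r) (hr1 : r < 1) :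
    r * ‖1 - conj a * b‖ < ‖1 - (r : ℂ) ^ 2 * (conj a * b)‖ := by
  set x : ℂ := conj a * b with hx
  have hx1 : ‖x‖ < 1 := by
    rw [hx, norm_mul, RCLike.norm_conj]
    have := norm_nonneg a
    have := norm_nonneg b
    nlinarith
  have h1 : (r * ‖1 - x‖) ^ 2 < ‖1 - (r : ℂ) ^ 2 * x‖ ^ 2 := by
    have e : ‖1 - (r : ℂ) ^ 2 * x‖ ^ 2 - (r * ‖1 - x‖) ^ 2 = (1 - r ^ 2) * (1 - r ^ 2 * ‖x‖ ^ 2) := by
      rw [mul_pow]
      simp only [← Complex.normSq_eq_norm_sq, Complex.normSq_apply]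
      have e1 : ((1 : ℂ) - (r : ℂ) ^ 2 * x).re = 1 - r ^ 2 * x.re := by
        have : ((r : ℂ) ^ 2 * x) = ((r ^ 2 : ℝ) : ℂ) * x := by push_cast; ring
        rw [this, Complex.sub_re, Complex.one_re, Complex.re_ofReal_mul]
      have e2 : ((1 : ℂ) - (r : ℂ) ^ 2 * x).im = - (r ^ 2 * x.im) := by
        have : ((r : ℂ) ^ 2 * x) = ((r ^ 2 : ℝ) : ℂ) * x := by push_cast; ring
        rw [this, Complex.sub_im, Complex.one_im, Complex.im_ofReal_mul]; ring
      rw [e1, e2]
      simp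
      ring
    have h2 : 0 < (1 - r ^ 2) * (1 - r ^ 2 * ‖x‖ ^ 2) := by
      have h3 := norm_nonneg x
      have h4 : r ^ 2 < 1 := by nlinarith
      have h5 : ‖x‖ ^ 2 < 1 := by nlinarith
      apply mul_pos
      · linarith
      · nlinarith [sq_nonneg r]
    linarith
  exact lt_of_pow_lt_pow_left₀ 2 (norm_nonneg _) h1

theorem dslope_ne (hφ : DifferentiableOn ℂ φ (ball (0 : ℂ) 1))
    (hm : MapsTo φ (ball (0 : ℂ) 1) (ball (0 : ℂ) 1)) {t z : ℂ} (ht : ‖t‖ < 1) (hz : ‖z‖ < 1) :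
    1 - t * dslope φ (w φ t) z ≠ 0 := by
  intro h
  by_cases hzw : z = w φ t
  · rw [hzw, dslope_same] at h
    exact one_sub_sfun_ne hφ hm ht h
  · have hne : z - w φ t ≠ 0 := sub_ne_zero.mpr hzw
    rw [dslope_of_ne _ hzw, slope_def_field, ← mul_div_assoc, sub_eq_zero, eq_comm,
      div_eq_one_iff_eq hne] at h
    have hwf := w_fix hφ hm ht
    have hwl := w_lt hφ hm ht
    set a := φ (w φ t) with ha
    set b := φ z with hb
    have hz2 : z = t * b := by linear_combination hwf - h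
    have ha1 : ‖a‖ < 1 := norm_lt_of hm hwl
    have hb1 : ‖b‖ < 1 := norm_lt_of hm hz
    have key := schwarz_pick hφ hm hz hwl
    rw [← ha, ← hb] at key
    have e1 : z - w φ t = t * (b - a) := by rw [hwf, hz2]; ring
    have e2 : conj (w φ t) * z = ((‖t‖ : ℝ) : ℂ) ^ 2 * (conj a * b) := by
      rw [hwf, hz2, map_mul]
      have : conj t * t = ((‖t‖ : ℝ) : ℂ) ^ 2 := by
        rw [mul_comm, Complex.mul_conj, Complex.normSq_eq_norm_sq]; push_cast; rfl
      rw [← this]; ring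
    have hba : b - a ≠ 0 := by
      intro h0
      rw [h0, mul_zero] at e1
      exact hne e1
    have hpos : 0 < ‖b - a‖ := norm_pos_iff.mpr hba
    rw [e2, e1, norm_mul] at key
    have h2 := strict_aux ha1 hb1 (norm_nonneg t) ht
    have h3 : ‖b - a‖ * ‖1 - ((‖t‖ : ℝ) : ℂ) ^ 2 * (conj a * b)‖ ≤
        ‖b - a‖ * (‖t‖ * ‖1 - conj a * b‖) := by linarith
    have h4 := le_of_mul_le_mul_left h3 hpos
    linarith

/-- `g(t)` as an integral -/
theorem g_integral (hφ : DifferentiableOn ℂ φ (ball (0 : ℂ) 1))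
    (hm : MapsTo φ (ball (0 : ℂ) 1) (ball (0 : ℂ) 1)) {t : ℂ} {R : ℝ} (ht : ‖t‖ < R)
    (hR : R < 1) :
    ∫ θ in (0 : ℝ)..2 * π, (1 - t * (φ (circleMap 0 R θ) / circleMap 0 R θ))⁻¹ =
      2 * π * g φ t := by
  have hR0 : 0 < R := (norm_nonneg t).trans_lt ht
  have ht1 : ‖t‖ < 1 := ht.trans hR
  have hcl : DiffContOnCl ℂ (fun z => (1 - t * dslope φ (w φ t) z)⁻¹) (ball (0 : ℂ) |R|) := by
    rw [abs_of_pos hR0]
    apply DifferentiableOn.diffContOnCl
    rw [closure_ball _ hR0.ne']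
    have hsub : closedBall (0 : ℂ) R ⊆ ball (0 : ℂ) 1 := closedBall_subset_ball hR
    apply DifferentiableOn.mono _ hsub
    apply DifferentiableOn.inv
    · apply DifferentiableOn.const_sub
      apply DifferentiableOn.const_mul
      rw [differentiableOn_dslope (isOpen_ball.mem_nhds (by simpa using w_lt hφ hm ht1))]
      exact hφ
    · intro z hz
      exact dslope_ne hφ hm ht1 (by simpa using hz)
  have hwm : w φ t ∈ ball (0 : ℂ) |R| := by
    rw [abs_of_pos hR0]
    simpa using (w_norm hφ hm ht1).trans_lt ht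
  have key := hcl.circleAverage_smul_div hwm
  rw [Real.circleAverage] at key
  rw [dslope_same] at key
  have e : ∀ θ : ℝ, ((circleMap 0 R θ - 0) / (circleMap 0 R θ - w φ t)) •
      (1 - t * dslope φ (w φ t) (circleMap 0 R θ))⁻¹ =
      (1 - t * (φ (circleMap 0 R θ) / circleMap 0 R θ))⁻¹ := by
    intro θ
    set z := circleMap 0 R θ with hz
    have hzn : ‖z‖ = R := by rw [hz, norm_circleMap_zero, abs_of_pos hR0]
    have hz0 : z ≠ 0 := by
      intro h; rw [h, norm_zero] at hzn; linarith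
    have hzw : z ≠ w φ t := by
      intro h
      have := w_norm hφ hm ht1
      rw [← h, hzn] at this
      linarith
    have hzw' : z - w φ t ≠ 0 := sub_ne_zero.mpr hzw
    have hd := dslope_ne hφ hm ht1 (show ‖z‖ < 1 by rw [hzn]; exact hR)
    rw [smul_eq_mul, sub_zero]
    have e1 : (z - w φ t) * (1 - t * dslope φ (w φ t) z) = z - t * φ z := by
      rw [dslope_of_ne _ hzw, slope_def_field]
      field_simp
      linear_combination -(w_fix hφ hm ht1)
    have e2 : 1 - t * (φ z / z) = (z - t * φ z) / z := by field_simp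
    rw [e2, ← e1, inv_div]
    field_simp
  simp only [e] at key
  rw [← sfun, ← g] at key
  rw [← key, Complex.real_smul]
  push_cast
  field_simp

theorem g_hasSum (hφ : DifferentiableOn ℂ φ (ball (0 : ℂ) 1))
    (hm : MapsTo φ (ball (0 : ℂ) 1) (ball (0 : ℂ) 1)) {t : ℂ} (ht : ‖t‖ < 1) :
    HasSum (fun n : ℕ => cf φ 0 0 n * t ^ n) (g φ t) := by
  obtain ⟨R, hR1, hR2⟩ := exists_between ht
  have hR0 : 0 < R := (norm_nonneg t).trans_lt hR1
  have hq : ‖t‖ / R < 1 := (div_lt_one hR0).mpr hR1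
  have hq0 : 0 ≤ ‖t‖ / R := by positivity
  have hb : ∀ θ : ℝ, ‖t * (φ (circleMap 0 R θ) / circleMap 0 R θ)‖ ≤ ‖t‖ / R := by
    intro θ
    have hzn : ‖circleMap 0 R θ‖ = R := by rw [norm_circleMap_zero, abs_of_pos hR0]
    have := norm_lt_of hm (show ‖circleMap 0 R θ‖ < 1 by rw [hzn]; exact hR2)
    rw [norm_mul, norm_div, hzn, ← mul_div_assoc]
    gcongr
    nlinarith [norm_nonneg t]
  have hcont : Continuous (fun θ : ℝ => φ (circleMap 0 R θ) / circleMap 0 R θ) := by
    apply Continuous.div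
    · apply hφ.continuousOn.comp_continuous (continuous_circleMap 0 R)
      intro θ
      rw [mem_ball_zero_iff, norm_circleMap_zero, abs_of_pos hR0]
      exact hR2
    · exact continuous_circleMap 0 R
    · intro θ; exact circleMap_ne_center hR0.ne'
  have key : HasSum (fun n : ℕ => ∫ θ in (0 : ℝ)..2 * π,
      (t * (φ (circleMap 0 R θ) / circleMap 0 R θ)) ^ n)
      (∫ θ in (0 : ℝ)..2 * π, (1 - t * (φ (circleMap 0 R θ) / circleMap 0 R θ))⁻¹) := by
    apply intervalIntegral.hasSum_integral_of_dominated_convergence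
      (fun n _ => (‖t‖ / R) ^ n)
    · intro n
      exact ((continuous_const.mul hcont).pow n).aestronglyMeasurable
    · intro n
      apply Eventually.of_forall
      intro θ _
      rw [norm_pow]
      exact pow_le_pow_left₀ (norm_nonneg _) (hb θ) n
    · apply Eventually.of_forall
      intro θ _
      exact summable_geometric_of_lt_one hq0 hq
    · exact intervalIntegrable_const
    · apply Eventually.of_forall
      intro θ _
      exact hasSum_geometric_of_norm_lt_one ((hb θ).trans_lt hq)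
  rw [g_integral hφ hm hR1 hR2] at key
  have e : ∀ n : ℕ, ∫ θ in (0 : ℝ)..2 * π, (t * (φ (circleMap 0 R θ) / circleMap 0 R θ)) ^ n =
      2 * π * (cf φ 0 0 n * t ^ n) := by
    intro n
    have := cf_eq hφ 0 0 n hR0 hR2
    simp only [add_zero] at this
    simp only [mul_pow, div_pow]
    rw [intervalIntegral.integral_const_mul, this]
    ring
  simp only [e] at key
  have h2π : (2 * π : ℂ) ≠ 0 := by
    simp [Real.pi_ne_zero]
  exact (hasSum_mul_left_iff h2π).mp key

theorem cf_norm_le (hφ : DifferentiableOn ℂ φ (ball (0 : ℂ) 1))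
    (hm : MapsTo φ (ball (0 : ℂ) 1) (ball (0 : ℂ) 1)) (n : ℕ) : ‖cf φ 0 0 n‖ ≤ 1 := by
  have hlim : Tendsto (fun R : ℝ => (1 / R) ^ n) (𝓝[<] 1) (𝓝 1) := by
    have : Tendsto (fun R : ℝ => (1 / R) ^ n) (𝓝 1) (𝓝 ((1 / 1) ^ n)) := by
      apply Tendsto.pow
      apply Tendsto.div tendsto_const_nhds tendsto_id
      norm_num
    simpa using this.mono_left nhdsWithin_le_nhds
  apply ge_of_tendsto hlim
  filter_upwards [Ioo_mem_nhdsLT (show (0 : ℝ) < 1 by norm_num)] with R hR
  have h := cf_eq hφ 0 0 n hR.1 hR.2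
  have hb : ‖∫ θ in (0 : ℝ)..2 * π, φ (circleMap 0 R θ) ^ (n + 0) / (circleMap 0 R θ) ^ (n + 0)‖ ≤
      (1 / R) ^ n * |2 * π - 0| := by
    apply intervalIntegral.norm_integral_le_of_norm_le_const
    intro θ _
    have hzn : ‖circleMap 0 R θ‖ = R := by rw [norm_circleMap_zero, abs_of_pos hR.1]
    have := norm_lt_of hm (show ‖circleMap 0 R θ‖ < 1 by rw [hzn]; exact hR.2)
    rw [add_zero, norm_div, norm_pow, norm_pow, hzn, ← div_pow]
    have hR0 := hR.1
    gcongr
  rw [h, norm_mul, sub_zero] at hb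
  have h2π : ‖(2 * π : ℂ)‖ = |2 * π| := by
    have : (2 * π : ℂ) = ((2 * π : ℝ) : ℂ) := by push_cast; rfl
    rw [this, Complex.norm_real, Real.norm_eq_abs]
  rw [h2π, mul_comm] at hb
  exact le_of_mul_le_mul_right hb (abs_pos.mpr (by positivity))

theorem cf_zero : cf φ 0 0 0 = 1 := by
  simp [cf]

end Pool.Agent.Helper203.NS
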