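import Mathlib

set_option autoImplicit false

open Complex Metric Set Filter MeasureTheory
open scoped Real Topology ComplexConjugate Interval

namespace Pool.Agent.Helper203.NS

/-- entry of the comparison matrix -/
noncomputable def MM (Kap lam : ℕ → ℂ) (p q : ℕ) : ℂ :=
  if p = q then 2 * π
  else if q < p then (Kap (p - q) + lam (p - q)) / 2
  else conj ((Kap (q - p) + lam (q - p)) / 2)

theorem KK_eq {A : Set ℝ} (hA : MeasurableSet A) {U : ℝ → ℂ} (hU1 : ∀ x ∈ A, ‖U x‖ = 1) (p q : ℕ) :
    ∫ x in A, U x ^ p * conj (U x ^ q) =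
      if q ≤ p then ∫ x in A, U x ^ (p - q) else conj (∫ x in A, U x ^ (q - p)) := by
  have hmul : ∀ x ∈ A, U x * conj (U x) = 1 := by
    intro x hx
    rw [Complex.mul_conj, Complex.normSq_eq_norm_sq, hU1 x hx]; simp
  split_ifs with h
  · apply setIntegral_congr_fun hA
    intro x hx
    have e : U x ^ p = U x ^ (p - q) * U x ^ q := by rw [← pow_add]; congr 1; omega
    show U x ^ p * conj (U x ^ q) = U x ^ (p - q)
    rw [e, map_pow, mul_assoc, ← mul_pow, hmul x hx, one_pow, mul_one]
  · rw [← integral_conj]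
    apply setIntegral_congr_fun hA
    intro x hx
    have e : U x ^ q = U x ^ (q - p) * U x ^ p := by rw [← pow_add]; congr 1; omega
    show U x ^ p * conj (U x ^ q) = conj (U x ^ (q - p))
    rw [e, map_mul, map_pow (starRingEnd ℂ) (U x) p]
    calc U x ^ p * (conj (U x ^ (q - p)) * conj (U x) ^ p)
        = conj (U x ^ (q - p)) * (U x * conj (U x)) ^ p := by ring
      _ = _ := by rw [hmul x hx, one_pow, mul_one]

theorem rajchman_abstract {A : Set ℝ} (hA : MeasurableSet A)
    (hAv : volume A ≤ ENNReal.ofReal (2 * π)) {U h : ℝ → ℂ}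
    (hU : AEStronglyMeasurable U (volume.restrict A))
    (hh : AEStronglyMeasurable h (volume.restrict A))
    (hU1 : ∀ x ∈ A, ‖U x‖ = 1) (hh1 : ∀ x ∈ A, ‖h x‖ ≤ 1) {lam : ℕ → ℂ}
    (hlam : Tendsto lam atTop (𝓝 0))
    (key : ∀ (N : ℕ) (n : ℕ → ℕ), StrictMono n → ∀ a : ℕ → ℂ, (∀ i, ‖a i‖ = 1) →
      ∫ x in A, ‖∑ i ∈ Finset.range N, a i * U x ^ n i‖ ^ 2 ≤
        (∑ i ∈ Finset.range N, ∑ j ∈ Finset.range N, a i * conj (a j) *
          MM (fun m => ∫ x in A, U x ^ m) lam (n i) (n j)).re) :
    Tendsto (fun n : ℕ => ∫ x in A, U x ^ n * h x) atTop (𝓝 0) := by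
  have hAfin : volume A < ⊤ := hAv.trans_lt ENNReal.ofReal_lt_top
  have : IsFiniteMeasure (volume.restrict A) := ⟨by simpa using hAfin⟩
  have hAreal : volume.real A ≤ 2 * π := by
    have := ENNReal.toReal_mono ENNReal.ofReal_ne_top hAv
    rwa [ENNReal.toReal_ofReal (by positivity)] at this
  by_contra hcon
  rw [Metric.tendsto_atTop] at hcon
  push Not at hcon
  obtain ⟨ε, hε, hfreq⟩ := hcon
  have hfreq' : ∃ᶠ n in atTop, ε ≤ ‖∫ x in A, U x ^ n * h x‖ := by
    rw [frequently_atTop]
    intro N
    obtain ⟨n, hn, hn2⟩ := hfreq N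
    refine ⟨n, hn, ?_⟩
    rwa [dist_zero_right] at hn2
  obtain ⟨ψ, hψ, hψ2⟩ := extraction_of_frequently_atTop hfreq'
  set δ : ℝ := ε ^ 2 / (8 * π) with hδ
  have hδ0 : 0 < δ := by positivity
  obtain ⟨m₀, hm₀⟩ := (Metric.tendsto_atTop.mp hlam) δ hδ0
  set n : ℕ → ℕ := fun i => ψ (i * (m₀ + 1)) with hn
  have hnmono : StrictMono n := by
    intro i j hij
    apply hψ
    exact Nat.mul_lt_mul_of_pos_right hij (Nat.succ_pos _)
  have hgap : ∀ i j : ℕ, j < i → m₀ ≤ n i - n j := by
    intro i j hij
    have h1 : n j + (i * (m₀ + 1) - j * (m₀ + 1)) ≤ n i := by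
      have := hψ.add_le_nat (i * (m₀ + 1) - j * (m₀ + 1)) (j * (m₀ + 1))
      have e : i * (m₀ + 1) - j * (m₀ + 1) + j * (m₀ + 1) = i * (m₀ + 1) :=
        Nat.sub_add_cancel (Nat.mul_le_mul_right _ hij.le)
      simp only [hn]
      rw [e] at this
      omega
    have h2 : m₀ + 1 ≤ i * (m₀ + 1) - j * (m₀ + 1) := by
      rw [← Nat.sub_mul]
      have : 1 ≤ i - j := by omega
      nlinarith
    omega
  set c : ℕ → ℂ := fun i => ∫ x in A, U x ^ n i * h x with hc
  have hcε : ∀ i, ε ≤ ‖c i‖ := fun i => hψ2 _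
  set a : ℕ → ℂ := fun i => conj (c i) / ‖c i‖ with ha
  have hcne : ∀ i, (‖c i‖ : ℂ) ≠ 0 := by
    intro i
    have := hcε i
    rw [Complex.ofReal_ne_zero]
    linarith
  have ha1 : ∀ i, ‖a i‖ = 1 := by
    intro i
    have := hcε i
    simp only [ha, norm_div, RCLike.norm_conj, Complex.norm_real, norm_norm]
    exact div_self (by linarith)
  have hac : ∀ i, a i * c i = ‖c i‖ := by
    intro i
    simp only [ha]
    rw [div_mul_eq_mul_div, mul_comm, Complex.mul_conj, Complex.normSq_eq_norm_sq]
    rw [div_eq_iff (hcne i)]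
    push_cast
    ring
  obtain ⟨N, hN⟩ := exists_nat_gt (16 * π ^ 2 / ε ^ 2)
  have hN0 : 0 < (N : ℝ) := lt_of_le_of_lt (by positivity) hN
  -- the function
  set F : ℝ → ℂ := fun x => ∑ i ∈ Finset.range N, a i * U x ^ n i with hF
  have hUp : ∀ m : ℕ, AEStronglyMeasurable (fun x => U x ^ m) (volume.restrict A) :=
    fun m => hU.pow m
  have hUi : ∀ m : ℕ, Integrable (fun x => U x ^ m) (volume.restrict A) := by
    intro m
    apply Integrable.of_bound (hUp m) 1
    rw [ae_restrict_iff' hA]
    apply Eventually.of_forall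
    intro x hx
    rw [norm_pow, hU1 x hx, one_pow]
  have hUhi : ∀ m : ℕ, Integrable (fun x => U x ^ m * h x) (volume.restrict A) := by
    intro m
    apply Integrable.of_bound ((hUp m).mul hh) 1
    rw [ae_restrict_iff' hA]
    apply Eventually.of_forall
    intro x hx
    show ‖U x ^ m * h x‖ ≤ 1
    rw [norm_mul, norm_pow, hU1 x hx, one_pow, one_mul]
    exact hh1 x hx
  have hFm : AEStronglyMeasurable F (volume.restrict A) := by
    have : F = ∑ i ∈ Finset.range N, fun x => a i * U x ^ n i := by
      funext x; simp [hF]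
    rw [this]
    apply Finset.aestronglyMeasurable_sum
    intro i _
    exact (hUp _).const_mul _
  have hFb : ∀ x ∈ A, ‖F x‖ ≤ N := by
    intro x hx
    refine (norm_sum_le _ _).trans ?_
    calc ∑ i ∈ Finset.range N, ‖a i * U x ^ n i‖ = ∑ i ∈ Finset.range N, (1 : ℝ) := by
          apply Finset.sum_congr rfl
          intro i _
          rw [norm_mul, norm_pow, hU1 x hx, ha1, one_pow, mul_one]
      _ ≤ N := by simp
  set L : ℝ := ∫ x in A, ‖F x‖ ^ 2 with hL
  have hF2i : Integrable (fun x => ‖F x‖ ^ 2) (volume.restrict A) := by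
    apply Integrable.of_bound (hFm.norm.pow 2) ((N : ℝ) ^ 2)
    rw [ae_restrict_iff' hA]
    apply Eventually.of_forall
    intro x hx
    show ‖‖F x‖ ^ 2‖ ≤ (N : ℝ) ^ 2
    rw [norm_pow, norm_norm]
    exact pow_le_pow_left₀ (norm_nonneg _) (hFb x hx) 2
  -- expansion of L
  have hLexp : (L : ℂ) = ∑ i ∈ Finset.range N, ∑ j ∈ Finset.range N, a i * conj (a j) *
      ∫ x in A, U x ^ n i * conj (U x ^ n j) := by
    have hUUi : ∀ p q : ℕ, Integrable (fun x => U x ^ p * conj (U x ^ q)) (volume.restrict A) := by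
      intro p q
      apply Integrable.of_bound ((hUp p).mul (Complex.continuous_conj.comp_aestronglyMeasurable
        (hUp q))) 1
      rw [ae_restrict_iff' hA]
      apply Eventually.of_forall
      intro x hx
      show ‖U x ^ p * conj (U x ^ q)‖ ≤ 1
      rw [norm_mul, RCLike.norm_conj, norm_pow, norm_pow, hU1 x hx]
      simp
    rw [hL, ← integral_complex_ofReal]
    have e : ∀ x, ((‖F x‖ ^ 2 : ℝ) : ℂ) = ∑ i ∈ Finset.range N, ∑ j ∈ Finset.range N,
        a i * conj (a j) * (U x ^ n i * conj (U x ^ n j)) := by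
      intro x
      rw [← Complex.normSq_eq_norm_sq, ← Complex.mul_conj]
      simp only [hF, map_sum, map_mul]
      rw [Finset.sum_mul_sum]
      apply Finset.sum_congr rfl
      intro i _
      apply Finset.sum_congr rfl
      intro j _
      ring
    simp only [e]
    rw [integral_finsetSum]
    · apply Finset.sum_congr rfl
      intro i _
      rw [integral_finsetSum]
      · apply Finset.sum_congr rfl
        intro j _
        rw [integral_const_mul]
      · intro j _
        exact (hUUi _ _).const_mul _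
    · intro i _
      apply integrable_finsetSum
      intro j _
      exact (hUUi _ _).const_mul _
  have hLle := key N n hnmono a ha1
  have hL0 : 0 ≤ L := by
    rw [hL]
    apply integral_nonneg
    intro x; positivity
  -- difference bound
  have hdiff : ∀ i ∈ Finset.range N, ∀ j ∈ Finset.range N,
      ‖MM (fun m => ∫ x in A, U x ^ m) lam (n i) (n j) -
        (∫ x in A, U x ^ n i * conj (U x ^ n j)) / 2‖ ≤ (if i = j then 2 * π else 0) + δ / 2 := by
    intro i _ j _
    rw [KK_eq hA hU1]
    rcases lt_trichotomy i j with hij | hij | hij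
    · have h1 := hnmono hij
      have h2 : ¬ (n j ≤ n i) := by omega
      have h3 : n i ≠ n j := by omega
      have h4 : ¬ (n j < n i) := by omega
      have h5 : i ≠ j := by omega
      simp only [MM, if_neg h2, if_neg h3, if_neg h4, if_neg h5]
      have h6 := hm₀ (n j - n i) (hgap j i hij)
      rw [dist_zero_right] at h6
      have e : conj (((∫ x in A, U x ^ (n j - n i)) + lam (n j - n i)) / 2) -
          conj (∫ x in A, U x ^ (n j - n i)) / 2 = conj (lam (n j - n i) / 2) := by
        rw [map_div₀, map_div₀, map_add]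
        have : conj (2 : ℂ) = 2 := Complex.conj_ofNat 2
        rw [this]; ring
      rw [e, RCLike.norm_conj, norm_div]
      have : ‖(2 : ℂ)‖ = 2 := by simp
      rw [this]; linarith
    · subst hij
      simp only [MM, le_refl, if_true, Nat.sub_self, pow_zero]
      have e : (∫ x in A, (1 : ℂ)) = ((volume.real A : ℝ) : ℂ) := by
        simp
      rw [e]
      have e2 : (2 * (π : ℂ) - ((volume.real A : ℝ) : ℂ) / 2) =
          ((2 * π - volume.real A / 2 : ℝ) : ℂ) := by
        push_cast; ring
      rw [e2, Complex.norm_real, Real.norm_eq_abs]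
      have h7 : 0 ≤ volume.real A := measureReal_nonneg
      rw [abs_of_nonneg (by linarith [Real.pi_pos])]
      linarith
    · have h1 := hnmono hij
      have h2 : n j ≤ n i := by omega
      have h3 : n i ≠ n j := by omega
      have h5 : i ≠ j := by omega
      simp only [MM, if_pos h1, if_pos h2, if_neg h3, if_neg h5]
      have h6 := hm₀ (n i - n j) (hgap i j hij)
      rw [dist_zero_right] at h6
      have e : ((∫ x in A, U x ^ (n i - n j)) + lam (n i - n j)) / 2 -
          (∫ x in A, U x ^ (n i - n j)) / 2 = lam (n i - n j) / 2 := by ring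
      rw [e, norm_div]
      have : ‖(2 : ℂ)‖ = 2 := by simp
      rw [this]; linarith
  have hLbound : L ≤ 4 * π * N + N ^ 2 * δ := by
    have h1 : L - L / 2 ≤ ‖∑ i ∈ Finset.range N, ∑ j ∈ Finset.range N, a i * conj (a j) *
        (MM (fun m => ∫ x in A, U x ^ m) lam (n i) (n j) -
        (∫ x in A, U x ^ n i * conj (U x ^ n j)) / 2)‖ := by
      have e : (∑ i ∈ Finset.range N, ∑ j ∈ Finset.range N, a i * conj (a j) *
        (MM (fun m => ∫ x in A, U x ^ m) lam (n i) (n j) -
        (∫ x in A, U x ^ n i * conj (U x ^ n j)) / 2)) =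
          (∑ i ∈ Finset.range N, ∑ j ∈ Finset.range N, a i * conj (a j) *
          MM (fun m => ∫ x in A, U x ^ m) lam (n i) (n j)) - (L : ℂ) / 2 := by
        rw [hLexp, Finset.sum_div, ← Finset.sum_sub_distrib]
        apply Finset.sum_congr rfl
        intro i _
        rw [Finset.sum_div, ← Finset.sum_sub_distrib]
        apply Finset.sum_congr rfl
        intro j _
        ring
      rw [e]
      refine le_trans ?_ (Complex.re_le_norm _)
      rw [Complex.sub_re]
      have : ((L : ℂ) / 2).re = L / 2 := by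
        have : (L : ℂ) / 2 = ((L / 2 : ℝ) : ℂ) := by push_cast; rfl
        rw [this, Complex.ofReal_re]
      rw [this]
      linarith
    have h2 : ‖∑ i ∈ Finset.range N, ∑ j ∈ Finset.range N, a i * conj (a j) *
        (MM (fun m => ∫ x in A, U x ^ m) lam (n i) (n j) -
        (∫ x in A, U x ^ n i * conj (U x ^ n j)) / 2)‖ ≤
        ∑ i ∈ Finset.range N, ∑ j ∈ Finset.range N, ((if i = j then 2 * π else 0) + δ / 2) := by
      refine (norm_sum_le _ _).trans (Finset.sum_le_sum fun i hi => ?_)
      refine (norm_sum_le _ _).trans (Finset.sum_le_sum fun j hj => ?_)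
      rw [norm_mul, norm_mul, RCLike.norm_conj, ha1, ha1, one_mul, one_mul]
      exact hdiff i hi j hj
    have h3 : ∑ i ∈ Finset.range N, ∑ j ∈ Finset.range N,
        ((if i = j then 2 * π else 0) + δ / 2) = 2 * π * N + N ^ 2 * δ / 2 := by
      simp only [Finset.sum_add_distrib, Finset.sum_ite_eq, Finset.sum_const, Finset.card_range,
        nsmul_eq_mul, Finset.mem_range]
      have : ∑ x ∈ Finset.range N, (if x < N then 2 * π else 0) = N * (2 * π) := by
        rw [Finset.sum_congr rfl (g := fun _ => 2 * π)]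
        · simp
        · intro x hx
          rw [if_pos (Finset.mem_range.mp hx)]
      rw [this]; ring
    rw [h3] at h2
    linarith
  -- lower bound
  have hlow : (N : ℝ) * ε ≤ ∫ x in A, ‖F x‖ := by
    have h1 : (∑ i ∈ Finset.range N, a i * c i) = ∫ x in A, F x * h x := by
      have e : ∀ x, F x * h x = ∑ i ∈ Finset.range N, a i * (U x ^ n i * h x) := by
        intro x
        simp only [hF]
        rw [Finset.sum_mul]
        apply Finset.sum_congr rfl
        intro i _; ring
      simp only [e]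
      rw [integral_finsetSum]
      · apply Finset.sum_congr rfl
        intro i _
        rw [integral_const_mul]
      · intro i _
        exact (hUhi _).const_mul _
    have h2 : (N : ℝ) * ε ≤ ‖∑ i ∈ Finset.range N, a i * c i‖ := by
      simp only [hac]
      have e : (∑ i ∈ Finset.range N, ((‖c i‖ : ℝ) : ℂ)) =
          ((∑ i ∈ Finset.range N, ‖c i‖ : ℝ) : ℂ) := by push_cast; rfl
      rw [e, Complex.norm_real, Real.norm_eq_abs]
      refine le_trans ?_ (le_abs_self _)
      calc (N : ℝ) * ε = ∑ i ∈ Finset.range N, ε := by simp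
        _ ≤ ∑ i ∈ Finset.range N, ‖c i‖ := Finset.sum_le_sum fun i _ => hcε i
    rw [h1] at h2
    refine h2.trans ((norm_integral_le_integral_norm _).trans ?_)
    apply setIntegral_mono_on
    · apply Integrable.norm
      apply Integrable.of_bound (hFm.mul hh) (N : ℝ)
      rw [ae_restrict_iff' hA]
      apply Eventually.of_forall
      intro x hx
      show ‖F x * h x‖ ≤ N
      rw [norm_mul]
      calc ‖F x‖ * ‖h x‖ ≤ N * 1 := by
            gcongr
            · exact hFb x hx
            · exact hh1 x hx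
        _ = N := mul_one _
    · apply Integrable.norm
      apply Integrable.of_bound hFm (N : ℝ)
      rw [ae_restrict_iff' hA]
      exact Eventually.of_forall hFb
    · exact hA
    · intro x hx
      rw [norm_mul]
      calc ‖F x‖ * ‖h x‖ ≤ ‖F x‖ * 1 := by gcongr; exact hh1 x hx
        _ = ‖F x‖ := mul_one _
  -- Young
  have hyoung : ∀ s : ℝ, 0 < s → ∫ x in A, ‖F x‖ ≤ (s * L + 2 * π / s) / 2 := by
    intro s hs
    have h1 : ∫ x in A, ‖F x‖ ≤ ∫ x in A, (s * ‖F x‖ ^ 2 + 1 / s) / 2 := by
      apply setIntegral_mono_on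
      · apply Integrable.norm
        apply Integrable.of_bound hFm (N : ℝ)
        rw [ae_restrict_iff' hA]
        exact Eventually.of_forall hFb
      · apply Integrable.div_const
        apply Integrable.add
        · exact hF2i.const_mul _
        · exact integrable_const _
      · exact hA
      · intro x _
        have h2 : 0 ≤ (s * ‖F x‖ - 1) ^ 2 := sq_nonneg _
        rw [le_div_iff₀ (by norm_num), ← sub_nonneg]
        have e : s * ‖F x‖ ^ 2 + 1 / s - ‖F x‖ * 2 = (s * ‖F x‖ - 1) ^ 2 / s := by
          field_simp; ring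
        rw [e]; positivity
    refine h1.trans ?_
    have h3 : ∫ x in A, (s * ‖F x‖ ^ 2 + 1 / s) / 2 = (s * L + volume.real A * (1 / s)) / 2 := by
      rw [integral_div, integral_add, integral_const_mul]
      · simp [hL]
      · exact hF2i.const_mul _
      · exact integrable_const _
    rw [h3]
    have h4 : volume.real A * (1 / s) ≤ 2 * π / s := by
      rw [mul_one_div]
      gcongr
    linarith
  have hs0 : 0 < 4 * π / (ε * N) := by positivity
  have hfin := hlow.trans (hyoung _ hs0)
  have h1 : (4 * π / (ε * N) * L + 2 * π / (4 * π / (ε * N))) / 2 ≤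
      (4 * π / (ε * N) * (4 * π * N + N ^ 2 * δ) + 2 * π / (4 * π / (ε * N))) / 2 := by
    gcongr
  have h2 : (4 * π / (ε * N) * (4 * π * N + N ^ 2 * δ) + 2 * π / (4 * π / (ε * N))) / 2 =
      8 * π ^ 2 / ε + N * ε / 2 := by
    rw [hδ]
    have hπ := Real.pi_pos
    field_simp
    ring
  have h3 : (N : ℝ) * ε ≤ 8 * π ^ 2 / ε + N * ε / 2 := by linarith
  have h4 : (N : ℝ) * ε / 2 ≤ 8 * π ^ 2 / ε := by linarith
  have h5 : 16 * π ^ 2 < N * ε ^ 2 := by
    rwa [div_lt_iff₀ (by positivity)] at hN
  have h6 : (N : ℝ) * ε ^ 2 ≤ 16 * π ^ 2 := by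
    rw [le_div_iff₀ hε] at h4
    nlinarith
  linarith

end Pool.Agent.Helper203.NS
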