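import Pool.Agent.Helper203.NSC
import Pool.Agent.Helper203.NSR

set_option autoImplicit false

open Complex Metric Set Filter MeasureTheory
open scoped Real Topology ComplexConjugate Interval

namespace Pool.Agent.Helper203.NS

variable {φ : ℂ → ℂ}

theorem int_exp (q : ℤ) :
    ∫ θ in (0 : ℝ)..2 * π, cexp (q * θ * I) = (if q = 0 then 2 * (π : ℂ) else (0 : ℂ)) := by
  split_ifs with h
  · subst h; simp
  · have hc : (q : ℂ) * I ≠ 0 := mul_ne_zero (by exact_mod_cast h) I_ne_zero
    have e : ∀ θ : ℝ, cexp (q * θ * I) = cexp ((q : ℂ) * I * θ) := by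
      intro θ; congr 1; ring
    simp only [e]
    rw [integral_exp_mul_complex hc]
    have h1 : cexp ((q : ℂ) * I * ((2 * π : ℝ) : ℂ)) = 1 := by
      have : (q : ℂ) * I * ((2 * π : ℝ) : ℂ) = q * (2 * π * I) := by push_cast; ring
      rw [this, Complex.exp_int_mul_two_pi_mul_I]
    rw [h1]
    simp

/-- coefficient with integer index -/
noncomputable def H (φ : ℂ → ℂ) (r : ℝ) (p : ℤ) : ℂ :=
  if 0 ≤ p then cf φ 0 0 p.toNat * (r : ℂ) ^ p.toNat else 0

theorem g_circle_cont (hφ : DifferentiableOn ℂ φ (ball (0 : ℂ) 1))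
    (hm : MapsTo φ (ball (0 : ℂ) 1) (ball (0 : ℂ) 1)) {r : ℝ} (hr0 : 0 ≤ r) (hr1 : r < 1) :
    Continuous (fun θ : ℝ => g φ (circleMap 0 r θ)) := by
  apply (g_cont hφ hm).comp_continuous (continuous_circleMap 0 r)
  intro θ
  rw [mem_ball_zero_iff, norm_circleMap_zero, abs_of_nonneg hr0]
  exact hr1

theorem g_fourier (hφ : DifferentiableOn ℂ φ (ball (0 : ℂ) 1))
    (hm : MapsTo φ (ball (0 : ℂ) 1) (ball (0 : ℂ) 1)) {r : ℝ} (hr0 : 0 ≤ r) (hr1 : r < 1)
    (p : ℤ) :
    ∫ θ in (0 : ℝ)..2 * π, cexp (-p * θ * I) * g φ (circleMap 0 r θ) = 2 * π * H φ r p := by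
  have hn : ∀ θ : ℝ, ‖circleMap 0 r θ‖ = r := by
    intro θ; rw [norm_circleMap_zero, abs_of_nonneg hr0]
  have hexp : ∀ θ : ℝ, ∀ q : ℤ, ‖cexp (q * θ * I)‖ = 1 := by
    intro θ q
    have : (q : ℂ) * θ * I = ((q * θ : ℝ) : ℂ) * I := by push_cast; ring
    rw [this, Complex.norm_exp_ofReal_mul_I]
  have key : HasSum (fun n : ℕ => ∫ θ in (0 : ℝ)..2 * π,
      cexp (-p * θ * I) * (cf φ 0 0 n * (circleMap 0 r θ) ^ n))
      (∫ θ in (0 : ℝ)..2 * π, cexp (-p * θ * I) * g φ (circleMap 0 r θ)) := by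
    apply intervalIntegral.hasSum_integral_of_dominated_convergence (fun n _ => r ^ n)
    · intro n
      apply Continuous.aestronglyMeasurable
      fun_prop
    · intro n
      apply Eventually.of_forall
      intro θ _
      have := hexp θ (-p)
      push_cast at this
      rw [norm_mul, this, one_mul, norm_mul, norm_pow, hn]
      calc ‖cf φ 0 0 n‖ * r ^ n ≤ 1 * r ^ n := by
            gcongr; exact cf_norm_le hφ hm n
        _ = r ^ n := one_mul _
    · apply Eventually.of_forall
      intro θ _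
      exact summable_geometric_of_lt_one hr0 hr1
    · exact intervalIntegrable_const
    · apply Eventually.of_forall
      intro θ _
      exact (g_hasSum hφ hm (by rw [hn]; exact hr1)).mul_left _
  have e : ∀ n : ℕ, ∫ θ in (0 : ℝ)..2 * π,
      cexp (-p * θ * I) * (cf φ 0 0 n * (circleMap 0 r θ) ^ n) =
      if (n : ℤ) = p then 2 * π * (cf φ 0 0 n * (r : ℂ) ^ n) else 0 := by
    intro n
    have e1 : ∀ θ : ℝ, cexp (-p * θ * I) * (cf φ 0 0 n * (circleMap 0 r θ) ^ n) =
        (cf φ 0 0 n * (r : ℂ) ^ n) * cexp (((n : ℤ) - p : ℤ) * θ * I) := by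
      intro θ
      rw [circleMap_zero, mul_pow, ← Complex.exp_nat_mul]
      have : cexp (((n : ℤ) - p : ℤ) * θ * I) = cexp (-p * θ * I) * cexp (n * (θ * I)) := by
        rw [← Complex.exp_add]; congr 1; push_cast; ring
      rw [this]; ring
    simp only [e1]
    rw [intervalIntegral.integral_const_mul, int_exp]
    by_cases h : (n : ℤ) = p
    · rw [if_pos h, if_pos (by omega)]; ring
    · rw [if_neg h, if_neg (by omega)]; ring
  simp only [e] at key
  have h2 : HasSum (fun n : ℕ => if (n : ℤ) = p then 2 * π * (cf φ 0 0 n * (r : ℂ) ^ n) else 0)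
      (2 * π * H φ r p) := by
    unfold H
    split_ifs with hp
    · obtain ⟨m, rfl⟩ := Int.eq_ofNat_of_zero_le hp
      have := hasSum_ite_eq m (2 * π * (cf φ 0 0 m * (r : ℂ) ^ m))
      simp only [Int.toNat_natCast, Nat.cast_inj]
      convert this using 2 with n
      by_cases h : n = m
      · subst h; simp
      · simp [h]
    · rw [mul_zero]
      convert hasSum_zero using 2 with n
      rw [if_neg]
      omega
  exact key.unique h2

theorem reg_fourier (hφ : DifferentiableOn ℂ φ (ball (0 : ℂ) 1))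
    (hm : MapsTo φ (ball (0 : ℂ) 1) (ball (0 : ℂ) 1)) {r : ℝ} (hr0 : 0 ≤ r) (hr1 : r < 1)
    (p : ℤ) :
    ∫ θ in (0 : ℝ)..2 * π, cexp (-p * θ * I) * ((g φ (circleMap 0 r θ)).re : ℂ) =
      π * (H φ r p + conj (H φ r (-p))) := by
  have hc := g_circle_cont hφ hm hr0 hr1
  have e : ∀ θ : ℝ, cexp (-p * θ * I) * ((g φ (circleMap 0 r θ)).re : ℂ) =
      (1 / 2) * (cexp (-p * θ * I) * g φ (circleMap 0 r θ)) +
      (1 / 2) * conj (cexp (-(-p : ℤ) * θ * I) * g φ (circleMap 0 r θ)) := by
    intro θ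
    rw [Complex.re_eq_add_conj, map_mul, ← Complex.exp_conj]
    have : conj (-((-p : ℤ) : ℂ) * θ * I) = -p * θ * I := by
      simp
    rw [this]
    ring
  simp only [e]
  rw [intervalIntegral.integral_add, intervalIntegral.integral_const_mul,
    intervalIntegral.integral_const_mul, g_fourier hφ hm hr0 hr1]
  · have h2 : ∫ θ in (0 : ℝ)..2 * π, conj (cexp (-(-p : ℤ) * θ * I) * g φ (circleMap 0 r θ)) =
        conj (∫ θ in (0 : ℝ)..2 * π, cexp (-(-p : ℤ) * θ * I) * g φ (circleMap 0 r θ)) := by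
      rw [intervalIntegral.integral_of_le (by positivity),
        intervalIntegral.integral_of_le (by positivity), ← integral_conj]
    rw [h2, g_fourier hφ hm hr0 hr1]
    simp only [map_mul, Complex.conj_ofReal, Complex.conj_ofNat]
    ring
  · apply Continuous.intervalIntegrable
    fun_prop
  · apply Continuous.intervalIntegrable
    apply Continuous.mul continuous_const
    apply Complex.continuous_conj.comp
    fun_prop

/-- the quadratic form of the positive harmonic function `Re g` -/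
theorem quad_form (hφ : DifferentiableOn ℂ φ (ball (0 : ℂ) 1))
    (hm : MapsTo φ (ball (0 : ℂ) 1) (ball (0 : ℂ) 1)) {r : ℝ} (hr0 : 0 ≤ r) (hr1 : r < 1)
    (N : ℕ) (n : ℕ → ℕ) (a : ℕ → ℂ) :
    ∫ θ in (0 : ℝ)..2 * π, ‖∑ i ∈ Finset.range N, a i * (cexp (-(θ * I))) ^ n i‖ ^ 2 *
      (g φ (circleMap 0 r θ)).re =
      (∑ i ∈ Finset.range N, ∑ j ∈ Finset.range N, a i * conj (a j) *
        (π * (H φ r ((n i : ℤ) - n j) + conj (H φ r (-((n i : ℤ) - n j)))))).re := by
  have hc := g_circle_cont hφ hm hr0 hr1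
  have h1 : ((∫ θ in (0 : ℝ)..2 * π, ‖∑ i ∈ Finset.range N, a i * (cexp (-(θ * I))) ^ n i‖ ^ 2 *
      (g φ (circleMap 0 r θ)).re : ℝ) : ℂ) =
      (∑ i ∈ Finset.range N, ∑ j ∈ Finset.range N, a i * conj (a j) *
        (π * (H φ r ((n i : ℤ) - n j) + conj (H φ r (-((n i : ℤ) - n j)))))) := by
    rw [← intervalIntegral.integral_ofReal]
    have e : ∀ θ : ℝ, ((‖∑ i ∈ Finset.range N, a i * (cexp (-(θ * I))) ^ n i‖ ^ 2 *
      (g φ (circleMap 0 r θ)).re : ℝ) : ℂ) = ∑ i ∈ Finset.range N, ∑ j ∈ Finset.range N,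
        a i * conj (a j) * (cexp (-((n i : ℤ) - n j : ℤ) * θ * I) *
          ((g φ (circleMap 0 r θ)).re : ℂ)) := by
      intro θ
      rw [Complex.ofReal_mul, ← Complex.normSq_eq_norm_sq, ← Complex.mul_conj]
      simp only [map_sum, map_mul]
      rw [Finset.sum_mul_sum, Finset.sum_mul]
      apply Finset.sum_congr rfl
      intro i _
      rw [Finset.sum_mul]
      apply Finset.sum_congr rfl
      intro j _
      have e2 : conj (cexp (-(θ * I)) ^ n j) = cexp (n j * (θ * I)) := by
        rw [← Complex.exp_nat_mul, ← Complex.exp_conj]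
        congr 1
        simp
      have e3 : cexp (-((n i : ℤ) - n j : ℤ) * θ * I) =
          cexp (-(θ * I)) ^ n i * cexp (n j * (θ * I)) := by
        rw [← Complex.exp_nat_mul, ← Complex.exp_add]
        congr 1
        push_cast
        ring
      rw [e2, e3]
      ring
    simp only [e]
    rw [intervalIntegral.integral_finsetSum]
    · apply Finset.sum_congr rfl
      intro i _
      rw [intervalIntegral.integral_finsetSum]
      · apply Finset.sum_congr rfl
        intro j _
        rw [intervalIntegral.integral_const_mul, reg_fourier hφ hm hr0 hr1]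
      · intro j _
        apply Continuous.intervalIntegrable
        have := Complex.continuous_ofReal.comp (Complex.continuous_re.comp hc)
        fun_prop
    · intro i _
      apply Continuous.intervalIntegrable
      have := Complex.continuous_ofReal.comp (Complex.continuous_re.comp hc)
      fun_prop
  rw [← h1, Complex.ofReal_re]

end Pool.Agent.Helper203.NS
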