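import Pool.Agent.Helper203.NST

set_option autoImplicit false

open Complex Metric Set Filter MeasureTheory
open scoped Real Topology ComplexConjugate Interval

namespace Pool.Agent.Helper203.NS

variable {φ : ℂ → ℂ}

/-- the part of `AS` in one period -/
def A1 (φ : ℂ → ℂ) : Set ℝ := AS φ ∩ Ioc 0 (2 * π)

theorem A1_meas (hφ : DifferentiableOn ℂ φ (ball (0 : ℂ) 1)) : MeasurableSet (A1 φ) :=
  (AS_closed hφ).measurableSet.inter measurableSet_Ioc

theorem A1_vol : volume (A1 φ) ≤ ENNReal.ofReal (2 * π) := by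
  refine (measure_mono (inter_subset_right)).trans ?_
  simp

theorem main_ineq_eta (hφ : DifferentiableOn ℂ φ (ball (0 : ℂ) 1))
    (hm : MapsTo φ (ball (0 : ℂ) 1) (ball (0 : ℂ) 1)) (hφ0 : φ 0 ≠ 0)
    (N : ℕ) (n : ℕ → ℕ) (a : ℕ → ℂ) {η : ℝ} (hη : 0 < η) :
    ∀ᶠ r in 𝓝[<] (1 : ℝ), ∫ x in A1 φ, ‖∑ i ∈ Finset.range N, a i * Us φ x ^ n i‖ ^ 2 ≤
      (∑ i ∈ Finset.range N, ∑ j ∈ Finset.range N, a i * conj (a j) *
        (π * (H φ r ((n i : ℤ) - n j) + conj (H φ r (-((n i : ℤ) - n j)))))).re + 2 * π * η := by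
  set P : ℂ → ℝ := fun x => ‖∑ i ∈ Finset.range N, a i * x ^ n i‖ ^ 2 with hP
  have hPc : Continuous P := by
    simp only [hP]
    fun_prop
  have hPu : UniformContinuousOn P (closedBall (0 : ℂ) 1) :=
    (isCompact_closedBall 0 1).uniformContinuousOn_of_continuous hPc.continuousOn
  rw [Metric.uniformContinuousOn_iff] at hPu
  obtain ⟨δ, hδ0, hδ⟩ := hPu η hη
  set ε : ℝ := min (1 / 2) (δ / 6) with hε
  have hε0 : 0 < ε := lt_min (by norm_num) (by positivity)
  have hε1 : ε ≤ 1 / 2 := min_le_left _ _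
  have hε2 : 3 * ε < δ := by
    have : ε ≤ δ / 6 := min_le_right _ _
    linarith
  obtain ⟨r₀, hr₀, hlev⟩ := level_near hφ hm hφ0 hε0
  filter_upwards [Ioo_mem_nhdsLT (show max 0 r₀ < 1 from max_lt one_pos hr₀)] with r hr
  have hr0 : 0 < r := (le_max_left 0 r₀).trans_lt hr.1
  have hrr : r₀ < r := (le_max_right 0 r₀).trans_lt hr.1
  have hr1 : r < 1 := hr.2
  set Ψ : ℝ → ℝ := (AS φ).indicator (fun x => P (Us φ x)) with hΨ
  have hΨper : Function.Periodic Ψ (2 * π) := by
    intro x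
    by_cases hx : x ∈ AS φ
    · rw [hΨ, indicator_of_mem ((AS_periodic x).mpr hx), indicator_of_mem hx, Us_periodic]
    · rw [hΨ, indicator_of_notMem (fun h => hx ((AS_periodic x).mp h)), indicator_of_notMem hx]
  have h1 : ∫ x in A1 φ, P (Us φ x) = ∫ x in (0 : ℝ)..2 * π, Ψ x := by
    rw [intervalIntegral.integral_of_le (by positivity), hΨ,
      setIntegral_indicator (AS_closed hφ).measurableSet, inter_comm]
    rfl
  have h2 : ∫ x in (0 : ℝ)..2 * π, Ψ x = ∫ x in (Th φ r 0)..(Th φ r (2 * π)), Ψ x := by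
    rw [Th_period hφ hm hr0.le hr1, hΨper.intervalIntegral_add_eq (Th φ r 0) 0, zero_add]
  have hgpos : ∀ θ : ℝ, 0 ≤ (g φ (circleMap 0 r θ)).re := fun θ =>
    (g_re_pos hφ hm (by rw [cm_norm hr0.le]; exact hr1)).le
  have h3 : ∫ x in (Th φ r 0)..(Th φ r (2 * π)), Ψ x =
      ∫ θ in (0 : ℝ)..2 * π, (Ψ ∘ Th φ r) θ * (g φ (circleMap 0 r θ)).re := by
    symm
    apply intervalIntegral.integral_comp_mul_deriv_of_deriv_nonneg
    · intro θ _
      exact (Th_deriv hφ hm hr0.le hr1 θ).continuousAt.continuousWithinAt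
    · intro θ _
      exact Th_deriv hφ hm hr0.le hr1 θ
    · intro θ _
      exact hgpos θ
  have hgc : Continuous (fun θ : ℝ => (g φ (circleMap 0 r θ)).re) :=
    Complex.continuous_re.comp (g_circle_cont hφ hm hr0.le hr1)
  have hpt : ∀ θ : ℝ, (Ψ ∘ Th φ r) θ ≤ P (cexp (-(θ * I))) + η := by
    intro θ
    by_cases hθ : Th φ r θ ∈ AS φ
    · have h4 := near_Us hφ hm hφ0 hε0 hε1 hr0 hr1 hθ (hlev r hr0 hrr hr1 θ hθ)
      have h5 : ‖cexp (-(θ * I))‖ = 1 := by
        have : cexp (-(θ * I)) = cexp (((-θ : ℝ) : ℂ) * I) := by congr 1; push_cast; ring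
        rw [this, exp_norm]
      have h6 := hδ (cexp (-(θ * I))) (by rw [mem_closedBall_zero_iff, h5])
        (Us φ (Th φ r θ)) (by rw [mem_closedBall_zero_iff, Us_norm hφ hm hθ])
        (by rw [dist_eq_norm]; linarith)
      rw [Real.dist_eq, abs_lt] at h6
      simp only [Function.comp_apply, hΨ, indicator_of_mem hθ]
      linarith [h6.1]
    · simp only [Function.comp_apply, hΨ, indicator_of_notMem hθ]
      have : 0 ≤ P (cexp (-(θ * I))) := by simp only [hP]; positivity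
      linarith
  have hΨnn : ∀ x, 0 ≤ Ψ x := by
    intro x
    simp only [hΨ]
    apply indicator_nonneg
    intro y _
    simp only [hP]; positivity
  have hPcc : Continuous (fun θ : ℝ => P (cexp (-(θ * I)))) := hPc.comp (by fun_prop)
  have h4 : ∫ θ in (0 : ℝ)..2 * π, (Ψ ∘ Th φ r) θ * (g φ (circleMap 0 r θ)).re ≤
      ∫ θ in (0 : ℝ)..2 * π, (P (cexp (-(θ * I))) + η) * (g φ (circleMap 0 r θ)).re := by
    rw [intervalIntegral.integral_of_le (by positivity),
      intervalIntegral.integral_of_le (by positivity)]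
    apply integral_mono_of_nonneg
    · apply Eventually.of_forall
      intro θ
      exact mul_nonneg (hΨnn _) (hgpos θ)
    · apply Continuous.integrableOn_Ioc
      exact (hPcc.add continuous_const).mul hgc
    · apply Eventually.of_forall
      intro θ
      exact mul_le_mul_of_nonneg_right (hpt θ) (hgpos θ)
  have h5 : ∫ θ in (0 : ℝ)..2 * π, (P (cexp (-(θ * I))) + η) * (g φ (circleMap 0 r θ)).re =
      (∫ θ in (0 : ℝ)..2 * π, P (cexp (-(θ * I))) * (g φ (circleMap 0 r θ)).re) + 2 * π * η := by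
    have e : ∀ θ : ℝ, (P (cexp (-(θ * I))) + η) * (g φ (circleMap 0 r θ)).re =
      P (cexp (-(θ * I))) * (g φ (circleMap 0 r θ)).re + η * (g φ (circleMap 0 r θ)).re := by
      intro θ; ring
    simp only [e]
    rw [intervalIntegral.integral_add, intervalIntegral.integral_const_mul, int_g hφ hm hr0.le hr1]
    · ring
    · exact (hPcc.mul hgc).intervalIntegrable _ _
    · exact (continuous_const.mul hgc).intervalIntegrable _ _
  have h6 := quad_form hφ hm hr0.le hr1 N n a
  calc ∫ x in A1 φ, P (Us φ x) = ∫ θ in (0 : ℝ)..2 * π, (Ψ ∘ Th φ r) θ *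
        (g φ (circleMap 0 r θ)).re := by rw [h1, h2, h3]
    _ ≤ _ := h4
    _ = _ := h5
    _ = _ := by rw [← h6]

theorem H_tendsto (p : ℤ) : Tendsto (fun r => H φ r p) (𝓝[<] (1 : ℝ))
    (𝓝 (if 0 ≤ p then cf φ 0 0 p.toNat else 0)) := by
  unfold H
  split_ifs with h
  · have h1 : Tendsto (fun r : ℝ => (r : ℂ)) (𝓝[<] 1) (𝓝 1) := by
      have := Complex.continuous_ofReal.tendsto (1 : ℝ)
      rw [Complex.ofReal_one] at this
      exact this.mono_left nhdsWithin_le_nhds
    have h2 := (h1.pow p.toNat).const_mul (cf φ 0 0 p.toNat)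
    rw [one_pow, mul_one] at h2
    exact h2
  · exact tendsto_const_nhds

theorem main_ineq (hφ : DifferentiableOn ℂ φ (ball (0 : ℂ) 1))
    (hm : MapsTo φ (ball (0 : ℂ) 1) (ball (0 : ℂ) 1)) (hφ0 : φ 0 ≠ 0)
    (N : ℕ) (n : ℕ → ℕ) (a : ℕ → ℂ) :
    ∫ x in A1 φ, ‖∑ i ∈ Finset.range N, a i * Us φ x ^ n i‖ ^ 2 ≤
      (∑ i ∈ Finset.range N, ∑ j ∈ Finset.range N, a i * conj (a j) *
        MM (fun m => ∫ x in A1 φ, Us φ x ^ m)
          (fun m => 2 * π * cf φ 0 0 m - ∫ x in A1 φ, Us φ x ^ m) (n i) (n j)).re := by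
  have hMM : ∀ p q : ℕ, MM (fun m => ∫ x in A1 φ, Us φ x ^ m)
          (fun m => 2 * π * cf φ 0 0 m - ∫ x in A1 φ, Us φ x ^ m) p q =
      π * ((if 0 ≤ (p : ℤ) - q then cf φ 0 0 ((p : ℤ) - q).toNat else 0) +
        conj (if 0 ≤ -((p : ℤ) - q) then cf φ 0 0 (-((p : ℤ) - q)).toNat else 0)) := by
    intro p q
    unfold MM
    rcases lt_trichotomy p q with h | h | h
    · rw [if_neg (by omega), if_neg (by omega), if_neg (by omega), if_pos (by omega)]
      have e : (-((p : ℤ) - q)).toNat = q - p := by omega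
      rw [e]
      have : conj (2 : ℂ) = 2 := Complex.conj_ofNat 2
      simp only [map_div₀, map_add, map_sub, map_mul, Complex.conj_ofReal, this]
      ring
    · subst h
      rw [if_pos rfl, if_pos (by omega), if_pos (by omega)]
      simp [cf_zero]
      ring
    · rw [if_neg (by omega), if_pos h, if_pos (by omega), if_neg (by omega)]
      have e : ((p : ℤ) - q).toNat = p - q := by omega
      rw [e, map_zero]
      ring
  have hlim : Tendsto (fun r : ℝ => (∑ i ∈ Finset.range N, ∑ j ∈ Finset.range N, a i * conj (a j) *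
        (π * (H φ r ((n i : ℤ) - n j) + conj (H φ r (-((n i : ℤ) - n j)))))).re) (𝓝[<] (1 : ℝ))
      (𝓝 (∑ i ∈ Finset.range N, ∑ j ∈ Finset.range N, a i * conj (a j) *
        MM (fun m => ∫ x in A1 φ, Us φ x ^ m)
          (fun m => 2 * π * cf φ 0 0 m - ∫ x in A1 φ, Us φ x ^ m) (n i) (n j)).re) := by
    apply (Complex.continuous_re.tendsto _).comp
    apply tendsto_finset_sum
    intro i _
    apply tendsto_finset_sum
    intro j _
    rw [hMM]
    apply Tendsto.const_mul
    apply Tendsto.const_mul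
    apply Tendsto.add (H_tendsto _)
    exact (Complex.continuous_conj.tendsto _).comp (H_tendsto _)
  apply le_of_forall_pos_le_add
  intro ε hε
  have hη : 0 < ε / (2 * π) := by positivity
  have h1 := main_ineq_eta hφ hm hφ0 N n a hη
  have h2 := hlim.add_const (2 * π * (ε / (2 * π)))
  have h3 := ge_of_tendsto h2 h1
  have e : 2 * π * (ε / (2 * π)) = ε := by field_simp
  rw [e] at h3
  exact h3

end Pool.Agent.Helper203.NS
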