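import Pool.Agent.Helper203.NSI

set_option autoImplicit false

open Complex Metric Set Filter MeasureTheory
open scoped Real Topology ComplexConjugate Interval

namespace Pool.Agent.Helper203.NS

variable {φ : ℂ → ℂ}

theorem exp_lt_one' {x : ℝ} (hx : x < 0) : Real.exp x < 1 := by
  rw [← Real.exp_zero]; exact Real.exp_lt_exp.mpr hx

/-- the integrand -/
noncomputable def Fn (φ : ℂ → ℂ) (j k n : ℕ) (z : ℂ) : ℂ := φ z ^ (n + j) / z ^ (n + k)

theorem Fn_norm (hm : MapsTo φ (ball (0 : ℂ) 1) (ball (0 : ℂ) 1)) (j k n : ℕ) {z : ℂ}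
    (hz : 1 / 2 ≤ ‖z‖) (hz1 : ‖z‖ < 1) :
    ‖Fn φ j k n z‖ ≤ (‖φ z‖ / ‖z‖) ^ n * 2 ^ k := by
  have h1 : ‖φ z‖ ≤ 1 := (norm_lt_of hm hz1).le
  have hz0 : 0 < ‖z‖ := by linarith
  rw [Fn, norm_div, norm_pow, norm_pow, pow_add, pow_add, div_pow]
  rw [mul_div_mul_comm]
  gcongr
  rw [div_le_iff₀ (by positivity)]
  have h2 : 1 ≤ 2 ^ k * ‖z‖ ^ k := by
    rw [← mul_pow]
    apply one_le_pow₀
    linarith
  exact (pow_le_one₀ (norm_nonneg _) h1).trans h2

theorem dct_pow {S : Set ℝ} (hS : MeasurableSet S) (hSf : volume S ≠ ⊤) {q : ℝ → ℝ}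
    (hq : ContinuousOn q S) (hq0 : ∀ x ∈ S, 0 ≤ q x) (hq1 : ∀ x ∈ S, q x < 1) (C : ℝ) :
    Tendsto (fun n : ℕ => ∫ x in S, q x ^ n * C) atTop (𝓝 0) := by
  have : IsFiniteMeasure (volume.restrict S) :=
    ⟨by simpa using lt_top_iff_ne_top.mpr hSf⟩
  have key := tendsto_integral_of_dominated_convergence (μ := volume.restrict S)
    (F := fun (n : ℕ) x => q x ^ n * C) (f := fun _ => (0 : ℝ)) (fun _ => |C|) ?_ ?_ ?_ ?_
  · simpa using key
  · intro n
    exact ((hq.pow n).mul continuousOn_const).aestronglyMeasurable hS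
  · exact integrable_const _
  · intro n
    rw [ae_restrict_iff' hS]
    apply Eventually.of_forall
    intro x hx
    rw [norm_mul, norm_pow, Real.norm_eq_abs, Real.norm_eq_abs, abs_of_nonneg (hq0 x hx)]
    have := pow_le_one₀ (n := n) (hq0 x hx) (hq1 x hx).le
    calc q x ^ n * |C| ≤ 1 * |C| := by gcongr
      _ = |C| := one_mul _
  · rw [ae_restrict_iff' hS]
    apply Eventually.of_forall
    intro x hx
    have := (tendsto_pow_atTop_nhds_zero_of_lt_one (hq0 x hx) (hq1 x hx)).mul_const C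
    simpa using this

theorem uniform_R (hφ : DifferentiableOn ℂ φ (ball (0 : ℂ) 1))
    (hm : MapsTo φ (ball (0 : ℂ) 1) (ball (0 : ℂ) 1)) {a b : ℝ}
    (h : Icc a b ∩ AS φ = ∅) :
    ∃ R₀ : ℝ, 1 / 2 ≤ R₀ ∧ R₀ < 1 ∧ ∀ α ∈ Icc a b, ∀ ρ : ℝ, R₀ ≤ ρ → ρ < 1 →
      ‖φ (circleMap 0 ρ α)‖ < ρ := by
  set R : ℕ → ℝ := fun m => 1 - 1 / ((m : ℝ) + 2) with hR
  have hRh : ∀ m, 1 / 2 ≤ R m := by
    intro m
    have : 1 / ((m : ℝ) + 2) ≤ 1 / 2 := by
      apply one_div_le_one_div_of_le (by norm_num)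
      have : (0 : ℝ) ≤ m := Nat.cast_nonneg m
      linarith
    simp only [hR]; linarith
  have hR1 : ∀ m, R m < 1 := by
    intro m
    have : 0 < 1 / ((m : ℝ) + 2) := by positivity
    simp only [hR]; linarith
  have hRm : Monotone R := by
    intro m m' hmm
    have : (m : ℝ) ≤ m' := by exact_mod_cast hmm
    have h2 : 1 / ((m' : ℝ) + 2) ≤ 1 / ((m : ℝ) + 2) := by
      apply one_div_le_one_div_of_le (by positivity)
      linarith
    simp only [hR]; linarith
  have hcov : Icc a b ⊆ ⋃ m, {α | ‖φ (circleMap 0 (R m) α)‖ < R m} := by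
    intro α hα
    have hnA : α ∉ AS φ := fun h' => by
      have : α ∈ Icc a b ∩ AS φ := ⟨hα, h'⟩
      rw [h] at this
      exact this
    simp only [AS, mem_ofPred_eq, not_forall, not_le] at hnA
    obtain ⟨ρ₀, h0, h1, h2⟩ := hnA
    obtain ⟨m, hm'⟩ := exists_nat_gt (1 / (1 - ρ₀))
    rw [mem_iUnion]
    refine ⟨m, ?_⟩
    have h3 : ρ₀ ≤ R m := by
      have h4 : 0 < 1 - ρ₀ := by linarith
      have h5 : 1 / ((m : ℝ) + 2) ≤ 1 - ρ₀ := by
        rw [div_le_iff₀ (by positivity)]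
        rw [div_lt_iff₀ h4] at hm'
        nlinarith
      simp only [hR]; linarith
    exact not_AS_ray hφ hm h0 h2 h3 (hR1 m)
  obtain ⟨m, hm'⟩ := isCompact_Icc.elim_directed_cover _ (fun m => by
    exact isOpen_lt (phi_cm_cont hφ (by linarith [hRh m]) (hR1 m)).norm continuous_const) hcov
    (by
      apply Monotone.directed_le
      intro m m' hmm α hα
      exact not_AS_ray hφ hm (by linarith [hRh m]) hα (hRm hmm) (hR1 m'))
  refine ⟨R m, hRh m, hR1 m, fun α hα ρ h1 h2 => ?_⟩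
  exact not_AS_ray hφ hm (by linarith [hRh m]) (hm' hα) h1 h2

theorem exp_cm {R : ℝ} (hR : 0 < R) (y : ℝ) :
    cexp ((Real.log R : ℝ) + y * I) = circleMap 0 R y := by
  rw [Complex.exp_add, ← Complex.ofReal_exp, Real.exp_log hR, cm_eq]

theorem rect (hφ : DifferentiableOn ℂ φ (ball (0 : ℂ) 1)) (j k n : ℕ) {R₀ R a b : ℝ}
    (hR0 : 0 < R₀) (hRR : R₀ ≤ R) (hR1 : R < 1) :
    ∫ y in a..b, Fn φ j k n (circleMap 0 R y) =
      (∫ y in a..b, Fn φ j k n (circleMap 0 R₀ y)) +
      I * ((∫ x in Real.log R₀..Real.log R, Fn φ j k n (cexp (x + a * I))) -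
        ∫ x in Real.log R₀..Real.log R, Fn φ j k n (cexp (x + b * I))) := by
  have hRp : 0 < R := hR0.trans_le hRR
  have hd : DifferentiableOn ℂ (fun ζ => Fn φ j k n (cexp ζ))
      ([[((Real.log R₀ : ℂ) + a * I).re, ((Real.log R : ℂ) + b * I).re]] ×ℂ
        [[((Real.log R₀ : ℂ) + a * I).im, ((Real.log R : ℂ) + b * I).im]]) := by
    intro ζ hζ
    have hre : ζ.re ≤ Real.log R := by
      have h1 := hζ.1
      simp only [mem_preimage, Complex.add_re, Complex.ofReal_re, Complex.mul_re, Complex.I_re,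
        mul_zero, Complex.ofReal_im, Complex.I_im, mul_one, sub_self, add_zero, zero_mul] at h1
      rw [uIcc_of_le (Real.log_le_log hR0 hRR)] at h1
      exact h1.2
    have hexp : ‖cexp ζ‖ < 1 := by
      rw [Complex.norm_exp]
      calc Real.exp ζ.re ≤ Real.exp (Real.log R) := Real.exp_le_exp.mpr hre
        _ = R := Real.exp_log hRp
        _ < 1 := hR1
    have h2 : DifferentiableAt ℂ φ (cexp ζ) :=
      hφ.differentiableAt (isOpen_ball.mem_nhds (by simpa using hexp))
    have h3 : DifferentiableAt ℂ (fun z => φ (cexp z)) ζ := h2.comp ζ Complex.differentiableAt_exp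
    apply DifferentiableAt.differentiableWithinAt
    unfold Fn
    exact (h3.pow _).div (by fun_prop) (pow_ne_zero _ (Complex.exp_ne_zero _))
  have key := Complex.integral_boundary_rect_eq_zero_of_differentiableOn _ _ _ hd
  simp only [Complex.add_re, Complex.ofReal_re, Complex.mul_re, Complex.I_re,
        mul_zero, Complex.ofReal_im, Complex.I_im, mul_one, sub_self, add_zero, Complex.add_im,
        Complex.mul_im, zero_add, zero_mul, exp_cm hR0, exp_cm hRp, smul_eq_mul] at key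
  have hI : I * I = -1 := Complex.I_mul_I
  linear_combination (-I) * key + ((∫ y in a..b, Fn φ j k n (circleMap 0 R y)) -
    ∫ y in a..b, Fn φ j k n (circleMap 0 R₀ y)) * hI

/-- side integrals -/
theorem side_bound (hφ : DifferentiableOn ℂ φ (ball (0 : ℂ) 1))
    (hm : MapsTo φ (ball (0 : ℂ) 1) (ball (0 : ℂ) 1)) (j k n : ℕ) {R₀ R c : ℝ}
    (hR0 : 1 / 2 ≤ R₀) (hRR : R₀ ≤ R) (hR1 : R < 1)
    (hc : ∀ ρ : ℝ, R₀ ≤ ρ → ρ < 1 → ‖φ (circleMap 0 ρ c)‖ < ρ) :
    ‖∫ x in Real.log R₀..Real.log R, Fn φ j k n (cexp (x + c * I))‖ ≤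
      ∫ x in Ioo (Real.log R₀) 0, (‖φ (cexp (x + c * I))‖ / Real.exp x) ^ n * 2 ^ k := by
  have hR0' : 0 < R₀ := by linarith
  have hRp : 0 < R := by linarith
  have hlog : Real.log R₀ ≤ Real.log R := Real.log_le_log hR0' hRR
  have hlog1 : Real.log R < 0 := Real.log_neg hRp hR1
  have hcm : ∀ x : ℝ, cexp (x + c * I) = circleMap 0 (Real.exp x) c := by
    intro x; rw [Complex.exp_add, ← Complex.ofReal_exp, cm_eq]
  rw [intervalIntegral.integral_of_le hlog]
  have hcont : ContinuousOn (fun x : ℝ => (‖φ (cexp (x + c * I))‖ / Real.exp x) ^ n * 2 ^ k)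
      (Iio (0 : ℝ)) := by
    apply ContinuousOn.mul _ continuousOn_const
    apply ContinuousOn.pow
    apply ContinuousOn.div _ Real.continuous_exp.continuousOn (fun x _ => (Real.exp_pos x).ne')
    apply ContinuousOn.norm
    apply hφ.continuousOn.comp
    · apply Continuous.continuousOn
      fun_prop
    · intro x hx
      show cexp (x + c * I) ∈ ball (0 : ℂ) 1
      rw [mem_ball_zero_iff, hcm, cm_norm (Real.exp_pos x).le]
      rw [mem_Iio] at hx
      exact exp_lt_one' hx
  have hint : IntegrableOn (fun x : ℝ => (‖φ (cexp (x + c * I))‖ / Real.exp x) ^ n * 2 ^ k)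
      (Ioo (Real.log R₀) 0) := by
    apply Integrable.of_bound
      ((hcont.mono (fun x hx => hx.2)).aestronglyMeasurable measurableSet_Ioo) (2 ^ k)
    rw [ae_restrict_iff' measurableSet_Ioo]
    apply Eventually.of_forall
    intro x hx
    have h1 : ‖φ (cexp (x + c * I))‖ / Real.exp x ≤ 1 := by
      rw [div_le_one (Real.exp_pos x), hcm]
      apply (hc _ _ (exp_lt_one' hx.2)).le
      rw [← Real.exp_log hR0']
      exact Real.exp_le_exp.mpr hx.1.le
    rw [norm_mul, norm_pow, Real.norm_eq_abs, Real.norm_eq_abs, abs_of_nonneg (by positivity),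
      abs_of_nonneg (by positivity)]
    have := pow_le_one₀ (n := n) (by positivity) h1
    calc (‖φ (cexp (x + c * I))‖ / Real.exp x) ^ n * 2 ^ k ≤ 1 * 2 ^ k := by gcongr
      _ = 2 ^ k := one_mul _
  refine (norm_integral_le_integral_norm _).trans ?_
  calc ∫ x in Ioc (Real.log R₀) (Real.log R), ‖Fn φ j k n (cexp (x + c * I))‖
      ≤ ∫ x in Ioc (Real.log R₀) (Real.log R),
        (‖φ (cexp (x + c * I))‖ / Real.exp x) ^ n * 2 ^ k := by
        apply integral_mono_of_nonneg
        · exact Eventually.of_forall fun x => norm_nonneg _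
        · apply hint.mono_set
          intro x hx
          exact ⟨hx.1, hx.2.trans_lt hlog1⟩
        · apply (ae_restrict_iff' measurableSet_Ioc).mpr
          apply Eventually.of_forall
          intro x hx
          have hx0 : x < 0 := hx.2.trans_lt hlog1
          have h2 : ‖cexp (x + c * I)‖ = Real.exp x := by
            rw [hcm, cm_norm (Real.exp_pos x).le]
          have h3 : R₀ ≤ Real.exp x := by
            rw [← Real.exp_log hR0']
            exact Real.exp_le_exp.mpr hx.1.le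
          have := Fn_norm hm j k n (z := cexp (x + c * I)) (by rw [h2]; linarith)
            (by rw [h2]; exact exp_lt_one' hx0)
          rw [h2] at this
          exact this
    _ ≤ _ := by
        apply setIntegral_mono_set hint
        · apply Eventually.of_forall
          intro x; positivity
        · apply LE.le.eventuallyLE
          intro x hx
          exact ⟨hx.1, hx.2.trans_lt hlog1⟩

theorem good_interval (hφ : DifferentiableOn ℂ φ (ball (0 : ℂ) 1))
    (hm : MapsTo φ (ball (0 : ℂ) 1) (ball (0 : ℂ) 1)) (j k : ℕ) {a b : ℝ} (hab : a ≤ b)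
    (h : Icc a b ∩ AS φ = ∅) :
    ∃ E : ℕ → ℝ, Tendsto E atTop (𝓝 0) ∧ ∀ n, ∀ᶠ R in 𝓝[<] (1 : ℝ),
      ‖∫ y in a..b, Fn φ j k n (circleMap 0 R y)‖ ≤ E n := by
  obtain ⟨R₀, hR0, hR1, hR⟩ := uniform_R hφ hm h
  have hR0' : 0 < R₀ := by linarith
  have hlog0 : Real.log R₀ < 0 := Real.log_neg hR0' hR1
  have hcm : ∀ x c : ℝ, cexp (x + c * I) = circleMap 0 (Real.exp x) c := by
    intro x c; rw [Complex.exp_add, ← Complex.ofReal_exp, cm_eq]
  have hside : ∀ c ∈ Icc a b, Tendsto (fun n : ℕ => ∫ x in Ioo (Real.log R₀) 0,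
      (‖φ (cexp (x + c * I))‖ / Real.exp x) ^ n * 2 ^ k) atTop (𝓝 0) := by
    intro c hc
    apply dct_pow measurableSet_Ioo (by simp)
    · apply ContinuousOn.div _ Real.continuous_exp.continuousOn (fun x _ => (Real.exp_pos x).ne')
      apply ContinuousOn.norm
      apply hφ.continuousOn.comp
      · apply Continuous.continuousOn
        fun_prop
      · intro x hx
        show cexp (x + c * I) ∈ ball (0 : ℂ) 1
        rw [mem_ball_zero_iff, hcm, cm_norm (Real.exp_pos x).le]
        exact exp_lt_one' hx.2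
    · intro x _; positivity
    · intro x hx
      rw [div_lt_one (Real.exp_pos x), hcm]
      apply hR c hc _ _ (exp_lt_one' hx.2)
      rw [← Real.exp_log hR0']
      exact Real.exp_le_exp.mpr hx.1.le
  have hbase : Tendsto (fun n : ℕ => ∫ y in Ioc a b,
      (‖φ (circleMap 0 R₀ y)‖ / R₀) ^ n * 2 ^ k) atTop (𝓝 0) := by
    apply dct_pow measurableSet_Ioc (by simp)
    · apply Continuous.continuousOn
      exact (phi_cm_cont hφ hR0'.le hR1).norm.div_const _
    · intro x _; positivity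
    · intro x hx
      rw [div_lt_one hR0']
      exact hR x ⟨hx.1.le, hx.2⟩ R₀ le_rfl hR1
  refine ⟨fun n => (∫ y in Ioc a b, (‖φ (circleMap 0 R₀ y)‖ / R₀) ^ n * 2 ^ k) +
    ((∫ x in Ioo (Real.log R₀) 0, (‖φ (cexp (x + a * I))‖ / Real.exp x) ^ n * 2 ^ k) +
    (∫ x in Ioo (Real.log R₀) 0, (‖φ (cexp (x + b * I))‖ / Real.exp x) ^ n * 2 ^ k)), ?_, ?_⟩
  rotate_left
  · intro n
    filter_upwards [Ioo_mem_nhdsLT hR1] with R hRR
    rw [rect hφ j k n (a := a) (b := b) hR0' hRR.1.le hRR.2]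
    refine (norm_add_le _ _).trans ?_
    rw [norm_mul, Complex.norm_I, one_mul]
    refine (add_le_add (?_ : _ ≤ ∫ y in Ioc a b, (‖φ (circleMap 0 R₀ y)‖ / R₀) ^ n * 2 ^ k)
      ((norm_sub_le _ _).trans (add_le_add
        (side_bound hφ hm j k n hR0 hRR.1.le hRR.2 (hR a ⟨le_rfl, hab⟩))
        (side_bound hφ hm j k n hR0 hRR.1.le hRR.2 (hR b ⟨hab, le_rfl⟩)))))
    rw [intervalIntegral.integral_of_le hab]
    refine (norm_integral_le_integral_norm _).trans ?_
    apply integral_mono_of_nonneg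
    · exact Eventually.of_forall fun x => norm_nonneg _
    · apply Continuous.integrableOn_Ioc
      exact (((phi_cm_cont hφ hR0'.le hR1).norm.div_const _).pow n).mul continuous_const
    · apply Eventually.of_forall
      intro y
      have := Fn_norm hm j k n (z := circleMap 0 R₀ y) (by rw [cm_norm hR0'.le]; exact hR0)
        (by rw [cm_norm hR0'.le]; exact hR1)
      rw [cm_norm hR0'.le] at this
      exact this
  · have := hbase.add ((hside a ⟨le_rfl, hab⟩).add (hside b ⟨hab, le_rfl⟩))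
    simpa using this

end Pool.Agent.Helper203.NS
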