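import Pool.Agent.Helper203.NSL

set_option autoImplicit false

open Complex Metric Set Filter MeasureTheory
open scoped Real Topology ComplexConjugate Interval

namespace Pool.Agent.Helper203.NS

variable {φ : ℂ → ℂ}

/-- partition interval -/
def JJ (M i : ℕ) : Set ℝ := Ioc (2 * π * i / M) (2 * π * (i + 1) / M)

open Classical in
/-- indices of partition intervals off `AS` -/
noncomputable def good (φ : ℂ → ℂ) (M : ℕ) : Finset ℕ :=
  (Finset.range M).filter (fun i => Icc (2 * π * i / M) (2 * π * (i + 1) / M) ∩ AS φ = ∅)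

/-- union of good intervals -/
def SM (φ : ℂ → ℂ) (M : ℕ) : Set ℝ := ⋃ i ∈ good φ M, JJ M i

/-- complement of `AS` in one period -/
def C1 (φ : ℂ → ℂ) : Set ℝ := Ioc 0 (2 * π) \ AS φ

theorem C1_meas (hφ : DifferentiableOn ℂ φ (ball (0 : ℂ) 1)) : MeasurableSet (C1 φ) :=
  measurableSet_Ioc.diff (AS_closed hφ).measurableSet

theorem SM_meas (M : ℕ) : MeasurableSet (SM φ M) :=
  Finset.measurableSet_biUnion _ fun _ _ => measurableSet_Ioc

theorem JJ_disj (M : ℕ) : Pairwise (Function.onFun Disjoint (JJ M)) := by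
  intro i j hij
  rw [Function.onFun, Set.disjoint_left]
  intro x hx hy
  rcases Nat.eq_zero_or_pos M with hM | hM
  · subst hM
    simp [JJ] at hx
  · have hM' : (0 : ℝ) < M := by exact_mod_cast hM
    have h2π := Real.two_pi_pos
    simp only [JJ, mem_Ioc, div_lt_iff₀ hM', le_div_iff₀ hM'] at hx hy
    have h1 : (i : ℝ) < j + 1 := by
      have : 2 * π * (i : ℝ) < 2 * π * (j + 1) := hx.1.trans_le hy.2
      exact lt_of_mul_lt_mul_left this h2π.le
    have h2 : (j : ℝ) < i + 1 := by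
      have : 2 * π * (j : ℝ) < 2 * π * (i + 1) := hy.1.trans_le hx.2
      exact lt_of_mul_lt_mul_left this h2π.le
    have h1' : i < j + 1 := by exact_mod_cast h1
    have h2' : j < i + 1 := by exact_mod_cast h2
    omega

theorem SM_subset (M : ℕ) : SM φ M ⊆ C1 φ := by
  intro x hx
  simp only [SM, mem_iUnion, good, Finset.mem_filter, Finset.mem_range] at hx
  obtain ⟨i, ⟨hiM, hg⟩, hxi⟩ := hx
  have hM : (0 : ℝ) < M := by
    have : 0 < M := by omega
    exact_mod_cast this
  refine ⟨⟨?_, ?_⟩, ?_⟩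
  · exact lt_of_le_of_lt (by positivity) hxi.1
  · refine hxi.2.trans ?_
    rw [div_le_iff₀ hM]
    have : (i : ℝ) + 1 ≤ M := by exact_mod_cast hiM
    have h2π := Real.two_pi_pos
    nlinarith
  · intro hA
    have : x ∈ Icc (2 * π * i / M) (2 * π * (i + 1) / M) ∩ AS φ := ⟨⟨hxi.1.le, hxi.2⟩, hA⟩
    rw [hg] at this
    exact this

theorem SM_eventually (hφ : DifferentiableOn ℂ φ (ball (0 : ℂ) 1)) {x : ℝ} (hx : x ∈ C1 φ) :
    ∀ᶠ M : ℕ in atTop, x ∈ SM φ M := by
  have hopen : IsOpen (AS φ)ᶜ := (AS_closed hφ).isOpen_compl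
  obtain ⟨δ, hδ0, hδ⟩ := Metric.isOpen_iff.mp hopen x hx.2
  obtain ⟨M₀, hM₀⟩ := exists_nat_gt (2 * π / δ)
  filter_upwards [eventually_ge_atTop (max M₀ 1)] with M hM
  have hM1 : 1 ≤ M := (le_max_right M₀ 1).trans hM
  have hMM : (M₀ : ℝ) ≤ M := by exact_mod_cast (le_max_left M₀ 1).trans hM
  have hMp : (0 : ℝ) < M := by
    have : 0 < M := by omega
    exact_mod_cast this
  have h2π := Real.two_pi_pos
  have hsmall : 2 * π / M < δ := by
    rw [div_lt_iff₀ hMp]
    rw [div_lt_iff₀ hδ0] at hM₀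
    nlinarith
  -- index
  obtain ⟨i, hi⟩ : ∃ i : ℕ, ⌈x * M / (2 * π)⌉₊ = i + 1 := by
    have : 0 < ⌈x * M / (2 * π)⌉₊ := by
      rw [Nat.ceil_pos]
      have := hx.1.1
      positivity
    exact ⟨⌈x * M / (2 * π)⌉₊ - 1, by omega⟩
  have h1 : x * M / (2 * π) ≤ i + 1 := by
    have := Nat.le_ceil (x * M / (2 * π))
    rw [hi] at this
    exact_mod_cast this
  have h2 : (i : ℝ) < x * M / (2 * π) := by
    have : i < ⌈x * M / (2 * π)⌉₊ := by omega
    exact Nat.lt_ceil.mp this
  rw [div_le_iff₀ h2π] at h1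
  rw [lt_div_iff₀ h2π] at h2
  have hxJ : x ∈ JJ M i := by
    simp only [JJ, mem_Ioc, div_lt_iff₀ hMp, le_div_iff₀ hMp]
    constructor <;> linarith
  simp only [SM, mem_iUnion, good, Finset.mem_filter, Finset.mem_range]
  refine ⟨i, ⟨?_, ?_⟩, hxJ⟩
  · have h3 : (i : ℝ) * (2 * π) < M * (2 * π) := by
      have := hx.1.2
      nlinarith
    have : (i : ℝ) < M := lt_of_mul_lt_mul_right h3 h2π.le
    exact_mod_cast this
  · rw [Set.eq_empty_iff_forall_notMem]
    rintro y ⟨hy, hyA⟩
    have hyb : y ∈ ball x δ := by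
      rw [mem_ball, Real.dist_eq, abs_lt]
      have e : 2 * π * ((i : ℝ) + 1) / M = 2 * π * i / M + 2 * π / M := by ring
      have h5 := hy.1
      have h6 := hy.2
      have h7 := hxJ.1
      have h8 := hxJ.2
      rw [e] at h6 h8
      constructor <;> linarith
    exact hδ hyb hyA

theorem diff_small (hφ : DifferentiableOn ℂ φ (ball (0 : ℂ) 1)) {ε : ℝ} (hε : 0 < ε) :
    ∃ M : ℕ, volume.real (C1 φ \ SM φ M) < ε := by
  have key := MeasureTheory.tendsto_measure_of_tendsto_indicator (μ := volume) (L := atTop)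
    (As := fun M => C1 φ \ SM φ M) (A := (∅ : Set ℝ)) (B := Ioc 0 (2 * π))
    (fun M => (C1_meas hφ).diff (SM_meas M)) measurableSet_Ioc measure_Ioc_lt_top.ne
    (Eventually.of_forall fun M x hx => hx.1.1) (by
      intro x
      by_cases hx : x ∈ C1 φ
      · filter_upwards [SM_eventually hφ hx] with M hM
        simp [hM]
      · exact Eventually.of_forall fun M => by simp [hx])
  rw [measure_empty] at key
  have h2 : ∀ᶠ M in atTop, volume (C1 φ \ SM φ M) < ENNReal.ofReal ε :=
    key.eventually (gt_mem_nhds (by simpa using hε))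
  obtain ⟨M, hM⟩ := h2.exists
  refine ⟨M, ?_⟩
  have := (ENNReal.toReal_lt_toReal (ne_top_of_lt hM) ENNReal.ofReal_ne_top).mpr hM
  rwa [ENNReal.toReal_ofReal hε.le] at this

/-- the test function on `AS` -/
noncomputable def hs (φ : ℂ → ℂ) (j k : ℕ) (x : ℝ) : ℂ := Bd φ x ^ j * cexp (-(x * I)) ^ k

theorem Fn_bound (hm : MapsTo φ (ball (0 : ℂ) 1) (ball (0 : ℂ) 1)) (j k n : ℕ) {R : ℝ}
    (hR : 1 / 2 ≤ R) (hR1 : R < 1) (x : ℝ) : ‖Fn φ j k n (circleMap 0 R x)‖ ≤ 2 ^ (n + k) := by
  have hn : ‖circleMap 0 R x‖ = R := cm_norm (by linarith) x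
  have h1 : ‖φ (circleMap 0 R x)‖ ≤ 1 := (norm_lt_of hm (by rw [hn]; exact hR1)).le
  rw [Fn, norm_div, norm_pow, norm_pow, hn]
  rw [div_le_iff₀ (by positivity)]
  have h2 : 1 ≤ 2 ^ (n + k) * R ^ (n + k) := by
    rw [← mul_pow]
    apply one_le_pow₀
    linarith
  exact (pow_le_one₀ (norm_nonneg _) h1).trans h2

theorem Fn_cont (hφ : DifferentiableOn ℂ φ (ball (0 : ℂ) 1)) (j k n : ℕ) {R : ℝ}
    (hR : 0 < R) (hR1 : R < 1) : Continuous (fun x : ℝ => Fn φ j k n (circleMap 0 R x)) := by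
  unfold Fn
  apply Continuous.div
  · exact (phi_cm_cont hφ hR.le hR1).pow _
  · exact (continuous_circleMap 0 R).pow _
  · intro x
    exact pow_ne_zero _ (circleMap_ne_center hR.ne')

theorem A_part (hφ : DifferentiableOn ℂ φ (ball (0 : ℂ) 1))
    (hm : MapsTo φ (ball (0 : ℂ) 1) (ball (0 : ℂ) 1)) (j k n : ℕ) :
    Tendsto (fun R : ℝ => ∫ x in A1 φ, Fn φ j k n (circleMap 0 R x)) (𝓝[<] 1)
      (𝓝 (∫ x in A1 φ, Us φ x ^ n * hs φ j k x)) := by
  have hAfin : volume (A1 φ) < ⊤ := A1_vol.trans_lt ENNReal.ofReal_lt_top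
  have : IsFiniteMeasure (volume.restrict (A1 φ)) := ⟨by simpa using hAfin⟩
  apply tendsto_integral_filter_of_dominated_convergence (fun _ => (2 : ℝ) ^ (n + k))
  · filter_upwards [Ioo_mem_nhdsLT (show (1 : ℝ) / 2 < 1 by norm_num)] with R hR
    exact (Fn_cont hφ j k n (by linarith [hR.1]) hR.2).aestronglyMeasurable
  · filter_upwards [Ioo_mem_nhdsLT (show (1 : ℝ) / 2 < 1 by norm_num)] with R hR
    exact Eventually.of_forall fun x => Fn_bound hm j k n hR.1.le hR.2 x
  · exact integrable_const _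
  · rw [ae_restrict_iff' (A1_meas hφ)]
    apply Eventually.of_forall
    intro x hx
    have h1 := Bd_tendsto hφ hm hx.1
    have h2 : Tendsto (fun R : ℝ => circleMap 0 R x) (𝓝[<] 1) (𝓝 (cexp (x * I))) := by
      have hc : Continuous (fun R : ℝ => circleMap 0 R x) := by
        unfold circleMap; fun_prop
      have := (hc.tendsto 1).mono_left (nhdsWithin_le_nhds (s := Iio 1))
      simpa [circleMap] using this
    have h3 := (h1.pow (n + j)).div (h2.pow (n + k)) (pow_ne_zero _ (Complex.exp_ne_zero _))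
    have e : Bd φ x ^ (n + j) / cexp (x * I) ^ (n + k) = Us φ x ^ n * hs φ j k x := by
      have h4 : cexp (x * I) * cexp (-(x * I)) = 1 := by
        rw [← Complex.exp_add]; simp
      have h5 : cexp (-(x * I)) = (cexp (x * I))⁻¹ := by
        rw [Complex.exp_neg]
      rw [Us, hs, h5, pow_add, pow_add, mul_pow, inv_pow, inv_pow]
      field_simp
    rw [e] at h3
    exact h3

theorem lam_tendsto (hφ : DifferentiableOn ℂ φ (ball (0 : ℂ) 1))
    (hm : MapsTo φ (ball (0 : ℂ) 1) (ball (0 : ℂ) 1)) (j k : ℕ) :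
    Tendsto (fun n : ℕ => 2 * π * cf φ j k n - ∫ x in A1 φ, Us φ x ^ n * hs φ j k x) atTop
      (𝓝 0) := by
  classical
  -- bound for each n
  have hbound : ∀ ε > 0, ∃ E : ℕ → ℝ, Tendsto E atTop (𝓝 0) ∧ ∀ n : ℕ,
      ‖2 * π * cf φ j k n - ∫ x in A1 φ, Us φ x ^ n * hs φ j k x‖ ≤ E n + 2 * ε := by
    intro ε hε
    obtain ⟨M, hM⟩ := diff_small hφ hε
    have hch : ∀ i : ℕ, ∃ E : ℕ → ℝ, i ∈ good φ M → (Tendsto E atTop (𝓝 0) ∧
        ∀ n, ∀ᶠ R in 𝓝[<] (1 : ℝ), ‖∫ y in JJ M i, Fn φ j k n (circleMap 0 R y)‖ ≤ E n) := by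
      intro i
      by_cases hi : i ∈ good φ M
      · have hi' := hi
        simp only [good, Finset.mem_filter, Finset.mem_range] at hi'
        have hMp : (0 : ℝ) < M := by
          have : 0 < M := by omega
          exact_mod_cast this
        have hab : 2 * π * i / M ≤ 2 * π * ((i : ℝ) + 1) / M := by
          have h2π := Real.two_pi_pos
          gcongr
          linarith
        obtain ⟨E, hE1, hE2⟩ := good_interval hφ hm j k hab hi'.2
        refine ⟨E, fun _ => ⟨hE1, fun n => ?_⟩⟩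
        filter_upwards [hE2 n] with R hR
        rw [intervalIntegral.integral_of_le hab] at hR
        exact hR
      · exact ⟨fun _ => 0, fun h => absurd h hi⟩
    choose E hE using hch
    refine ⟨fun n => ∑ i ∈ good φ M, E i n, ?_, ?_⟩
    · have : Tendsto (fun n => ∑ i ∈ good φ M, E i n) atTop (𝓝 (∑ i ∈ good φ M, (0 : ℝ))) := by
        apply tendsto_finsetSum
        intro i hi
        exact (hE i hi).1
      simpa using this
    · intro n
      have hlim : Tendsto (fun R : ℝ => ‖2 * π * cf φ j k n -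
          ∫ x in A1 φ, Fn φ j k n (circleMap 0 R x)‖) (𝓝[<] 1)
          (𝓝 ‖2 * π * cf φ j k n - ∫ x in A1 φ, Us φ x ^ n * hs φ j k x‖) :=
        ((A_part hφ hm j k n).const_sub _).norm
      have hpow : ∀ᶠ R in 𝓝[<] (1 : ℝ), 1 / R ^ (n + k) < 2 := by
        have h1 : Tendsto (fun R : ℝ => 1 / R ^ (n + k)) (𝓝 1) (𝓝 (1 / 1 ^ (n + k))) := by
          apply Tendsto.div tendsto_const_nhds (tendsto_id.pow _)
          simp
        simp only [one_pow, div_one] at h1
        have h2 := h1.mono_left (nhdsWithin_le_nhds (s := Iio 1))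
        exact h2.eventually (gt_mem_nhds (by norm_num))
      apply le_of_tendsto hlim
      have hall : ∀ᶠ R in 𝓝[<] (1 : ℝ), ∀ i ∈ good φ M,
          ‖∫ y in JJ M i, Fn φ j k n (circleMap 0 R y)‖ ≤ E i n := by
        rw [Filter.eventually_all_finset]
        intro i hi
        exact (hE i hi).2 n
      filter_upwards [Ioo_mem_nhdsLT (show (1 : ℝ) / 2 < 1 by norm_num), hall, hpow]
        with R hR hEi hRp
      have hR0 : 0 < R := by linarith [hR.1]
      have hcont := Fn_cont hφ j k n hR0 hR.2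
      have hint : ∀ S : Set ℝ, S ⊆ Ioc 0 (2 * π) →
          IntegrableOn (fun x : ℝ => Fn φ j k n (circleMap 0 R x)) S := fun S hS =>
        (hcont.integrableOn_Ioc).mono_set hS
      have h1 : 2 * π * cf φ j k n = ∫ x in Ioc 0 (2 * π), Fn φ j k n (circleMap 0 R x) := by
        rw [← cf_eq hφ j k n hR0 hR.2, intervalIntegral.integral_of_le (by positivity)]
        rfl
      have h2 : ∫ x in Ioc 0 (2 * π), Fn φ j k n (circleMap 0 R x) =
          (∫ x in A1 φ, Fn φ j k n (circleMap 0 R x)) +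
          ∫ x in C1 φ, Fn φ j k n (circleMap 0 R x) := by
        have hdis : Disjoint (A1 φ) (C1 φ) := by
          rw [Set.disjoint_left]
          intro x hx hy
          exact hy.2 hx.1
        have hun : A1 φ ∪ C1 φ = Ioc 0 (2 * π) := by
          rw [A1, C1, inter_comm, inter_union_sdiff]
        rw [← setIntegral_union hdis (C1_meas hφ) (hint _ inter_subset_right)
          (hint _ sdiff_subset), hun]
      have h3 : ∫ x in C1 φ, Fn φ j k n (circleMap 0 R x) =
          (∫ x in SM φ M, Fn φ j k n (circleMap 0 R x)) +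
          ∫ x in C1 φ \ SM φ M, Fn φ j k n (circleMap 0 R x) := by
        rw [← setIntegral_union disjoint_sdiff_right ((C1_meas hφ).diff (SM_meas M))
          (hint _ ((SM_subset M).trans sdiff_subset)) (hint _ (sdiff_subset.trans sdiff_subset)),
          union_sdiff_cancel (SM_subset M)]
      have h4 : ∫ x in SM φ M, Fn φ j k n (circleMap 0 R x) =
          ∑ i ∈ good φ M, ∫ x in JJ M i, Fn φ j k n (circleMap 0 R x) := by
        rw [SM, integral_biUnion_finset]
        · intro i _; exact measurableSet_Ioc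
        · intro i _ i' _ hii
          exact JJ_disj M hii
        · intro i hi
          apply hint
          intro x hx
          exact (SM_subset (φ := φ) M (mem_biUnion hi hx)).1
      have h5 : ‖∫ x in C1 φ \ SM φ M, Fn φ j k n (circleMap 0 R x)‖ ≤ 2 * ε := by
        have h6 : ‖∫ x in C1 φ \ SM φ M, Fn φ j k n (circleMap 0 R x)‖ ≤
            2 * volume.real (C1 φ \ SM φ M) := by
          apply norm_setIntegral_le_of_norm_le_const
          · exact lt_of_le_of_lt (measure_mono (t := Ioc 0 (2 * π)) (fun x hx => hx.1.1))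
              measure_Ioc_lt_top
          · intro x _
            have hn : ‖circleMap 0 R x‖ = R := cm_norm hR0.le x
            have h7 : ‖φ (circleMap 0 R x)‖ ≤ 1 := (norm_lt_of hm (by rw [hn]; exact hR.2)).le
            rw [Fn, norm_div, norm_pow, norm_pow, hn]
            calc ‖φ (circleMap 0 R x)‖ ^ (n + j) / R ^ (n + k) ≤ 1 / R ^ (n + k) := by
                  gcongr
                  exact pow_le_one₀ (norm_nonneg _) h7
              _ ≤ 2 := hRp.le
        linarith
      rw [h1, h2, add_sub_cancel_left, h3, h4]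
      refine (norm_add_le _ _).trans (add_le_add ?_ h5)
      refine (norm_sum_le _ _).trans (Finset.sum_le_sum fun i hi => hEi i hi)
  rw [Metric.tendsto_atTop]
  intro ε hε
  obtain ⟨E, hE1, hE2⟩ := hbound (ε / 4) (by positivity)
  obtain ⟨n₀, hn₀⟩ := (Metric.tendsto_atTop.mp hE1) (ε / 2) (by positivity)
  refine ⟨n₀, fun n hn => ?_⟩
  have h1 := hn₀ n hn
  rw [Real.dist_eq, sub_zero, abs_lt] at h1
  rw [dist_zero_right]
  have := hE2 n
  linarith [h1.2]

end Pool.Agent.Helper203.NS
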