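import Pool.Agent.Helper203.NSA

set_option autoImplicit false

open Complex Metric Set Filter MeasureTheory
open scoped Real Topology ComplexConjugate Interval

namespace Pool.Agent.Helper203.NS

variable {φ : ℂ → ℂ}

/-- continuous choice of the argument of `w(r e^{iθ})` -/
noncomputable def Th (φ : ℂ → ℂ) (r θ : ℝ) : ℝ :=
  Complex.arg (w φ (circleMap 0 r 0)) + ∫ s in (0 : ℝ)..θ, (g φ (circleMap 0 r s)).re

theorem Th_deriv (hφ : DifferentiableOn ℂ φ (ball (0 : ℂ) 1))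
    (hm : MapsTo φ (ball (0 : ℂ) 1) (ball (0 : ℂ) 1)) {r : ℝ} (hr0 : 0 ≤ r) (hr1 : r < 1)
    (θ : ℝ) : HasDerivAt (Th φ r) (g φ (circleMap 0 r θ)).re θ := by
  have hc : Continuous (fun s : ℝ => (g φ (circleMap 0 r s)).re) :=
    Complex.continuous_re.comp (g_circle_cont hφ hm hr0 hr1)
  exact (hc.integral_hasStrictDerivAt 0 θ).hasDerivAt.const_add _

theorem int_g (hφ : DifferentiableOn ℂ φ (ball (0 : ℂ) 1))
    (hm : MapsTo φ (ball (0 : ℂ) 1) (ball (0 : ℂ) 1)) {r : ℝ} (hr0 : 0 ≤ r) (hr1 : r < 1) :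
    ∫ θ in (0 : ℝ)..2 * π, (g φ (circleMap 0 r θ)).re = 2 * π := by
  have h := reg_fourier hφ hm hr0 hr1 0
  simp only [Int.cast_zero, neg_zero, zero_mul, Complex.exp_zero, one_mul] at h
  rw [intervalIntegral.integral_ofReal] at h
  have e : H φ r 0 = 1 := by simp [H, cf_zero]
  rw [e, map_one] at h
  have : ((2 * π : ℝ) : ℂ) = (π : ℂ) * (1 + 1) := by push_cast; ring
  rw [← this] at h
  exact_mod_cast h

theorem Th_period (hφ : DifferentiableOn ℂ φ (ball (0 : ℂ) 1))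
    (hm : MapsTo φ (ball (0 : ℂ) 1) (ball (0 : ℂ) 1)) {r : ℝ} (hr0 : 0 ≤ r) (hr1 : r < 1) :
    Th φ r (2 * π) = Th φ r 0 + 2 * π := by
  unfold Th
  rw [int_g hφ hm hr0 hr1]
  simp

theorem w_ne (hφ : DifferentiableOn ℂ φ (ball (0 : ℂ) 1))
    (hm : MapsTo φ (ball (0 : ℂ) 1) (ball (0 : ℂ) 1)) (hφ0 : φ 0 ≠ 0) {t : ℂ} (ht : ‖t‖ < 1)
    (ht0 : t ≠ 0) : w φ t ≠ 0 := by
  intro h
  have := w_fix hφ hm ht
  rw [h] at this
  rcases mul_eq_zero.mp this.symm with h1 | h1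
  · exact ht0 h1
  · exact hφ0 h1

theorem w_polar (hφ : DifferentiableOn ℂ φ (ball (0 : ℂ) 1))
    (hm : MapsTo φ (ball (0 : ℂ) 1) (ball (0 : ℂ) 1)) {r : ℝ} (hr0 : 0 < r) (hr1 : r < 1)
    (θ : ℝ) :
    w φ (circleMap 0 r θ) = ‖w φ (circleMap 0 r θ)‖ * cexp (Th φ r θ * I) := by
  have hc := g_circle_cont hφ hm hr0.le hr1
  set G : ℝ → ℂ := fun s => g φ (circleMap 0 r s) with hG
  have hzn : ∀ s : ℝ, ‖circleMap 0 r s‖ < 1 := fun s => by rw [cm_norm hr0.le]; exact hr1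
  set V : ℝ → ℂ := fun s => w φ (circleMap 0 r s) with hV
  have hVd : ∀ s : ℝ, HasDerivAt V (I * G s * V s) s := by
    intro s
    have h1 : HasDerivAt (w φ) (deriv (w φ) (circleMap 0 r s)) (circleMap 0 r s) :=
      ((w_diff hφ hm).differentiableAt
        (isOpen_ball.mem_nhds (by simpa using hzn s))).hasDerivAt
    have h2 := h1.comp s (hasDerivAt_circleMap 0 r s)
    have h3 : deriv (w φ) (circleMap 0 r s) * (circleMap 0 r s * I) = I * G s * V s := by
      have := w_deriv hφ hm (hzn s)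
      simp only [hG, hV]
      linear_combination I * this
    rw [h3] at h2
    exact h2
  set P : ℝ → ℂ := fun s => ∫ x in (0 : ℝ)..s, G x with hP
  have hPd : ∀ s : ℝ, HasDerivAt P (G s) s := fun s =>
    (hc.integral_hasStrictDerivAt 0 s).hasDerivAt
  have hEd : ∀ s : ℝ, HasDerivAt (fun s => cexp (-(I * P s)) * V s) 0 s := by
    intro s
    have h1 : HasDerivAt (fun s => cexp (-(I * P s))) (cexp (-(I * P s)) * (-(I * G s))) s :=
      (((hPd s).const_mul I).neg).cexp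
    have h2 := h1.mul (hVd s)
    have e0 : cexp (-(I * P s)) * -(I * G s) * V s + cexp (-(I * P s)) * (I * G s * V s) = 0 := by
      ring
    rw [e0] at h2
    exact h2
  have hconst : cexp (-(I * P θ)) * V θ = cexp (-(I * P 0)) * V 0 :=
    is_const_of_deriv_eq_zero (fun s => (hEd s).differentiableAt) (fun s => (hEd s).deriv) θ 0
  have hP0 : P 0 = 0 := by simp [hP]
  rw [hP0, mul_zero, neg_zero, Complex.exp_zero, one_mul] at hconst
  have hVθ : V θ = cexp (I * P θ) * V 0 := by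
    rw [← hconst, ← mul_assoc, ← Complex.exp_add]
    simp
  have hPre : P θ = ((∫ x in (0 : ℝ)..θ, (G x).re : ℝ) : ℂ) +
      ((∫ x in (0 : ℝ)..θ, (G x).im : ℝ) : ℂ) * I := by
    have h1 : ∀ x, G x = ((G x).re : ℂ) + ((G x).im : ℂ) * I := fun x => (Complex.re_add_im _).symm
    simp only [hP]
    rw [intervalIntegral.integral_congr (g := fun x => ((G x).re : ℂ) + ((G x).im : ℂ) * I)
      (fun x _ => h1 x)]
    rw [intervalIntegral.integral_add, intervalIntegral.integral_mul_const,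
      intervalIntegral.integral_ofReal, intervalIntegral.integral_ofReal]
    · apply Continuous.intervalIntegrable
      exact Complex.continuous_ofReal.comp (Complex.continuous_re.comp hc)
    · apply Continuous.intervalIntegrable
      exact (Complex.continuous_ofReal.comp (Complex.continuous_im.comp hc)).mul continuous_const
  set A : ℝ := ∫ x in (0 : ℝ)..θ, (G x).re with hA
  set B : ℝ := ∫ x in (0 : ℝ)..θ, (G x).im with hB
  have e1 : cexp (I * P θ) = (Real.exp (-B) : ℂ) * cexp (A * I) := by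
    rw [hPre, Complex.ofReal_exp, ← Complex.exp_add]
    congr 1
    push_cast
    linear_combination (B : ℂ) * Complex.I_sq
  have e2 : V 0 = ‖V 0‖ * cexp (Complex.arg (V 0) * I) := (Complex.norm_mul_exp_arg_mul_I _).symm
  have e3 : ‖V θ‖ = Real.exp (-B) * ‖V 0‖ := by
    rw [hVθ, e1, norm_mul, norm_mul, exp_norm, mul_one, Complex.norm_real, Real.norm_eq_abs,
      abs_of_pos (Real.exp_pos _)]
  have e4 : (Th φ r θ : ℂ) = Complex.arg (V 0) + A := by
    simp only [Th, hV, hA, hG]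
    push_cast
    rfl
  show V θ = ‖V θ‖ * cexp (Th φ r θ * I)
  rw [e3, e4, hVθ, e1]
  conv_lhs => rw [e2]
  rw [add_mul, Complex.exp_add]
  push_cast
  ring

/-- on rays of `AS`, the level curves of `w` go to the boundary uniformly. -/
theorem level_near (hφ : DifferentiableOn ℂ φ (ball (0 : ℂ) 1))
    (hm : MapsTo φ (ball (0 : ℂ) 1) (ball (0 : ℂ) 1)) (hφ0 : φ 0 ≠ 0) {ε : ℝ} (hε0 : 0 < ε) :
    ∃ r₀ : ℝ, r₀ < 1 ∧ ∀ r : ℝ, 0 < r → r₀ < r → r < 1 → ∀ θ : ℝ, Th φ r θ ∈ AS φ →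
      1 - ε < ‖w φ (circleMap 0 r θ)‖ := by
  -- compact set of pairs (radius, direction)
  set K : Set (ℝ × ℝ) := (Icc 0 (1 - ε)) ×ˢ (AS φ ∩ Icc 0 (2 * π)) with hK
  have hKc : IsCompact K := isCompact_Icc.prod (isCompact_Icc.inter_left (AS_closed hφ))
  set F : ℝ × ℝ → ℝ := fun p => ‖φ (circleMap 0 p.1 p.2)‖ - p.1 with hF
  have hFc : ContinuousOn F K := by
    apply ContinuousOn.sub _ continuousOn_fst
    apply ContinuousOn.norm
    apply hφ.continuousOn.comp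
    · apply Continuous.continuousOn
      unfold circleMap
      fun_prop
    · intro p hp
      rw [mem_ball_zero_iff, cm_norm hp.1.1]
      linarith [hp.1.2]
  have hpos : ∀ p ∈ K, 0 < F p := by
    intro p hp
    have := AS_strict hφ hm hφ0 hp.2.1 hp.1.1 (by linarith [hp.1.2])
    simp only [hF]; linarith
  obtain ⟨η, hη0, hη⟩ : ∃ η > 0, ∀ p ∈ K, η ≤ F p := by
    by_cases hne : K.Nonempty
    · obtain ⟨p, hp, hmin⟩ := hKc.exists_isMinOn hne hFc
      exact ⟨F p, hpos p hp, fun q hq => hmin hq⟩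
    · exact ⟨1, one_pos, fun p hp => absurd ⟨p, hp⟩ hne⟩
  refine ⟨1 - η, by linarith, fun r hr0 hr hr1 θ hθ => ?_⟩
  by_contra hcon
  push Not at hcon
  set z := w φ (circleMap 0 r θ) with hz
  have htn : ‖circleMap 0 r θ‖ = r := cm_norm hr0.le θ
  have ht1 : ‖circleMap 0 r θ‖ < 1 := by rw [htn]; exact hr1
  -- move the direction in `[0, 2π]`
  set α := toIcoMod Real.two_pi_pos 0 (Th φ r θ) with hα
  have hαm : α ∈ Ico 0 (0 + 2 * π) := toIcoMod_mem_Ico Real.two_pi_pos 0 _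
  have hper : ∃ k : ℤ, Th φ r θ = α + k * (2 * π) := by
    refine ⟨toIcoDiv Real.two_pi_pos 0 (Th φ r θ), ?_⟩
    have := toIcoMod_add_toIcoDiv_zsmul Real.two_pi_pos 0 (Th φ r θ)
    rw [zsmul_eq_mul] at this
    exact this.symm
  obtain ⟨k, hk⟩ := hper
  have hcmk : ∀ ρ : ℝ, circleMap 0 ρ (Th φ r θ) = circleMap 0 ρ α := by
    intro ρ
    rw [hk]
    exact (periodic_circleMap 0 ρ).int_mul k α
  have hαAS : α ∈ AS φ := by
    intro ρ h0 h1
    rw [← hcmk]
    exact hθ ρ h0 h1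
  have hzp : z = circleMap 0 ‖z‖ α := by
    rw [← hcmk, cm_eq]
    exact w_polar hφ hm hr0 hr1 θ
  have hmem : (‖z‖, α) ∈ K := by
    refine ⟨⟨norm_nonneg _, hcon⟩, hαAS, hαm.1, ?_⟩
    have := hαm.2
    rw [zero_add] at this
    exact this.le
  have h1 := hη _ hmem
  simp only [hF] at h1
  rw [← hzp] at h1
  have hfix := w_fix hφ hm ht1
  rw [← hz] at hfix
  have h2 : ‖z‖ = r * ‖φ z‖ := by
    conv_lhs => rw [hfix]
    rw [norm_mul, htn]
  have h3 : ‖φ z‖ < 1 := norm_lt_of hm (w_lt hφ hm ht1)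
  have h4 : 0 ≤ ‖φ z‖ := norm_nonneg _
  nlinarith

/-- comparison of `e^{-iθ}` with the boundary function. -/
theorem near_Us (hφ : DifferentiableOn ℂ φ (ball (0 : ℂ) 1))
    (hm : MapsTo φ (ball (0 : ℂ) 1) (ball (0 : ℂ) 1)) (hφ0 : φ 0 ≠ 0) {ε : ℝ} (hε0 : 0 < ε)
    (hε1 : ε ≤ 1 / 2) {r θ : ℝ} (hr0 : 0 < r) (hr1 : r < 1) (hθ : Th φ r θ ∈ AS φ)
    (h : 1 - ε < ‖w φ (circleMap 0 r θ)‖) :
    ‖cexp (-(θ * I)) - Us φ (Th φ r θ)‖ ≤ 3 * ε := by
  set z := w φ (circleMap 0 r θ) with hz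
  have htn : ‖circleMap 0 r θ‖ = r := cm_norm hr0.le θ
  have ht1 : ‖circleMap 0 r θ‖ < 1 := by rw [htn]; exact hr1
  have ht0 : circleMap 0 r θ ≠ 0 := by
    intro h0; rw [h0, norm_zero] at htn; linarith
  set α := Th φ r θ with hα
  set ρ := ‖z‖ with hρ
  have hzl : ρ ≤ r := by
    have := w_norm hφ hm ht1
    rwa [htn] at this
  have hρ0 : 0 < ρ := by linarith
  have hρ1 : ρ < 1 := by linarith
  have hzp : z = circleMap 0 ρ α := by
    rw [cm_eq]
    exact w_polar hφ hm hr0 hr1 θ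
  have hfix := w_fix hφ hm ht1
  rw [← hz] at hfix
  -- e^{-iθ} = r φ(z) e^{-iα} / ρ
  have e1 : cexp (-(θ * I)) = (r / ρ : ℝ) * φ z * cexp (-(α * I)) := by
    have h1 : (ρ : ℂ) * cexp (α * I) = r * cexp (θ * I) * φ z := by
      rw [← cm_eq, ← cm_eq, ← hzp, ← hfix]
    have h2 : cexp (α * I) * cexp (-(α * I)) = 1 := by
      rw [← Complex.exp_add]; simp
    have h3 : cexp (θ * I) * cexp (-(θ * I)) = 1 := by
      rw [← Complex.exp_add]; simp
    have hρc : (ρ : ℂ) ≠ 0 := by exact_mod_cast hρ0.ne'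
    have : (ρ : ℂ) * cexp (-(θ * I)) = r * φ z * cexp (-(α * I)) := by
      calc (ρ : ℂ) * cexp (-(θ * I))
          = ((ρ : ℂ) * cexp (α * I)) * (cexp (-(α * I)) * cexp (-(θ * I))) := by
            linear_combination (-(ρ : ℂ) * cexp (-(θ * I))) * h2
        _ = (r * cexp (θ * I) * φ z) * (cexp (-(α * I)) * cexp (-(θ * I))) := by rw [h1]
        _ = _ := by linear_combination (r * φ z * cexp (-(α * I))) * h3
    have h7 : cexp (-(θ * I)) = (r * φ z * cexp (-(α * I))) / ρ := by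
      rw [eq_div_iff hρc, mul_comm]; exact this
    rw [h7]
    push_cast
    ring
  have e2 : cexp (-(θ * I)) - Us φ α = (((r / ρ - 1 : ℝ) : ℂ) * φ z + (φ z - Bd φ α)) *
      cexp (-(α * I)) := by
    rw [e1, Us]; push_cast; ring
  have hexp : ‖cexp (-(α * I))‖ = 1 := by
    have : cexp (-(α * I)) = cexp (((-α : ℝ) : ℂ) * I) := by congr 1; push_cast; ring
    rw [this, exp_norm]
  have hφz : ‖φ z‖ < 1 := norm_lt_of hm (w_lt hφ hm ht1)
  have h5 : ‖φ z - Bd φ α‖ ≤ ε := by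
    have := Bd_dist hφ hm hθ hρ0.le hρ1
    rw [← hzp, norm_sub_rev] at this
    linarith
  have h6 : |r / ρ - 1| ≤ 2 * ε := by
    rw [abs_of_nonneg]
    · have : r / ρ - 1 = (r - ρ) / ρ := by field_simp
      rw [this, div_le_iff₀ hρ0]
      nlinarith
    · rw [sub_nonneg, le_div_iff₀ hρ0]; linarith
  rw [e2, norm_mul, hexp, mul_one]
  calc ‖((r / ρ - 1 : ℝ) : ℂ) * φ z + (φ z - Bd φ α)‖
      ≤ ‖((r / ρ - 1 : ℝ) : ℂ) * φ z‖ + ‖φ z - Bd φ α‖ := norm_add_le _ _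
    _ ≤ 2 * ε * 1 + ε := by
        rw [norm_mul, Complex.norm_real, Real.norm_eq_abs]
        gcongr
    _ = 3 * ε := by ring

end Pool.Agent.Helper203.NS
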