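import Pool.Agent.Helper203.NSBase

set_option autoImplicit false

open Complex Metric Set Filter MeasureTheory
open scoped Real Topology ComplexConjugate Interval

namespace Pool.Agent.Helper203.NS

variable {φ : ℂ → ℂ}

/-- the iterates towards the fixed point of `z ↦ t φ(z)` -/
noncomputable def W (φ : ℂ → ℂ) : ℕ → ℂ → ℂ
  | 0, _ => 0
  | k + 1, t => t * φ (W φ k t)

theorem norm_lt_of (hm : MapsTo φ (ball (0 : ℂ) 1) (ball (0 : ℂ) 1)) {x : ℂ} (hx : ‖x‖ < 1) :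
    ‖φ x‖ < 1 := by
  simpa using hm (by simpa using hx)

theorem W_norm (hm : MapsTo φ (ball (0 : ℂ) 1) (ball (0 : ℂ) 1)) (k : ℕ) {t : ℂ}
    (ht : ‖t‖ < 1) : ‖W φ k t‖ ≤ ‖t‖ := by
  induction k with
  | zero => simp [W]
  | succ k ih =>
    have h1 : ‖φ (W φ k t)‖ < 1 := norm_lt_of hm (lt_of_le_of_lt ih ht)
    simp only [W, norm_mul]
    calc ‖t‖ * ‖φ (W φ k t)‖ ≤ ‖t‖ * 1 := by gcongr
      _ = ‖t‖ := mul_one _

theorem W_diff (hφ : DifferentiableOn ℂ φ (ball (0 : ℂ) 1))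
    (hm : MapsTo φ (ball (0 : ℂ) 1) (ball (0 : ℂ) 1)) (k : ℕ) :
    DifferentiableOn ℂ (W φ k) (ball (0 : ℂ) 1) := by
  induction k with
  | zero =>
    have : W φ 0 = fun _ => 0 := by funext t; simp [W]
    rw [this]
    exact differentiableOn_const 0
  | succ k ih =>
    have : W φ (k + 1) = fun t => t * φ (W φ k t) := by funext t; simp [W]
    rw [this]
    apply DifferentiableOn.mul differentiableOn_id
    apply hφ.comp ih
    intro t ht
    have ht' : ‖t‖ < 1 := by simpa using ht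
    have := W_norm hm k ht'
    simpa using lt_of_le_of_lt this ht'

theorem W_zero (k : ℕ) : W φ k 0 = 0 := by
  cases k <;> simp [W]

theorem lip_half (hφ : DifferentiableOn ℂ φ (ball (0 : ℂ) 1))
    (hm : MapsTo φ (ball (0 : ℂ) 1) (ball (0 : ℂ) 1)) {a b : ℂ} (ha : ‖a‖ ≤ 1 / 2)
    (hb : ‖b‖ ≤ 1 / 2) : ‖φ a - φ b‖ ≤ 3 * ‖a - b‖ := by
  have ha1 : ‖a‖ < 1 := by linarith
  have hb1 : ‖b‖ < 1 := by linarith
  have key := schwarz_pick hφ hm ha1 hb1
  have h1 : 3 / 4 ≤ ‖1 - conj b * a‖ := by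
    have := norm_sub_norm_le (1 : ℂ) (conj b * a)
    rw [norm_mul, RCLike.norm_conj, norm_one] at this
    have := norm_nonneg a
    have := norm_nonneg b
    nlinarith
  have h2 : ‖1 - conj (φ b) * φ a‖ ≤ 2 := by
    have := norm_sub_le (1 : ℂ) (conj (φ b) * φ a)
    rw [norm_mul, RCLike.norm_conj, norm_one] at this
    have h3 := norm_lt_of hm ha1
    have h4 := norm_lt_of hm hb1
    have := norm_nonneg (φ a)
    have := norm_nonneg (φ b)
    nlinarith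
  have h5 := norm_nonneg (φ a - φ b)
  have h6 := norm_nonneg (a - b)
  nlinarith

theorem W_small (hφ : DifferentiableOn ℂ φ (ball (0 : ℂ) 1))
    (hm : MapsTo φ (ball (0 : ℂ) 1) (ball (0 : ℂ) 1)) (k : ℕ) {t : ℂ} (ht : ‖t‖ ≤ 1 / 2) :
    ‖W φ (k + 1) t - W φ k t‖ ≤ 3 ^ k * ‖t‖ ^ (k + 1) := by
  have ht1 : ‖t‖ < 1 := by linarith
  induction k with
  | zero =>
    have := W_norm hm 1 ht1
    simpa [W] using this
  | succ k ih =>
    have e : W φ (k + 1 + 1) t - W φ (k + 1) t = t * (φ (W φ (k + 1) t) - φ (W φ k t)) := by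
      show t * φ (W φ (k + 1) t) - t * φ (W φ k t) = _
      ring
    rw [e, norm_mul]
    have h1 := lip_half hφ hm ((W_norm hm (k + 1) ht1).trans ht) ((W_norm hm k ht1).trans ht)
    calc ‖t‖ * ‖φ (W φ (k + 1) t) - φ (W φ k t)‖
        ≤ ‖t‖ * (3 * (3 ^ k * ‖t‖ ^ (k + 1))) := by
          gcongr
          exact h1.trans (by gcongr)
      _ = 3 ^ (k + 1) * ‖t‖ ^ (k + 1 + 1) := by ring

theorem W_diff_bound (hφ : DifferentiableOn ℂ φ (ball (0 : ℂ) 1))
    (hm : MapsTo φ (ball (0 : ℂ) 1) (ball (0 : ℂ) 1)) (k : ℕ) {t : ℂ} (ht : ‖t‖ < 1) :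
    ‖W φ (k + 1) t - W φ k t‖ ≤ 2 * ‖t‖ ^ (k + 1) := by
  have hd : DifferentiableOn ℂ (fun t => W φ (k + 1) t - W φ k t) (ball (0 : ℂ) 1) :=
    (W_diff hφ hm (k + 1)).sub (W_diff hφ hm k)
  have h0 : (fun t => W φ (k + 1) t - W φ k t) 0 = 0 := by simp [W_zero]
  have hmaps : MapsTo (fun t => W φ (k + 1) t - W φ k t) (ball (0 : ℂ) 1)
      (closedBall ((fun t => W φ (k + 1) t - W φ k t) 0) 2) := by
    intro s hs
    have hs' : ‖s‖ < 1 := by simpa using hs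
    rw [h0, mem_closedBall_zero_iff]
    have h1 := W_norm hm (k + 1) hs'
    have h2 := W_norm hm k hs'
    have h3 := norm_sub_le (W φ (k + 1) s) (W φ k s)
    show ‖W φ (k + 1) s - W φ k s‖ ≤ 2
    linarith
  have ho : (fun s => (fun t => W φ (k + 1) t - W φ k t) s - (fun t => W φ (k + 1) t - W φ k t) 0)
      =o[𝓝 (0 : ℂ)] (fun w => ‖w - 0‖ ^ k) := by
    rw [h0]
    simp only [sub_zero]
    have hO : (fun s => W φ (k + 1) s - W φ k s) =O[𝓝 (0 : ℂ)] (fun s => ‖s‖ ^ (k + 1)) := by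
      apply Asymptotics.IsBigO.of_bound (3 ^ k)
      filter_upwards [closedBall_mem_nhds (0 : ℂ) (by norm_num : (0 : ℝ) < 1 / 2)] with s hs
      have hs' : ‖s‖ ≤ 1 / 2 := by simpa using hs
      have := W_small hφ hm k hs'
      rwa [Real.norm_of_nonneg (by positivity)]
    exact hO.trans_isLittleO (Asymptotics.isLittleO_norm_pow_norm_pow (Nat.lt_succ_self k))
  have key := dist_le_mul_div_pow_of_mapsTo_ball_of_isLittleO hd hmaps ho
    (show t ∈ ball (0 : ℂ) 1 by simpa using ht)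
  simpa [h0, W_zero] using key

theorem W_sum (k : ℕ) (t : ℂ) :
    ∑ i ∈ Finset.range k, (W φ (i + 1) t - W φ i t) = W φ k t := by
  rw [Finset.sum_range_sub (fun i => W φ i t)]
  simp [W]

/-- the fixed point function -/
noncomputable def w (φ : ℂ → ℂ) (t : ℂ) : ℂ := ∑' k, (W φ (k + 1) t - W φ k t)

theorem w_tendsto (hφ : DifferentiableOn ℂ φ (ball (0 : ℂ) 1))
    (hm : MapsTo φ (ball (0 : ℂ) 1) (ball (0 : ℂ) 1)) {t : ℂ} (ht : ‖t‖ < 1) :
    Tendsto (fun k => W φ k t) atTop (𝓝 (w φ t)) := by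
  have hs : Summable (fun k => W φ (k + 1) t - W φ k t) := by
    apply Summable.of_norm_bounded (g := fun k => 2 * ‖t‖ ^ (k + 1))
    · apply Summable.mul_left
      exact (summable_nat_add_iff 1).mpr (summable_geometric_of_lt_one (norm_nonneg _) ht)
    · intro k
      exact W_diff_bound hφ hm k ht
  have := hs.hasSum.tendsto_sum_nat
  simp only [W_sum] at this
  exact this

theorem w_norm (hφ : DifferentiableOn ℂ φ (ball (0 : ℂ) 1))
    (hm : MapsTo φ (ball (0 : ℂ) 1) (ball (0 : ℂ) 1)) {t : ℂ} (ht : ‖t‖ < 1) :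
    ‖w φ t‖ ≤ ‖t‖ := by
  apply le_of_tendsto (w_tendsto hφ hm ht).norm
  exact Eventually.of_forall fun k => W_norm hm k ht

theorem w_lt (hφ : DifferentiableOn ℂ φ (ball (0 : ℂ) 1))
    (hm : MapsTo φ (ball (0 : ℂ) 1) (ball (0 : ℂ) 1)) {t : ℂ} (ht : ‖t‖ < 1) :
    ‖w φ t‖ < 1 := lt_of_le_of_lt (w_norm hφ hm ht) ht

theorem w_diff (hφ : DifferentiableOn ℂ φ (ball (0 : ℂ) 1))
    (hm : MapsTo φ (ball (0 : ℂ) 1) (ball (0 : ℂ) 1)) :
    DifferentiableOn ℂ (w φ) (ball (0 : ℂ) 1) := by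
  intro t ht
  have ht' : ‖t‖ < 1 := by simpa using ht
  obtain ⟨r, hr1, hr2⟩ := exists_between ht'
  have hr0 : 0 ≤ r := (norm_nonneg t).trans hr1.le
  have hsub : ball (0 : ℂ) r ⊆ ball (0 : ℂ) 1 := ball_subset_ball hr2.le
  have : DifferentiableOn ℂ (w φ) (ball (0 : ℂ) r) := by
    apply differentiableOn_tsum_of_summable_norm (u := fun k => 2 * r ^ (k + 1))
    · apply Summable.mul_left
      exact (summable_nat_add_iff 1).mpr (summable_geometric_of_lt_one hr0 hr2)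
    · intro k
      exact ((W_diff hφ hm (k + 1)).sub (W_diff hφ hm k)).mono hsub
    · exact isOpen_ball
    · intro k s hs
      have hs' : ‖s‖ < r := by simpa using hs
      refine (W_diff_bound hφ hm k (hs'.trans hr2)).trans ?_
      gcongr
  exact (this.differentiableAt (isOpen_ball.mem_nhds (by simpa using hr1))).differentiableWithinAt

theorem w_fix (hφ : DifferentiableOn ℂ φ (ball (0 : ℂ) 1))
    (hm : MapsTo φ (ball (0 : ℂ) 1) (ball (0 : ℂ) 1)) {t : ℂ} (ht : ‖t‖ < 1) :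
    w φ t = t * φ (w φ t) := by
  have h1 : Tendsto (fun k => W φ (k + 1) t) atTop (𝓝 (w φ t)) :=
    (w_tendsto hφ hm ht).comp (tendsto_add_atTop_nat 1)
  have hc : ContinuousAt φ (w φ t) :=
    (hφ.differentiableAt (isOpen_ball.mem_nhds (by simpa using w_lt hφ hm ht))).continuousAt
  have h2 : Tendsto (fun k => W φ (k + 1) t) atTop (𝓝 (t * φ (w φ t))) := by
    simp only [W]
    exact (hc.tendsto.comp (w_tendsto hφ hm ht)).const_mul t
  exact tendsto_nhds_unique h1 h2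

theorem deriv_le_one (hφ : DifferentiableOn ℂ φ (ball (0 : ℂ) 1))
    (hm : MapsTo φ (ball (0 : ℂ) 1) (ball (0 : ℂ) 1)) {z : ℂ} (hz : ‖z‖ < 1)
    (h : ‖z‖ ≤ ‖φ z‖) : ‖deriv φ z‖ ≤ 1 := by
  have key := schwarz_pick_deriv hφ hm hz
  have h1 := norm_nonneg z
  have h2 : 0 < 1 - ‖z‖ ^ 2 := by nlinarith
  have h3 : 1 - ‖φ z‖ ^ 2 ≤ 1 - ‖z‖ ^ 2 := by nlinarith
  by_contra hc
  push Not at hc
  nlinarith

theorem w_le_phi (hφ : DifferentiableOn ℂ φ (ball (0 : ℂ) 1))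
    (hm : MapsTo φ (ball (0 : ℂ) 1) (ball (0 : ℂ) 1)) {t : ℂ} (ht : ‖t‖ < 1) :
    ‖w φ t‖ ≤ ‖φ (w φ t)‖ := by
  conv_lhs => rw [w_fix hφ hm ht]
  rw [norm_mul]
  nlinarith [norm_nonneg (φ (w φ t)), norm_nonneg t]

/-- the multiplier -/
noncomputable def sfun (φ : ℂ → ℂ) (t : ℂ) : ℂ := t * deriv φ (w φ t)

theorem sfun_le (hφ : DifferentiableOn ℂ φ (ball (0 : ℂ) 1))
    (hm : MapsTo φ (ball (0 : ℂ) 1) (ball (0 : ℂ) 1)) {t : ℂ} (ht : ‖t‖ < 1) :
    ‖sfun φ t‖ ≤ ‖t‖ := by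
  have := deriv_le_one hφ hm (w_lt hφ hm ht) (w_le_phi hφ hm ht)
  rw [sfun, norm_mul]
  nlinarith [norm_nonneg t]

/-- the function `g = t w'/w` -/
noncomputable def g (φ : ℂ → ℂ) (t : ℂ) : ℂ := (1 - sfun φ t)⁻¹

theorem one_sub_sfun_ne (hφ : DifferentiableOn ℂ φ (ball (0 : ℂ) 1))
    (hm : MapsTo φ (ball (0 : ℂ) 1) (ball (0 : ℂ) 1)) {t : ℂ} (ht : ‖t‖ < 1) :
    1 - sfun φ t ≠ 0 := by
  intro h
  have h1 : sfun φ t = 1 := (sub_eq_zero.mp h).symm
  have h2 := sfun_le hφ hm ht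
  rw [h1, norm_one] at h2
  linarith

theorem g_re_pos (hφ : DifferentiableOn ℂ φ (ball (0 : ℂ) 1))
    (hm : MapsTo φ (ball (0 : ℂ) 1) (ball (0 : ℂ) 1)) {t : ℂ} (ht : ‖t‖ < 1) :
    0 < (g φ t).re := by
  have h1 := sfun_le hφ hm ht
  have h2 : 0 < (1 - sfun φ t).re := by
    have := Complex.re_le_norm (sfun φ t)
    simp only [Complex.sub_re, Complex.one_re]
    linarith
  rw [g, Complex.inv_re]
  apply div_pos h2
  exact Complex.normSq_pos.mpr (one_sub_sfun_ne hφ hm ht)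

theorem g_cont (hφ : DifferentiableOn ℂ φ (ball (0 : ℂ) 1))
    (hm : MapsTo φ (ball (0 : ℂ) 1) (ball (0 : ℂ) 1)) :
    ContinuousOn (g φ) (ball (0 : ℂ) 1) := by
  apply ContinuousOn.inv₀
  · apply ContinuousOn.sub continuousOn_const
    apply ContinuousOn.mul continuousOn_id
    apply (hφ.deriv isOpen_ball).continuousOn.comp (w_diff hφ hm).continuousOn
    intro t ht
    simpa using w_lt hφ hm (by simpa using ht)
  · intro t ht
    exact one_sub_sfun_ne hφ hm (by simpa using ht)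

/-- `t w'(t) = w(t) g(t)` -/
theorem w_deriv (hφ : DifferentiableOn ℂ φ (ball (0 : ℂ) 1))
    (hm : MapsTo φ (ball (0 : ℂ) 1) (ball (0 : ℂ) 1)) {t : ℂ} (ht : ‖t‖ < 1) :
    t * deriv (w φ) t = w φ t * g φ t := by
  have htm : t ∈ ball (0 : ℂ) 1 := by simpa using ht
  have hw : HasDerivAt (w φ) (deriv (w φ) t) t :=
    ((w_diff hφ hm).differentiableAt (isOpen_ball.mem_nhds htm)).hasDerivAt
  have hp : HasDerivAt φ (deriv φ (w φ t)) (w φ t) :=
    (hφ.differentiableAt (isOpen_ball.mem_nhds (by simpa using w_lt hφ hm ht))).hasDerivAt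
  have h1 : HasDerivAt (fun s => s * φ (w φ s))
      (1 * φ (w φ t) + t * (deriv φ (w φ t) * deriv (w φ) t)) t :=
    (hasDerivAt_id t).mul (hp.comp t hw)
  have h2 : (fun s => s * φ (w φ s)) =ᶠ[𝓝 t] w φ := by
    filter_upwards [isOpen_ball.mem_nhds htm] with s hs
    exact (w_fix hφ hm (by simpa using hs)).symm
  have h3 := (h1.congr_of_eventuallyEq h2.symm).unique hw
  have h4 := one_sub_sfun_ne hφ hm ht
  rw [g, ← div_eq_mul_inv, eq_div_iff h4]
  have h5 := w_fix hφ hm ht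
  unfold sfun
  linear_combination (-t) * h3 - h5

end Pool.Agent.Helper203.NS
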