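import Pool.Agent.Helper203.NSP

set_option autoImplicit false

open Complex Metric Set Filter MeasureTheory
open scoped Real Topology ComplexConjugate Interval

namespace Pool.Agent.Helper203.NS

variable {φ : ℂ → ℂ}

theorem Us_meas (hφ : DifferentiableOn ℂ φ (ball (0 : ℂ) 1))
    (hm : MapsTo φ (ball (0 : ℂ) 1) (ball (0 : ℂ) 1)) :
    AEStronglyMeasurable (Us φ) (volume.restrict (A1 φ)) := by
  have h1 : AEStronglyMeasurable (Bd φ) (volume.restrict (A1 φ)) :=
    (Bd_meas hφ hm).mono_measure (Measure.restrict_mono inter_subset_left le_rfl)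
  exact h1.mul (Continuous.aestronglyMeasurable (by fun_prop))

theorem hs_meas (hφ : DifferentiableOn ℂ φ (ball (0 : ℂ) 1))
    (hm : MapsTo φ (ball (0 : ℂ) 1) (ball (0 : ℂ) 1)) (j k : ℕ) :
    AEStronglyMeasurable (hs φ j k) (volume.restrict (A1 φ)) := by
  have h1 : AEStronglyMeasurable (Bd φ) (volume.restrict (A1 φ)) :=
    (Bd_meas hφ hm).mono_measure (Measure.restrict_mono inter_subset_left le_rfl)
  exact (h1.pow j).mul (Continuous.aestronglyMeasurable (by fun_prop))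

theorem main_ne (hφ : DifferentiableOn ℂ φ (ball (0 : ℂ) 1))
    (hm : MapsTo φ (ball (0 : ℂ) 1) (ball (0 : ℂ) 1)) (hφ0 : φ 0 ≠ 0) (j k : ℕ) :
    Tendsto (fun n : ℕ => cf φ j k n) atTop (𝓝 0) := by
  have hlam0 := lam_tendsto hφ hm 0 0
  simp only [hs, pow_zero, mul_one] at hlam0
  have hexp : ∀ x : ℝ, ‖cexp (-(x * I))‖ = 1 := by
    intro x
    have : cexp (-(x * I)) = cexp (((-x : ℝ) : ℂ) * I) := by congr 1; push_cast; ring
    rw [this, exp_norm]
  have hR := rajchman_abstract (A1_meas hφ) A1_vol (U := Us φ) (h := hs φ j k)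
    (Us_meas hφ hm) (hs_meas hφ hm j k) (fun x hx => Us_norm hφ hm hx.1)
    (fun x hx => by
      rw [hs, norm_mul, norm_pow, norm_pow, Bd_norm hφ hm hx.1, hexp]
      simp) hlam0
    (fun N n _ a _ => main_ineq hφ hm hφ0 N n a)
  have h1 := (lam_tendsto hφ hm j k).add hR
  simp only [sub_add_cancel, add_zero] at h1
  have h2 := h1.const_mul ((2 * π : ℂ)⁻¹)
  have h2π : (2 * π : ℂ) ≠ 0 := by
    simp [Real.pi_ne_zero]
  simp only [mul_zero] at h2
  refine h2.congr fun n => ?_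
  field_simp

theorem main_zero (hφ : DifferentiableOn ℂ φ (ball (0 : ℂ) 1))
    (hm : MapsTo φ (ball (0 : ℂ) 1) (ball (0 : ℂ) 1)) (hφ0 : φ 0 = 0)
    (hrot : ¬ ∃ c : ℂ, ‖c‖ = 1 ∧ ∀ z ∈ ball (0 : ℂ) 1, φ z = c * z) (j k : ℕ) :
    Tendsto (fun n : ℕ => cf φ j k n) atTop (𝓝 0) := by
  have hmc : MapsTo φ (ball (0 : ℂ) 1) (closedBall (φ 0) 1) := by
    rw [hφ0]
    exact fun z hz => ball_subset_closedBall (hm hz)
  have hlt : ∀ z ∈ ball (0 : ℂ) 1, ‖dslope φ 0 z‖ < 1 := by
    intro z hz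
    have h1 := norm_dslope_le_div_of_mapsTo_ball hφ hmc hz
    rw [div_one] at h1
    rcases h1.lt_or_eq with h2 | h2
    · exact h2
    · exfalso
      apply hrot
      refine ⟨dslope φ 0 z, h2, fun x hx => ?_⟩
      have := affine_of_mapsTo_ball_of_norm_dslope_eq_div hφ hmc hz (by rw [h2, div_one]) hx
      simp only [hφ0, sub_zero, zero_add, smul_eq_mul] at this
      rw [this, mul_comm]
  have hc : ContinuousOn (dslope φ 0) (closedBall (0 : ℂ) (1 / 2)) := by
    have : DifferentiableOn ℂ (dslope φ 0) (ball (0 : ℂ) 1) :=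
      (differentiableOn_dslope (isOpen_ball.mem_nhds (mem_ball_self one_pos))).mpr hφ
    exact this.continuousOn.mono (closedBall_subset_ball (by norm_num))
  obtain ⟨z₀, hz₀, hmax⟩ := (isCompact_closedBall (0 : ℂ) (1 / 2)).exists_isMaxOn
    ⟨0, mem_closedBall_self (by norm_num)⟩ hc.norm
  set q := ‖dslope φ 0 z₀‖ with hq
  have hq1 : q < 1 := hlt z₀ (closedBall_subset_ball (by norm_num) hz₀)
  have hq0 : 0 ≤ q := norm_nonneg _
  have hb : ∀ n : ℕ, ‖cf φ j k n‖ ≤ q ^ n * 2 ^ k := by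
    intro n
    have h1 := cf_eq hφ j k n (R := 1 / 2) (by norm_num) (by norm_num)
    have h2 : ‖∫ θ in (0 : ℝ)..2 * π, φ (circleMap 0 (1 / 2) θ) ^ (n + j) /
        (circleMap 0 (1 / 2) θ) ^ (n + k)‖ ≤ (q ^ n * 2 ^ k) * |2 * π - 0| := by
      apply intervalIntegral.norm_integral_le_of_norm_le_const
      intro θ _
      set z := circleMap 0 (1 / 2) θ with hz
      have hzn : ‖z‖ = 1 / 2 := cm_norm (by norm_num) θ
      have hz0 : z ≠ 0 := by
        intro h; rw [h, norm_zero] at hzn; norm_num at hzn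
      have hzm : z ∈ closedBall (0 : ℂ) (1 / 2) := by
        rw [mem_closedBall_zero_iff, hzn]
      have h3 : ‖dslope φ 0 z‖ ≤ q := hmax hzm
      have h4 : φ z = z * dslope φ 0 z := by
        rw [dslope_of_ne _ hz0, slope_def_field, hφ0, sub_zero, sub_zero]
        field_simp
      have h5 : ‖φ z‖ ≤ 1 := (norm_lt_of hm (by rw [hzn]; norm_num)).le
      have h6 : ‖φ z‖ ≤ (1 / 2) * q := by
        rw [h4, norm_mul, hzn]; gcongr
      rw [norm_div, norm_pow, norm_pow, hzn, pow_add, pow_add]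
      rw [div_le_iff₀ (by positivity)]
      calc ‖φ z‖ ^ n * ‖φ z‖ ^ j ≤ ((1 / 2) * q) ^ n * 1 := by
            gcongr
            exact pow_le_one₀ (norm_nonneg _) h5
        _ = q ^ n * 2 ^ k * ((1 / 2) ^ n * (1 / 2) ^ k) := by
            rw [mul_pow]
            have : (2 : ℝ) ^ k * (1 / 2) ^ k = 1 := by rw [← mul_pow]; norm_num
            linear_combination (-(q ^ n) * (1 / 2) ^ n) * this
    rw [h1, norm_mul, sub_zero] at h2
    have h2π : ‖(2 * π : ℂ)‖ = |2 * π| := by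
      have : (2 * π : ℂ) = ((2 * π : ℝ) : ℂ) := by push_cast; rfl
      rw [this, Complex.norm_real, Real.norm_eq_abs]
    rw [h2π, mul_comm] at h2
    exact le_of_mul_le_mul_right h2 (abs_pos.mpr (by positivity))
  have ht : Tendsto (fun n : ℕ => q ^ n * 2 ^ k) atTop (𝓝 0) := by
    have := (tendsto_pow_atTop_nhds_zero_of_lt_one hq0 hq1).mul_const ((2 : ℝ) ^ k)
    simpa using this
  exact squeeze_zero_norm hb ht

end Pool.Agent.Helper203.NS
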