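import Mathlib
import Pool.Agent.Helper203.Bdry
import Pool.Agent.Helper203.NSZ

set_option autoImplicit false

open Complex Metric Set Filter MeasureTheory
open scoped Real Topology ComplexConjugate NNReal ENNReal

namespace Pool.Agent.Helper203.Hardy

variable {φ : ℂ → ℂ}

theorem exp_neg_cm (α : ℝ) : cexp (-(α * I)) * circleMap 0 1 α = 1 := by
  rw [circleMap_zero, Complex.ofReal_one, one_mul, ← Complex.exp_add]
  simp

theorem exp_neg_conj (α : ℝ) : cexp (-(α * I)) = conj (circleMap 0 1 α) := by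
  rw [circleMap_zero, Complex.ofReal_one, one_mul, ← Complex.exp_conj]
  simp

theorem norm_exp_neg (α : ℝ) : ‖cexp (-(α * I))‖ = 1 := by
  rw [exp_neg_conj, RCLike.norm_conj, norm_cm1]

theorem Us_tendsto (hφ : DifferentiableOn ℂ φ (ball 0 1))
    (hm : MapsTo φ (ball (0 : ℂ) 1) (ball 0 1)) :
    ∀ᵐ α ∂mT, Tendsto (fun r : ℝ => φ (circleMap 0 r α) / circleMap 0 r α) (𝓝[<] 1)
      (𝓝 (NS.Us φ α)) := by
  filter_upwards [bv_tendsto hφ hm] with α hα
  have h1 : Tendsto (fun r : ℝ => circleMap 0 r α) (𝓝[<] 1) (𝓝 (circleMap 0 1 α)) := by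
    have hc : Continuous fun r : ℝ => circleMap 0 r α := by unfold circleMap; fun_prop
    exact (hc.tendsto 1).mono_left nhdsWithin_le_nhds
  have hne : circleMap 0 1 α ≠ 0 := by
    intro h; have := norm_cm1 α; rw [h, norm_zero] at this; norm_num at this
  have h2 := hα.div h1 hne
  have e : bv φ α / circleMap 0 1 α = NS.Us φ α := by
    show bv φ α / circleMap 0 1 α = bv φ α * cexp (-(α * I))
    rw [div_eq_iff hne, mul_assoc, exp_neg_cm, mul_one]
  rwa [e] at h2

theorem Us_norm_eq (α : ℝ) : ‖NS.Us φ α‖ = ‖bv φ α‖ := by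
  show ‖bv φ α * cexp (-(α * I))‖ = ‖bv φ α‖
  rw [norm_mul, norm_exp_neg, mul_one]

theorem Us_aemeas (hφ : DifferentiableOn ℂ φ (ball 0 1))
    (hm : MapsTo φ (ball (0 : ℂ) 1) (ball 0 1)) : AEMeasurable (NS.Us φ) mT := by
  show AEMeasurable (fun α : ℝ => bv φ α * cexp (-(α * I))) mT
  apply (bv_aemeas hφ hm).mul
  apply Continuous.aemeasurable
  fun_prop

/-- a good measurable version of the boundary function of `φ(z)/z` -/
theorem exists_U (hφ : DifferentiableOn ℂ φ (ball 0 1))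
    (hm : MapsTo φ (ball (0 : ℂ) 1) (ball 0 1)) :
    ∃ U : ℝ → ℂ, Measurable U ∧ (∀ α, ‖U α‖ ≤ 1) ∧ (∀ᵐ α ∂mT, U α = NS.Us φ α) := by
  have h1 := Us_aemeas hφ hm
  refine ⟨fun α => if ‖h1.mk _ α‖ ≤ 1 then h1.mk _ α else 0, ?_, ?_, ?_⟩
  · apply Measurable.ite
    · exact measurableSet_le h1.measurable_mk.norm measurable_const
    · exact h1.measurable_mk
    · exact measurable_const
  · intro α
    dsimp only
    split_ifs with h
    · exact h
    · simp
  · filter_upwards [h1.ae_eq_mk, bv_le hφ hm] with α h2 h3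
    rw [if_pos, ← h2]
    rw [← h2, Us_norm_eq]; exact h3

theorem integrable_bdd {f : ℝ → ℂ} (hf : AEStronglyMeasurable f mT) {M : ℝ}
    (hM : ∀ᵐ θ ∂mT, ‖f θ‖ ≤ M) : Integrable f mT := Integrable.of_bound hf M hM

/-- the Herglotz representation of `g` -/
theorem g_bdry (hφ : DifferentiableOn ℂ φ (ball 0 1))
    (hm : MapsTo φ (ball (0 : ℂ) 1) (ball 0 1)) {t : ℂ} (ht : ‖t‖ < 1) :
    NS.g φ t = ∫ α, (1 - t * NS.Us φ α)⁻¹ ∂mT := by
  obtain ⟨R, hR1, hR2⟩ := exists_between ht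
  have hR0 : 0 < R := (norm_nonneg t).trans_lt hR1
  have hq : ‖t‖ / R < 1 := (div_lt_one hR0).mpr hR1
  have hev : ∀ᶠ r : ℝ in 𝓝[<] 1, R < r ∧ r < 1 := by
    filter_upwards [Ioo_mem_nhdsLT hR2] with r hr using hr
  have hconst : ∀ᶠ r : ℝ in 𝓝[<] 1,
      ∫ α, (1 - t * (φ (circleMap 0 r α) / circleMap 0 r α))⁻¹ ∂mT = NS.g φ t := by
    filter_upwards [hev] with r hr
    rw [integral_mT, NS.g_integral hφ hm (hR1.trans hr.1) hr.2, Complex.real_smul]
    push_cast
    have : (π : ℂ) ≠ 0 := by exact_mod_cast Real.pi_ne_zero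
    field_simp
  have hlim : Tendsto (fun r : ℝ => ∫ α, (1 - t * (φ (circleMap 0 r α) / circleMap 0 r α))⁻¹ ∂mT)
      (𝓝[<] 1) (𝓝 (∫ α, (1 - t * NS.Us φ α)⁻¹ ∂mT)) := by
    apply tendsto_integral_filter_of_dominated_convergence (fun _ => (1 - ‖t‖ / R)⁻¹)
    · filter_upwards [hev] with r hr
      apply AEMeasurable.aestronglyMeasurable
      apply AEMeasurable.inv
      apply AEMeasurable.const_sub
      apply AEMeasurable.const_mul
      apply AEMeasurable.div
      · exact (NS.phi_cm_cont hφ (hR0.trans hr.1).le hr.2).aemeasurable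
      · exact (continuous_circleMap 0 r).aemeasurable
    · filter_upwards [hev] with r hr
      apply Eventually.of_forall
      intro α
      have hr0 : 0 < r := hR0.trans hr.1
      have h1 : ‖t * (φ (circleMap 0 r α) / circleMap 0 r α)‖ ≤ ‖t‖ / R := by
        rw [norm_mul, norm_div, NS.cm_norm hr0.le]
        have h2 : ‖φ (circleMap 0 r α)‖ < 1 :=
          NS.norm_lt_of hm (by rw [NS.cm_norm hr0.le]; exact hr.2)
        calc ‖t‖ * (‖φ (circleMap 0 r α)‖ / r) ≤ ‖t‖ * (1 / R) := by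
              gcongr
              · exact hr.1.le
          _ = ‖t‖ / R := by ring
      rw [norm_inv]
      apply inv_anti₀ (by linarith)
      have h3 := norm_sub_norm_le 1 (t * (φ (circleMap 0 r α) / circleMap 0 r α))
      rw [norm_one] at h3
      linarith
    · exact integrable_const _
    · filter_upwards [Us_tendsto hφ hm, bv_le hφ hm] with α hα hb
      apply Tendsto.inv₀ (tendsto_const_nhds.sub (hα.const_mul t))
      intro h
      have h1 : t * NS.Us φ α = 1 := (sub_eq_zero.1 h).symm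
      have h2 : ‖t * NS.Us φ α‖ < 1 := by
        rw [norm_mul, Us_norm_eq]
        calc ‖t‖ * ‖bv φ α‖ ≤ ‖t‖ * 1 := by gcongr
          _ < 1 := by linarith
      rw [h1, norm_one] at h2
      exact lt_irrefl _ h2
  exact tendsto_nhds_unique (tendsto_const_nhds.congr' (hconst.mono fun r hr => hr.symm)) hlim

theorem re_inv_one_sub {x : ℂ} (hx : ‖x‖ < 1) :
    ((1 - x)⁻¹).re = (1 / 2) * (1 + (1 - ‖x‖ ^ 2) / ‖1 - x‖ ^ 2) := by
  have hne : 1 - x ≠ 0 := by
    intro h
    have : x = 1 := (sub_eq_zero.1 h).symm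
    rw [this, norm_one] at hx; exact lt_irrefl _ hx
  have h1 := re_cayley x hne
  have h2 : (1 - x)⁻¹ = (1 / 2 : ℝ) * (1 + (1 + x) / (1 - x)) := by
    push_cast
    field_simp
    ring
  rw [h2, Complex.re_ofReal_mul, Complex.add_re, Complex.one_re, h1]

theorem PK_one {z : ℂ} (hz : ‖z‖ < 1) : ∫ θ, PK z θ ∂mT = 1 := by
  have h1 := (diffContOnCl_const (𝕜 := ℂ) (c := (1 : ℂ))
    (s := ball (0 : ℂ) 1)).circleAverage_poissonKernel_smul (mem_ball_zero_iff.2 hz)
  rw [← integral_mT_circle] at h1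
  have h2 : ∫ θ, ((PK z θ : ℝ) : ℂ) ∂mT = 1 := by
    rw [← h1]
    congr 1
    funext θ
    rw [Pi.smul_apply', ← PK_eq, Complex.real_smul, mul_one]
  rw [integral_complex_ofReal] at h2
  exact_mod_cast h2

theorem PK_conj (u : ℂ) (r θ : ℝ) (h0 : 0 ≤ r) :
    PK (r * conj u) θ = (1 - ‖circleMap 0 r θ * u‖ ^ 2) / ‖1 - circleMap 0 r θ * u‖ ^ 2 := by
  rw [PK]
  have e1 : ‖(r : ℂ) * conj u‖ = ‖circleMap 0 r θ * u‖ := by
    rw [norm_mul, norm_mul, RCLike.norm_conj, NS.cm_norm h0, Complex.norm_real,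
      Real.norm_of_nonneg h0]
  have e2 : ‖circleMap 0 1 θ - r * conj u‖ = ‖1 - circleMap 0 r θ * u‖ := by
    have h1 : conj (circleMap 0 1 θ - r * conj u) * circleMap 0 1 θ =
        1 - circleMap 0 r θ * u := by
      have h3 := exp_neg_cm θ
      rw [exp_neg_conj] at h3
      have h4 : circleMap 0 r θ = r * circleMap 0 1 θ := by simp [circleMap_zero]
      rw [h4, map_sub, map_mul, Complex.conj_conj, Complex.conj_ofReal, sub_mul, h3]
      ring
    rw [← h1, norm_mul, norm_cm1, mul_one, RCLike.norm_conj]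
  rw [e1, e2]

/-- Poisson integral of `θ ↦ F (e^{-iθ})` -/
noncomputable def PI (F : ℂ → ℝ) (z : ℂ) : ℝ := ∫ θ, PK z θ * F (cexp (-(θ * I))) ∂mT

theorem Fexp_cont {F : ℂ → ℝ} (hF : Continuous F) : Continuous fun θ : ℝ => F (cexp (-(θ * I))) :=
  hF.comp (by fun_prop)

theorem bdd_circle {F : ℂ → ℝ} (hF : Continuous F) : ∃ M : ℝ, 0 ≤ M ∧ ∀ z, ‖z‖ ≤ 1 → |F z| ≤ M := by
  obtain ⟨M, hM⟩ := (isCompact_closedBall (0 : ℂ) 1).exists_bound_of_continuousOn hF.continuousOn
  refine ⟨M, ?_, fun z hz => by simpa using hM z (by simpa using hz)⟩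
  exact (norm_nonneg _).trans (hM 0 (by simp))

theorem PI_le {F : ℂ → ℝ} (hF : Continuous F) {M : ℝ} (hM : ∀ z, ‖z‖ ≤ 1 → |F z| ≤ M) {z : ℂ}
    (hz : ‖z‖ < 1) : |PI F z| ≤ M := by
  have h1 : |PI F z| ≤ ∫ θ, PK z θ * M ∂mT := by
    have h2 := norm_integral_le_integral_norm (μ := mT) (fun θ => PK z θ * F (cexp (-(θ * I))))
    rw [Real.norm_eq_abs] at h2
    refine h2.trans ?_
    apply integral_mono
    · exact cont_integrable ((PK_cont hz).mul (Fexp_cont hF)).norm
    · exact cont_integrable ((PK_cont hz).mul continuous_const)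
    · intro θ
      dsimp only
      rw [Real.norm_eq_abs, abs_mul, abs_of_pos (PK_pos hz θ)]
      gcongr
      · exact (PK_pos hz θ).le
      · exact hM _ (norm_exp_neg θ).le
  rwa [integral_mul_const, PK_one hz, one_mul] at h1

theorem PI_nonneg {F : ℂ → ℝ} (hF0 : ∀ z, 0 ≤ F z) {z : ℂ} (hz : ‖z‖ < 1) : 0 ≤ PI F z :=
  integral_nonneg fun θ => mul_nonneg (PK_pos hz θ).le (hF0 _)

theorem ofReal_tendsto_one : Tendsto (fun r : ℝ => (r : ℂ)) (𝓝[<] 1) (𝓝 1) := by
  have := Complex.continuous_ofReal.tendsto (1 : ℝ)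
  rw [Complex.ofReal_one] at this
  exact this.mono_left nhdsWithin_le_nhds

theorem PI_int {F : ℂ → ℝ} (hF : Continuous F) {z : ℂ} (hz : ‖z‖ < 1) :
    Tendsto (fun r : ℝ => PI F (r * z)) (𝓝[<] 1) (𝓝 (PI F z)) := by
  obtain ⟨M, hM0, hM⟩ := bdd_circle hF
  have hev : ∀ᶠ r : ℝ in 𝓝[<] 1, 0 < r ∧ r < 1 := by
    filter_upwards [Ioo_mem_nhdsLT one_pos] with r hr using hr
  have hle : ∀ r : ℝ, 0 < r → r < 1 → ‖(r : ℂ) * z‖ ≤ ‖z‖ := by
    intro r h0 h1
    rw [norm_mul, Complex.norm_real, Real.norm_of_nonneg h0.le]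
    exact mul_le_of_le_one_left (norm_nonneg _) h1.le
  apply tendsto_integral_filter_of_dominated_convergence
    (fun _ => (1 + ‖z‖) / (1 - ‖z‖) * M)
  · filter_upwards [hev] with r hr
    apply Continuous.aestronglyMeasurable
    exact (PK_cont ((hle r hr.1 hr.2).trans_lt hz)).mul (Fexp_cont hF)
  · filter_upwards [hev] with r hr
    apply Eventually.of_forall
    intro θ
    have h2 := (hle r hr.1 hr.2).trans_lt hz
    rw [Real.norm_eq_abs, abs_mul, abs_of_pos (PK_pos h2 θ)]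
    have h3 : PK (r * z) θ ≤ (1 + ‖z‖) / (1 - ‖z‖) := by
      refine (PK_le h2 θ).trans ?_
      have h4 := hle r hr.1 hr.2
      have : 0 < 1 - ‖z‖ := by linarith
      gcongr
    have h5 : 0 ≤ (1 + ‖z‖) / (1 - ‖z‖) := div_nonneg (by positivity) (by linarith)
    gcongr
    exact hM _ (norm_exp_neg θ).le
  · exact integrable_const _
  · apply Eventually.of_forall
    intro θ
    apply Tendsto.mul_const
    have h1 : Tendsto (fun r : ℝ => (r : ℂ) * z) (𝓝[<] 1) (𝓝 z) := by
      simpa using ofReal_tendsto_one.mul_const z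
    unfold PK
    apply Tendsto.div
    · exact tendsto_const_nhds.sub (h1.norm.pow 2)
    · exact (tendsto_const_nhds.sub h1).norm.pow 2
    · have := norm_pos_iff.2 (cm_sub_ne hz θ)
      positivity

theorem PI_bdry {F : ℂ → ℝ} (hF : Continuous F) {z : ℂ} (hz : ‖z‖ = 1) :
    Tendsto (fun r : ℝ => PI F (r * z)) (𝓝[<] 1) (𝓝 (F (conj z))) := by
  obtain ⟨M, hM0, hM⟩ := bdd_circle hF
  rw [Metric.tendsto_nhds]
  intro ε hε
  -- uniform continuity
  have hFu : UniformContinuousOn F (closedBall (0 : ℂ) 1) :=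
    (isCompact_closedBall 0 1).uniformContinuousOn_of_continuous hF.continuousOn
  rw [Metric.uniformContinuousOn_iff] at hFu
  obtain ⟨δ, hδ0, hδ⟩ := hFu (ε / 2) (by positivity)
  have hlim : Tendsto (fun r : ℝ => 2 * M * ((1 - r ^ 2) / (δ - (1 - r)) ^ 2)) (𝓝[<] 1) (𝓝 0) := by
    have hc : ContinuousAt (fun r : ℝ => 2 * M * ((1 - r ^ 2) / (δ - (1 - r)) ^ 2)) 1 := by
      apply ContinuousAt.mul continuousAt_const
      apply ContinuousAt.div (by fun_prop) (by fun_prop)
      have : δ - (1 - 1) = δ := by ring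
      rw [this]; positivity
    have h1 := hc.tendsto
    have e : 2 * M * ((1 - (1 : ℝ) ^ 2) / (δ - (1 - 1)) ^ 2) = 0 := by simp
    rw [e] at h1
    exact h1.mono_left nhdsWithin_le_nhds
  have hev2 : ∀ᶠ r : ℝ in 𝓝[<] 1, 2 * M * ((1 - r ^ 2) / (δ - (1 - r)) ^ 2) < ε / 2 :=
    hlim.eventually (gt_mem_nhds (by positivity))
  filter_upwards [Ioo_mem_nhdsLT (show max 0 (1 - δ / 2) < 1 from max_lt one_pos (by linarith)),
    hev2] with r hr hr2
  have hr0 : 0 < r := (le_max_left _ _).trans_lt hr.1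
  have hrδ : 1 - δ / 2 < r := (le_max_right _ _).trans_lt hr.1
  have hr1 : r < 1 := hr.2
  have hrz : ‖(r : ℂ) * z‖ = r := by
    rw [norm_mul, hz, mul_one, Complex.norm_real, Real.norm_of_nonneg hr0.le]
  have hrz1 : ‖(r : ℂ) * z‖ < 1 := by rw [hrz]; exact hr1
  have h1 : PI F (r * z) - F (conj z) =
      ∫ θ, PK (r * z) θ * (F (cexp (-(θ * I))) - F (conj z)) ∂mT := by
    have i1 : Integrable (fun θ => PK (r * z) θ * F (cexp (-(θ * I)))) mT :=
      cont_integrable ((PK_cont hrz1).mul (Fexp_cont hF))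
    have i2 : Integrable (fun θ => PK (r * z) θ * F (conj z)) mT :=
      cont_integrable ((PK_cont hrz1).mul continuous_const)
    simp only [mul_sub]
    rw [integral_sub i1 i2, integral_mul_const, PK_one hrz1, one_mul]
    rfl
  have hpt : ∀ θ : ℝ, ‖PK (r * z) θ * (F (cexp (-(θ * I))) - F (conj z))‖ ≤
      PK (r * z) θ * (ε / 2) + 2 * M * ((1 - r ^ 2) / (δ - (1 - r)) ^ 2) := by
    intro θ
    have hP := PK_pos hrz1 θ
    have hrest : 0 ≤ 2 * M * ((1 - r ^ 2) / (δ - (1 - r)) ^ 2) := by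
      apply mul_nonneg (by positivity)
      apply div_nonneg _ (by positivity)
      nlinarith
    rw [Real.norm_eq_abs, abs_mul, abs_of_pos hP]
    by_cases hd : ‖circleMap 0 1 θ - z‖ < δ
    · have h3 := hδ (cexp (-(θ * I))) (by simpa using (norm_exp_neg θ).le) (conj z)
        (by simp [hz]) (by
          rw [dist_eq_norm, exp_neg_conj, ← map_sub, RCLike.norm_conj]; exact hd)
      rw [Real.dist_eq] at h3
      have : PK (r * z) θ * |F (cexp (-(θ * I))) - F (conj z)| ≤ PK (r * z) θ * (ε / 2) := by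
        gcongr
      linarith
    · push Not at hd
      have h3 : δ - (1 - r) ≤ ‖circleMap 0 1 θ - r * z‖ := by
        have h4 : circleMap 0 1 θ - z = (circleMap 0 1 θ - r * z) - ((1 - r : ℝ) : ℂ) * z := by
          push_cast; ring
        have h5 : ‖((1 - r : ℝ) : ℂ) * z‖ = 1 - r := by
          rw [norm_mul, hz, mul_one, Complex.norm_real, Real.norm_of_nonneg (by linarith)]
        have h6 := norm_sub_le (circleMap 0 1 θ - r * z) (((1 - r : ℝ) : ℂ) * z)
        rw [← h4, h5] at h6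
        linarith
      have h7 : PK (r * z) θ ≤ (1 - r ^ 2) / (δ - (1 - r)) ^ 2 := by
        rw [PK, hrz]
        have h8 : 0 < δ - (1 - r) := by linarith
        have h9 : 0 ≤ 1 - r ^ 2 := by nlinarith
        gcongr
      have h10 : |F (cexp (-(θ * I))) - F (conj z)| ≤ 2 * M := by
        have h11 := abs_sub (F (cexp (-(θ * I)))) (F (conj z))
        have h12 := hM _ (norm_exp_neg θ).le
        have h13 := hM (conj z) (by rw [RCLike.norm_conj, hz])
        linarith [abs_sub (F (cexp (-(θ * I)))) (F (conj z))]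
      have h14 : PK (r * z) θ * |F (cexp (-(θ * I))) - F (conj z)| ≤
          (1 - r ^ 2) / (δ - (1 - r)) ^ 2 * (2 * M) := by
        have h9 : 0 ≤ (1 - r ^ 2) / (δ - (1 - r)) ^ 2 := hP.le.trans h7
        gcongr
      have h15 : 0 ≤ PK (r * z) θ * (ε / 2) := by positivity
      linarith
  rw [Real.dist_eq, h1]
  have h2 := norm_integral_le_integral_norm (μ := mT)
    (fun θ => PK (r * z) θ * (F (cexp (-(θ * I))) - F (conj z)))
  rw [Real.norm_eq_abs] at h2
  have h3 : ∫ θ, ‖PK (r * z) θ * (F (cexp (-(θ * I))) - F (conj z))‖ ∂mT ≤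
      ∫ θ, (PK (r * z) θ * (ε / 2) + 2 * M * ((1 - r ^ 2) / (δ - (1 - r)) ^ 2)) ∂mT := by
    apply integral_mono
    · exact cont_integrable ((PK_cont hrz1).mul ((Fexp_cont hF).sub continuous_const)).norm
    · exact cont_integrable (((PK_cont hrz1).mul continuous_const).add continuous_const)
    · exact hpt
  have i3 : Integrable (fun θ => PK (r * z) θ * (ε / 2)) mT :=
    cont_integrable ((PK_cont hrz1).mul continuous_const)
  rw [integral_add i3 (integrable_const _), integral_mul_const, PK_one hrz1, one_mul, integral_const,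
    probReal_univ, one_smul] at h3
  linarith

end Pool.Agent.Helper203.Hardy
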