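import Mathlib
import Pool.Agent.Helper203.S1

set_option autoImplicit false

open Complex Metric Set Filter MeasureTheory
open scoped Real Topology ComplexConjugate NNReal ENNReal

namespace Pool.Agent.Helper203.Hardy

variable {φ : ℂ → ℂ}

theorem main_F (hφ : DifferentiableOn ℂ φ (ball (0 : ℂ) 1))
    (hm : MapsTo φ (ball (0 : ℂ) 1) (ball (0 : ℂ) 1)) (hφ0 : φ 0 ≠ 0)
    {P : ℂ → ℝ} (hPc : Continuous P) (hPnn : ∀ z, 0 ≤ P z) {η : ℝ} (hη : 0 < η) :
    ∀ᶠ r in 𝓝[<] (1 : ℝ), ∫ x in NS.A1 φ, P (NS.Us φ x) ≤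
      (∫ θ in (0 : ℝ)..2 * π, P (cexp (-(θ * I))) * (NS.g φ (circleMap 0 r θ)).re) +
        2 * π * η := by
  have hPu : UniformContinuousOn P (closedBall (0 : ℂ) 1) :=
    (isCompact_closedBall 0 1).uniformContinuousOn_of_continuous hPc.continuousOn
  rw [Metric.uniformContinuousOn_iff] at hPu
  obtain ⟨δ, hδ0, hδ⟩ := hPu η hη
  set ε : ℝ := min (1 / 2) (δ / 6) with hε
  have hε0 : 0 < ε := lt_min (by norm_num) (by positivity)
  have hε1 : ε ≤ 1 / 2 := min_le_left _ _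
  have hε2 : 3 * ε < δ := by
    have : ε ≤ δ / 6 := min_le_right _ _
    linarith
  obtain ⟨r₀, hr₀, hlev⟩ := NS.level_near hφ hm hφ0 hε0
  filter_upwards [Ioo_mem_nhdsLT (show max 0 r₀ < 1 from max_lt one_pos hr₀)] with r hr
  have hr0 : 0 < r := (le_max_left 0 r₀).trans_lt hr.1
  have hrr : r₀ < r := (le_max_right 0 r₀).trans_lt hr.1
  have hr1 : r < 1 := hr.2
  set Ψ : ℝ → ℝ := (NS.AS φ).indicator (fun x => P (NS.Us φ x)) with hΨ
  have hΨper : Function.Periodic Ψ (2 * π) := by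
    intro x
    by_cases hx : x ∈ NS.AS φ
    · rw [hΨ, indicator_of_mem ((NS.AS_periodic x).mpr hx), indicator_of_mem hx, NS.Us_periodic]
    · rw [hΨ, indicator_of_notMem (fun h => hx ((NS.AS_periodic x).mp h)), indicator_of_notMem hx]
  have h1 : ∫ x in NS.A1 φ, P (NS.Us φ x) = ∫ x in (0 : ℝ)..2 * π, Ψ x := by
    rw [intervalIntegral.integral_of_le (by positivity), hΨ,
      setIntegral_indicator (NS.AS_closed hφ).measurableSet, inter_comm]
    rfl
  have h2 : ∫ x in (0 : ℝ)..2 * π, Ψ x = ∫ x in (NS.Th φ r 0)..(NS.Th φ r (2 * π)), Ψ x := by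
    rw [NS.Th_period hφ hm hr0.le hr1, hΨper.intervalIntegral_add_eq (NS.Th φ r 0) 0, zero_add]
  have hgpos : ∀ θ : ℝ, 0 ≤ (NS.g φ (circleMap 0 r θ)).re := fun θ =>
    (NS.g_re_pos hφ hm (by rw [NS.cm_norm hr0.le]; exact hr1)).le
  have h3 : ∫ x in (NS.Th φ r 0)..(NS.Th φ r (2 * π)), Ψ x =
      ∫ θ in (0 : ℝ)..2 * π, (Ψ ∘ NS.Th φ r) θ * (NS.g φ (circleMap 0 r θ)).re := by
    symm
    apply intervalIntegral.integral_comp_mul_deriv_of_deriv_nonneg
    · intro θ _
      exact (NS.Th_deriv hφ hm hr0.le hr1 θ).continuousAt.continuousWithinAt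
    · intro θ _
      exact NS.Th_deriv hφ hm hr0.le hr1 θ
    · intro θ _
      exact hgpos θ
  have hgc : Continuous (fun θ : ℝ => (NS.g φ (circleMap 0 r θ)).re) :=
    Complex.continuous_re.comp (NS.g_circle_cont hφ hm hr0.le hr1)
  have hpt : ∀ θ : ℝ, (Ψ ∘ NS.Th φ r) θ ≤ P (cexp (-(θ * I))) + η := by
    intro θ
    by_cases hθ : NS.Th φ r θ ∈ NS.AS φ
    · have h4 := NS.near_Us hφ hm hφ0 hε0 hε1 hr0 hr1 hθ (hlev r hr0 hrr hr1 θ hθ)
      have h5 : ‖cexp (-(θ * I))‖ = 1 := norm_exp_neg θ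
      have h6 := hδ (cexp (-(θ * I))) (by rw [mem_closedBall_zero_iff, h5])
        (NS.Us φ (NS.Th φ r θ)) (by rw [mem_closedBall_zero_iff, NS.Us_norm hφ hm hθ])
        (by rw [dist_eq_norm]; linarith)
      rw [Real.dist_eq, abs_lt] at h6
      simp only [Function.comp_apply, hΨ, indicator_of_mem hθ]
      linarith [h6.1]
    · simp only [Function.comp_apply, hΨ, indicator_of_notMem hθ]
      have : 0 ≤ P (cexp (-(θ * I))) := hPnn _
      linarith
  have hΨnn : ∀ x, 0 ≤ Ψ x := by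
    intro x
    simp only [hΨ]
    apply indicator_nonneg
    intro y _
    exact hPnn _
  have hPcc : Continuous (fun θ : ℝ => P (cexp (-(θ * I)))) := hPc.comp (by fun_prop)
  have h4 : ∫ θ in (0 : ℝ)..2 * π, (Ψ ∘ NS.Th φ r) θ * (NS.g φ (circleMap 0 r θ)).re ≤
      ∫ θ in (0 : ℝ)..2 * π, (P (cexp (-(θ * I))) + η) * (NS.g φ (circleMap 0 r θ)).re := by
    rw [intervalIntegral.integral_of_le (by positivity),
      intervalIntegral.integral_of_le (by positivity)]
    apply integral_mono_of_nonneg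
    · apply Eventually.of_forall
      intro θ
      exact mul_nonneg (hΨnn _) (hgpos θ)
    · apply Continuous.integrableOn_Ioc
      exact (hPcc.add continuous_const).mul hgc
    · apply Eventually.of_forall
      intro θ
      exact mul_le_mul_of_nonneg_right (hpt θ) (hgpos θ)
  have h5 : ∫ θ in (0 : ℝ)..2 * π, (P (cexp (-(θ * I))) + η) * (NS.g φ (circleMap 0 r θ)).re =
      (∫ θ in (0 : ℝ)..2 * π, P (cexp (-(θ * I))) * (NS.g φ (circleMap 0 r θ)).re) +
        2 * π * η := by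
    have e : ∀ θ : ℝ, (P (cexp (-(θ * I))) + η) * (NS.g φ (circleMap 0 r θ)).re =
      P (cexp (-(θ * I))) * (NS.g φ (circleMap 0 r θ)).re +
        η * (NS.g φ (circleMap 0 r θ)).re := by
      intro θ; ring
    simp only [e]
    rw [intervalIntegral.integral_add, intervalIntegral.integral_const_mul,
      NS.int_g hφ hm hr0.le hr1]
    · ring
    · exact (hPcc.mul hgc).intervalIntegrable _ _
    · exact (continuous_const.mul hgc).intervalIntegrable _ _
  calc ∫ x in NS.A1 φ, P (NS.Us φ x) = ∫ θ in (0 : ℝ)..2 * π, (Ψ ∘ NS.Th φ r) θ *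
        (NS.g φ (circleMap 0 r θ)).re := by rw [h1, h2, h3]
    _ ≤ _ := h4
    _ = _ := h5

theorem AS_meas (hφ : DifferentiableOn ℂ φ (ball (0 : ℂ) 1)) : MeasurableSet (NS.AS φ) :=
  (NS.AS_closed hφ).measurableSet

theorem setIntegral_mT {E : Type*} [NormedAddCommGroup E] [NormedSpace ℝ E] (S : Set ℝ)
    (hS : MeasurableSet S) (f : ℝ → E) :
    ∫ θ in S, f θ ∂mT = (2 * π)⁻¹ • ∫ θ in S ∩ Ioc 0 (2 * π), f θ := by
  rw [mT, Measure.restrict_smul, Measure.restrict_restrict hS, integral_smul_measure,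
    ENNReal.toReal_inv, ENNReal.toReal_ofReal (by positivity)]

theorem main_F' (hφ : DifferentiableOn ℂ φ (ball (0 : ℂ) 1))
    (hm : MapsTo φ (ball (0 : ℂ) 1) (ball (0 : ℂ) 1)) (hφ0 : φ 0 ≠ 0)
    {P : ℂ → ℝ} (hPc : Continuous P) (hPnn : ∀ z, 0 ≤ P z) {V : ℝ}
    (hV : Tendsto (fun r : ℝ => ∫ θ, P (cexp (-(θ * I))) * (NS.g φ (circleMap 0 r θ)).re ∂mT)
      (𝓝[<] 1) (𝓝 V)) : ∫ x in NS.AS φ, P (NS.Us φ x) ∂mT ≤ V := by
  apply le_of_forall_pos_le_add
  intro η hη
  have h1 := main_F hφ hm hφ0 hPc hPnn hη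
  apply ge_of_tendsto (hV.add_const η)
  filter_upwards [h1] with r hr
  rw [setIntegral_mT _ (AS_meas hφ), integral_mT, smul_eq_mul, smul_eq_mul]
  have h2 : (2 * π)⁻¹ * ∫ x in NS.A1 φ, P (NS.Us φ x) ≤ (2 * π)⁻¹ *
      ((∫ θ in (0 : ℝ)..2 * π, P (cexp (-(θ * I))) * (NS.g φ (circleMap 0 r θ)).re) +
        2 * π * η) := by gcongr
  refine h2.trans (le_of_eq ?_)
  rw [mul_add]
  congr 1
  field_simp

/-! ### Fubini -/

variable {U : ℝ → ℂ}

theorem U_r (hU1 : ∀ α, ‖U α‖ ≤ 1) {r : ℝ} (h0 : 0 ≤ r) (h1 : r < 1) (α : ℝ) :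
    ‖(r : ℂ) * conj (U α)‖ ≤ r ∧ ‖(r : ℂ) * conj (U α)‖ < 1 := by
  have h : ‖(r : ℂ) * conj (U α)‖ ≤ r := by
    rw [norm_mul, RCLike.norm_conj, Complex.norm_real, Real.norm_of_nonneg h0]
    exact mul_le_of_le_one_right h0 (hU1 α)
  exact ⟨h, h.trans_lt h1⟩

theorem g_re_formula (hφ : DifferentiableOn ℂ φ (ball 0 1))
    (hm : MapsTo φ (ball (0 : ℂ) 1) (ball 0 1)) (hU1 : ∀ α, ‖U α‖ ≤ 1) (hU : Measurable U)
    (hUe : ∀ᵐ α ∂mT, U α = NS.Us φ α)
    {r : ℝ} (h0 : 0 ≤ r) (h1 : r < 1) (θ : ℝ) :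
    (NS.g φ (circleMap 0 r θ)).re = (1 / 2) * (1 + ∫ α, PK (r * conj (U α)) θ ∂mT) := by
  have ht : ‖circleMap 0 r θ‖ < 1 := by rw [NS.cm_norm h0]; exact h1
  rw [g_bdry hφ hm ht]
  have hmeas : AEStronglyMeasurable (fun α => (1 - circleMap 0 r θ * NS.Us φ α)⁻¹) mT := by
    apply AEMeasurable.aestronglyMeasurable
    exact (((Us_aemeas hφ hm).const_mul _).const_sub _).inv
  have hi : Integrable (fun α => (1 - circleMap 0 r θ * NS.Us φ α)⁻¹) mT := by
    apply integrable_bdd hmeas (M := (1 - r)⁻¹)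
    filter_upwards [bv_le hφ hm] with α hα
    rw [norm_inv]
    apply inv_anti₀ (by linarith)
    have h3 := norm_sub_norm_le 1 (circleMap 0 r θ * NS.Us φ α)
    have h4 : ‖circleMap 0 r θ * NS.Us φ α‖ ≤ r := by
      rw [norm_mul, NS.cm_norm h0, Us_norm_eq]
      exact mul_le_of_le_one_right h0 hα
    rw [norm_one] at h3
    linarith
  have h2 : (∫ α, (1 - circleMap 0 r θ * NS.Us φ α)⁻¹ ∂mT).re =
      ∫ α, ((1 - circleMap 0 r θ * NS.Us φ α)⁻¹).re ∂mT := (integral_re (𝕜 := ℂ) hi).symm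
  rw [h2]
  have h3 : ∫ α, ((1 - circleMap 0 r θ * NS.Us φ α)⁻¹).re ∂mT =
      ∫ α, (1 / 2) * (1 + PK (r * conj (U α)) θ) ∂mT := by
    apply integral_congr_ae
    filter_upwards [hUe] with α hα
    rw [PK_conj _ _ _ h0, hα]
    apply re_inv_one_sub
    rw [← hα, norm_mul, NS.cm_norm h0]
    exact (mul_le_of_le_one_right h0 (hU1 α)).trans_lt h1
  rw [h3, integral_const_mul, integral_add (integrable_const _), integral_const, probReal_univ,
    one_smul]
  apply Integrable.of_bound (C := (1 + r) / (1 - r))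
  · apply Measurable.aestronglyMeasurable
    unfold PK
    have : Measurable fun α => (r : ℂ) * conj (U α) := by
      exact (Complex.continuous_conj.measurable.comp hU).const_mul _
    exact (measurable_const.sub (this.norm.pow_const 2)).div
      ((measurable_const.sub this).norm.pow_const 2)
  · apply Eventually.of_forall
    intro α
    obtain ⟨h5, h6⟩ := U_r hU1 h0 h1 α
    rw [Real.norm_of_nonneg (PK_pos h6 θ).le]
    refine (PK_le h6 θ).trans ?_
    have : 0 < 1 - r := by linarith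
    gcongr

theorem PKU_meas (hU : Measurable U) (r : ℝ) :
    Measurable fun p : ℝ × ℝ => PK (r * conj (U p.1)) p.2 := by
  unfold PK
  have h1 : Measurable fun p : ℝ × ℝ => (r : ℂ) * conj (U p.1) :=
    (Complex.continuous_conj.measurable.comp (hU.comp measurable_fst)).const_mul _
  have h2 : Measurable fun p : ℝ × ℝ => circleMap 0 1 p.2 :=
    (continuous_circleMap 0 1).measurable.comp measurable_snd
  exact (measurable_const.sub (h1.norm.pow_const 2)).div ((h2.sub h1).norm.pow_const 2)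

theorem PKF_int (hU : Measurable U) (hU1 : ∀ α, ‖U α‖ ≤ 1) {F : ℂ → ℝ} (hF : Continuous F)
    {r : ℝ} (h0 : 0 ≤ r) (h1 : r < 1) :
    Integrable (fun p : ℝ × ℝ => PK (r * conj (U p.1)) p.2 * F (cexp (-(p.2 * I))))
      (mT.prod mT) := by
  obtain ⟨M, hM0, hM⟩ := bdd_circle hF
  apply Integrable.of_bound (C := (1 + r) / (1 - r) * M)
  · apply Measurable.aestronglyMeasurable
    exact (PKU_meas hU r).mul ((Fexp_cont hF).measurable.comp measurable_snd)
  · apply Eventually.of_forall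
    intro p
    obtain ⟨h5, h6⟩ := U_r hU1 h0 h1 p.1
    have : 0 < 1 - r := by linarith
    rw [norm_mul, Real.norm_of_nonneg (PK_pos h6 p.2).le]
    have h7 : PK (r * conj (U p.1)) p.2 ≤ (1 + r) / (1 - r) := by
      refine (PK_le h6 p.2).trans ?_
      gcongr
    have h8 : ‖F (cexp (-(p.2 * I)))‖ ≤ M := hM _ (norm_exp_neg p.2).le
    have h9 : 0 ≤ (1 + r) / (1 - r) := by positivity
    gcongr

theorem PIU_meas (hU : Measurable U) {F : ℂ → ℝ} (hF : Continuous F) (r : ℝ) :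
    StronglyMeasurable fun α => PI F (r * conj (U α)) := by
  unfold PI
  have h1 : StronglyMeasurable
      (fun p : ℝ × ℝ => PK (r * conj (U p.1)) p.2 * F (cexp (-(p.2 * I)))) := by
    apply Measurable.stronglyMeasurable
    exact (PKU_meas hU r).mul ((Fexp_cont hF).measurable.comp measurable_snd)
  exact h1.integral_prod_right (ν := mT)

theorem V_eq (hφ : DifferentiableOn ℂ φ (ball 0 1))
    (hm : MapsTo φ (ball (0 : ℂ) 1) (ball 0 1)) (hU1 : ∀ α, ‖U α‖ ≤ 1) (hU : Measurable U)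
    (hUe : ∀ᵐ α ∂mT, U α = NS.Us φ α) {F : ℂ → ℝ} (hF : Continuous F)
    {r : ℝ} (h0 : 0 ≤ r) (h1 : r < 1) :
    ∫ θ, F (cexp (-(θ * I))) * (NS.g φ (circleMap 0 r θ)).re ∂mT =
      (1 / 2) * ((∫ θ, F (cexp (-(θ * I))) ∂mT) + ∫ α, PI F (r * conj (U α)) ∂mT) := by
  have hi := PKF_int hU hU1 hF h0 h1
  have h2 : ∫ α, PI F (r * conj (U α)) ∂mT =
      ∫ θ, (∫ α, PK (r * conj (U α)) θ * F (cexp (-(θ * I))) ∂mT) ∂mT := by
    unfold PI
    exact integral_integral_swap (f := fun α θ => PK (r * conj (U α)) θ * F (cexp (-(θ * I)))) hi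
  have hi2 : Integrable (fun θ => ∫ α, PK (r * conj (U α)) θ * F (cexp (-(θ * I))) ∂mT) mT :=
    hi.integral_prod_right
  rw [h2, ← integral_add (cont_integrable (Fexp_cont hF)) hi2, ← integral_const_mul]
  apply integral_congr_ae
  apply Eventually.of_forall
  intro θ
  dsimp only
  rw [g_re_formula hφ hm hU1 hU hUe h0 h1 θ, integral_mul_const]
  ring

theorem V_tendsto (hφ : DifferentiableOn ℂ φ (ball 0 1))
    (hm : MapsTo φ (ball (0 : ℂ) 1) (ball 0 1)) (hU1 : ∀ α, ‖U α‖ ≤ 1) (hU : Measurable U)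
    (hUe : ∀ᵐ α ∂mT, U α = NS.Us φ α)
    (hE : ∀ᵐ α ∂mT, ‖bv φ α‖ = 1 → α ∈ NS.AS φ) {F : ℂ → ℝ} (hF : Continuous F) :
    Tendsto (fun r : ℝ => ∫ θ, F (cexp (-(θ * I))) * (NS.g φ (circleMap 0 r θ)).re ∂mT) (𝓝[<] 1)
      (𝓝 ((1 / 2) * ((∫ θ, F (cexp (-(θ * I))) ∂mT) + ((∫ α in NS.AS φ, F (U α) ∂mT) +
        ∫ α in (NS.AS φ)ᶜ, PI F (conj (U α)) ∂mT)))) := by
  obtain ⟨M, hM0, hM⟩ := bdd_circle hF
  have hev : ∀ᶠ r : ℝ in 𝓝[<] 1, 0 < r ∧ r < 1 := by
    filter_upwards [Ioo_mem_nhdsLT one_pos] with r hr using hr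
  have hASm := AS_meas hφ
  classical
  set L : ℝ → ℝ := fun α => if α ∈ NS.AS φ then F (U α) else PI F (conj (U α)) with hL
  have hlim : Tendsto (fun r : ℝ => ∫ α, PI F (r * conj (U α)) ∂mT) (𝓝[<] 1)
      (𝓝 (∫ α, L α ∂mT)) := by
    apply tendsto_integral_filter_of_dominated_convergence (fun _ => M)
    · exact Eventually.of_forall fun r => (PIU_meas hU hF r).aestronglyMeasurable
    · filter_upwards [hev] with r hr
      apply Eventually.of_forall
      intro α
      exact PI_le hF hM (U_r hU1 hr.1.le hr.2 α).2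
    · exact integrable_const _
    · filter_upwards [hUe, hE] with α h1 h2
      by_cases hα : α ∈ NS.AS φ
      · have h3 : ‖conj (U α)‖ = 1 := by
          rw [RCLike.norm_conj, h1, NS.Us_norm hφ hm hα]
        have h4 := PI_bdry hF h3
        simp only [hL, if_pos hα]
        simpa using h4
      · have h3 : ‖conj (U α)‖ < 1 := by
          rw [RCLike.norm_conj]
          apply lt_of_le_of_ne (hU1 α)
          intro h5
          apply hα
          apply h2
          rw [← Us_norm_eq, ← h1, h5]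
        simp only [hL, if_neg hα]
        exact PI_int hF h3
  have hLm : AEStronglyMeasurable L mT := by
    apply aestronglyMeasurable_of_tendsto_ae (𝓝[<] (1 : ℝ))
      (f := fun (r : ℝ) α => PI F (r * conj (U α)))
    · exact fun r => (PIU_meas hU hF r).aestronglyMeasurable
    · filter_upwards [hUe, hE] with α h1 h2
      by_cases hα : α ∈ NS.AS φ
      · have h3 : ‖conj (U α)‖ = 1 := by
          rw [RCLike.norm_conj, h1, NS.Us_norm hφ hm hα]
        have h4 := PI_bdry hF h3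
        simp only [hL, if_pos hα]
        simpa using h4
      · have h3 : ‖conj (U α)‖ < 1 := by
          rw [RCLike.norm_conj]
          apply lt_of_le_of_ne (hU1 α)
          intro h5
          apply hα
          apply h2
          rw [← Us_norm_eq, ← h1, h5]
        simp only [hL, if_neg hα]
        exact PI_int hF h3
  have hLi : Integrable L mT := by
    apply Integrable.of_bound hLm M
    filter_upwards [hUe, hE] with α h1 h2
    by_cases hα : α ∈ NS.AS φ
    · simp only [hL, if_pos hα]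
      exact hM _ (hU1 α)
    · have h3 : ‖conj (U α)‖ < 1 := by
        rw [RCLike.norm_conj]
        apply lt_of_le_of_ne (hU1 α)
        intro h5
        apply hα
        apply h2
        rw [← Us_norm_eq, ← h1, h5]
      simp only [hL, if_neg hα]
      exact PI_le hF hM h3
  have hsplit : ∫ α, L α ∂mT = (∫ α in NS.AS φ, F (U α) ∂mT) +
        ∫ α in (NS.AS φ)ᶜ, PI F (conj (U α)) ∂mT := by
    rw [← integral_add_compl hASm hLi]
    congr 1
    · apply setIntegral_congr_fun hASm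
      intro α hα
      simp only [hL, if_pos hα]
    · apply setIntegral_congr_fun hASm.compl
      intro α hα
      simp only [hL, if_neg hα]
  rw [hsplit] at hlim
  have h5 := (hlim.const_add (∫ θ, F (cexp (-(θ * I))) ∂mT)).const_mul (1 / 2)
  refine h5.congr' ?_
  filter_upwards [hev] with r hr
  exact (V_eq hφ hm hU1 hU hUe hF hr.1.le hr.2).symm

end Pool.Agent.Helper203.Hardy
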