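import Mathlib
import Pool.Agent.Helper203.S2

set_option autoImplicit false

open Complex Metric Set Filter MeasureTheory
open scoped Real Topology ComplexConjugate NNReal ENNReal

namespace Pool.Agent.Helper203.Hardy

variable {φ : ℂ → ℂ} {U : ℝ → ℂ}

/-- continuous functions decreasing to the indicator of `{x | conj x ∈ S}` -/
noncomputable def bump (S : Set ℂ) (k : ℕ) (x : ℂ) : ℝ := max 0 (1 - k * Metric.infDist (conj x) S)

theorem bump_cont (S : Set ℂ) (k : ℕ) : Continuous (bump S k) := by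
  unfold bump
  apply Continuous.max continuous_const
  apply Continuous.sub continuous_const
  apply Continuous.mul continuous_const
  exact (Metric.continuous_infDist_pt S).comp Complex.continuous_conj

theorem bump_nonneg (S : Set ℂ) (k : ℕ) (x : ℂ) : 0 ≤ bump S k x := le_max_left _ _

theorem bump_le_one (S : Set ℂ) (k : ℕ) (x : ℂ) : bump S k x ≤ 1 := by
  apply max_le zero_le_one
  have : 0 ≤ (k : ℝ) * Metric.infDist (conj x) S := mul_nonneg (by positivity) infDist_nonneg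
  linarith

theorem bump_abs (S : Set ℂ) (k : ℕ) (x : ℂ) : |bump S k x| ≤ 1 := by
  rw [abs_of_nonneg (bump_nonneg S k x)]; exact bump_le_one S k x

theorem bump_one {S : Set ℂ} (k : ℕ) {x : ℂ} (hx : conj x ∈ S) : bump S k x = 1 := by
  rw [bump, infDist_zero_of_mem hx]; simp

theorem bump_tendsto {S : Set ℂ} (hS : IsClosed S) (hne : S.Nonempty) {x : ℂ}
    (hx : conj x ∉ S) : Tendsto (fun k => bump S k x) atTop (𝓝 0) := by
  have hd : 0 < Metric.infDist (conj x) S := (hS.notMem_iff_infDist_pos hne).1 hx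
  apply tendsto_const_nhds.congr'
  filter_upwards [eventually_ge_atTop ⌈(Metric.infDist (conj x) S)⁻¹⌉₊] with k hk
  have h1 : (Metric.infDist (conj x) S)⁻¹ ≤ k := (Nat.le_ceil _).trans (by exact_mod_cast hk)
  have h2 : 1 ≤ (k : ℝ) * Metric.infDist (conj x) S := by
    calc (1 : ℝ) = (Metric.infDist (conj x) S)⁻¹ * Metric.infDist (conj x) S := by
          rw [inv_mul_cancel₀ hd.ne']
      _ ≤ _ := by gcongr
  rw [bump, max_eq_left (by linarith)]

section limits

variable {S : Set ℂ}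

theorem bump_mean (hS : IsClosed S) (hne : S.Nonempty)
    (hS0 : ∀ᵐ θ ∂mT, circleMap 0 1 θ ∉ S) :
    Tendsto (fun k => ∫ θ, bump S k (cexp (-(θ * I))) ∂mT) atTop (𝓝 0) := by
  have h : Tendsto (fun k => ∫ θ, bump S k (cexp (-(θ * I))) ∂mT) atTop
      (𝓝 (∫ θ : ℝ, (0 : ℝ) ∂mT)) := by
    apply tendsto_integral_of_dominated_convergence (fun _ => 1)
    · intro k
      exact (Fexp_cont (bump_cont S k)).aestronglyMeasurable
    · exact integrable_const _
    · intro k
      exact Eventually.of_forall fun θ => bump_abs _ _ _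
    · filter_upwards [hS0] with θ hθ
      apply bump_tendsto hS hne
      rwa [exp_neg_conj, Complex.conj_conj]
  simpa using h

theorem bump_PI (hS : IsClosed S) (hne : S.Nonempty)
    (hS0 : ∀ᵐ θ ∂mT, circleMap 0 1 θ ∉ S) {z : ℂ} (hz : ‖z‖ < 1) :
    Tendsto (fun k => PI (bump S k) z) atTop (𝓝 0) := by
  have h : Tendsto (fun k => PI (bump S k) z) atTop (𝓝 (∫ θ : ℝ, (0 : ℝ) ∂mT)) := by
    unfold PI
    apply tendsto_integral_of_dominated_convergence (fun θ => PK z θ)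
    · intro k
      exact ((PK_cont hz).mul (Fexp_cont (bump_cont S k))).aestronglyMeasurable
    · exact cont_integrable (PK_cont hz)
    · intro k
      apply Eventually.of_forall
      intro θ
      rw [norm_mul, Real.norm_of_nonneg (PK_pos hz θ).le]
      exact mul_le_of_le_one_right (PK_pos hz θ).le (bump_abs _ _ _)
    · filter_upwards [hS0] with θ hθ
      have h1 := (bump_tendsto hS hne (x := cexp (-(θ * I)))
        (by rwa [exp_neg_conj, Complex.conj_conj])).const_mul (PK z θ)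
      simpa using h1
  simpa using h

theorem lt_one_of_notMem (hU1 : ∀ α, ‖U α‖ ≤ 1) (hUe : ∀ᵐ α ∂mT, U α = NS.Us φ α)
    (hE : ∀ᵐ α ∂mT, ‖bv φ α‖ = 1 → α ∈ NS.AS φ) :
    ∀ᵐ α ∂mT, α ∉ NS.AS φ → ‖conj (U α)‖ < 1 := by
  filter_upwards [hUe, hE] with α h1 h2 hα
  rw [RCLike.norm_conj]
  apply lt_of_le_of_ne (hU1 α)
  intro h5
  apply hα
  apply h2
  rw [← Us_norm_eq, ← h1, h5]

theorem bump_Y (hφ : DifferentiableOn ℂ φ (ball 0 1))
    (hU1 : ∀ α, ‖U α‖ ≤ 1) (hU : Measurable U) (hUe : ∀ᵐ α ∂mT, U α = NS.Us φ α)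
    (hE : ∀ᵐ α ∂mT, ‖bv φ α‖ = 1 → α ∈ NS.AS φ)
    (hS : IsClosed S) (hne : S.Nonempty) (hS0 : ∀ᵐ θ ∂mT, circleMap 0 1 θ ∉ S) :
    Tendsto (fun k => ∫ α in (NS.AS φ)ᶜ, PI (bump S k) (conj (U α)) ∂mT) atTop (𝓝 0) := by
  have hASm := AS_meas hφ
  have hlt : ∀ᵐ α ∂(mT.restrict (NS.AS φ)ᶜ), ‖conj (U α)‖ < 1 := by
    rw [ae_restrict_iff' hASm.compl]
    filter_upwards [lt_one_of_notMem hU1 hUe hE] with α hα h
    exact hα h
  have h : Tendsto (fun k => ∫ α in (NS.AS φ)ᶜ, PI (bump S k) (conj (U α)) ∂mT) atTop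
      (𝓝 (∫ α in (NS.AS φ)ᶜ, (0 : ℝ) ∂mT)) := by
    apply tendsto_integral_of_dominated_convergence (fun _ => 1)
    · intro k
      have h1 := (PIU_meas hU (bump_cont S k) 1).aestronglyMeasurable (μ := mT.restrict (NS.AS φ)ᶜ)
      simpa using h1
    · exact integrable_const _
    · intro k
      filter_upwards [hlt] with α hα
      exact PI_le (bump_cont S k) (fun z _ => bump_abs S k z) hα
    · filter_upwards [hlt] with α hα
      exact bump_PI hS hne hS0 hα
  simpa using h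

/-- the values of the limit functional on bumps tend to zero -/
theorem bump_V (hφ : DifferentiableOn ℂ φ (ball 0 1))
    (hm : MapsTo φ (ball (0 : ℂ) 1) (ball 0 1)) (hφ0 : φ 0 ≠ 0)
    (hU1 : ∀ α, ‖U α‖ ≤ 1) (hU : Measurable U) (hUe : ∀ᵐ α ∂mT, U α = NS.Us φ α)
    (hE : ∀ᵐ α ∂mT, ‖bv φ α‖ = 1 → α ∈ NS.AS φ)
    (hS : IsClosed S) (hne : S.Nonempty) (hS0 : ∀ᵐ θ ∂mT, circleMap 0 1 θ ∉ S) :
    Tendsto (fun k => ∫ α in NS.AS φ, bump S k (U α) ∂mT) atTop (𝓝 0) ∧
    Tendsto (fun k => (1 / 2) * ((∫ θ, bump S k (cexp (-(θ * I))) ∂mT) +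
      ((∫ α in NS.AS φ, bump S k (U α) ∂mT) +
        ∫ α in (NS.AS φ)ᶜ, PI (bump S k) (conj (U α)) ∂mT))) atTop (𝓝 0) := by
  have h1 := bump_mean hS hne hS0
  have h2 := bump_Y hφ hU1 hU hUe hE hS hne hS0
  have hX : Tendsto (fun k => ∫ α in NS.AS φ, bump S k (U α) ∂mT) atTop (𝓝 0) := by
    have h3 := h1.add h2
    rw [add_zero] at h3
    apply squeeze_zero _ _ h3
    · intro k
      exact integral_nonneg fun α => bump_nonneg _ _ _
    · intro k
      have h4 := main_F' hφ hm hφ0 (bump_cont S k) (bump_nonneg S k)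
        (V_tendsto hφ hm hU1 hU hUe hE (bump_cont S k))
      have h5 : ∫ x in NS.AS φ, bump S k (NS.Us φ x) ∂mT = ∫ α in NS.AS φ, bump S k (U α) ∂mT := by
        apply integral_congr_ae
        filter_upwards [ae_restrict_of_ae hUe] with α hα
        rw [hα]
      rw [h5] at h4
      linarith
  refine ⟨hX, ?_⟩
  have h6 := (h1.add (hX.add h2)).const_mul (1 / 2)
  simpa using h6

theorem null_closed (hφ : DifferentiableOn ℂ φ (ball 0 1))
    (hm : MapsTo φ (ball (0 : ℂ) 1) (ball 0 1)) (hφ0 : φ 0 ≠ 0)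
    (hU1 : ∀ α, ‖U α‖ ≤ 1) (hU : Measurable U) (hUe : ∀ᵐ α ∂mT, U α = NS.Us φ α)
    (hE : ∀ᵐ α ∂mT, ‖bv φ α‖ = 1 → α ∈ NS.AS φ)
    (hS : IsClosed S) (hS0 : ∀ᵐ θ ∂mT, circleMap 0 1 θ ∉ S) :
    Measure.map (fun α => conj (U α)) (mT.restrict (NS.AS φ)) S = 0 := by
  rcases S.eq_empty_or_nonempty with h | hne
  · rw [h]; simp
  have hX := (bump_V hφ hm hφ0 hU1 hU hUe hE hS hne hS0).1
  have hcU : Measurable fun α => conj (U α) := Complex.continuous_conj.measurable.comp hU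
  rw [Measure.map_apply hcU hS.measurableSet]
  set T : Set ℝ := (fun α => conj (U α)) ⁻¹' S with hT
  have hTm : MeasurableSet T := hcU hS.measurableSet
  have h1 : ∀ k, (mT.restrict (NS.AS φ)).real T ≤ ∫ α in NS.AS φ, bump S k (U α) ∂mT := by
    intro k
    have h2 : (mT.restrict (NS.AS φ)).real T =
        ∫ α in NS.AS φ, T.indicator (fun _ => (1 : ℝ)) α ∂mT := by
      rw [integral_indicator_const _ hTm, smul_eq_mul, mul_one]
    rw [h2]
    apply integral_mono
    · exact (integrable_const _).indicator hTm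
    · apply Integrable.of_bound (C := 1)
      · exact ((bump_cont S k).measurable.comp hU).aestronglyMeasurable
      · exact Eventually.of_forall fun α => bump_abs _ _ _
    · intro α
      by_cases hα : α ∈ T
      · rw [indicator_of_mem hα]
        show (1 : ℝ) ≤ bump S k (U α)
        rw [bump_one k hα]
      · rw [indicator_of_notMem hα]; exact bump_nonneg _ _ _
  have h3 : (mT.restrict (NS.AS φ)).real T ≤ 0 := ge_of_tendsto' hX h1
  have h4 : (mT.restrict (NS.AS φ)).real T = 0 := le_antisymm h3 measureReal_nonneg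
  rw [measureReal_eq_zero_iff] at h4
  exact h4

theorem null_set (hφ : DifferentiableOn ℂ φ (ball 0 1))
    (hm : MapsTo φ (ball (0 : ℂ) 1) (ball 0 1)) (hφ0 : φ 0 ≠ 0)
    (hU1 : ∀ α, ‖U α‖ ≤ 1) (hU : Measurable U) (hUe : ∀ᵐ α ∂mT, U α = NS.Us φ α)
    (hE : ∀ᵐ α ∂mT, ‖bv φ α‖ = 1 → α ∈ NS.AS φ)
    (hS : MeasurableSet S) (hS0 : ∀ᵐ θ ∂mT, circleMap 0 1 θ ∉ S) :
    Measure.map (fun α => conj (U α)) (mT.restrict (NS.AS φ)) S = 0 := by
  by_contra hne
  have hpos : 0 < Measure.map (fun α => conj (U α)) (mT.restrict (NS.AS φ)) S :=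
    pos_iff_ne_zero.2 hne
  obtain ⟨K, hKS, hK, hKpos⟩ := hS.exists_lt_isCompact hpos
  rw [null_closed hφ hm hφ0 hU1 hU hUe hE hK.isClosed] at hKpos
  · exact lt_irrefl _ hKpos
  · filter_upwards [hS0] with θ hθ h
    exact hθ (hKS h)

end limits

/-- the angle in `(0, 2π]` -/
noncomputable def bt (ζ : ℂ) : ℝ := if arg ζ ≤ 0 then arg ζ + 2 * π else arg ζ

theorem bt_meas : Measurable bt := by
  unfold bt
  apply Measurable.ite
  · exact measurableSet_le Complex.measurable_arg measurable_const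
  · exact Complex.measurable_arg.add_const _
  · exact Complex.measurable_arg

theorem bt_mem (ζ : ℂ) : bt ζ ∈ Ioc 0 (2 * π) := by
  unfold bt
  have h1 := Complex.neg_pi_lt_arg ζ
  have h2 := Complex.arg_le_pi ζ
  have := Real.pi_pos
  split_ifs with h
  · constructor <;> linarith
  · push Not at h
    constructor <;> linarith

theorem bt_spec {ζ : ℂ} (hζ : ‖ζ‖ = 1) : circleMap 0 1 (bt ζ) = ζ := by
  have h1 : circleMap 0 1 (arg ζ) = ζ := by
    rw [circleMap_zero, Complex.ofReal_one, one_mul]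
    have := Complex.norm_mul_exp_arg_mul_I ζ
    rwa [hζ, Complex.ofReal_one, one_mul] at this
  unfold bt
  split_ifs with h
  · rw [periodic_circleMap]; exact h1
  · exact h1

theorem cm_inj_Ioc {θ θ' : ℝ} (h : θ ∈ Ioc 0 (2 * π)) (h' : θ' ∈ Ioc 0 (2 * π))
    (he : circleMap 0 1 θ = circleMap 0 1 θ') : θ = θ' := by
  rw [circleMap_zero, circleMap_zero, Complex.ofReal_one, one_mul, one_mul,
    Complex.exp_eq_exp_iff_exists_int] at he
  obtain ⟨n, hn⟩ := he
  have h1 : (θ : ℂ) = θ' + n * (2 * π) := by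
    have h2 : (θ : ℂ) * I = (θ' + n * (2 * π)) * I := by rw [hn]; ring
    exact mul_right_cancel₀ I_ne_zero h2
  have h3 : θ = θ' + n * (2 * π) := by exact_mod_cast h1
  have hp := Real.pi_pos
  have hn0 : n = 0 := by
    by_contra hne
    rcases lt_or_gt_of_ne hne with h4 | h4
    · have h5 : (n : ℝ) ≤ -1 := by exact_mod_cast (by omega : n ≤ -1)
      nlinarith [h.1, h'.2]
    · have h5 : (1 : ℝ) ≤ n := by exact_mod_cast (by omega : 1 ≤ n)
      nlinarith [h.2, h'.1]
  rw [hn0] at h3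
  simpa using h3

theorem ae_mem_Ioc : ∀ᵐ θ ∂mT, θ ∈ Ioc 0 (2 * π) := by
  rw [mT]
  exact Measure.ae_smul_measure (ae_restrict_mem measurableSet_Ioc) _

theorem bt_cm : ∀ᵐ θ ∂mT, bt (circleMap 0 1 θ) = θ := by
  filter_upwards [ae_mem_Ioc] with θ hθ
  exact cm_inj_Ioc (bt_mem _) hθ (bt_spec (norm_cm1 θ))

/-- the change of variable -/
theorem B_ac (hφ : DifferentiableOn ℂ φ (ball 0 1))
    (hm : MapsTo φ (ball (0 : ℂ) 1) (ball 0 1)) (hφ0 : φ 0 ≠ 0)
    (hU1 : ∀ α, ‖U α‖ ≤ 1) (hU : Measurable U) (hUe : ∀ᵐ α ∂mT, U α = NS.Us φ α)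
    (hE : ∀ᵐ α ∂mT, ‖bv φ α‖ = 1 → α ∈ NS.AS φ) :
    Measure.map (fun α => bt (conj (U α))) (mT.restrict (NS.AS φ)) ≪ mT := by
  have hcU : Measurable fun α => conj (U α) := Complex.continuous_conj.measurable.comp hU
  refine Measure.AbsolutelyContinuous.mk fun T hT hT0 => ?_
  have h1 : Measure.map (fun α => bt (conj (U α))) (mT.restrict (NS.AS φ)) =
      Measure.map bt (Measure.map (fun α => conj (U α)) (mT.restrict (NS.AS φ))) := by
    rw [Measure.map_map bt_meas hcU]; rfl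
  rw [h1, Measure.map_apply bt_meas hT]
  apply null_set hφ hm hφ0 hU1 hU hUe hE (bt_meas hT)
  have h2 : ∀ᵐ θ ∂mT, θ ∉ T := measure_eq_zero_iff_ae_notMem.1 hT0
  filter_upwards [h2, bt_cm] with θ h3 h4 h5
  apply h3
  have : bt (circleMap 0 1 θ) ∈ T := h5
  rwa [h4] at this

/-- no atoms: the mass of `Re g` near a boundary point is small -/
theorem no_atom (hφ : DifferentiableOn ℂ φ (ball 0 1))
    (hm : MapsTo φ (ball (0 : ℂ) 1) (ball 0 1)) (hφ0 : φ 0 ≠ 0)
    (hU1 : ∀ α, ‖U α‖ ≤ 1) (hU : Measurable U) (hUe : ∀ᵐ α ∂mT, U α = NS.Us φ α)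
    (hE : ∀ᵐ α ∂mT, ‖bv φ α‖ = 1 → α ∈ NS.AS φ) (β : ℝ) {η : ℝ} (hη : 0 < η) :
    ∃ δ > 0, ∀ᶠ r in 𝓝[<] (1 : ℝ),
      ∫ θ in Ioo (β - δ) (β + δ), (NS.g φ (circleMap 0 r θ)).re ∂mT ≤ η := by
  set S : Set ℂ := {circleMap 0 1 β} with hS
  have hS0 : ∀ᵐ θ ∂mT, circleMap 0 1 θ ∉ S := by
    have hc : (circleMap 0 1 ⁻¹' S).Countable :=
      (countable_singleton (circleMap 0 1 β)).preimage_circleMap 0 one_ne_zero
    apply ae_mT_of_ae
    exact measure_eq_zero_iff_ae_notMem.1 (hc.measure_zero volume)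
  obtain ⟨h1, h2⟩ := bump_V hφ hm hφ0 hU1 hU hUe hE isClosed_singleton
    (singleton_nonempty _) hS0
  have h3 : ∀ᶠ k : ℕ in atTop, (1 / 2) * ((∫ θ, bump S k (cexp (-(θ * I))) ∂mT) +
      ((∫ α in NS.AS φ, bump S k (U α) ∂mT) +
        ∫ α in (NS.AS φ)ᶜ, PI (bump S k) (conj (U α)) ∂mT)) < η / 2 :=
    h2.eventually (gt_mem_nhds (by positivity))
  obtain ⟨k, hk, hk1⟩ := (h3.and (eventually_ge_atTop 1)).exists
  have h4 := V_tendsto hφ hm hU1 hU hUe hE (bump_cont S k)
  have hk0 : (0 : ℝ) < k := by exact_mod_cast hk1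
  refine ⟨1 / (2 * k), by positivity, ?_⟩
  have hev : ∀ᶠ r : ℝ in 𝓝[<] 1, 0 < r ∧ r < 1 := by
    filter_upwards [Ioo_mem_nhdsLT one_pos] with r hr using hr
  filter_upwards [h4.eventually (gt_mem_nhds hk), hev] with r hr hr01
  have hgc : Continuous (fun θ : ℝ => (NS.g φ (circleMap 0 r θ)).re) :=
    Complex.continuous_re.comp (NS.g_circle_cont hφ hm hr01.1.le hr01.2)
  have hgpos : ∀ θ : ℝ, 0 ≤ (NS.g φ (circleMap 0 r θ)).re := fun θ =>
    (NS.g_re_pos hφ hm (by rw [NS.cm_norm hr01.1.le]; exact hr01.2)).le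
  rw [← integral_indicator measurableSet_Ioo]
  have h5 : ∫ θ, (Ioo (β - 1 / (2 * k)) (β + 1 / (2 * k))).indicator
      (fun θ => (NS.g φ (circleMap 0 r θ)).re) θ ∂mT ≤
      ∫ θ, 2 * (bump S k (cexp (-(θ * I))) * (NS.g φ (circleMap 0 r θ)).re) ∂mT := by
    apply integral_mono
    · exact (cont_integrable hgc).indicator measurableSet_Ioo
    · exact cont_integrable (continuous_const.mul ((Fexp_cont (bump_cont S k)).mul hgc))
    · intro θ
      by_cases hθ : θ ∈ Ioo (β - 1 / (2 * k)) (β + 1 / (2 * k))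
      · rw [indicator_of_mem hθ]
        have h6 : (1 : ℝ) / 2 ≤ bump S k (cexp (-(θ * I))) := by
          have h7 : Metric.infDist (conj (cexp (-(θ * I)))) S ≤ 1 / (2 * k) := by
            rw [hS, infDist_singleton, exp_neg_conj, Complex.conj_conj, dist_eq_norm]
            have h8 : ‖circleMap 0 1 θ - circleMap 0 1 β‖ ≤ |θ - β| := by
              have h9 := (lipschitzWith_circleMap 0 1).dist_le_mul θ β
              simpa [dist_eq_norm, Real.dist_eq] using h9
            refine h8.trans ?_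
            rw [abs_le]
            constructor <;> linarith [hθ.1, hθ.2]
          have h10 : (k : ℝ) * Metric.infDist (conj (cexp (-(θ * I)))) S ≤ 1 / 2 := by
            calc (k : ℝ) * Metric.infDist (conj (cexp (-(θ * I)))) S ≤ k * (1 / (2 * k)) := by
                  gcongr
              _ = 1 / 2 := by field_simp
          refine le_trans ?_ (le_max_right _ _)
          linarith
        have := hgpos θ
        dsimp only
        nlinarith
      · rw [indicator_of_notMem hθ]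
        have := hgpos θ
        have := bump_nonneg S k (cexp (-(θ * I)))
        dsimp only
        positivity
  rw [integral_const_mul] at h5
  linarith

end Pool.Agent.Helper203.Hardy
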