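import Mathlib
import Pool.Agent.Helper203.S3

set_option autoImplicit false

open Complex Metric Set Filter MeasureTheory
open scoped Real Topology ComplexConjugate NNReal ENNReal Interval

namespace Pool.Agent.Helper203.Hardy

variable {φ : ℂ → ℂ} {U : ℝ → ℂ}

theorem w_unique (hφ : DifferentiableOn ℂ φ (ball 0 1))
    (hm : MapsTo φ (ball (0 : ℂ) 1) (ball 0 1)) {t z : ℂ} (ht : ‖t‖ < 1) (hz : ‖z‖ < 1)
    (h : z = t * φ z) : NS.w φ t = z := by
  by_contra hne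
  have h1 := NS.dslope_ne hφ hm ht hz
  apply h1
  have hne' : z ≠ NS.w φ t := fun h => hne h.symm
  rw [dslope_of_ne _ hne', slope_def_field]
  have h2 := NS.w_fix hφ hm ht
  have h3 : z - NS.w φ t ≠ 0 := sub_ne_zero.2 hne'
  rw [sub_eq_zero, eq_comm, mul_div_assoc', div_eq_one_iff_eq h3]
  linear_combination h2 - h

theorem w_self (hφ : DifferentiableOn ℂ φ (ball 0 1))
    (hm : MapsTo φ (ball (0 : ℂ) 1) (ball 0 1)) : MapsTo (NS.w φ) (ball (0 : ℂ) 1) (ball 0 1) := by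
  intro z hz
  rw [mem_ball_zero_iff] at *
  exact NS.w_lt hφ hm hz

/-- the boundary behaviour of `w` at a point where there is no atom -/
theorem w_bdry_pt (hφ : DifferentiableOn ℂ φ (ball 0 1))
    (hm : MapsTo φ (ball (0 : ℂ) 1) (ball 0 1)) (hφ0 : φ 0 ≠ 0) {α β : ℝ}
    (hα : α ∈ NS.AS φ) (hβ : β ∈ Ioo 0 (2 * π)) (hζ : circleMap 0 1 β = conj (NS.Us φ α))
    (hna : ∀ η > 0, ∃ δ > 0, ∀ᶠ r in 𝓝[<] (1 : ℝ),
      ∫ θ in Ioo (β - δ) (β + δ), (NS.g φ (circleMap 0 r θ)).re ∂mT ≤ η) {L : ℂ}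
    (hL : Tendsto (fun r : ℝ => NS.w φ (circleMap 0 r β)) (𝓝[<] 1) (𝓝 L)) :
    L = circleMap 0 1 α := by
  set e := circleMap 0 1 α with he
  have hen : ‖e‖ = 1 := norm_cm1 α
  set ζ := circleMap 0 1 β with hζd
  have hζn : ‖ζ‖ = 1 := norm_cm1 β
  -- the curve
  set t : ℝ → ℂ := fun ρ => circleMap 0 ρ α / φ (circleMap 0 ρ α) with ht
  have hev : ∀ᶠ ρ : ℝ in 𝓝[<] 1, 0 < ρ ∧ ρ < 1 := by
    filter_upwards [Ioo_mem_nhdsLT one_pos] with r hr using hr
  have hlt : ∀ ρ : ℝ, 0 < ρ → ρ < 1 → ‖t ρ‖ < 1 := by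
    intro ρ h0 h1
    have h2 := NS.AS_strict hφ hm hφ0 hα h0.le h1
    rw [ht]
    dsimp only
    rw [norm_div, NS.cm_norm h0.le, div_lt_one (h0.trans h2)]
    exact h2
  have hwt : ∀ ρ : ℝ, 0 < ρ → ρ < 1 → NS.w φ (t ρ) = circleMap 0 ρ α := by
    intro ρ h0 h1
    apply w_unique hφ hm (hlt ρ h0 h1)
    · rw [NS.cm_norm h0.le]; exact h1
    · have h2 := NS.AS_strict hφ hm hφ0 hα h0.le h1
      have h3 : φ (circleMap 0 ρ α) ≠ 0 := by
        intro h; rw [h, norm_zero] at h2; linarith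
      simp only [ht]
      field_simp
  -- limit of the curve
  have hcm : Tendsto (fun ρ : ℝ => circleMap 0 ρ α) (𝓝[<] 1) (𝓝 e) := by
    have hc : Continuous fun r : ℝ => circleMap 0 r α := by unfold circleMap; fun_prop
    exact (hc.tendsto 1).mono_left nhdsWithin_le_nhds
  have hBd := NS.Bd_tendsto hφ hm hα
  have hBn := NS.Bd_norm hφ hm hα
  have hBne : NS.Bd φ α ≠ 0 := by intro h; rw [h, norm_zero] at hBn; norm_num at hBn
  have htl : Tendsto t (𝓝[<] 1) (𝓝 ζ) := by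
    have h1 := hcm.div hBd hBne
    have h2 : e / NS.Bd φ α = ζ := by
      rw [hζ, NS.Us, map_mul, exp_neg_conj, Complex.conj_conj, ← he, div_eq_iff hBne]
      have h3 : conj (NS.Bd φ α) * NS.Bd φ α = 1 := by
        rw [mul_comm, Complex.mul_conj, Complex.normSq_eq_norm_sq, hBn]; simp
      linear_combination -(e * h3)
    rwa [h2] at h1
  have htn : Tendsto (fun ρ => ‖t ρ‖) (𝓝[<] 1) (𝓝[<] 1) := by
    apply tendsto_nhdsWithin_iff.2
    refine ⟨by simpa [hζn] using htl.norm, ?_⟩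
    filter_upwards [hev] with ρ hρ
    exact hlt ρ hρ.1 hρ.2
  set ψ : ℝ → ℝ := fun ρ => arg (t ρ / ζ) with hψ
  have hζ0 : ζ ≠ 0 := by intro h; rw [h, norm_zero] at hζn; norm_num at hζn
  have hψl : Tendsto ψ (𝓝[<] 1) (𝓝 0) := by
    have h1 : Tendsto (fun ρ => t ρ / ζ) (𝓝[<] 1) (𝓝 1) := by
      have := htl.div_const ζ
      rwa [div_self hζ0] at this
    have h2 : ContinuousAt arg 1 := Complex.continuousAt_arg (by simp)
    have h3 := h2.tendsto.comp h1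
    rwa [Complex.arg_one] at h3
  have htp : ∀ ρ, t ρ = circleMap 0 ‖t ρ‖ (β + ψ ρ) := by
    intro ρ
    have h1 : (‖t ρ / ζ‖ : ℂ) * cexp (arg (t ρ / ζ) * I) = t ρ / ζ :=
      Complex.norm_mul_exp_arg_mul_I _
    rw [norm_div, hζn, div_one] at h1
    have h2 : t ρ = (‖t ρ‖ : ℂ) * cexp (arg (t ρ / ζ) * I) * ζ := by
      rw [h1]; field_simp
    have h3 : ζ = cexp (β * I) := by
      rw [hζd, circleMap_zero, Complex.ofReal_one, one_mul]
    calc t ρ = (‖t ρ‖ : ℂ) * cexp (ψ ρ * I) * ζ := h2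
      _ = (‖t ρ‖ : ℂ) * (cexp (ψ ρ * I) * cexp (β * I)) := by rw [mul_assoc, h3]
      _ = circleMap 0 ‖t ρ‖ (β + ψ ρ) := by
        rw [circleMap_zero, ← Complex.exp_add]
        congr 2
        push_cast
        ring
  -- main estimate
  have hmain : ∀ η > 0, ‖L - ‖L‖ * e‖ ≤ 2 * π * η := by
    intro η hη
    obtain ⟨δ₀, hδ₀, hna'⟩ := hna η hη
    have hlim : Tendsto (fun ρ => ‖NS.w φ (circleMap 0 ‖t ρ‖ β) -
        ‖NS.w φ (circleMap 0 ‖t ρ‖ β)‖ * e‖) (𝓝[<] 1) (𝓝 ‖L - ‖L‖ * e‖) := by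
      have h1 := hL.comp htn
      have h2 : Tendsto (fun ρ => ((‖NS.w φ (circleMap 0 ‖t ρ‖ β)‖ : ℝ) : ℂ)) (𝓝[<] 1)
          (𝓝 ((‖L‖ : ℝ) : ℂ)) := (Complex.continuous_ofReal.tendsto _).comp h1.norm
      exact (h1.sub (h2.mul_const e)).norm
    apply le_of_tendsto hlim
    set δ : ℝ := min δ₀ (min β (2 * π - β)) with hδ
    have hδ0 : 0 < δ := lt_min hδ₀ (lt_min hβ.1 (by linarith [hβ.2]))
    have hψδ : ∀ᶠ ρ in 𝓝[<] (1 : ℝ), |ψ ρ| < δ := by
      have := hψl.abs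
      rw [abs_zero] at this
      exact this.eventually (gt_mem_nhds hδ0)
    have hr' : ∀ᶠ ρ in 𝓝[<] (1 : ℝ), ∫ θ in Ioo (β - δ₀) (β + δ₀),
        (NS.g φ (circleMap 0 ‖t ρ‖ θ)).re ∂mT ≤ η := htn.eventually hna'
    filter_upwards [hev, hψδ, hr'] with ρ hρ hψρ hint
    set r := ‖t ρ‖ with hr
    have hr1 : r < 1 := hlt ρ hρ.1 hρ.2
    have hr0 : 0 < r := by
      rw [hr, norm_pos_iff]
      intro h
      have h2 := hwt ρ hρ.1 hρ.2
      rw [h] at h2
      have h3 := NS.w_norm hφ hm (t := 0) (by simp)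
      rw [h2, norm_zero, NS.cm_norm hρ.1.le] at h3
      linarith [hρ.1]
    have hgc : Continuous (fun θ : ℝ => (NS.g φ (circleMap 0 r θ)).re) :=
      Complex.continuous_re.comp (NS.g_circle_cont hφ hm hr0.le hr1)
    have hgpos : ∀ θ : ℝ, 0 ≤ (NS.g φ (circleMap 0 r θ)).re := fun θ =>
      (NS.g_re_pos hφ hm (by rw [NS.cm_norm hr0.le]; exact hr1)).le
    -- difference of arguments
    have hTh : |NS.Th φ r β - NS.Th φ r (β + ψ ρ)| ≤ 2 * π * η := by
      have h1 : NS.Th φ r β - NS.Th φ r (β + ψ ρ) =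
          ∫ s in (β + ψ ρ)..β, (NS.g φ (circleMap 0 r s)).re := by
        unfold NS.Th
        rw [add_sub_add_left_eq_sub]
        exact intervalIntegral.integral_interval_sub_left (hgc.intervalIntegrable _ _)
          (hgc.intervalIntegrable _ _)
      have hsub : Ι (β + ψ ρ) β ⊆ Ioo (β - δ₀) (β + δ₀) ∩ Ioc 0 (2 * π) := by
        intro x hx
        rw [mem_uIoc] at hx
        rw [abs_lt] at hψρ
        have hd1 : δ ≤ δ₀ := min_le_left _ _
        have hd2 : δ ≤ β := (min_le_right _ _).trans (min_le_left _ _)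
        have hd3 : δ ≤ 2 * π - β := (min_le_right _ _).trans (min_le_right _ _)
        refine ⟨⟨?_, ?_⟩, ?_, ?_⟩ <;> rcases hx with hx | hx <;> linarith [hx.1, hx.2]
      have h2 : |∫ s in (β + ψ ρ)..β, (NS.g φ (circleMap 0 r s)).re| ≤
          ∫ s in Ι (β + ψ ρ) β, |(NS.g φ (circleMap 0 r s)).re| := by
        have := intervalIntegral.norm_integral_le_integral_norm_uIoc
          (f := fun s => (NS.g φ (circleMap 0 r s)).re) (a := β + ψ ρ) (b := β) (μ := volume)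
        simpa [Real.norm_eq_abs] using this
      have h3 : ∫ s in Ι (β + ψ ρ) β, |(NS.g φ (circleMap 0 r s)).re| ≤
          ∫ s in Ioo (β - δ₀) (β + δ₀) ∩ Ioc 0 (2 * π), |(NS.g φ (circleMap 0 r s)).re| := by
        apply setIntegral_mono_set
        · apply IntegrableOn.mono_set (t := Icc 0 (2 * π))
          · exact hgc.abs.integrableOn_Icc
          · exact fun x hx => ⟨hx.2.1.le, hx.2.2⟩
        · exact Eventually.of_forall fun x => abs_nonneg _
        · exact hsub.eventuallyLE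
      have h4 : ∫ s in Ioo (β - δ₀) (β + δ₀) ∩ Ioc 0 (2 * π), |(NS.g φ (circleMap 0 r s)).re| =
          2 * π * ∫ θ in Ioo (β - δ₀) (β + δ₀), (NS.g φ (circleMap 0 r θ)).re ∂mT := by
        rw [setIntegral_mT _ measurableSet_Ioo, smul_eq_mul, ← mul_assoc,
          mul_inv_cancel₀ (by positivity), one_mul]
        apply setIntegral_congr_fun (measurableSet_Ioo.inter measurableSet_Ioc)
        intro x _
        exact abs_of_nonneg (hgpos x)
      rw [h1]
      refine h2.trans (h3.trans ?_)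
      rw [h4]
      gcongr
    have hp1 := NS.w_polar hφ hm hr0 hr1 (β + ψ ρ)
    rw [← htp ρ, hwt ρ hρ.1 hρ.2, NS.cm_norm hρ.1.le, NS.cm_eq] at hp1
    have hρc : (ρ : ℂ) ≠ 0 := by exact_mod_cast hρ.1.ne'
    have hp2 : e = cexp (NS.Th φ r (β + ψ ρ) * I) := by
      rw [he, NS.cm_eq, Complex.ofReal_one, one_mul]
      exact mul_left_cancel₀ hρc hp1
    have hp3 := NS.w_polar hφ hm hr0 hr1 β
    have h5 : NS.w φ (circleMap 0 r β) - ‖NS.w φ (circleMap 0 r β)‖ * e =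
        ‖NS.w φ (circleMap 0 r β)‖ * (cexp (NS.Th φ r β * I) -
          cexp (NS.Th φ r (β + ψ ρ) * I)) := by
      rw [mul_sub, ← hp3, ← hp2]
    rw [h5, norm_mul, Complex.norm_real, norm_norm]
    have h6 : ‖NS.w φ (circleMap 0 r β)‖ ≤ 1 :=
      (NS.w_lt hφ hm (by rw [NS.cm_norm hr0.le]; exact hr1)).le
    have h7 : ‖cexp (NS.Th φ r β * I) - cexp (NS.Th φ r (β + ψ ρ) * I)‖ ≤
        |NS.Th φ r β - NS.Th φ r (β + ψ ρ)| := by
      have h9 := (lipschitzWith_circleMap 0 1).dist_le_mul (NS.Th φ r β) (NS.Th φ r (β + ψ ρ))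
      simpa [dist_eq_norm, Real.dist_eq, circleMap_zero] using h9
    calc ‖NS.w φ (circleMap 0 r β)‖ * ‖cexp (NS.Th φ r β * I) - cexp (NS.Th φ r (β + ψ ρ) * I)‖
        ≤ 1 * (2 * π * η) := by
          gcongr
          exact h7.trans hTh
      _ = 2 * π * η := one_mul _
  have hLe : L = ‖L‖ * e := by
    have h1 : ‖L - ‖L‖ * e‖ ≤ 0 := by
      apply le_of_forall_pos_le_add
      intro ε hε
      have h2 := hmain (ε / (2 * π)) (by positivity)
      have e1 : 2 * π * (ε / (2 * π)) = ε := by field_simp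
      rw [e1] at h2
      linarith
    exact sub_eq_zero.1 (norm_le_zero_iff.1 h1)
  have hL1 : ‖L‖ ≤ 1 := by
    apply le_of_tendsto hL.norm
    filter_upwards [hev] with r hr
    exact (NS.w_lt hφ hm (by rw [NS.cm_norm hr.1.le]; exact hr.2)).le
  rcases hL1.lt_or_eq with hlt1 | heq1
  · exfalso
    -- `L = ζ φ(L)`
    have h1 : Tendsto (fun r : ℝ => circleMap 0 r β * φ (NS.w φ (circleMap 0 r β))) (𝓝[<] 1)
        (𝓝 (ζ * φ L)) := by
      have hc : Continuous fun r : ℝ => circleMap 0 r β := by unfold circleMap; fun_prop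
      have h2 : Tendsto (fun r : ℝ => circleMap 0 r β) (𝓝[<] 1) (𝓝 ζ) :=
        (hc.tendsto 1).mono_left nhdsWithin_le_nhds
      have h3 : ContinuousAt φ L :=
        (hφ.differentiableAt (isOpen_ball.mem_nhds (by simpa using hlt1))).continuousAt
      exact h2.mul (h3.tendsto.comp hL)
    have h2 : L = ζ * φ L := by
      apply tendsto_nhds_unique hL
      refine h1.congr' ?_
      filter_upwards [hev] with r hr
      exact (NS.w_fix hφ hm (by rw [NS.cm_norm hr.1.le]; exact hr.2)).symm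
    have h3 : ‖L‖ = ‖φ L‖ := by
      conv_lhs => rw [h2]
      rw [norm_mul, hζn, one_mul]
    have h4 : L = circleMap 0 ‖L‖ α := by
      rw [NS.cm_eq]
      have : e = cexp (α * I) := by rw [he, NS.cm_eq, Complex.ofReal_one, one_mul]
      rw [← this]; exact hLe
    have h5 := NS.AS_strict hφ hm hφ0 hα (norm_nonneg L) hlt1
    rw [← h4, ← h3] at h5
    exact lt_irrefl _ h5
  · rw [hLe, heq1]; simp

/-- the boundary values of `w` along the change of variable -/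
theorem w_bdry (hφ : DifferentiableOn ℂ φ (ball 0 1))
    (hm : MapsTo φ (ball (0 : ℂ) 1) (ball 0 1)) (hφ0 : φ 0 ≠ 0)
    (hU1 : ∀ α, ‖U α‖ ≤ 1) (hU : Measurable U) (hUe : ∀ᵐ α ∂mT, U α = NS.Us φ α)
    (hE : ∀ᵐ α ∂mT, ‖bv φ α‖ = 1 → α ∈ NS.AS φ) :
    ∀ᵐ α ∂mT, α ∈ NS.AS φ → circleMap 0 1 (bt (conj (U α))) = conj (U α) ∧
      bv (NS.w φ) (bt (conj (U α))) = circleMap 0 1 α := by
  have hac := B_ac hφ hm hφ0 hU1 hU hUe hE
  have hBm : Measurable fun α => bt (conj (U α)) :=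
    bt_meas.comp (Complex.continuous_conj.measurable.comp hU)
  have h1 : ∀ᵐ θ ∂mT, θ ≠ 2 * π ∧
      Tendsto (fun r : ℝ => NS.w φ (circleMap 0 r θ)) (𝓝[<] 1) (𝓝 (bv (NS.w φ) θ)) := by
    have h2 := bv_tendsto (NS.w_diff hφ hm) (w_self hφ hm)
    have h3 : ∀ᵐ θ ∂mT, θ ≠ 2 * π := by
      apply ae_mT_of_ae
      exact Measure.ae_ne volume _
    filter_upwards [h2, h3] with θ h4 h5 using ⟨h5, h4⟩
  have h2 := ae_of_ae_map hBm.aemeasurable (hac.ae_le h1)
  rw [ae_restrict_iff' (AS_meas hφ)] at h2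
  filter_upwards [h2, hUe] with α h3 hUα hα
  obtain ⟨h4, h5⟩ := h3 hα
  have hn : ‖conj (U α)‖ = 1 := by rw [RCLike.norm_conj, hUα, NS.Us_norm hφ hm hα]
  have h6 := bt_spec hn
  refine ⟨h6, ?_⟩
  have h7 := bt_mem (conj (U α))
  apply w_bdry_pt hφ hm hφ0 hα (β := bt (conj (U α))) ⟨h7.1, lt_of_le_of_ne h7.2 h4⟩
  · rw [h6, hUα]
  · intro η hη
    exact no_atom hφ hm hφ0 hU1 hU hUe hE _ hη
  · exact h5

end Pool.Agent.Helper203.Hardy
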