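import Mathlib
import Pool.Agent.Helper203.S4
import Pool.Agent.Helper203.UAT

set_option autoImplicit false

open Complex Metric Set Filter MeasureTheory
open scoped Real Topology ComplexConjugate NNReal ENNReal Interval

namespace Pool.Agent.Helper203.Hardy

variable {φ : ℂ → ℂ} {U : ℝ → ℂ}

/-- termwise integration of a power series against a bounded function -/
theorem pair_sum (c : ℕ → ℂ) (hc : Summable fun k => ‖c k‖) {G : ℝ → ℂ}
    (hG : AEStronglyMeasurable G mT) {M : ℝ} (hM : ∀ θ, ‖G θ‖ ≤ M) :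
    HasSum (fun k : ℕ => c k * ∫ θ : ℝ, cexp (k * θ * I) * G θ ∂mT)
      (∫ θ : ℝ, (∑' k : ℕ, c k * cexp (k * θ * I)) * G θ ∂mT) := by
  have hM0 : 0 ≤ M := (norm_nonneg _).trans (hM 0)
  have hterm : ∀ k : ℕ, ∀ θ : ℝ, ‖c k * cexp (k * θ * I)‖ = ‖c k‖ := by
    intro k θ
    have := norm_exp_q k θ
    rw [norm_mul]
    push_cast at this
    rw [this, mul_one]
  have hsum : ∀ θ : ℝ, HasSum (fun k : ℕ => c k * cexp (k * θ * I))
      (∑' k : ℕ, c k * cexp (k * θ * I)) := by
    intro θ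
    apply Summable.hasSum
    apply Summable.of_norm
    simpa only [hterm] using hc
  have h1 : HasSum (fun k : ℕ => ∫ θ : ℝ, (c k * cexp (k * θ * I)) * G θ ∂mT)
      (∫ θ : ℝ, (∑' k : ℕ, c k * cexp (k * θ * I)) * G θ ∂mT) := by
    apply hasSum_integral_of_dominated_convergence (fun k _ => ‖c k‖ * M)
    · intro k
      apply AEStronglyMeasurable.mul _ hG
      apply Continuous.aestronglyMeasurable
      fun_prop
    · intro k
      filter_upwards with θ
      rw [norm_mul, hterm]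
      gcongr
      exact hM θ
    · filter_upwards with θ
      exact hc.mul_right M
    · exact integrable_const _
    · filter_upwards with θ
      exact (hsum θ).mul_right _
  have h2 : (fun k : ℕ => ∫ θ : ℝ, (c k * cexp (k * θ * I)) * G θ ∂mT) =
      fun k : ℕ => c k * ∫ θ : ℝ, cexp (k * θ * I) * G θ ∂mT := by
    funext k
    rw [← integral_const_mul]
    congr 1
    funext θ
    ring
  rwa [h2] at h1

theorem coef_circle (F : H2) {r : ℝ} (h0 : 0 ≤ r) (h1 : r < 1) (k : ℕ) :
    ∫ θ, ev F (circleMap 0 r θ) * cexp (-(k * θ * I)) ∂mT = F k * r ^ k := by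
  have hs : Summable fun j => ‖F j * (r : ℂ) ^ j‖ := by
    refine (ev_summable_norm F h0 h1).congr fun j => ?_
    rw [norm_mul, norm_pow, Complex.norm_real, Real.norm_of_nonneg h0]
  have hG : AEStronglyMeasurable (fun θ : ℝ => cexp (-(k * θ * I))) mT := by
    apply Continuous.aestronglyMeasurable
    fun_prop
  have hn : ∀ θ : ℝ, ‖cexp (-(k * θ * I))‖ ≤ 1 := by
    intro θ
    have := norm_exp_q (-(k : ℤ)) θ
    push_cast at this
    rw [← neg_mul, ← neg_mul]
    exact this.le
  have h2 := pair_sum (fun j => F j * (r : ℂ) ^ j) hs hG hn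
  have h3 : ∀ θ : ℝ, (∑' j : ℕ, F j * (r : ℂ) ^ j * cexp (j * θ * I)) =
      ev F (circleMap 0 r θ) := by
    intro θ
    rw [ev]
    congr 1
    funext j
    rw [circleMap_pow, mul_assoc]
  simp only [h3] at h2
  have h4 : ∀ j : ℕ, ∫ θ : ℝ, cexp (j * θ * I) * cexp (-(k * θ * I)) ∂mT =
      if j = k then 1 else 0 := by
    intro j
    have e : ∀ θ : ℝ, cexp (j * θ * I) * cexp (-(k * θ * I)) =
        cexp (((j : ℤ) - k : ℤ) * θ * I) := by
      intro θ
      rw [← Complex.exp_add]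
      congr 1
      push_cast; ring
    simp only [e]
    rw [int_exp]
    by_cases hkj : j = k
    · subst hkj; simp
    · have : ¬ ((j : ℤ) - k = 0) := by omega
      simp [hkj, this]
  simp only [h4] at h2
  have h5 : HasSum (fun j : ℕ => F j * (r : ℂ) ^ j * (if j = k then 1 else 0)) (F k * r ^ k) := by
    have h6 := hasSum_ite_eq k (F k * (r : ℂ) ^ k)
    convert h6 using 2 with j
    split_ifs with h
    · rw [h, mul_one]
    · rw [mul_zero]
  exact h2.unique h5

/-- Fourier coefficients of a bounded function -/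
noncomputable def gam (G : ℝ → ℂ) (k : ℕ) : ℂ := ∫ θ : ℝ, cexp (k * θ * I) * G θ ∂mT

theorem bessel {G : ℝ → ℂ} (hG : AEStronglyMeasurable G mT) {M : ℝ} (hM : ∀ θ, ‖G θ‖ ≤ M)
    (N : ℕ) : ∑ k ∈ Finset.range N, ‖gam G k‖ ^ 2 ≤ M ^ 2 := by
  have hM0 : 0 ≤ M := (norm_nonneg _).trans (hM 0)
  set s : ℝ := ∑ k ∈ Finset.range N, ‖gam G k‖ ^ 2 with hs
  set c : ℕ → ℂ := fun k => if k < N then conj (gam G k) else 0 with hc
  have hcs : Summable fun k => ‖c k‖ := by
    apply summable_of_ne_finset_zero (s := Finset.range N)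
    intro k hk
    rw [Finset.mem_range, not_lt] at hk
    simp only [hc, if_neg (not_lt.2 hk), norm_zero]
  set T : ℝ → ℂ := fun θ => ∑' k : ℕ, c k * cexp (k * θ * I) with hT
  have hsum2 : ∑' k, ‖c k‖ ^ 2 = s := by
    rw [tsum_eq_sum (s := Finset.range N)]
    · apply Finset.sum_congr rfl
      intro k hk
      rw [Finset.mem_range] at hk
      simp only [hc, if_pos hk, RCLike.norm_conj]
    · intro k hk
      rw [Finset.mem_range, not_lt] at hk
      simp only [hc, if_neg (not_lt.2 hk), norm_zero]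
      norm_num
  have h1 : ∫ θ : ℝ, T θ * G θ ∂mT = s := by
    have h2 := pair_sum c hcs hG hM
    have h3 : HasSum (fun k : ℕ => c k * ∫ θ : ℝ, cexp (k * θ * I) * G θ ∂mT) (s : ℂ) := by
      have e : (s : ℂ) = ∑ k ∈ Finset.range N, c k * ∫ θ : ℝ, cexp (k * θ * I) * G θ ∂mT := by
        rw [hs]
        push_cast
        apply Finset.sum_congr rfl
        intro k hk
        rw [Finset.mem_range] at hk
        simp only [hc, if_pos hk]
        have h4 : conj (gam G k) * gam G k = ((‖gam G k‖ ^ 2 : ℝ) : ℂ) := by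
          rw [mul_comm, Complex.mul_conj, Complex.normSq_eq_norm_sq]
        rw [← gam, h4]
        push_cast
        rfl
      rw [e]
      apply hasSum_sum_of_ne_finset_zero
      intro k hk
      rw [Finset.mem_range, not_lt] at hk
      simp only [hc, if_neg (not_lt.2 hk), zero_mul]
    exact h2.unique h3
  have h2 : ∫ θ : ℝ, ‖T θ‖ ^ 2 ∂mT = s := by
    rw [← hsum2]; exact parseval c hcs
  have hTc : Continuous T := by
    apply continuous_tsum (u := fun k => ‖c k‖)
    · intro k; fun_prop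
    · exact hcs
    · intro k θ
      have := norm_exp_q k θ
      rw [norm_mul]
      push_cast at this
      rw [this, mul_one]
  have hTi : Integrable (fun θ => ‖T θ‖ ^ 2) mT := cont_integrable (hTc.norm.pow 2)
  have h3 : ‖∫ θ : ℝ, T θ * G θ ∂mT‖ ≤ ∫ θ : ℝ, (‖T θ‖ ^ 2 / 2 + M ^ 2 / 2) ∂mT := by
    apply norm_integral_le_of_norm_le
    · exact (hTi.div_const 2).add (integrable_const _)
    · apply Eventually.of_forall
      intro θ
      rw [norm_mul]
      have h4 := hM θ
      have h5 : ‖T θ‖ * ‖G θ‖ ≤ ‖T θ‖ * M := by gcongr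
      nlinarith [sq_nonneg (‖T θ‖ - M)]
  rw [h1, integral_add (hTi.div_const 2) (integrable_const _), integral_div, h2, integral_const,
    probReal_univ, one_smul, Complex.norm_real, Real.norm_of_nonneg
    (Finset.sum_nonneg fun k _ => by positivity)] at h3
  linarith

theorem gam_summable {G : ℝ → ℂ} (hG : AEStronglyMeasurable G mT) {M : ℝ} (hM : ∀ θ, ‖G θ‖ ≤ M) :
    Summable fun k => ‖gam G k‖ ^ 2 :=
  summable_of_sum_range_le (fun k => by positivity) (bessel hG hM)

/-- tail of the Fourier coefficients -/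
noncomputable def tau (G : ℝ → ℂ) (n : ℕ) : ℝ := Real.sqrt (∑' k, ‖gam G (k + n)‖ ^ 2)

theorem tau_tendsto (G : ℝ → ℂ) : Tendsto (tau G) atTop (𝓝 0) := by
  unfold tau
  have h1 := tendsto_sum_nat_add (fun k => ‖gam G k‖ ^ 2)
  have h2 := (Real.continuous_sqrt.tendsto 0).comp h1
  rwa [Real.sqrt_zero] at h2

theorem pair_le {G : ℝ → ℂ} (hG : AEStronglyMeasurable G mT) {M : ℝ} (hM : ∀ θ, ‖G θ‖ ≤ M)
    (F : H2) {r : ℝ} (h0 : 0 ≤ r) (h1 : r < 1) (n : ℕ) :
    ‖∫ θ : ℝ, ev F (circleMap 0 r θ) * (cexp (n * θ * I) * G θ) ∂mT‖ ≤ ‖F‖ * tau G n := by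
  have hs : Summable fun j => ‖F j * (r : ℂ) ^ j‖ := by
    refine (ev_summable_norm F h0 h1).congr fun j => ?_
    rw [norm_mul, norm_pow, Complex.norm_real, Real.norm_of_nonneg h0]
  have hG2 : AEStronglyMeasurable (fun θ : ℝ => cexp (n * θ * I) * G θ) mT := by
    apply AEStronglyMeasurable.mul _ hG
    apply Continuous.aestronglyMeasurable
    fun_prop
  have hM2 : ∀ θ : ℝ, ‖cexp (n * θ * I) * G θ‖ ≤ M := by
    intro θ
    have := norm_exp_q n θ
    push_cast at this
    rw [norm_mul, this, one_mul]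
    exact hM θ
  have h2 := pair_sum (fun j => F j * (r : ℂ) ^ j) hs hG2 hM2
  have h3 : ∀ θ : ℝ, (∑' j : ℕ, F j * (r : ℂ) ^ j * cexp (j * θ * I)) =
      ev F (circleMap 0 r θ) := by
    intro θ
    rw [ev]
    congr 1
    funext j
    rw [circleMap_pow, mul_assoc]
  simp only [h3] at h2
  have h4 : ∀ j : ℕ, ∫ θ : ℝ, cexp (j * θ * I) * (cexp (n * θ * I) * G θ) ∂mT =
      gam G (j + n) := by
    intro j
    rw [gam]
    congr 1
    funext θ
    rw [← mul_assoc, ← Complex.exp_add]
    congr 2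
    push_cast; ring
  simp only [h4] at h2
  apply le_of_tendsto h2.tendsto_sum_nat.norm
  apply Eventually.of_forall
  intro N
  have hgs := (gam_summable hG hM)
  have hgs' : Summable fun k => ‖gam G (k + n)‖ ^ 2 := (summable_nat_add_iff n).2 hgs
  calc ‖∑ j ∈ Finset.range N, F j * (r : ℂ) ^ j * gam G (j + n)‖
      ≤ ∑ j ∈ Finset.range N, ‖F j‖ * ‖gam G (j + n)‖ := by
        refine (norm_sum_le _ _).trans ?_
        apply Finset.sum_le_sum
        intro j _
        rw [norm_mul, norm_mul, norm_pow, Complex.norm_real, Real.norm_of_nonneg h0]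
        have h5 : r ^ j ≤ 1 := pow_le_one₀ h0 h1.le
        have h6 : ‖F j‖ * r ^ j ≤ ‖F j‖ := mul_le_of_le_one_right (norm_nonneg _) h5
        gcongr
    _ ≤ Real.sqrt (∑ j ∈ Finset.range N, ‖F j‖ ^ 2) *
        Real.sqrt (∑ j ∈ Finset.range N, ‖gam G (j + n)‖ ^ 2) :=
        Real.sum_mul_le_sqrt_mul_sqrt _ _ _
    _ ≤ ‖F‖ * tau G n := by
        apply mul_le_mul _ _ (Real.sqrt_nonneg _) (norm_nonneg _)
        · rw [← Real.sqrt_sq (norm_nonneg F)]
          apply Real.sqrt_le_sqrt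
          rw [norm_sq]
          exact (sq_summable F).sum_le_tsum _ (fun k _ => by positivity)
        · apply Real.sqrt_le_sqrt
          exact hgs'.sum_le_tsum _ (fun k _ => by positivity)

theorem pair_bdry {G : ℝ → ℂ} (hG : AEStronglyMeasurable G mT) {M : ℝ} (hM : ∀ θ, ‖G θ‖ ≤ M)
    (F : H2) {M' : ℝ} (hM' : ∀ z ∈ ball (0 : ℂ) 1, ‖ev F z‖ ≤ M') {b : ℝ → ℂ}
    (hb : ∀ᵐ θ ∂mT, Tendsto (fun r : ℝ => ev F (circleMap 0 r θ)) (𝓝[<] 1) (𝓝 (b θ))) (n : ℕ) :
    ‖∫ θ : ℝ, b θ * (cexp (n * θ * I) * G θ) ∂mT‖ ≤ ‖F‖ * tau G n := by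
  have hM0 : 0 ≤ M := (norm_nonneg _).trans (hM 0)
  have hM0' : 0 ≤ M' := (norm_nonneg _).trans (hM' 0 (by simp))
  have hlim : Tendsto (fun m : ℕ => ∫ θ : ℝ, ev F (circleMap 0 (rad m) θ) *
      (cexp (n * θ * I) * G θ) ∂mT) atTop
      (𝓝 (∫ θ : ℝ, b θ * (cexp (n * θ * I) * G θ) ∂mT)) := by
    apply tendsto_integral_of_dominated_convergence (fun _ => M' * M)
    · intro m
      apply AEStronglyMeasurable.mul
      · apply Continuous.aestronglyMeasurable
        exact (ev_diff F).continuousOn.comp_continuous (continuous_circleMap 0 _) (circle_mem m)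
      · apply AEStronglyMeasurable.mul _ hG
        apply Continuous.aestronglyMeasurable
        fun_prop
    · exact integrable_const _
    · intro m
      apply Eventually.of_forall
      intro θ
      have := norm_exp_q n θ
      push_cast at this
      rw [norm_mul, norm_mul, this, one_mul]
      gcongr
      · exact hM' _ (circle_mem m θ)
      · exact hM θ
    · filter_upwards [hb] with θ hθ
      exact (hθ.comp rad_tendsto').mul_const _
  apply le_of_tendsto hlim.norm
  apply Eventually.of_forall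
  intro m
  exact pair_le hG hM F (rad_nonneg m) (rad_lt m) n

/-- boundary formula for the coefficients -/
theorem coef_bdry (F : H2) {M' : ℝ} (hM' : ∀ z ∈ ball (0 : ℂ) 1, ‖ev F z‖ ≤ M') {b : ℝ → ℂ}
    (hb : ∀ᵐ θ ∂mT, Tendsto (fun r : ℝ => ev F (circleMap 0 r θ)) (𝓝[<] 1) (𝓝 (b θ))) (k : ℕ) :
    ∫ θ : ℝ, b θ * cexp (-(k * θ * I)) ∂mT = F k := by
  have hlim : Tendsto (fun m : ℕ => ∫ θ : ℝ, ev F (circleMap 0 (rad m) θ) *
      cexp (-(k * θ * I)) ∂mT) atTop (𝓝 (∫ θ : ℝ, b θ * cexp (-(k * θ * I)) ∂mT)) := by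
    apply tendsto_integral_of_dominated_convergence (fun _ => M')
    · intro m
      apply Continuous.aestronglyMeasurable
      apply Continuous.mul
      · exact (ev_diff F).continuousOn.comp_continuous (continuous_circleMap 0 _) (circle_mem m)
      · fun_prop
    · exact integrable_const _
    · intro m
      apply Eventually.of_forall
      intro θ
      have := norm_exp_q (-(k : ℤ)) θ
      push_cast at this
      have h2 : ‖cexp (-(k * θ * I))‖ = 1 := by
        rw [← neg_mul, ← neg_mul]; exact this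
      rw [norm_mul, h2, mul_one]
      exact hM' _ (circle_mem m θ)
    · filter_upwards [hb] with θ hθ
      exact (hθ.comp rad_tendsto').mul_const _
  have h2 : Tendsto (fun m : ℕ => F k * (rad m : ℂ) ^ k) atTop (𝓝 (F k * 1 ^ k)) := by
    apply Tendsto.const_mul
    apply Tendsto.pow
    have := (Complex.continuous_ofReal.tendsto (1 : ℝ)).comp rad_tendsto
    rwa [Complex.ofReal_one] at this
  rw [one_pow, mul_one] at h2
  apply tendsto_nhds_unique hlim
  refine h2.congr fun m => ?_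
  rw [coef_circle F (rad_nonneg m) (rad_lt m)]

/-- Cauchy-Schwarz for bounded functions -/
theorem cs_real {μ : Measure ℝ} [IsFiniteMeasure μ] {f g : ℝ → ℝ} (hf : AEStronglyMeasurable f μ)
    (hg : AEStronglyMeasurable g μ) (hf0 : ∀ x, 0 ≤ f x) (hg0 : ∀ x, 0 ≤ g x) {A B : ℝ}
    (hfA : ∀ᵐ x ∂μ, f x ≤ A) (hgB : ∀ᵐ x ∂μ, g x ≤ B) :
    ∫ x, f x * g x ∂μ ≤ Real.sqrt (∫ x, f x ^ 2 ∂μ) * Real.sqrt (∫ x, g x ^ 2 ∂μ) := by
  have h1 := integral_mul_le_Lp_mul_Lq_of_nonneg (μ := μ) (p := 2) (q := 2)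
    Real.HolderConjugate.two_two (f := f) (g := g) (Eventually.of_forall hf0)
    (Eventually.of_forall hg0)
    (MemLp.of_bound hf A (by filter_upwards [hfA] with x hx; rwa [Real.norm_of_nonneg (hf0 x)]))
    (MemLp.of_bound hg B (by filter_upwards [hgB] with x hx; rwa [Real.norm_of_nonneg (hg0 x)]))
  simp only [Real.rpow_two] at h1
  rw [← Real.sqrt_eq_rpow, ← Real.sqrt_eq_rpow] at h1
  exact h1

end Pool.Agent.Helper203.Hardy
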