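import Mathlib
import Pool.Agent.Helper203.S5

set_option autoImplicit false

open Complex Metric Set Filter MeasureTheory
open scoped Real Topology ComplexConjugate NNReal ENNReal Interval

namespace Pool.Agent.Helper203.Hardy

variable {φ : ℂ → ℂ} {U : ℝ → ℂ}

theorem phi_lt (hφ : DifferentiableOn ℂ φ (ball (0 : ℂ) 1))
    (hm : MapsTo φ (ball (0 : ℂ) 1) (ball (0 : ℂ) 1)) (hφ0 : φ 0 = 0)
    (hrot : ¬ ∃ c : ℂ, ‖c‖ = 1 ∧ ∀ z ∈ ball (0 : ℂ) 1, φ z = c * z) {z : ℂ} (hz : ‖z‖ < 1)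
    (hz0 : z ≠ 0) : ‖φ z‖ < ‖z‖ := by
  have hmc : MapsTo φ (ball (0 : ℂ) 1) (closedBall (φ 0) 1) := by
    rw [hφ0]
    exact fun z hz => ball_subset_closedBall (hm hz)
  have hlt : ‖dslope φ 0 z‖ < 1 := by
    have hz' : z ∈ ball (0 : ℂ) 1 := by simpa using hz
    have h1 := norm_dslope_le_div_of_mapsTo_ball hφ hmc hz'
    rw [div_one] at h1
    rcases h1.lt_or_eq with h2 | h2
    · exact h2
    · exfalso
      apply hrot
      refine ⟨dslope φ 0 z, h2, fun x hx => ?_⟩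
      have := affine_of_mapsTo_ball_of_norm_dslope_eq_div hφ hmc hz' (by rw [h2, div_one]) hx
      simp only [hφ0, sub_zero, zero_add, smul_eq_mul] at this
      rw [this, mul_comm]
  rw [dslope_of_ne _ hz0, slope_def_field, hφ0, sub_zero, sub_zero, norm_div,
    div_lt_one (norm_pos_iff.2 hz0)] at hlt
  exact hlt

theorem w_zero' (hφ : DifferentiableOn ℂ φ (ball 0 1))
    (hm : MapsTo φ (ball (0 : ℂ) 1) (ball 0 1)) : NS.w φ 0 = 0 := by
  have h := NS.w_norm hφ hm (t := 0) (by simp)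
  rw [norm_zero] at h
  exact norm_le_zero_iff.1 h

/-- composition with `w` is a contraction -/
theorem comp_w (hφ : DifferentiableOn ℂ φ (ball 0 1))
    (hm : MapsTo φ (ball (0 : ℂ) 1) (ball 0 1)) (h : H2) :
    ∃ F : H2, (∀ z ∈ ball (0 : ℂ) 1, ev F z = ev h (NS.w φ z)) ∧ ‖F‖ ≤ ‖h‖ := by
  have hw := NS.w_diff hφ hm
  have hws := w_self hφ hm
  obtain ⟨F, hF1, hF2⟩ := exists_ev (h := fun z => ev h (NS.w φ z))
    ((ev_diff h).comp hw hws) (B := ‖h‖ ^ 2) (by positivity) (by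
      intro r h0 h1
      have h2 := littlewood hw hws h h0 h1
      rw [w_zero' hφ hm, norm_zero] at h2
      simpa using h2)
  refine ⟨F, hF1, ?_⟩
  exact (sq_le_sq₀ (norm_nonneg _) (norm_nonneg _)).1 hF2

theorem evc_cont (h : H2) (hs : Summable fun n => ‖h n‖) :
    Continuous fun α => ev h (circleMap 0 1 α) := by
  apply (evW_cont h hs).comp_continuous (continuous_circleMap 0 _)
  intro θ; simp

theorem evc_sq (h : H2) (hs : Summable fun n => ‖h n‖) :
    ∫ α, ‖ev h (circleMap 0 1 α)‖ ^ 2 ∂mT = ‖h‖ ^ 2 := by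
  have h2 := parseval_power h (r := 1) zero_le_one (by simpa using hs)
  rw [norm_sq]
  simp only [one_pow, mul_one] at h2
  exact h2

/-- bound of an integral over a small set -/
theorem small_set {A : Set ℝ} (hA : MeasurableSet A) {V : ℝ → ℂ} (hV : Measurable V)
    (hV1 : ∀ α, ‖V α‖ ≤ 1) (h : H2) (hs : Summable fun n => ‖h n‖) :
    ‖∫ α in A, V α * ev h (circleMap 0 1 α) ∂mT‖ ≤
      Real.sqrt (∫ α in A, ‖V α‖ ^ 2 ∂mT) * ‖h‖ := by
  have hc := evc_cont h hs
  have h1 : ‖∫ α in A, V α * ev h (circleMap 0 1 α) ∂mT‖ ≤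
      ∫ α in A, ‖V α‖ * ‖ev h (circleMap 0 1 α)‖ ∂mT := by
    refine (norm_integral_le_integral_norm _).trans (le_of_eq ?_)
    congr 1
    funext α
    rw [norm_mul]
  refine h1.trans ((cs_real hV.norm.aestronglyMeasurable hc.norm.aestronglyMeasurable
    (fun _ => norm_nonneg _) (fun _ => norm_nonneg _) (Eventually.of_forall hV1)
    (B := ∑' n, ‖h n‖) (Eventually.of_forall fun α => ?_)).trans ?_)
  · exact evW_norm_le h hs (norm_cm1 α).le
  · gcongr
    rw [← Real.sqrt_sq (norm_nonneg h)]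
    apply Real.sqrt_le_sqrt
    rw [← evc_sq h hs]
    apply setIntegral_le_integral
    · exact cont_integrable (hc.norm.pow 2)
    · exact Eventually.of_forall fun _ => by positivity

theorem FE1 (hφ : DifferentiableOn ℂ φ (ball 0 1))
    (hm : MapsTo φ (ball (0 : ℂ) 1) (ball 0 1)) (hφ0 : φ 0 ≠ 0)
    (hU1 : ∀ α, ‖U α‖ ≤ 1) (hU : Measurable U) (hUe : ∀ᵐ α ∂mT, U α = NS.Us φ α)
    (hE : ∀ᵐ α ∂mT, ‖bv φ α‖ = 1 → α ∈ NS.AS φ) {ε : ℝ} (hε : 0 < ε) :
    ∃ n₀ : ℕ, ∀ n ≥ n₀, ∀ h : H2, Summable (fun k => ‖h k‖) →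
      ‖∫ α in NS.AS φ, conj (U α) ^ n * ev h (circleMap 0 1 α) ∂mT‖ ≤ ε * ‖h‖ := by
  have hASm := AS_meas hφ
  have hcU : Measurable fun α => conj (U α) := Complex.continuous_conj.measurable.comp hU
  have hcU1 : ∀ α, ‖conj (U α)‖ ≤ 1 := fun α => by rw [RCLike.norm_conj]; exact hU1 α
  set B : ℝ → ℝ := fun α => bt (conj (U α)) with hB
  have hBm : Measurable B := bt_meas.comp hcU
  set κ : Measure ℝ := Measure.map B (mT.restrict (NS.AS φ)) with hκ
  have hac : κ ≪ mT := B_ac hφ hm hφ0 hU1 hU hUe hE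
  have : IsFiniteMeasure κ := by rw [hκ]; infer_instance
  set G : ℝ → ℝ≥0∞ := κ.rnDeriv mT with hG
  have hGm : Measurable G := Measure.measurable_rnDeriv _ _
  -- truncation
  obtain ⟨M, hM⟩ : ∃ M : ℕ, κ.real {θ | (M : ℝ≥0∞) < G θ} ≤ (ε / 2) ^ 2 := by
    have hlim : Tendsto (fun M : ℕ => κ {θ | (M : ℝ≥0∞) < G θ}) atTop
        (𝓝 (κ (⋂ M : ℕ, {θ | (M : ℝ≥0∞) < G θ}))) := by
      apply tendsto_measure_iInter_atTop
      · intro M
        exact (measurableSet_lt measurable_const hGm).nullMeasurableSet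
      · intro M N hMN θ hθ
        have h1 : (M : ℝ≥0∞) ≤ N := by exact_mod_cast hMN
        exact h1.trans_lt hθ
      · exact ⟨0, measure_ne_top _ _⟩
    have hzero : κ (⋂ M : ℕ, {θ | (M : ℝ≥0∞) < G θ}) = 0 := by
      have h1 : ∀ᵐ θ ∂κ, G θ < ⊤ := hac.ae_le (Measure.rnDeriv_lt_top κ mT)
      rw [measure_eq_zero_iff_ae_notMem]
      filter_upwards [h1] with θ hθ h2
      rw [mem_iInter] at h2
      obtain ⟨n, hn⟩ := ENNReal.exists_nat_gt hθ.ne
      exact lt_irrefl _ (hn.trans (h2 n))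
    rw [hzero] at hlim
    have h2 := (ENNReal.tendsto_toReal ENNReal.zero_ne_top).comp hlim
    rw [ENNReal.toReal_zero] at h2
    have h3 := h2.eventually (gt_mem_nhds (show (0 : ℝ) < (ε / 2) ^ 2 by positivity))
    obtain ⟨M, hM⟩ := h3.exists
    exact ⟨M, le_of_lt hM⟩
  set K : Set ℝ := {θ | (M : ℝ≥0∞) < G θ} with hK
  have hKm : MeasurableSet K := measurableSet_lt measurable_const hGm
  set G₁ : ℝ → ℂ := fun θ => Kᶜ.indicator (fun θ => ((G θ).toReal : ℂ)) θ with hG₁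
  have hG₁m : Measurable G₁ :=
    (Complex.measurable_ofReal.comp hGm.ennreal_toReal).indicator hKm.compl
  have hG₁b : ∀ θ, ‖G₁ θ‖ ≤ M := by
    intro θ
    by_cases hθ : θ ∈ K
    · simp only [hG₁]
      rw [indicator_of_notMem (show θ ∉ Kᶜ from fun h => h hθ), norm_zero]
      positivity
    · simp only [hG₁]
      rw [indicator_of_mem (show θ ∈ Kᶜ from hθ), Complex.norm_real,
        Real.norm_of_nonneg ENNReal.toReal_nonneg]
      have h1 : G θ ≤ M := not_lt.1 hθ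
      have h2 := ENNReal.toReal_mono (ENNReal.natCast_ne_top M) h1
      simpa using h2
  have hτ := (tau_tendsto G₁).eventually (gt_mem_nhds (show (0 : ℝ) < ε / 2 by positivity))
  obtain ⟨n₀, hn₀⟩ := eventually_atTop.1 hτ
  refine ⟨n₀, fun n hn h hs => ?_⟩
  have hτn : tau G₁ n ≤ ε / 2 := (hn₀ n hn).le
  obtain ⟨F, hF1, hF2⟩ := comp_w hφ hm h
  have hw := NS.w_diff hφ hm
  have hws := w_self hφ hm
  set Sh : ℝ := ∑' n, ‖h n‖ with hSh
  have hSh0 : 0 ≤ Sh := tsum_nonneg fun _ => norm_nonneg _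
  -- boundary function of `F`
  set b : ℝ → ℂ := fun θ => evm h (bv (NS.w φ) θ) with hb
  have hbl : ∀ᵐ θ ∂mT, Tendsto (fun r : ℝ => ev F (circleMap 0 r θ)) (𝓝[<] 1) (𝓝 (b θ)) := by
    filter_upwards [bv_tendsto hw hws, bv_le hw hws] with θ h1 h2
    have h3 : Tendsto (fun r : ℝ => ev h (NS.w φ (circleMap 0 r θ))) (𝓝[<] 1)
        (𝓝 (ev h (bv (NS.w φ) θ))) := by
      have h4 := (evW_cont h hs) (bv (NS.w φ) θ) (by simpa using h2)
      apply h4.tendsto.comp
      apply tendsto_nhdsWithin_iff.2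
      refine ⟨h1, ?_⟩
      filter_upwards [Ioo_mem_nhdsLT one_pos] with r hr
      rw [mem_closedBall_zero_iff]
      exact (NS.w_lt hφ hm (by rw [NS.cm_norm hr.1.le]; exact hr.2)).le
    simp only [hb]
    rw [evm_eq h h2]
    refine h3.congr' ?_
    filter_upwards [Ioo_mem_nhdsLT one_pos] with r hr
    rw [hF1]
    rw [mem_ball_zero_iff, NS.cm_norm hr.1.le]; exact hr.2
  have hFb : ∀ z ∈ ball (0 : ℂ) 1, ‖ev F z‖ ≤ Sh := by
    intro z hz
    rw [hF1 z hz]
    exact evW_norm_le h hs (mem_ball_zero_iff.1 (hws hz)).le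
  have hmain := pair_bdry hG₁m.aestronglyMeasurable hG₁b F hFb hbl n
  -- splitting
  have hwb := w_bdry hφ hm hφ0 hU1 hU hUe hE
  set f : ℝ → ℂ := fun α => conj (U α) ^ n * ev h (circleMap 0 1 α) with hf
  have hfm : Measurable f := (hcU.pow_const n).mul (evc_cont h hs).measurable
  have hfb : ∀ α, ‖f α‖ ≤ Sh := by
    intro α
    simp only [hf]
    rw [norm_mul, norm_pow]
    calc ‖conj (U α)‖ ^ n * ‖ev h (circleMap 0 1 α)‖ ≤ 1 * Sh := by
          gcongr
          · exact pow_le_one₀ (norm_nonneg _) (hcU1 α)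
          · exact evW_norm_le h hs (norm_cm1 α).le
      _ = Sh := one_mul _
  have hfi : Integrable f (mT.restrict (NS.AS φ)) :=
    Integrable.of_bound hfm.aestronglyMeasurable Sh (Eventually.of_forall hfb)
  have hBK : MeasurableSet (B ⁻¹' K) := hBm hKm
  have hsplit := integral_add_compl hBK hfi
  rw [← hsplit]
  -- the small part
  have h1 : ‖∫ α in B ⁻¹' K, f α ∂(mT.restrict (NS.AS φ))‖ ≤ ε / 2 * ‖h‖ := by
    rw [Measure.restrict_restrict hBK]
    have h2 := small_set (hBK.inter hASm) (hcU.pow_const n)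
      (fun α => by rw [norm_pow]; exact pow_le_one₀ (norm_nonneg _) (hcU1 α)) h hs
    refine h2.trans ?_
    gcongr
    rw [← Real.sqrt_sq (show 0 ≤ ε / 2 by positivity)]
    apply Real.sqrt_le_sqrt
    refine le_trans ?_ hM
    have h3 : κ.real K = ∫ α in B ⁻¹' K ∩ NS.AS φ, (1 : ℝ) ∂mT := by
      rw [setIntegral_const, smul_eq_mul, mul_one, measureReal_def, measureReal_def, hκ,
        Measure.map_apply hBm hKm, Measure.restrict_apply hBK]
    rw [h3]
    apply integral_mono_of_nonneg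
    · exact Eventually.of_forall fun _ => by positivity
    · exact integrable_const _
    · apply Eventually.of_forall
      intro α
      dsimp only
      rw [norm_pow, ← pow_mul]
      exact pow_le_one₀ (norm_nonneg _) (hcU1 α)
  -- the main part
  have h2 : ‖∫ α in (B ⁻¹' K)ᶜ, f α ∂(mT.restrict (NS.AS φ))‖ ≤ ε / 2 * ‖h‖ := by
    set f₂ : ℝ → ℂ := fun θ => Kᶜ.indicator (fun θ => circleMap 0 1 θ ^ n * b θ) θ with hf₂
    have hbm : AEMeasurable b mT := (evm_meas h hs).comp_aemeasurable (bv_aemeas hw hws)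
    have hf₂m : AEMeasurable f₂ κ := by
      apply AEMeasurable.mono_ac _ hac
      apply AEMeasurable.indicator _ hKm.compl
      exact ((continuous_circleMap 0 1).measurable.pow_const n).aemeasurable.mul hbm
    have h3 : ∫ α in (B ⁻¹' K)ᶜ, f α ∂(mT.restrict (NS.AS φ)) = ∫ θ, f₂ θ ∂κ := by
      rw [hκ, integral_map hBm.aemeasurable (by rw [← hκ]; exact hf₂m.aestronglyMeasurable),
        ← integral_indicator hBK.compl]
      apply integral_congr_ae
      rw [EventuallyEq, ae_restrict_iff' hASm]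
      filter_upwards [hwb] with α hα hαA
      obtain ⟨h4, h5⟩ := hα hαA
      by_cases hK' : B α ∈ K
      · rw [indicator_of_notMem (show α ∉ (B ⁻¹' K)ᶜ from fun h => h hK')]
        simp only [hf₂]
        rw [indicator_of_notMem (show B α ∉ Kᶜ from fun h => h hK')]
      · rw [indicator_of_mem (show α ∈ (B ⁻¹' K)ᶜ from hK')]
        simp only [hf₂]
        rw [indicator_of_mem (show B α ∈ Kᶜ from hK')]
        simp only [hf, hb]
        rw [h4, h5, evm_eq h (norm_cm1 α).le]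
    have h4 : ∫ θ, f₂ θ ∂κ = ∫ θ, b θ * (cexp (n * θ * I) * G₁ θ) ∂mT := by
      rw [← integral_rnDeriv_smul hac]
      apply integral_congr_ae
      apply Eventually.of_forall
      intro θ
      simp only [hf₂, hG₁]
      by_cases hθ : θ ∈ K
      · rw [indicator_of_notMem (show θ ∉ Kᶜ from fun h => h hθ),
          indicator_of_notMem (show θ ∉ Kᶜ from fun h => h hθ)]
        simp
      · rw [indicator_of_mem (show θ ∈ Kᶜ from hθ), indicator_of_mem (show θ ∈ Kᶜ from hθ),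
          Complex.real_smul, circleMap_pow]
        simp only [Complex.ofReal_one, one_pow, one_mul]
        ring
    rw [h3, h4]
    refine hmain.trans ?_
    calc ‖F‖ * tau G₁ n ≤ ‖h‖ * (ε / 2) := by
          have : 0 ≤ tau G₁ n := Real.sqrt_nonneg _
          gcongr
      _ = ε / 2 * ‖h‖ := by ring
  calc _ ≤ ‖∫ α in B ⁻¹' K, f α ∂(mT.restrict (NS.AS φ))‖ +
        ‖∫ α in (B ⁻¹' K)ᶜ, f α ∂(mT.restrict (NS.AS φ))‖ := norm_add_le _ _
    _ ≤ ε / 2 * ‖h‖ + ε / 2 * ‖h‖ := add_le_add h1 h2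
    _ = ε * ‖h‖ := by ring

theorem FE2 (hφ : DifferentiableOn ℂ φ (ball 0 1))
    (hm : MapsTo φ (ball (0 : ℂ) 1) (ball 0 1))
    (hrot : ¬ ∃ c : ℂ, ‖c‖ = 1 ∧ ∀ z ∈ ball (0 : ℂ) 1, φ z = c * z)
    (hU1 : ∀ α, ‖U α‖ ≤ 1) (hU : Measurable U) (hUe : ∀ᵐ α ∂mT, U α = NS.Us φ α)
    (hE : ∀ᵐ α ∂mT, ‖bv φ α‖ = 1 → α ∈ NS.AS φ) {ε : ℝ} (hε : 0 < ε) :
    ∃ n₀ : ℕ, ∀ n ≥ n₀, ∀ h : H2, Summable (fun k => ‖h k‖) →
      ‖∫ α, conj (U α) ^ n * ev h (circleMap 0 1 α) ∂mT‖ ≤ ε * ‖h‖ := by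
  have hASm := AS_meas hφ
  have hcU : Measurable fun α => conj (U α) := Complex.continuous_conj.measurable.comp hU
  have hcU1 : ∀ α, ‖conj (U α)‖ ≤ 1 := fun α => by rw [RCLike.norm_conj]; exact hU1 α
  have h1 : ∃ n₀ : ℕ, ∀ n ≥ n₀, ∀ h : H2, Summable (fun k => ‖h k‖) →
      ‖∫ α in NS.AS φ, conj (U α) ^ n * ev h (circleMap 0 1 α) ∂mT‖ ≤ (ε / 2) * ‖h‖ := by
    by_cases hφ0 : φ 0 = 0
    · have hAS : NS.AS φ = ∅ := by
        rw [Set.eq_empty_iff_forall_notMem]
        intro α hα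
        have h2 := hα (1 / 2) (by norm_num) (by norm_num)
        have hn : ‖circleMap 0 (1 / 2) α‖ = 1 / 2 := NS.cm_norm (by norm_num) α
        have h3 := phi_lt hφ hm hφ0 hrot (z := circleMap 0 (1 / 2) α)
          (by rw [hn]; norm_num) (by intro h; rw [h, norm_zero] at hn; norm_num at hn)
        rw [hn] at h3
        linarith
      refine ⟨0, fun n _ h _ => ?_⟩
      rw [hAS, Measure.restrict_empty, integral_zero_measure, norm_zero]
      positivity
    · exact FE1 hφ hm hφ0 hU1 hU hUe hE (by positivity)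
  obtain ⟨n₁, hn₁⟩ := h1
  have hlim : Tendsto (fun n : ℕ => Real.sqrt (∫ α in (NS.AS φ)ᶜ, ‖conj (U α) ^ n‖ ^ 2 ∂mT)) atTop
      (𝓝 0) := by
    have h2 : Tendsto (fun n : ℕ => ∫ α in (NS.AS φ)ᶜ, ‖conj (U α) ^ n‖ ^ 2 ∂mT) atTop
        (𝓝 (∫ α in (NS.AS φ)ᶜ, (0 : ℝ) ∂mT)) := by
      apply tendsto_integral_of_dominated_convergence (fun _ => 1)
      · intro n
        exact ((hcU.pow_const n).norm.pow_const 2).aestronglyMeasurable
      · exact integrable_const _
      · intro n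
        apply Eventually.of_forall
        intro α
        rw [norm_pow, norm_norm, norm_pow, ← pow_mul]
        exact pow_le_one₀ (norm_nonneg _) (hcU1 α)
      · rw [ae_restrict_iff' hASm.compl]
        filter_upwards [lt_one_of_notMem hU1 hUe hE] with α hα h
        have h3 := (tendsto_pow_atTop_nhds_zero_of_lt_one (norm_nonneg _) (hα h)).pow 2
        simp only [norm_pow]
        simpa using h3
    have h3 := (Real.continuous_sqrt.tendsto _).comp h2
    rw [integral_zero, Real.sqrt_zero] at h3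
    exact h3
  obtain ⟨n₂, hn₂⟩ := eventually_atTop.1
    (hlim.eventually (gt_mem_nhds (show (0 : ℝ) < ε / 2 by positivity)))
  refine ⟨max n₁ n₂, fun n hn h hs => ?_⟩
  have h2 := hn₁ n ((le_max_left _ _).trans hn) h hs
  have h3 := hn₂ n ((le_max_right _ _).trans hn)
  have h4 := small_set hASm.compl (hcU.pow_const n)
      (fun α => by rw [norm_pow]; exact pow_le_one₀ (norm_nonneg _) (hcU1 α)) h hs
  have hfi : Integrable (fun α => conj (U α) ^ n * ev h (circleMap 0 1 α)) mT := by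
    apply Integrable.of_bound (C := 1 * ∑' k, ‖h k‖)
    · exact ((hcU.pow_const n).mul (evc_cont h hs).measurable).aestronglyMeasurable
    · apply Eventually.of_forall
      intro α
      rw [norm_mul, norm_pow]
      gcongr
      · exact pow_le_one₀ (norm_nonneg _) (hcU1 α)
      · exact evW_norm_le h hs (norm_cm1 α).le
  rw [← integral_add_compl hASm hfi]
  calc _ ≤ ‖∫ α in NS.AS φ, conj (U α) ^ n * ev h (circleMap 0 1 α) ∂mT‖ +
        ‖∫ α in (NS.AS φ)ᶜ, conj (U α) ^ n * ev h (circleMap 0 1 α) ∂mT‖ := norm_add_le _ _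
    _ ≤ ε / 2 * ‖h‖ + ε / 2 * ‖h‖ := by
        apply add_le_add h2
        refine h4.trans ?_
        gcongr
    _ = ε * ‖h‖ := by ring

end Pool.Agent.Helper203.Hardy
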