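import Mathlib
import Pool.Agent.Helper203.S6

set_option autoImplicit false

open Complex Metric Set Filter MeasureTheory ContinuousLinearMap
open scoped Real Topology ComplexConjugate NNReal ENNReal Interval

namespace Pool.Agent.Helper203.Hardy

variable {φ : ℂ → ℂ} {U : ℝ → ℂ}

/-- monomials -/
noncomputable def mono (m : ℕ) : H2 := lp.single 2 m (1 : ℂ)

theorem mono_apply (m k : ℕ) : mono m k = if k = m then 1 else 0 := by
  unfold mono
  split_ifs with h
  · subst h; rw [lp.single_apply_self]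
  · rw [lp.single_apply_ne _ _ _ h]

theorem ev_mono (m : ℕ) (z : ℂ) : ev (mono m) z = z ^ m := by
  rw [ev, tsum_eq_single m]
  · rw [mono_apply, if_pos rfl, one_mul]
  · intro k hk
    rw [mono_apply, if_neg hk, zero_mul]

theorem Mz_pow_mono (n j : ℕ) : (Mz ^ n) (mono j) = mono (n + j) := by
  apply ev_injective
  intro z hz
  rw [ev_Mz_pow _ _ (mem_ball_zero_iff.1 hz), ev_mono, ev_mono, pow_add]

theorem compress_mono (C : H2 →L[ℂ] H2) (n j k : ℕ) :
    compress C n (mono j) k = C (mono (n + j)) (n + k) := by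
  unfold compress
  rw [comp_apply, comp_apply, Mz_pow_mono, adj_Mz_pow]

theorem ev_C_mono {C : H2 →L[ℂ] H2} (hC : ∀ f : H2, ∀ z ∈ ball (0 : ℂ) 1, ev (C f) z = ev f (φ z))
    (m : ℕ) {z : ℂ} (hz : z ∈ ball (0 : ℂ) 1) : ev (C (mono m)) z = φ z ^ m := by
  rw [hC _ z hz, ev_mono]

theorem coef_cf (hφ : DifferentiableOn ℂ φ (ball 0 1)) {C : H2 →L[ℂ] H2}
    (hC : ∀ f : H2, ∀ z ∈ ball (0 : ℂ) 1, ev (C f) z = ev f (φ z)) (j k n : ℕ) :
    C (mono (n + j)) (n + k) = NS.cf φ j k n := by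
  have h1 := coef_circle (C (mono (n + j))) (r := 1 / 2) (by norm_num) (by norm_num) (n + k)
  have h2 := NS.cf_eq hφ j k n (R := 1 / 2) (by norm_num) (by norm_num)
  rw [integral_mT] at h1
  have h3 : ∀ θ : ℝ, ev (C (mono (n + j))) (circleMap 0 (1 / 2) θ) *
      cexp (-(((n + k : ℕ) : ℂ) * θ * I)) =
      (φ (circleMap 0 (1 / 2) θ) ^ (n + j) / (circleMap 0 (1 / 2) θ) ^ (n + k)) *
        ((1 / 2 : ℝ) : ℂ) ^ (n + k) := by
    intro θ
    have hb : circleMap 0 (1 / 2) θ ∈ ball (0 : ℂ) 1 := by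
      rw [mem_ball_zero_iff, NS.cm_norm (by norm_num)]; norm_num
    rw [ev_C_mono hC _ hb, circleMap_pow _ _ (n + k)]
    have h4 : cexp (((n + k : ℕ) : ℂ) * θ * I) ≠ 0 := Complex.exp_ne_zero _
    have h5 : ((1 / 2 : ℝ) : ℂ) ^ (n + k) ≠ 0 := by
      apply pow_ne_zero; push_cast; norm_num
    rw [Complex.exp_neg]
    field_simp
  simp only [h3] at h1
  rw [intervalIntegral.integral_mul_const, h2, Complex.real_smul] at h1
  have h5 : ((1 / 2 : ℝ) : ℂ) ^ (n + k) ≠ 0 := by
    apply pow_ne_zero; push_cast; norm_num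
  apply mul_right_cancel₀ h5
  rw [← h1]
  push_cast
  have : (π : ℂ) ≠ 0 := by exact_mod_cast Real.pi_ne_zero
  field_simp

theorem C_mono_bdry (hφ : DifferentiableOn ℂ φ (ball 0 1))
    (hm : MapsTo φ (ball (0 : ℂ) 1) (ball 0 1)) {C : H2 →L[ℂ] H2}
    (hC : ∀ f : H2, ∀ z ∈ ball (0 : ℂ) 1, ev (C f) z = ev f (φ z)) (m : ℕ) :
    (∀ z ∈ ball (0 : ℂ) 1, ‖ev (C (mono m)) z‖ ≤ 1) ∧
    ∀ᵐ θ ∂mT, Tendsto (fun r : ℝ => ev (C (mono m)) (circleMap 0 r θ)) (𝓝[<] 1)
      (𝓝 (bv φ θ ^ m)) := by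
  constructor
  · intro z hz
    rw [ev_C_mono hC m hz, norm_pow]
    exact pow_le_one₀ (norm_nonneg _) (mem_ball_zero_iff.1 (hm hz)).le
  · filter_upwards [bv_tendsto hφ hm] with θ hθ
    refine (hθ.pow m).congr' ?_
    filter_upwards [Ioo_mem_nhdsLT one_pos] with r hr
    rw [ev_C_mono hC]
    rw [mem_ball_zero_iff, NS.cm_norm hr.1.le]; exact hr.2

/-- finitely supported elements -/
theorem trunc_exists (c : ℕ → ℂ) (K : ℕ) : ∃ h : H2, (∀ k, h k = if k < K then c k else 0) ∧
    (Summable fun k => ‖h k‖) ∧ ‖h‖ ^ 2 = ∑ k ∈ Finset.range K, ‖c k‖ ^ 2 ∧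
    ∀ z, ev h z = ∑ k ∈ Finset.range K, c k * z ^ k := by
  have hz : ∀ k, k ∉ Finset.range K → (if k < K then c k else 0) = 0 := by
    intro k hk
    rw [Finset.mem_range] at hk
    rw [if_neg hk]
  have hmem : Memℓp (fun k => if k < K then c k else 0) 2 := by
    apply memℓp_gen
    have : Summable fun k => ‖(if k < K then c k else 0)‖ ^ 2 := by
      apply summable_of_ne_finset_zero (s := Finset.range K)
      intro k hk
      rw [hz k hk, norm_zero]; norm_num
    simpa using this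
  refine ⟨⟨_, hmem⟩, fun k => rfl, ?_, ?_, ?_⟩
  · apply summable_of_ne_finset_zero (s := Finset.range K)
    intro k hk
    show ‖(if k < K then c k else 0)‖ = 0
    rw [hz k hk, norm_zero]
  · rw [norm_sq, tsum_eq_sum (s := Finset.range K)]
    · apply Finset.sum_congr rfl
      intro k hk
      rw [Finset.mem_range] at hk
      show ‖(if k < K then c k else 0)‖ ^ 2 = _
      rw [if_pos hk]
    · intro k hk
      show ‖(if k < K then c k else 0)‖ ^ 2 = 0
      rw [hz k hk, norm_zero]; norm_num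
  · intro z
    rw [ev, tsum_eq_sum (s := Finset.range K)]
    · apply Finset.sum_congr rfl
      intro k hk
      rw [Finset.mem_range] at hk
      show (if k < K then c k else 0) * z ^ k = _
      rw [if_pos hk]
    · intro k hk
      show (if k < K then c k else 0) * z ^ k = 0
      rw [hz k hk, zero_mul]

theorem FE3 (hφ : DifferentiableOn ℂ φ (ball 0 1))
    (hm : MapsTo φ (ball (0 : ℂ) 1) (ball 0 1))
    (hrot : ¬ ∃ c : ℂ, ‖c‖ = 1 ∧ ∀ z ∈ ball (0 : ℂ) 1, φ z = c * z)
    (hE : ∀ᵐ α ∂mT, ‖bv φ α‖ = 1 → α ∈ NS.AS φ) {C : H2 →L[ℂ] H2}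
    (hC : ∀ f : H2, ∀ z ∈ ball (0 : ℂ) 1, ev (C f) z = ev f (φ z)) :
    Tendsto (fun n => compress C n (mono 0)) atTop (𝓝 0) := by
  obtain ⟨U, hU, hU1, hUe⟩ := exists_U hφ hm
  rw [Metric.tendsto_atTop]
  intro ε hε
  obtain ⟨n₀, hn₀⟩ := FE2 hφ hm hrot hU1 hU hUe hE (half_pos hε)
  refine ⟨n₀, fun n hn => ?_⟩
  rw [dist_zero_right]
  set v : H2 := C (mono n) with hv
  obtain ⟨hvb, hvl⟩ := C_mono_bdry hφ hm hC n
  have hcf : ∀ k, compress C n (mono 0) k = v (n + k) := by
    intro k; rw [compress_mono, add_zero]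
  have hpart : ∀ K : ℕ, ∑ k ∈ Finset.range K, ‖v (n + k)‖ ^ 2 ≤ (ε / 2) ^ 2 := by
    intro K
    obtain ⟨h, hh1, hh2, hh3, hh4⟩ := trunc_exists (fun k => v (n + k)) K
    set T : ℝ := ∑ k ∈ Finset.range K, ‖v (n + k)‖ ^ 2 with hT
    have hT0 : 0 ≤ T := Finset.sum_nonneg fun _ _ => by positivity
    have key := hn₀ n hn h hh2
    have hint : ∫ α, conj (U α) ^ n * ev h (circleMap 0 1 α) ∂mT = (T : ℂ) := by
      have h1 : ∫ α, conj (U α) ^ n * ev h (circleMap 0 1 α) ∂mT =
          ∫ α, ∑ k ∈ Finset.range K,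
            v (n + k) * conj (bv φ α ^ n * cexp (-(((n + k : ℕ) : ℂ) * α * I))) ∂mT := by
        apply integral_congr_ae
        filter_upwards [hUe] with α hα
        rw [hh4, Finset.mul_sum]
        apply Finset.sum_congr rfl
        intro k _
        rw [hα, NS.Us, circleMap_pow]
        simp only [Complex.ofReal_one, one_pow, one_mul]
        have e1 : conj (bv φ α ^ n * cexp (-(((n + k : ℕ) : ℂ) * α * I))) =
            conj (bv φ α) ^ n * (cexp (n * α * I) * cexp (k * α * I)) := by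
          rw [map_mul, map_pow, ← Complex.exp_conj, ← Complex.exp_add]
          congr 2
          simp only [map_neg, map_mul, Complex.conj_ofReal, Complex.conj_I, Complex.conj_natCast]
          push_cast
          ring
        have e2 : conj (NS.Bd φ α * cexp (-(α * I))) ^ n =
            conj (bv φ α) ^ n * cexp (n * α * I) := by
          rw [map_mul, mul_pow, ← Complex.exp_conj, ← Complex.exp_nat_mul]
          congr 2
          simp only [map_neg, map_mul, Complex.conj_ofReal, Complex.conj_I]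
          ring
        rw [e1, e2]
        ring
      rw [h1, integral_finsetSum]
      · have h2 : ∀ k, ∫ α, v (n + k) * conj (bv φ α ^ n * cexp (-(((n + k : ℕ) : ℂ) * α * I)))
            ∂mT = ((‖v (n + k)‖ ^ 2 : ℝ) : ℂ) := by
          intro k
          rw [integral_const_mul, integral_conj, coef_bdry v hvb hvl (n + k), Complex.mul_conj,
            Complex.normSq_eq_norm_sq]
        simp only [h2]
        rw [hT]
        push_cast
        rfl
      · intro k _
        apply Integrable.const_mul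
        apply integrable_bdd (M := 1)
        · apply AEMeasurable.aestronglyMeasurable
          apply Complex.continuous_conj.measurable.comp_aemeasurable
          apply AEMeasurable.mul ((bv_aemeas hφ hm).pow_const n)
          apply Continuous.aemeasurable
          fun_prop
        · filter_upwards [bv_le hφ hm] with α hα
          have := norm_exp_q (-((n + k : ℕ) : ℤ)) α
          have h2 : ‖cexp (-(((n + k : ℕ) : ℂ) * α * I))‖ = 1 := by
            rw [← neg_mul, ← neg_mul]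
            push_cast at this ⊢
            exact this
          rw [RCLike.norm_conj, norm_mul, h2, mul_one, norm_pow]
          exact pow_le_one₀ (norm_nonneg _) hα
    rw [hint, Complex.norm_real, Real.norm_of_nonneg hT0] at key
    have hhn : ‖h‖ = Real.sqrt T := by
      rw [← hh3, Real.sqrt_sq (norm_nonneg _)]
    rw [hhn] at key
    have hsq := Real.mul_self_sqrt hT0
    have hs0 := Real.sqrt_nonneg T
    have h5 : Real.sqrt T ≤ ε / 2 := by
      by_contra hcon
      push Not at hcon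
      nlinarith
    nlinarith
  have hle : ‖compress C n (mono 0)‖ ^ 2 ≤ (ε / 2) ^ 2 := by
    rw [norm_sq]
    apply Real.tsum_le_of_sum_range_le
    · intro k; positivity
    · intro K
      simp only [hcf]
      exact hpart K
  have h6 : ‖compress C n (mono 0)‖ ≤ ε / 2 :=
    (sq_le_sq₀ (norm_nonneg _) (by positivity)).1 hle
  linarith

theorem FE4 (hφ : DifferentiableOn ℂ φ (ball 0 1))
    (hm : MapsTo φ (ball (0 : ℂ) 1) (ball 0 1))
    (hrot : ¬ ∃ c : ℂ, ‖c‖ = 1 ∧ ∀ z ∈ ball (0 : ℂ) 1, φ z = c * z)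
    (hE : ∀ᵐ α ∂mT, ‖bv φ α‖ = 1 → α ∈ NS.AS φ) {C : H2 →L[ℂ] H2}
    (hC : ∀ f : H2, ∀ z ∈ ball (0 : ℂ) 1, ev (C f) z = ev f (φ z)) (j : ℕ) :
    Tendsto (fun n => compress C n (mono j)) atTop (𝓝 0) := by
  have h0 := FE3 hφ hm hrot hE hC
  have hcf0 : ∀ k : ℕ, Tendsto (fun n => NS.cf φ j k n) atTop (𝓝 0) := by
    intro k
    by_cases hφ0 : φ 0 = 0
    · exact NS.main_zero hφ hm hφ0 hrot j k
    · exact NS.main_ne hφ hm hφ0 j k
  have hn : ∀ n, ‖compress C n (mono j)‖ ^ 2 = (∑ k ∈ Finset.range j, ‖NS.cf φ j k n‖ ^ 2) +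
      ‖compress C (n + j) (mono 0)‖ ^ 2 := by
    intro n
    rw [norm_sq, norm_sq, ← (sq_summable (compress C n (mono j))).sum_add_tsum_nat_add j]
    congr 1
    · apply Finset.sum_congr rfl
      intro k _
      rw [compress_mono, coef_cf hφ hC]
    · congr 1
      funext k
      rw [compress_mono, compress_mono, add_zero]
      have e : n + (k + j) = n + j + k := by ring
      rw [e]
  have h1 : Tendsto (fun n => ‖compress C n (mono j)‖ ^ 2) atTop (𝓝 0) := by
    simp only [hn]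
    have h2 : Tendsto (fun n => ∑ k ∈ Finset.range j, ‖NS.cf φ j k n‖ ^ 2) atTop
        (𝓝 (∑ k ∈ Finset.range j, 0)) := by
      apply tendsto_finsetSum
      intro k _
      have := ((hcf0 k).norm).pow 2
      simpa using this
    have h3 : Tendsto (fun n => ‖compress C (n + j) (mono 0)‖ ^ 2) atTop (𝓝 0) := by
      have h4 := (h0.comp (tendsto_add_atTop_nat j)).norm.pow 2
      simpa using h4
    have h5 := h2.add h3
    simpa using h5
  rw [tendsto_zero_iff_norm_tendsto_zero]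
  have h2 := (Real.continuous_sqrt.tendsto 0).comp h1
  rw [Real.sqrt_zero] at h2
  refine h2.congr fun n => ?_
  simp only [Function.comp]
  rw [Real.sqrt_sq (norm_nonneg _)]

theorem compress_le (C : H2 →L[ℂ] H2) (n : ℕ) (f : H2) : ‖compress C n f‖ ≤ ‖C‖ * ‖f‖ := by
  unfold compress
  rw [comp_apply, comp_apply]
  have h1 : ‖adjoint (Mz ^ n) (C ((Mz ^ n) f))‖ ≤ ‖C ((Mz ^ n) f)‖ := by
    refine (le_opNorm _ _).trans ?_
    rw [LinearIsometryEquiv.norm_map]
    have : ‖Mz ^ n‖ ≤ 1 := by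
      apply opNorm_le_bound _ zero_le_one
      intro g
      rw [Mz_pow_norm, one_mul]
    calc ‖Mz ^ n‖ * ‖C ((Mz ^ n) f)‖ ≤ 1 * ‖C ((Mz ^ n) f)‖ := by gcongr
      _ = _ := one_mul _
  refine h1.trans ((le_opNorm _ _).trans ?_)
  rw [Mz_pow_norm]

theorem FE5 (hφ : DifferentiableOn ℂ φ (ball 0 1))
    (hm : MapsTo φ (ball (0 : ℂ) 1) (ball 0 1))
    (hrot : ¬ ∃ c : ℂ, ‖c‖ = 1 ∧ ∀ z ∈ ball (0 : ℂ) 1, φ z = c * z)
    (hE : ∀ᵐ α ∂mT, ‖bv φ α‖ = 1 → α ∈ NS.AS φ) {C : H2 →L[ℂ] H2}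
    (hC : ∀ f : H2, ∀ z ∈ ball (0 : ℂ) 1, ev (C f) z = ev f (φ z)) (f : H2) :
    Tendsto (fun n => compress C n f) atTop (𝓝 0) := by
  have hsum := (lp.hasSum_single (p := 2) (by norm_num) f).tendsto_sum_nat
  rw [Metric.tendsto_atTop]
  intro ε hε
  have h1 := Metric.tendsto_atTop.1 hsum (ε / (2 * (‖C‖ + 1))) (by positivity)
  obtain ⟨N, hN⟩ := h1
  have h2 := hN N le_rfl
  rw [dist_eq_norm] at h2
  set g : H2 := ∑ i ∈ Finset.range N, lp.single 2 i (f i) with hg
  have hg2 : g = ∑ i ∈ Finset.range N, f i • mono i := by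
    rw [hg]
    apply Finset.sum_congr rfl
    intro i _
    unfold mono
    rw [← lp.single_smul]
    simp
  have hgl : Tendsto (fun n => compress C n g) atTop (𝓝 0) := by
    have h3 : Tendsto (fun n => ∑ i ∈ Finset.range N, f i • compress C n (mono i)) atTop
        (𝓝 (∑ i ∈ Finset.range N, f i • (0 : H2))) := by
      apply tendsto_finsetSum
      intro i _
      exact (FE4 hφ hm hrot hE hC i).const_smul _
    simp only [smul_zero, Finset.sum_const_zero] at h3
    refine h3.congr fun n => ?_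
    rw [hg2, map_sum]
    apply Finset.sum_congr rfl
    intro i _
    rw [map_smul]
  obtain ⟨n₀, hn₀⟩ := Metric.tendsto_atTop.1 hgl (ε / 2) (half_pos hε)
  refine ⟨n₀, fun n hn => ?_⟩
  have h4 := hn₀ n hn
  rw [dist_zero_right] at h4 ⊢
  have h5 : compress C n f = compress C n g - compress C n (g - f) := by
    rw [map_sub]; abel
  rw [h5]
  have h6 := compress_le C n (g - f)
  have h7 : ‖C‖ * ‖g - f‖ ≤ ε / 2 := by
    calc ‖C‖ * ‖g - f‖ ≤ (‖C‖ + 1) * (ε / (2 * (‖C‖ + 1))) := by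
          gcongr
          linarith
      _ = ε / 2 := by field_simp
  calc _ ≤ ‖compress C n g‖ + ‖compress C n (g - f)‖ := norm_sub_le _ _
    _ < ε / 2 + ε / 2 := by linarith
    _ = ε := by ring

end Pool.Agent.Helper203.Hardy
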