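import Mathlib
import Pool.Agent.Helper203.S7

set_option autoImplicit false

open Complex Metric Set Filter MeasureTheory ContinuousLinearMap
open scoped Real Topology ComplexConjugate NNReal ENNReal Interval

namespace Pool.Agent.Helper203.Hardy

variable {φ : ℂ → ℂ} {U : ℝ → ℂ}

theorem rectG {G : ℂ → ℂ} (hG : ∀ z : ℂ, z ≠ 0 → ‖z‖ < 1 → DifferentiableAt ℂ G z) {R₀ R a b : ℝ}
    (hR0 : 0 < R₀) (hRR : R₀ ≤ R) (hR1 : R < 1) :
    ∫ y in a..b, G (circleMap 0 R y) =
      (∫ y in a..b, G (circleMap 0 R₀ y)) +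
      I * ((∫ x in Real.log R₀..Real.log R, G (cexp (x + a * I))) -
        ∫ x in Real.log R₀..Real.log R, G (cexp (x + b * I))) := by
  have hRp : 0 < R := hR0.trans_le hRR
  have hd : DifferentiableOn ℂ (fun ζ => G (cexp ζ))
      ([[((Real.log R₀ : ℂ) + a * I).re, ((Real.log R : ℂ) + b * I).re]] ×ℂ
        [[((Real.log R₀ : ℂ) + a * I).im, ((Real.log R : ℂ) + b * I).im]]) := by
    intro ζ hζ
    have hre : ζ.re ≤ Real.log R := by
      have h1 := hζ.1
      simp only [mem_preimage, Complex.add_re, Complex.ofReal_re, Complex.mul_re, Complex.I_re,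
        mul_zero, Complex.ofReal_im, Complex.I_im, mul_one, sub_self, add_zero, zero_mul] at h1
      rw [uIcc_of_le (Real.log_le_log hR0 hRR)] at h1
      exact h1.2
    have hexp : ‖cexp ζ‖ < 1 := by
      rw [Complex.norm_exp]
      calc Real.exp ζ.re ≤ Real.exp (Real.log R) := Real.exp_le_exp.mpr hre
        _ = R := Real.exp_log hRp
        _ < 1 := hR1
    apply DifferentiableAt.differentiableWithinAt
    exact (hG _ (Complex.exp_ne_zero _) hexp).comp ζ Complex.differentiableAt_exp
  have key := Complex.integral_boundary_rect_eq_zero_of_differentiableOn _ _ _ hd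
  simp only [Complex.add_re, Complex.ofReal_re, Complex.mul_re, Complex.I_re,
        mul_zero, Complex.ofReal_im, Complex.I_im, mul_one, sub_self, add_zero, Complex.add_im,
        Complex.mul_im, zero_add, zero_mul, NS.exp_cm hR0, NS.exp_cm hRp, smul_eq_mul] at key
  have hI : I * I = -1 := Complex.I_mul_I
  linear_combination (-I) * key + ((∫ y in a..b, G (circleMap 0 R y)) -
    ∫ y in a..b, G (circleMap 0 R₀ y)) * hI

theorem cexp_cm (x c : ℝ) : cexp (x + c * I) = circleMap 0 (Real.exp x) c := by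
  rw [Complex.exp_add, ← Complex.ofReal_exp, NS.cm_eq]

/-- arc length on a radius is a Carleson measure -/
theorem carl_radius {R₀ c : ℝ} (hR0 : 1 / 2 ≤ R₀) (hR1 : R₀ < 1) (h : H2)
    (hs : Summable fun n => ‖h n‖) :
    ∫ x in Ioo (Real.log R₀) 0, ‖ev h (cexp (x + c * I))‖ ^ 2 ≤ 128 * ‖h‖ ^ 2 := by
  have hR0' : 0 < R₀ := by linarith
  have hlog : Real.log R₀ < 0 := Real.log_neg hR0' hR1
  set ν : Measure ℝ := volume.restrict (Ioo (Real.log R₀) 0) with hν
  have : IsFiniteMeasure ν := ⟨by rw [hν]; simp⟩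
  set ψ : ℝ → ℂ := fun x => cexp (x + c * I) with hψ
  have hψc : Continuous ψ := by simp only [hψ]; fun_prop
  have hψn : ∀ x, ‖ψ x‖ = Real.exp x := by
    intro x
    simp only [hψ]
    rw [cexp_cm, NS.cm_norm (Real.exp_pos x).le]
  have hψ1 : ∀ᵐ x ∂ν, ‖ψ x‖ < 1 := by
    rw [hν, ae_restrict_iff' measurableSet_Ioo]
    apply Eventually.of_forall
    intro x hx
    rw [hψn]
    exact NS.exp_lt_one' hx.2
  have hA : ∀ a : ℂ, ‖a‖ < 1 → ∫⁻ x, ENNReal.ofReal (kr a (ψ x)) ∂ν ≤ ENNReal.ofReal 4 := by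
    intro a ha
    set s := ‖a‖ with hsdef
    have hs0 : 0 ≤ s := norm_nonneg a
    set D : ℝ → ℝ := fun x => (1 - s ^ 2) * (2 * Real.exp x / (1 - s * Real.exp x) ^ 2) with hD
    have hden : ∀ x : ℝ, x ≤ 0 → 0 < 1 - s * Real.exp x := by
      intro x hx
      have h1 : Real.exp x ≤ 1 := Real.exp_le_one_iff.2 hx
      have h2 : s * Real.exp x ≤ s * 1 := by gcongr
      linarith
    have hDc : ContinuousOn D (Icc (Real.log R₀) 0) := by
      simp only [hD]
      apply ContinuousOn.mul continuousOn_const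
      apply ContinuousOn.div (by fun_prop) (by fun_prop)
      intro x hx
      exact (pow_pos (hden x hx.2) 2).ne'
    have hD0 : ∀ x : ℝ, x ≤ 0 → 0 ≤ D x := by
      intro x hx
      have := hden x hx
      simp only [hD]
      apply mul_nonneg (by nlinarith)
      positivity
    have hle : ∀ x ∈ Ioo (Real.log R₀) 0, kr a (ψ x) ≤ D x := by
      intro x hx
      have h1 := hden x hx.2.le
      have h2 : 1 - s * Real.exp x ≤ ‖1 - conj a * ψ x‖ := by
        have h3 := norm_sub_norm_le 1 (conj a * ψ x)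
        rw [norm_one, norm_mul, RCLike.norm_conj, hψn] at h3
        exact h3
      have h4 : 1 ≤ 2 * Real.exp x := by
        have h5 : R₀ ≤ Real.exp x := by
          rw [← Real.exp_log hR0']
          exact Real.exp_le_exp.mpr hx.1.le
        linarith
      have h5 : 0 ≤ 1 - s ^ 2 := by nlinarith
      rw [kr]
      simp only [hD]
      rw [mul_div_assoc', ← hsdef]
      calc (1 - s ^ 2) / ‖1 - conj a * ψ x‖ ^ 2 ≤ (1 - s ^ 2) / (1 - s * Real.exp x) ^ 2 := by
            gcongr
        _ ≤ (1 - s ^ 2) * (2 * Real.exp x) / (1 - s * Real.exp x) ^ 2 := by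
            gcongr
            exact le_mul_of_one_le_right h5 h4
    have hint : ∫ x in Real.log R₀..0, D x ≤ 4 := by
      have hderiv : ∀ x ∈ uIcc (Real.log R₀) 0,
          HasDerivAt (fun x => (1 - s ^ 2) * (2 * Real.exp x / (1 - s * Real.exp x))) (D x) x := by
        intro x hx
        rw [uIcc_of_le hlog.le] at hx
        have h1 := hden x hx.2
        have h2 : HasDerivAt (fun x => 2 * Real.exp x) (2 * Real.exp x) x :=
          (Real.hasDerivAt_exp x).const_mul 2
        have h3 : HasDerivAt (fun x => 1 - s * Real.exp x) (-(s * Real.exp x)) x := by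
          simpa using ((Real.hasDerivAt_exp x).const_mul s).const_sub 1
        have h4 := (h2.div h3 h1.ne').const_mul (1 - s ^ 2)
        have e : D x = (1 - s ^ 2) * ((2 * Real.exp x * (1 - s * Real.exp x) -
            2 * Real.exp x * -(s * Real.exp x)) / (1 - s * Real.exp x) ^ 2) := by
          show (1 - s ^ 2) * (2 * Real.exp x / (1 - s * Real.exp x) ^ 2) = _
          congr 2
          ring
        rw [e]
        exact h4
      rw [intervalIntegral.integral_eq_sub_of_hasDerivAt hderiv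
        (by
          apply ContinuousOn.intervalIntegrable
          rw [uIcc_of_le hlog.le]; exact hDc)]
      have h1 := hden (Real.log R₀) hlog.le
      have h2 : 0 ≤ (1 - s ^ 2) * (2 * Real.exp (Real.log R₀) / (1 - s * Real.exp (Real.log R₀))) := by
        apply mul_nonneg (by nlinarith)
        positivity
      rw [Real.exp_zero, mul_one, mul_one]
      have h3 : (1 - s ^ 2) * (2 / (1 - s)) = 2 * (1 + s) := by
        have : 1 - s ≠ 0 := by linarith
        field_simp
        ring
      rw [h3]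
      linarith
    calc ∫⁻ x, ENNReal.ofReal (kr a (ψ x)) ∂ν ≤ ∫⁻ x, ENNReal.ofReal (D x) ∂ν := by
          apply lintegral_mono_ae
          rw [hν, ae_restrict_iff' measurableSet_Ioo]
          apply Eventually.of_forall
          intro x hx
          exact ENNReal.ofReal_le_ofReal (hle x hx)
      _ = ENNReal.ofReal (∫ x, D x ∂ν) := by
          rw [ofReal_integral_eq_lintegral_ofReal]
          · rw [hν]
            exact (hDc.integrableOn_Icc).mono_set Ioo_subset_Icc_self
          · rw [hν, EventuallyLE, ae_restrict_iff' measurableSet_Ioo]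
            exact Eventually.of_forall fun x hx => hD0 x hx.2.le
      _ ≤ ENNReal.ofReal 4 := by
          apply ENNReal.ofReal_le_ofReal
          rw [hν, ← integral_Ioc_eq_integral_Ioo, ← intervalIntegral.integral_of_le hlog.le]
          exact hint
  have key := carleson hψc.measurable hψ1 hA (evW_diff h hs)
  rw [evW_parseval h hs] at key
  have h1 : ∫⁻ x, ENNReal.ofReal ‖ev h (ψ x)‖ ^ 2 ∂ν =
      ∫⁻ x, ENNReal.ofReal (‖ev h (ψ x)‖ ^ 2) ∂ν := by
    congr 1
    funext x
    rw [ENNReal.ofReal_pow (norm_nonneg _)]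
  have hcont : ContinuousOn (fun x => ‖ev h (ψ x)‖ ^ 2) (Icc (Real.log R₀) 0) := by
    apply ContinuousOn.pow
    apply ContinuousOn.norm
    apply (evW_cont h hs).comp hψc.continuousOn
    intro x hx
    rw [mem_closedBall_zero_iff, hψn]
    exact Real.exp_le_one_iff.2 hx.2
  have hi : Integrable (fun x => ‖ev h (ψ x)‖ ^ 2) ν := by
    rw [hν]; exact (hcont.integrableOn_Icc).mono_set Ioo_subset_Icc_self
  rw [h1, ← ofReal_integral_eq_lintegral_ofReal hi (Eventually.of_forall fun x => by positivity)]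
    at key
  have h2 : (32 : ℝ≥0∞) * ENNReal.ofReal 4 * ENNReal.ofReal (‖h‖ ^ 2) =
      ENNReal.ofReal (128 * ‖h‖ ^ 2) := by
    have : (32 : ℝ≥0∞) = ENNReal.ofReal 32 := by simp
    rw [this, ← ENNReal.ofReal_mul (by norm_num), ← ENNReal.ofReal_mul (by norm_num)]
    congr 1
    norm_num
  rw [h2, ENNReal.ofReal_le_ofReal_iff (by positivity)] at key
  exact key

/-- side of the polar rectangle -/
theorem side_est (hφ : DifferentiableOn ℂ φ (ball (0 : ℂ) 1)) (n : ℕ) {R₀ R c : ℝ}
    (hR0 : 1 / 2 ≤ R₀) (hRR : R₀ ≤ R) (hR1 : R < 1)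
    (hc : ∀ ρ : ℝ, R₀ ≤ ρ → ρ < 1 → ‖φ (circleMap 0 ρ c)‖ < ρ)
    (h : H2) (hs : Summable fun n => ‖h n‖) :
    ‖∫ x in Real.log R₀..Real.log R, (φ (cexp (x + c * I)) / cexp (x + c * I)) ^ n *
        ev h (cexp (x + c * I))‖ ≤
      Real.sqrt (∫ x in Ioo (Real.log R₀) 0, (‖φ (cexp (x + c * I))‖ / Real.exp x) ^ (2 * n)) *
        (Real.sqrt 128 * ‖h‖) := by
  have hR0' : 0 < R₀ := by linarith
  have hRp : 0 < R := by linarith
  have hR01 : R₀ < 1 := lt_of_le_of_lt hRR hR1
  have hlog : Real.log R₀ ≤ Real.log R := Real.log_le_log hR0' hRR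
  have hlog1 : Real.log R < 0 := Real.log_neg hRp hR1
  set q : ℝ → ℝ := fun x => ‖φ (cexp (x + c * I))‖ / Real.exp x with hq
  have hq0 : ∀ x, 0 ≤ q x := fun x => by simp only [hq]; positivity
  have hqc : ContinuousOn q (Iio (0 : ℝ)) := by
    apply ContinuousOn.div _ Real.continuous_exp.continuousOn (fun x _ => (Real.exp_pos x).ne')
    apply ContinuousOn.norm
    apply hφ.continuousOn.comp
    · apply Continuous.continuousOn
      fun_prop
    · intro x hx
      show cexp (x + c * I) ∈ ball (0 : ℂ) 1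
      rw [mem_ball_zero_iff, cexp_cm, NS.cm_norm (Real.exp_pos x).le]
      exact NS.exp_lt_one' hx
  have hq1 : ∀ x ∈ Ioo (Real.log R₀) 0, q x ≤ 1 := by
    intro x hx
    simp only [hq]
    rw [div_le_one (Real.exp_pos x), cexp_cm]
    apply (hc _ _ (NS.exp_lt_one' hx.2)).le
    rw [← Real.exp_log hR0']
    exact Real.exp_le_exp.mpr hx.1.le
  have hev : ContinuousOn (fun x : ℝ => ‖ev h (cexp (x + c * I))‖) (Icc (Real.log R₀) 0) := by
    apply ContinuousOn.norm
    apply (evW_cont h hs).comp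
    · apply Continuous.continuousOn; fun_prop
    · intro x hx
      show cexp (x + c * I) ∈ closedBall (0 : ℂ) 1
      rw [mem_closedBall_zero_iff, cexp_cm, NS.cm_norm (Real.exp_pos x).le]
      exact Real.exp_le_one_iff.2 hx.2
  have hevb : ∀ x ∈ Ioo (Real.log R₀) 0, ‖ev h (cexp (x + c * I))‖ ≤ ∑' n, ‖h n‖ := by
    intro x hx
    apply evW_norm_le h hs
    rw [cexp_cm, NS.cm_norm (Real.exp_pos x).le]
    exact Real.exp_le_one_iff.2 hx.2.le
  have : IsFiniteMeasure (volume.restrict (Ioo (Real.log R₀) 0)) := ⟨by simp⟩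
  have hqm : AEStronglyMeasurable (fun x => q x ^ n) (volume.restrict (Ioo (Real.log R₀) 0)) :=
    ((hqc.pow n).mono (fun x hx => hx.2)).aestronglyMeasurable measurableSet_Ioo
  have hevm : AEStronglyMeasurable (fun x : ℝ => ‖ev h (cexp (x + c * I))‖)
      (volume.restrict (Ioo (Real.log R₀) 0)) :=
    (hev.mono Ioo_subset_Icc_self).aestronglyMeasurable measurableSet_Ioo
  have hqb : ∀ᵐ x ∂(volume.restrict (Ioo (Real.log R₀) 0)), q x ^ n ≤ 1 := by
    rw [ae_restrict_iff' measurableSet_Ioo]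
    exact Eventually.of_forall fun x hx => pow_le_one₀ (hq0 x) (hq1 x hx)
  have hevb' : ∀ᵐ x : ℝ ∂(volume.restrict (Ioo (Real.log R₀) 0)),
      ‖ev h (cexp (x + c * I))‖ ≤ ∑' n, ‖h n‖ := by
    rw [ae_restrict_iff' measurableSet_Ioo]
    exact Eventually.of_forall fun x hx => hevb x hx
  have hSn : 0 ≤ ∑' n, ‖h n‖ := tsum_nonneg fun _ => norm_nonneg _
  have hint : IntegrableOn (fun x : ℝ => q x ^ n * ‖ev h (cexp (x + c * I))‖)
      (Ioo (Real.log R₀) 0) := by
    apply Integrable.of_bound (hqm.mul hevm) (1 * ∑' n, ‖h n‖)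
    filter_upwards [hqb, hevb'] with x h1 h2
    show ‖q x ^ n * ‖ev h (cexp (x + c * I))‖‖ ≤ 1 * ∑' n, ‖h n‖
    rw [norm_mul, norm_norm, Real.norm_of_nonneg (pow_nonneg (hq0 x) n)]
    gcongr
  rw [intervalIntegral.integral_of_le hlog]
  refine (norm_integral_le_integral_norm _).trans ?_
  calc ∫ x in Ioc (Real.log R₀) (Real.log R), ‖(φ (cexp (x + c * I)) / cexp (x + c * I)) ^ n *
        ev h (cexp (x + c * I))‖
      = ∫ x in Ioc (Real.log R₀) (Real.log R), q x ^ n * ‖ev h (cexp (x + c * I))‖ := by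
        congr 1
        funext x
        rw [norm_mul, norm_pow, norm_div]
        simp only [hq]
        have h2 : ‖cexp (x + c * I)‖ = Real.exp x := by
          rw [cexp_cm, NS.cm_norm (Real.exp_pos x).le]
        rw [h2]
    _ ≤ ∫ x in Ioo (Real.log R₀) 0, q x ^ n * ‖ev h (cexp (x + c * I))‖ := by
        apply setIntegral_mono_set hint
        · apply Eventually.of_forall
          intro x
          exact mul_nonneg (pow_nonneg (hq0 x) n) (norm_nonneg _)
        · apply LE.le.eventuallyLE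
          intro x hx
          exact ⟨hx.1, hx.2.trans_lt hlog1⟩
    _ ≤ Real.sqrt (∫ x in Ioo (Real.log R₀) 0, (q x ^ n) ^ 2) *
          Real.sqrt (∫ x in Ioo (Real.log R₀) 0, ‖ev h (cexp (x + c * I))‖ ^ 2) :=
        cs_real hqm hevm (fun x => pow_nonneg (hq0 x) n) (fun x => norm_nonneg _) hqb hevb'
    _ ≤ _ := by
        have e1 : (fun x => (q x ^ n) ^ 2) = fun x => q x ^ (2 * n) := by
          funext x
          rw [← pow_mul, mul_comm]
        rw [e1]
        gcongr
        have h3 := carl_radius (c := c) hR0 hR01 h hs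
        rw [← Real.sqrt_sq (norm_nonneg h), ← Real.sqrt_mul (by norm_num)]
        exact Real.sqrt_le_sqrt h3

/-- uniform smallness on arcs off `AS` -/
theorem arc (hφ : DifferentiableOn ℂ φ (ball (0 : ℂ) 1))
    (hm : MapsTo φ (ball (0 : ℂ) 1) (ball (0 : ℂ) 1)) {a b : ℝ} (hab : a ≤ b)
    (h : Icc a b ∩ NS.AS φ = ∅) :
    ∃ E : ℕ → ℝ, Tendsto E atTop (𝓝 0) ∧ ∀ n, ∀ f : H2, Summable (fun k => ‖f k‖) →
      ∀ᶠ R in 𝓝[<] (1 : ℝ), ‖∫ y in a..b, (φ (circleMap 0 R y) / circleMap 0 R y) ^ n *
        ev f (circleMap 0 R y)‖ ≤ E n * ‖f‖ := by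
  obtain ⟨R₀, hR0, hR1, hR⟩ := NS.uniform_R hφ hm h
  have hR0' : 0 < R₀ := by linarith
  have hlog0 : Real.log R₀ < 0 := Real.log_neg hR0' hR1
  have hside : ∀ c ∈ Icc a b, Tendsto (fun n : ℕ => Real.sqrt (∫ x in Ioo (Real.log R₀) 0,
      (‖φ (cexp (x + c * I))‖ / Real.exp x) ^ (2 * n)) * Real.sqrt 128) atTop (𝓝 0) := by
    intro c hc
    have h1 : Tendsto (fun n : ℕ => ∫ x in Ioo (Real.log R₀) 0,
      (‖φ (cexp (x + c * I))‖ / Real.exp x) ^ n * 1) atTop (𝓝 0) := by
      apply NS.dct_pow measurableSet_Ioo (by simp)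
      · apply ContinuousOn.div _ Real.continuous_exp.continuousOn
          (fun x _ => (Real.exp_pos x).ne')
        apply ContinuousOn.norm
        apply hφ.continuousOn.comp
        · apply Continuous.continuousOn
          fun_prop
        · intro x hx
          show cexp (x + c * I) ∈ ball (0 : ℂ) 1
          rw [mem_ball_zero_iff, cexp_cm, NS.cm_norm (Real.exp_pos x).le]
          exact NS.exp_lt_one' hx.2
      · intro x _; positivity
      · intro x hx
        rw [div_lt_one (Real.exp_pos x), cexp_cm]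
        apply hR c hc _ _ (NS.exp_lt_one' hx.2)
        rw [← Real.exp_log hR0']
        exact Real.exp_le_exp.mpr hx.1.le
    simp only [mul_one] at h1
    have h2 : Tendsto (fun n : ℕ => 2 * n) atTop atTop :=
      tendsto_id.const_mul_atTop' (by norm_num)
    have h3 := (Real.continuous_sqrt.tendsto 0).comp (h1.comp h2)
    rw [Real.sqrt_zero] at h3
    have h4 := h3.mul_const (Real.sqrt 128)
    rw [zero_mul] at h4
    exact h4
  have hbase : Tendsto (fun n : ℕ => ∫ y in Ioc a b,
      (‖φ (circleMap 0 R₀ y)‖ / R₀) ^ n * (1 - R₀)⁻¹) atTop (𝓝 0) := by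
    apply NS.dct_pow measurableSet_Ioc (by simp)
    · apply Continuous.continuousOn
      exact (NS.phi_cm_cont hφ hR0'.le hR1).norm.div_const _
    · intro x _; positivity
    · intro x hx
      rw [div_lt_one hR0']
      exact hR x ⟨hx.1.le, hx.2⟩ R₀ le_rfl hR1
  refine ⟨fun n => (∫ y in Ioc a b, (‖φ (circleMap 0 R₀ y)‖ / R₀) ^ n * (1 - R₀)⁻¹) +
    ((Real.sqrt (∫ x in Ioo (Real.log R₀) 0, (‖φ (cexp (x + a * I))‖ / Real.exp x) ^ (2 * n)) *
      Real.sqrt 128) +
    (Real.sqrt (∫ x in Ioo (Real.log R₀) 0, (‖φ (cexp (x + b * I))‖ / Real.exp x) ^ (2 * n)) *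
      Real.sqrt 128)), ?_, ?_⟩
  · have := hbase.add ((hside a ⟨le_rfl, hab⟩).add (hside b ⟨hab, le_rfl⟩))
    simpa using this
  · intro n f hs
    have hG : ∀ z : ℂ, z ≠ 0 → ‖z‖ < 1 →
        DifferentiableAt ℂ (fun z => (φ z / z) ^ n * ev f z) z := by
      intro z hz0 hz1
      have hz : z ∈ ball (0 : ℂ) 1 := by simpa using hz1
      have h1 : DifferentiableAt ℂ φ z := hφ.differentiableAt (isOpen_ball.mem_nhds hz)
      have h2 : DifferentiableAt ℂ (ev f) z := (ev_diff f).differentiableAt (isOpen_ball.mem_nhds hz)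
      exact ((h1.div differentiableAt_id hz0).pow n).mul h2
    filter_upwards [Ioo_mem_nhdsLT hR1] with R hRR
    rw [rectG hG (a := a) (b := b) hR0' hRR.1.le hRR.2]
    refine (norm_add_le _ _).trans ?_
    rw [norm_mul, Complex.norm_I, one_mul, add_mul, add_mul, mul_assoc, mul_assoc]
    refine add_le_add ?_ ((norm_sub_le _ _).trans (add_le_add
        (side_est hφ n hR0 hRR.1.le hRR.2 (hR a ⟨le_rfl, hab⟩) f hs)
        (side_est hφ n hR0 hRR.1.le hRR.2 (hR b ⟨hab, le_rfl⟩) f hs)))
    rw [intervalIntegral.integral_of_le hab, ← integral_mul_const]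
    refine (norm_integral_le_integral_norm _).trans ?_
    apply integral_mono_of_nonneg
    · exact Eventually.of_forall fun x => norm_nonneg _
    · apply Continuous.integrableOn_Ioc
      exact ((((NS.phi_cm_cont hφ hR0'.le hR1).norm.div_const _).pow n).mul
        continuous_const).mul continuous_const
    · apply Eventually.of_forall
      intro y
      dsimp only
      rw [norm_mul, norm_pow, norm_div, NS.cm_norm hR0'.le, mul_assoc]
      gcongr
      have h1 := ev_norm_le f (z := circleMap 0 R₀ y) (NS.cm_norm hR0'.le y).le hR1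
      rwa [mul_comm] at h1

end Pool.Agent.Helper203.Hardy
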