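import Mathlib
import Pool.Agent.Helper203.S8

set_option autoImplicit false

open Complex Metric Set Filter MeasureTheory ContinuousLinearMap
open scoped Real Topology ComplexConjugate NNReal ENNReal Interval

namespace Pool.Agent.Helper203.Hardy

variable {φ : ℂ → ℂ} {U : ℝ → ℂ}

theorem norm_exp_mul (k : ℕ) (θ : ℝ) : ‖cexp (k * θ * I)‖ = 1 := by
  have := norm_exp_q k θ
  push_cast at this
  exact this

/-- the decomposition of `u^n` into its analytic and antianalytic part -/
theorem decomp (hφ : DifferentiableOn ℂ φ (ball 0 1))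
    (hm : MapsTo φ (ball (0 : ℂ) 1) (ball 0 1)) {C : H2 →L[ℂ] H2}
    (hC : ∀ f : H2, ∀ z ∈ ball (0 : ℂ) 1, ev (C f) z = ev f (φ z)) (n : ℕ)
    (hUe : ∀ᵐ α ∂mT, U α = NS.Us φ α) :
    ∃ h : H2, Summable (fun k => ‖h k‖) ∧ ‖h‖ ≤ 1 ∧
      ∫ α, ‖U α ^ n - conj (ev h (circleMap 0 1 α))‖ ^ 2 ∂mT =
        ‖compress C n (mono 0)‖ ^ 2 := by
  set v : H2 := C (mono n) with hv
  obtain ⟨hvb, hvl⟩ := C_mono_bdry hφ hm hC n
  obtain ⟨h, hh1, hh2, hh3, hh4⟩ :=
    trunc_exists (fun i => if i = 0 then 0 else conj (v (n - i))) (n + 1)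
  refine ⟨h, hh2, ?_, ?_⟩
  · have h1 : ‖h‖ ^ 2 ≤ 1 := by
      rw [hh3, Finset.sum_range_succ']
      simp only [Nat.add_eq_zero_iff, one_ne_zero, and_false, if_false, if_true, norm_zero,
        RCLike.norm_conj]
      have h2 : ∑ i ∈ Finset.range n, ‖v (n - (i + 1))‖ ^ 2 = ∑ i ∈ Finset.range n, ‖v i‖ ^ 2 := by
        rw [← Finset.sum_range_reflect]
        apply Finset.sum_congr rfl
        intro i hi
        rw [Finset.mem_range] at hi
        have e : n - (n - 1 - i + 1) = i := by omega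
        rw [e]
      rw [h2]
      have h3 : ∑ i ∈ Finset.range n, ‖v i‖ ^ 2 ≤ ‖v‖ ^ 2 := by
        rw [norm_sq]
        exact (sq_summable v).sum_le_tsum _ (fun k _ => by positivity)
      have h4 : ‖v‖ ^ 2 ≤ 1 := by
        rw [norm_sq_bdry v hvb hvl]
        have h5 : ∫ θ, ‖bv φ θ ^ n‖ ^ 2 ∂mT ≤ ∫ θ : ℝ, (1 : ℝ) ∂mT := by
          apply integral_mono_of_nonneg
          · exact Eventually.of_forall fun _ => by positivity
          · exact integrable_const _
          · filter_upwards [bv_le hφ hm] with θ hθ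
            rw [norm_pow, ← pow_mul]
            exact pow_le_one₀ (norm_nonneg _) hθ
        simpa using h5
      have h6 : (0 : ℝ) ^ 2 = 0 := by norm_num
      rw [h6, add_zero]
      linarith
    have h2 : ‖h‖ ^ 2 ≤ 1 ^ 2 := by rwa [one_pow]
    exact (sq_le_sq₀ (norm_nonneg _) zero_le_one).1 h2
  · set P : H2 := compress C n (mono 0) with hP
    have hPk : ∀ k, P k = v (n + k) := by
      intro k; rw [hP, compress_mono, add_zero]
    set F : H2 := (Mz ^ n) P with hF
    have hFn : ‖F‖ = ‖P‖ := Mz_pow_norm n P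
    have hFe : ∀ z ∈ ball (0 : ℂ) 1, ev F z = φ z ^ n - ∑ k ∈ Finset.range n, v k * z ^ k := by
      intro z hz
      have hz1 := mem_ball_zero_iff.1 hz
      rw [hF, ev_Mz_pow _ _ hz1, ← ev_C_mono hC n hz, ← hv]
      have h1 := (ev_summable v hz1).sum_add_tsum_nat_add n
      have h2 : z ^ n * ev P z = ∑' k, v (k + n) * z ^ (k + n) := by
        rw [ev, ← tsum_mul_left]
        congr 1
        funext k
        rw [hPk, add_comm k n, pow_add]
        ring
      rw [h2, ev, ← h1]
      ring
    have hFb : ∀ z ∈ ball (0 : ℂ) 1, ‖ev F z‖ ≤ 1 + ∑ k ∈ Finset.range n, ‖v k‖ := by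
      intro z hz
      rw [hFe z hz]
      refine (norm_sub_le _ _).trans (add_le_add ?_ ?_)
      · rw [norm_pow]
        exact pow_le_one₀ (norm_nonneg _) (mem_ball_zero_iff.1 (hm hz)).le
      · refine (norm_sum_le _ _).trans ?_
        apply Finset.sum_le_sum
        intro k _
        rw [norm_mul, norm_pow]
        exact mul_le_of_le_one_right (norm_nonneg _)
          (pow_le_one₀ (norm_nonneg _) (mem_ball_zero_iff.1 hz).le)
    have hFl : ∀ᵐ θ ∂mT, Tendsto (fun r : ℝ => ev F (circleMap 0 r θ)) (𝓝[<] 1)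
        (𝓝 (bv φ θ ^ n - ∑ k ∈ Finset.range n, v k * circleMap 0 1 θ ^ k)) := by
      filter_upwards [bv_tendsto hφ hm] with θ hθ
      have hc : Continuous fun r : ℝ => circleMap 0 r θ := by unfold circleMap; fun_prop
      have h2 : Tendsto (fun r : ℝ => circleMap 0 r θ) (𝓝[<] 1) (𝓝 (circleMap 0 1 θ)) :=
        (hc.tendsto 1).mono_left nhdsWithin_le_nhds
      have h3 : Tendsto (fun r : ℝ => φ (circleMap 0 r θ) ^ n -
          ∑ k ∈ Finset.range n, v k * circleMap 0 r θ ^ k) (𝓝[<] 1)
          (𝓝 (bv φ θ ^ n - ∑ k ∈ Finset.range n, v k * circleMap 0 1 θ ^ k)) := by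
        apply (hθ.pow n).sub
        apply tendsto_finsetSum
        intro k _
        exact (h2.pow k).const_mul _
      refine h3.congr' ?_
      filter_upwards [Ioo_mem_nhdsLT one_pos] with r hr
      rw [hFe]
      rw [mem_ball_zero_iff, NS.cm_norm hr.1.le]; exact hr.2
    have key := norm_sq_bdry F hFb hFl
    rw [hFn] at key
    rw [key]
    apply integral_congr_ae
    filter_upwards [hUe] with θ hθ
    have hex : ‖cexp (n * θ * I)‖ = 1 := norm_exp_mul n θ
    have h1 : bv φ θ ^ n - ∑ k ∈ Finset.range n, v k * circleMap 0 1 θ ^ k =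
        cexp (n * θ * I) * (U θ ^ n - conj (ev h (circleMap 0 1 θ))) := by
      rw [mul_sub]
      congr 1
      · rw [hθ]
        show bv φ θ ^ n = cexp (n * θ * I) * (bv φ θ * cexp (-(θ * I))) ^ n
        rw [mul_pow, ← Complex.exp_nat_mul, mul_left_comm, ← Complex.exp_add]
        have : n * θ * I + n * (-(θ * I)) = (0 : ℂ) := by ring
        rw [this, Complex.exp_zero, mul_one]
      · rw [hh4, map_sum, Finset.mul_sum, Finset.sum_range_succ']
        simp only [Nat.add_eq_zero_iff, one_ne_zero, and_false, if_false, if_true, zero_mul,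
          map_zero, mul_zero, add_zero]
        rw [← Finset.sum_range_reflect]
        apply Finset.sum_congr rfl
        intro i hi
        rw [Finset.mem_range] at hi
        obtain ⟨m, hm'⟩ : ∃ m, n = i + 1 + m := ⟨n - (i + 1), by omega⟩
        have e1 : n - 1 - i = m := by omega
        have e2 : n - (i + 1) = m := by omega
        rw [e1, e2, circleMap_pow, circleMap_pow]
        simp only [Complex.ofReal_one, one_pow, one_mul, map_mul, Complex.conj_conj,
          ← Complex.exp_conj, Complex.conj_natCast, Complex.conj_ofReal, Complex.conj_I]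
        rw [mul_left_comm, ← Complex.exp_add]
        congr 2
        rw [hm']
        push_cast
        ring
    rw [h1, norm_mul, hex, one_mul]

theorem arc_bdry (hφ : DifferentiableOn ℂ φ (ball 0 1))
    (hm : MapsTo φ (ball (0 : ℂ) 1) (ball 0 1)) (hUe : ∀ᵐ α ∂mT, U α = NS.Us φ α)
    {a b : ℝ} (hab : a ≤ b) (ha : 0 ≤ a) (hb : b ≤ 2 * π) (h : Icc a b ∩ NS.AS φ = ∅) :
    ∃ E : ℕ → ℝ, Tendsto E atTop (𝓝 0) ∧ ∀ n, ∀ f : H2, Summable (fun k => ‖f k‖) → ‖f‖ ≤ 1 →
      ‖∫ α in Ioc a b, U α ^ n * ev f (circleMap 0 1 α) ∂mT‖ ≤ E n := by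
  obtain ⟨E, hE1, hE2⟩ := arc hφ hm hab h
  refine ⟨fun n => |E n|, by simpa using hE1.abs, fun n f hs hf => ?_⟩
  have hev : ∀ᶠ r : ℝ in 𝓝[<] 1, 1 / 2 < r ∧ r < 1 := by
    filter_upwards [Ioo_mem_nhdsLT (show (1 : ℝ) / 2 < 1 by norm_num)] with r hr using hr
  have hlim : Tendsto (fun R : ℝ => ∫ α in Ioc a b,
      (φ (circleMap 0 R α) / circleMap 0 R α) ^ n * ev f (circleMap 0 R α) ∂mT) (𝓝[<] 1)
      (𝓝 (∫ α in Ioc a b, U α ^ n * ev f (circleMap 0 1 α) ∂mT)) := by
    apply tendsto_integral_filter_of_dominated_convergence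
      (fun _ => (2 : ℝ) ^ n * ∑' k, ‖f k‖)
    · filter_upwards [hev] with r hr
      have hr0 : 0 < r := by linarith [hr.1]
      apply Continuous.aestronglyMeasurable
      apply Continuous.mul
      · apply Continuous.pow
        apply (NS.phi_cm_cont hφ hr0.le hr.2).div (continuous_circleMap 0 r)
        intro x hx
        have := NS.cm_norm hr0.le x
        rw [hx, norm_zero] at this
        linarith
      · apply (ev_diff f).continuousOn.comp_continuous (continuous_circleMap 0 r)
        intro x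
        rw [mem_ball_zero_iff, NS.cm_norm hr0.le]; exact hr.2
    · filter_upwards [hev] with r hr
      have hr0 : 0 < r := by linarith [hr.1]
      apply Eventually.of_forall
      intro α
      have hn := NS.cm_norm hr0.le α
      rw [norm_mul, norm_pow, norm_div, hn]
      have h1 : ‖φ (circleMap 0 r α)‖ ≤ 1 := (NS.norm_lt_of hm (by rw [hn]; exact hr.2)).le
      have h2 : ‖φ (circleMap 0 r α)‖ / r ≤ 2 := by
        rw [div_le_iff₀ hr0]; linarith [hr.1]
      gcongr
      exact evW_norm_le f hs (by rw [hn]; exact hr.2.le)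
    · exact integrable_const _
    · apply ae_restrict_of_ae
      filter_upwards [hUe, Us_tendsto hφ hm] with α h1 h2
      rw [h1]
      apply (h2.pow n).mul
      have hc : Continuous fun r : ℝ => circleMap 0 r α := by unfold circleMap; fun_prop
      have h4 := (evW_cont f hs) (circleMap 0 1 α) (by simp)
      apply h4.tendsto.comp
      apply tendsto_nhdsWithin_iff.2
      refine ⟨(hc.tendsto 1).mono_left nhdsWithin_le_nhds, ?_⟩
      filter_upwards [hev] with r hr
      rw [mem_closedBall_zero_iff, NS.cm_norm (by linarith [hr.1])]; exact hr.2.le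
  apply le_of_tendsto hlim.norm
  filter_upwards [hE2 n f hs] with R hR
  have hinter : Ioc a b ∩ Ioc 0 (2 * π) = Ioc a b := by
    apply inter_eq_left.2
    intro x hx
    exact ⟨lt_of_le_of_lt ha hx.1, hx.2.trans hb⟩
  rw [setIntegral_mT _ measurableSet_Ioc, hinter, ← intervalIntegral.integral_of_le hab,
    norm_smul, Real.norm_of_nonneg (by positivity)]
  have h1 : (2 * π)⁻¹ ≤ 1 := by
    apply inv_le_one_of_one_le₀
    have := Real.pi_gt_three
    linarith
  have h2 : E n * ‖f‖ ≤ |E n| := by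
    calc E n * ‖f‖ ≤ |E n| * ‖f‖ := by gcongr; exact le_abs_self _
      _ ≤ |E n| * 1 := by gcongr
      _ = |E n| := mul_one _
  calc (2 * π)⁻¹ * ‖∫ y in a..b, (φ (circleMap 0 R y) / circleMap 0 R y) ^ n *
        ev f (circleMap 0 R y)‖ ≤ 1 * |E n| := by
        gcongr
        exact hR.trans h2
    _ = |E n| := one_mul _

theorem null_arc (hφ : DifferentiableOn ℂ φ (ball 0 1))
    (hm : MapsTo φ (ball (0 : ℂ) 1) (ball 0 1)) {C : H2 →L[ℂ] H2}
    (hC : ∀ f : H2, ∀ z ∈ ball (0 : ℂ) 1, ev (C f) z = ev f (φ z))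
    (hlim : Tendsto (fun n => compress C n (mono 0)) atTop (𝓝 0))
    {a b : ℝ} (hab : a ≤ b) (ha : 0 ≤ a) (hb : b ≤ 2 * π) (h : Icc a b ∩ NS.AS φ = ∅) :
    ∀ᵐ α ∂mT, α ∈ Ioc a b → ‖bv φ α‖ ≠ 1 := by
  obtain ⟨U, hU, hU1, hUe⟩ := exists_U hφ hm
  obtain ⟨E, hE1, hE2⟩ := arc_bdry hφ hm hUe hab ha hb h
  set S : Set ℝ := Ioc a b with hS
  set T : Set ℝ := {α | ‖U α‖ = 1} with hT
  have hTm : MeasurableSet T := measurableSet_eq_fun hU.norm measurable_const
  have hbound : ∀ n : ℕ, (mT.restrict S).real T ≤ ‖compress C n (mono 0)‖ + E n := by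
    intro n
    obtain ⟨f, hf1, hf2, hf3⟩ := decomp hφ hm hC n hUe
    have hfc := evc_cont f hf1
    have hfb : ∀ α, ‖ev f (circleMap 0 1 α)‖ ≤ ∑' k, ‖f k‖ :=
      fun α => evW_norm_le f hf1 (norm_cm1 α).le
    have hSn : 0 ≤ ∑' n, ‖f n‖ := tsum_nonneg fun _ => norm_nonneg _
    have hUn : ∀ α, ‖U α ^ n‖ ≤ 1 := fun α => by
      rw [norm_pow]; exact pow_le_one₀ (norm_nonneg _) (hU1 α)
    set p : ℝ → ℂ := fun α => U α ^ n - conj (ev f (circleMap 0 1 α)) with hp
    have hpm : Measurable p :=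
      (hU.pow_const n).sub (Complex.continuous_conj.measurable.comp hfc.measurable)
    have hpb : ∀ α, ‖p α‖ ≤ 1 + ∑' k, ‖f k‖ := by
      intro α
      refine (norm_sub_le _ _).trans (add_le_add (hUn α) ?_)
      rw [RCLike.norm_conj]; exact hfb α
    -- lower bound
    have h1 : (mT.restrict S).real T ≤ ∫ α in S, ‖U α ^ n‖ ^ 2 ∂mT := by
      have h2 : (mT.restrict S).real T = ∫ α in S, T.indicator (fun _ => (1 : ℝ)) α ∂mT := by
        rw [integral_indicator_const _ hTm, smul_eq_mul, mul_one]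
      rw [h2]
      apply integral_mono
      · exact (integrable_const _).indicator hTm
      · apply Integrable.of_bound (C := 1)
        · exact ((hU.pow_const n).norm.pow_const 2).aestronglyMeasurable
        · apply Eventually.of_forall
          intro α
          rw [norm_pow, norm_norm]
          exact pow_le_one₀ (norm_nonneg _) (hUn α)
      · intro α
        by_cases hα : α ∈ T
        · rw [indicator_of_mem hα]
          have : ‖U α‖ = 1 := hα
          show (1 : ℝ) ≤ ‖U α ^ n‖ ^ 2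
          rw [norm_pow, this]; simp
        · rw [indicator_of_notMem hα]
          show (0 : ℝ) ≤ ‖U α ^ n‖ ^ 2
          positivity
    -- splitting
    have i1 : Integrable (fun α => U α ^ n * conj (p α)) (mT.restrict S) := by
      apply Integrable.of_bound (C := 1 * (1 + ∑' k, ‖f k‖))
      · exact ((hU.pow_const n).mul
          (Complex.continuous_conj.measurable.comp hpm)).aestronglyMeasurable
      · apply Eventually.of_forall
        intro α
        rw [norm_mul, RCLike.norm_conj]
        gcongr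
        · exact hUn α
        · exact hpb α
    have i2 : Integrable (fun α => U α ^ n * ev f (circleMap 0 1 α)) (mT.restrict S) := by
      apply Integrable.of_bound (C := 1 * ∑' k, ‖f k‖)
      · exact ((hU.pow_const n).mul hfc.measurable).aestronglyMeasurable
      · apply Eventually.of_forall
        intro α
        rw [norm_mul]
        gcongr
        · exact hUn α
        · exact hfb α
    have h3 : ((∫ α in S, ‖U α ^ n‖ ^ 2 ∂mT : ℝ) : ℂ) =
        (∫ α in S, U α ^ n * conj (p α) ∂mT) +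
          ∫ α in S, U α ^ n * ev f (circleMap 0 1 α) ∂mT := by
      rw [← integral_add i1 i2, ← integral_complex_ofReal]
      congr 1
      funext α
      simp only [hp, map_sub, Complex.conj_conj]
      rw [← mul_add, sub_add_cancel, Complex.mul_conj, Complex.normSq_eq_norm_sq]
    have h4 : ‖∫ α in S, U α ^ n * conj (p α) ∂mT‖ ≤ ‖compress C n (mono 0)‖ := by
      have h5 : ‖∫ α in S, U α ^ n * conj (p α) ∂mT‖ ≤ ∫ α, ‖p α‖ * 1 ∂mT := by
        refine (norm_integral_le_integral_norm _).trans ?_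
        calc ∫ α in S, ‖U α ^ n * conj (p α)‖ ∂mT ≤ ∫ α in S, ‖p α‖ * 1 ∂mT := by
              apply integral_mono
              · exact i1.norm
              · apply Integrable.of_bound (C := 1 + ∑' k, ‖f k‖)
                · exact (hpm.norm.mul_const 1).aestronglyMeasurable
                · apply Eventually.of_forall
                  intro α
                  rw [mul_one, norm_norm]; exact hpb α
              · intro α
                dsimp only
                rw [norm_mul, RCLike.norm_conj, mul_one]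
                exact mul_le_of_le_one_left (norm_nonneg _) (hUn α)
          _ ≤ ∫ α, ‖p α‖ * 1 ∂mT := by
              apply setIntegral_le_integral
              · apply Integrable.of_bound (C := 1 + ∑' k, ‖f k‖)
                · exact (hpm.norm.mul_const 1).aestronglyMeasurable
                · apply Eventually.of_forall
                  intro α
                  rw [mul_one, norm_norm]; exact hpb α
              · exact Eventually.of_forall fun _ => by positivity
      refine h5.trans ((cs_real (μ := mT) hpm.norm.aestronglyMeasurable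
        aestronglyMeasurable_const (fun _ => norm_nonneg _) (fun _ => zero_le_one)
        (A := 1 + ∑' k, ‖f k‖) (B := 1) (Eventually.of_forall hpb)
        (Eventually.of_forall fun _ => le_rfl)).trans ?_)
      rw [hf3, Real.sqrt_sq (norm_nonneg _)]
      simp
    have h5 := hE2 n f hf1 hf2
    have h6 : ∫ α in S, ‖U α ^ n‖ ^ 2 ∂mT ≤ ‖compress C n (mono 0)‖ + E n := by
      have h7 : 0 ≤ ∫ α in S, ‖U α ^ n‖ ^ 2 ∂mT := integral_nonneg fun _ => by positivity
      have h8 : ‖((∫ α in S, ‖U α ^ n‖ ^ 2 ∂mT : ℝ) : ℂ)‖ = ∫ α in S, ‖U α ^ n‖ ^ 2 ∂mT := by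
        rw [Complex.norm_real, Real.norm_of_nonneg h7]
      rw [← h8, h3]
      exact (norm_add_le _ _).trans (add_le_add h4 h5)
    exact h1.trans h6
  have h0 : (mT.restrict S).real T ≤ 0 := by
    have h1 := hlim.norm.add hE1
    rw [norm_zero, add_zero] at h1
    exact ge_of_tendsto' h1 hbound
  have h4 : (mT.restrict S).real T = 0 := le_antisymm h0 measureReal_nonneg
  rw [measureReal_eq_zero_iff, measure_eq_zero_iff_ae_notMem,
    ae_restrict_iff' measurableSet_Ioc] at h4
  filter_upwards [h4, hUe] with α h5 h6 h7 h8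
  apply h5 h7
  show ‖U α‖ = 1
  rw [h6, Us_norm_eq, h8]

theorem AS_add (α : ℝ) (h : α ∈ NS.AS φ) : ∀ r : ℝ, 0 ≤ r → r < 1 → r ≤ ‖φ (circleMap 0 r α)‖ := h

/-- necessity -/
theorem nec (hφ : DifferentiableOn ℂ φ (ball 0 1))
    (hm : MapsTo φ (ball (0 : ℂ) 1) (ball 0 1)) {C : H2 →L[ℂ] H2}
    (hC : ∀ f : H2, ∀ z ∈ ball (0 : ℂ) 1, ev (C f) z = ev f (φ z))
    (hlim : Tendsto (fun n => compress C n (mono 0)) atTop (𝓝 0)) :
    ∀ᵐ α ∂mT, ‖bv φ α‖ = 1 → α ∈ NS.AS φ := by
  have h1 : ∀ M : ℕ, ∀ i ∈ NS.good φ M, ∀ᵐ α ∂mT, α ∈ NS.JJ M i → ‖bv φ α‖ ≠ 1 := by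
    intro M i hi
    simp only [NS.good, Finset.mem_filter, Finset.mem_range] at hi
    have hM : (0 : ℝ) < M := by
      have : 0 < M := by omega
      exact_mod_cast this
    have hpi := Real.pi_pos
    apply null_arc hφ hm hC hlim _ _ _ hi.2
    · gcongr
      linarith
    · positivity
    · rw [div_le_iff₀ hM]
      have : (i : ℝ) + 1 ≤ M := by exact_mod_cast hi.1
      nlinarith
  have h2 : ∀ᵐ α ∂mT, ∀ M : ℕ, ∀ i ∈ NS.good φ M, α ∈ NS.JJ M i → ‖bv φ α‖ ≠ 1 := by
    rw [ae_all_iff]
    intro M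
    rw [Finset.eventually_all]
    exact h1 M
  filter_upwards [h2, ae_mem_Ioc] with α h3 h4 h5
  by_contra hα
  have h6 : α ∈ NS.C1 φ := ⟨h4, hα⟩
  obtain ⟨M, hM⟩ := (NS.SM_eventually hφ h6).exists
  simp only [NS.SM, mem_iUnion] at hM
  obtain ⟨i, hi, hαi⟩ := hM
  exact h3 M i hi hαi h5

end Pool.Agent.Helper203.Hardy
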