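import Mathlib
import Pool.Agent.Helper203.S9

set_option autoImplicit false

open Complex Metric Set Filter MeasureTheory ContinuousLinearMap
open scoped Real Topology ComplexConjugate NNReal ENNReal Interval

namespace Pool.Agent.Helper203.Hardy

variable {φ : ℂ → ℂ}

/-- the hyperbolic ratio along a radius -/
noncomputable def hr (φ : ℂ → ℂ) (θ r : ℝ) : ℝ :=
  (1 - ‖φ (circleMap 0 r θ)‖) / (1 + ‖φ (circleMap 0 r θ)‖) * ((1 + r) / (1 - r))

theorem hr_mono (hφ : DifferentiableOn ℂ φ (ball 0 1))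
    (hm : MapsTo φ (ball (0 : ℂ) 1) (ball 0 1)) (θ : ℝ) {ρ₀ ρ : ℝ} (h0 : 0 ≤ ρ₀) (h01 : ρ₀ < ρ)
    (h1 : ρ < 1) : hr φ θ ρ₀ ≤ hr φ θ ρ := by
  have key := NS.radial hφ hm (NS.exp_norm θ) h0 h01 h1
  rw [← NS.cm_eq, ← NS.cm_eq] at key
  unfold hr
  set y := ‖φ (circleMap 0 ρ θ)‖ with hy
  set y₀ := ‖φ (circleMap 0 ρ₀ θ)‖ with hy₀
  have hy0 : 0 ≤ y := norm_nonneg _
  have hy00 : 0 ≤ y₀ := norm_nonneg _
  rw [div_mul_div_comm, div_mul_div_comm, div_le_div_iff₀ (by nlinarith) (by nlinarith)]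
  nlinarith

theorem hr_iff (hφ : DifferentiableOn ℂ φ (ball 0 1))
    (hm : MapsTo φ (ball (0 : ℂ) 1) (ball 0 1)) {θ : ℝ} :
    θ ∈ NS.AS φ ↔ ∃ d : ℝ, d ≤ 1 ∧
      Tendsto (fun r : ℝ => (1 - ‖φ (circleMap 0 r θ)‖) / (1 - r)) (𝓝[<] 1) (𝓝 d) := by
  have hev : ∀ᶠ r : ℝ in 𝓝[<] 1, 0 < r ∧ r < 1 := by
    filter_upwards [Ioo_mem_nhdsLT one_pos] with r hr using hr
  have hlt : ∀ r : ℝ, 0 ≤ r → r < 1 → ‖φ (circleMap 0 r θ)‖ < 1 := fun r h0 h1 =>
    NS.norm_lt_of hm (by rw [NS.cm_norm h0]; exact h1)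
  have hid : Tendsto (fun r : ℝ => r) (𝓝[<] 1) (𝓝 1) := tendsto_id.mono_left nhdsWithin_le_nhds
  have hle_iff : ∀ r : ℝ, 0 ≤ r → r < 1 → (hr φ θ r ≤ 1 ↔ r ≤ ‖φ (circleMap 0 r θ)‖) := by
    intro r h0 h1
    unfold hr
    set y := ‖φ (circleMap 0 r θ)‖ with hy
    have hy0 : 0 ≤ y := norm_nonneg _
    rw [div_mul_div_comm, div_le_one (by nlinarith)]
    constructor <;> intro h <;> nlinarith
  constructor
  · intro hθ
    have hy1 : Tendsto (fun r : ℝ => ‖φ (circleMap 0 r θ)‖) (𝓝[<] 1) (𝓝 1) := by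
      apply tendsto_of_tendsto_of_tendsto_of_le_of_le' hid tendsto_const_nhds
      · filter_upwards [hev] with r hr
        exact hθ r hr.1.le hr.2
      · filter_upwards [hev] with r hr
        exact (hlt r hr.1.le hr.2).le
    -- limit of `hr`
    set d : ℝ := sSup (hr φ θ '' Ioo 0 1) with hd
    have hbdd : BddAbove (hr φ θ '' Ioo 0 1) := by
      refine ⟨1, ?_⟩
      rintro x ⟨r, hr', rfl⟩
      exact (hle_iff r hr'.1.le hr'.2).2 (hθ r hr'.1.le hr'.2)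
    have hne : (hr φ θ '' Ioo (0 : ℝ) 1).Nonempty := ⟨_, 1 / 2, by norm_num, rfl⟩
    have hd1 : d ≤ 1 := by
      apply csSup_le hne
      rintro x ⟨r, hr', rfl⟩
      exact (hle_iff r hr'.1.le hr'.2).2 (hθ r hr'.1.le hr'.2)
    have hlim : Tendsto (hr φ θ) (𝓝[<] 1) (𝓝 d) := by
      rw [tendsto_order]
      constructor
      · intro x hx
        obtain ⟨y, ⟨r₀, hr₀, rfl⟩, hxy⟩ := exists_lt_of_lt_csSup hne hx
        filter_upwards [Ioo_mem_nhdsLT hr₀.2] with r hr'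
        exact hxy.trans_le (hr_mono hφ hm θ hr₀.1.le hr'.1 hr'.2)
      · intro x hx
        filter_upwards [hev] with r hr'
        exact lt_of_le_of_lt (le_csSup hbdd ⟨r, hr', rfl⟩) hx
    refine ⟨d, hd1, ?_⟩
    have h2 : Tendsto (fun r : ℝ => hr φ θ r * ((1 + ‖φ (circleMap 0 r θ)‖) / (1 + r))) (𝓝[<] 1)
        (𝓝 (d * ((1 + 1) / (1 + 1)))) := by
      apply hlim.mul
      apply Tendsto.div (hy1.const_add 1) (hid.const_add 1)
      norm_num
    have e : d * ((1 + 1) / (1 + 1)) = d := by norm_num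
    rw [e] at h2
    refine h2.congr' ?_
    filter_upwards [hev] with r hr'
    unfold hr
    have h3 : 0 < 1 - r := by linarith [hr'.2]
    have h4 : 0 < 1 + r := by linarith [hr'.1]
    have h5 : 0 < 1 + ‖φ (circleMap 0 r θ)‖ := by positivity
    field_simp
  · rintro ⟨d, hd1, hd⟩ r h0 h1
    have hy1 : Tendsto (fun r : ℝ => ‖φ (circleMap 0 r θ)‖) (𝓝[<] 1) (𝓝 1) := by
      have h2 : Tendsto (fun r : ℝ => 1 - (1 - r) * ((1 - ‖φ (circleMap 0 r θ)‖) / (1 - r)))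
          (𝓝[<] 1) (𝓝 (1 - (1 - 1) * d)) := ((hid.const_sub 1).mul hd).const_sub 1
      have e : (1 : ℝ) - (1 - 1) * d = 1 := by ring
      rw [e] at h2
      refine h2.congr' ?_
      filter_upwards [hev] with r hr'
      have h3 : 1 - r ≠ 0 := by linarith [hr'.2]
      field_simp
      ring
    have hlim : Tendsto (hr φ θ) (𝓝[<] 1) (𝓝 d) := by
      have h2 : Tendsto (fun r : ℝ => (1 - ‖φ (circleMap 0 r θ)‖) / (1 - r) *
          ((1 + r) / (1 + ‖φ (circleMap 0 r θ)‖))) (𝓝[<] 1) (𝓝 (d * ((1 + 1) / (1 + 1)))) := by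
        apply hd.mul
        apply Tendsto.div (hid.const_add 1) (hy1.const_add 1)
        norm_num
      have e : d * ((1 + 1) / (1 + 1)) = d := by norm_num
      rw [e] at h2
      refine h2.congr' ?_
      filter_upwards [hev] with r hr'
      unfold hr
      have h3 : 0 < 1 - r := by linarith [hr'.2]
      have h5 : 0 < 1 + ‖φ (circleMap 0 r θ)‖ := by positivity
      field_simp
    rw [← hle_iff r h0 h1]
    refine le_trans ?_ hd1
    apply ge_of_tendsto hlim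
    filter_upwards [Ioo_mem_nhdsLT h1] with ρ hρ
    exact hr_mono hφ hm θ h0 hρ.1 hρ.2

/-- the case of the identity -/
theorem id_case {C : H2 →L[ℂ] H2}
    (hC : ∀ f : H2, ∀ z ∈ ball (0 : ℂ) 1, ev (C f) z = ev f (φ z))
    (hid : ∀ z ∈ ball (0 : ℂ) 1, φ z = z) (n : ℕ) (f : H2) : compress C n f = f := by
  have h1 : ∀ g, C g = g := by
    intro g
    apply ev_injective
    intro z hz
    rw [hC g z hz, hid z hz]
  have h2 : adjoint (Mz ^ n) ∘L (Mz ^ n) = 1 :=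
    (norm_map_iff_adjoint_comp_self (Mz ^ n)).1 (Mz_pow_norm n)
  unfold compress
  rw [comp_apply, comp_apply, h1]
  have h3 := DFunLike.congr_fun h2 f
  rwa [comp_apply, one_apply_eq_self] at h3

/-- the case of rotations -/
theorem rot_case {C : H2 →L[ℂ] H2}
    (hC : ∀ f : H2, ∀ z ∈ ball (0 : ℂ) 1, ev (C f) z = ev f (φ z)) {c : ℂ} (hc : ‖c‖ = 1)
    (hrot : ∀ z ∈ ball (0 : ℂ) 1, φ z = c * z) {g : H2}
    (hg : Tendsto (fun n => compress C n (mono 0)) atTop (𝓝 g)) : c = 1 := by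
  have h1 : ∀ n, C (mono n) = c ^ n • mono n := by
    intro n
    apply ev_injective
    intro z hz
    rw [ev_C_mono hC n hz, hrot z hz, ev_smul, ev_mono, mul_pow]
  have h2 : ∀ n, compress C n (mono 0) 0 = c ^ n := by
    intro n
    rw [compress_mono, add_zero, h1, lp.coeFn_smul, Pi.smul_apply, mono_apply, if_pos rfl,
      smul_eq_mul, mul_one]
  have h3 : Tendsto (fun n => c ^ n) atTop (𝓝 (g 0)) := by
    rw [tendsto_iff_norm_sub_tendsto_zero]
    apply squeeze_zero (fun _ => norm_nonneg _) _ (tendsto_iff_norm_sub_tendsto_zero.1 hg)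
    intro n
    have h4 := coef_le (compress C n (mono 0) - g) 0
    rw [lp.coeFn_sub, Pi.sub_apply, h2] at h4
    exact h4
  have h4 : Tendsto (fun n => c * c ^ n) atTop (𝓝 (c * g 0)) := h3.const_mul c
  have h5 : Tendsto (fun n => c * c ^ n) atTop (𝓝 (g 0)) := by
    have := h3.comp (tendsto_add_atTop_nat 1)
    refine this.congr fun n => ?_
    simp only [Function.comp, pow_succ']
  have h6 : c * g 0 = g 0 := tendsto_nhds_unique h4 h5
  have h7 : ‖g 0‖ = 1 := by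
    apply tendsto_nhds_unique h3.norm
    simp only [norm_pow, hc, one_pow]
    exact tendsto_const_nhds
  have h8 : g 0 ≠ 0 := by intro h; rw [h, norm_zero] at h7; norm_num at h7
  exact mul_right_cancel₀ h8 (by rw [h6, one_mul])

/-- outside of rotations the limit is zero -/
theorem limit_zero (hφ : DifferentiableOn ℂ φ (ball 0 1))
    (hm : MapsTo φ (ball (0 : ℂ) 1) (ball 0 1)) {C : H2 →L[ℂ] H2}
    (hC : ∀ f : H2, ∀ z ∈ ball (0 : ℂ) 1, ev (C f) z = ev f (φ z))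
    (hrot : ¬ ∃ c : ℂ, ‖c‖ = 1 ∧ ∀ z ∈ ball (0 : ℂ) 1, φ z = c * z) {g : H2}
    (hg : Tendsto (fun n => compress C n (mono 0)) atTop (𝓝 g)) : g = 0 := by
  apply lp.ext
  funext k
  have h1 : Tendsto (fun n => compress C n (mono 0) k) atTop (𝓝 (g k)) := by
    rw [tendsto_iff_norm_sub_tendsto_zero]
    apply squeeze_zero (fun _ => norm_nonneg _) _ (tendsto_iff_norm_sub_tendsto_zero.1 hg)
    intro n
    have h4 := coef_le (compress C n (mono 0) - g) k
    rw [lp.coeFn_sub, Pi.sub_apply] at h4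
    exact h4
  have h2 : ∀ n, compress C n (mono 0) k = NS.cf φ 0 k n := by
    intro n
    rw [compress_mono, coef_cf hφ hC]
  simp only [h2] at h1
  have h3 : Tendsto (fun n => NS.cf φ 0 k n) atTop (𝓝 0) := by
    by_cases hφ0 : φ 0 = 0
    · exact NS.main_zero hφ hm hφ0 hrot 0 k
    · exact NS.main_ne hφ hm hφ0 0 k
  rw [tendsto_nhds_unique h1 h3]
  simp

/-- the characterisation -/
theorem sat_iff (hφ : DifferentiableOn ℂ φ (ball 0 1))
    (hm : MapsTo φ (ball (0 : ℂ) 1) (ball 0 1)) {C : H2 →L[ℂ] H2}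
    (hC : ∀ f : H2, ∀ z ∈ ball (0 : ℂ) 1, ev (C f) z = ev f (φ z)) :
    (∃ L : H2 →L[ℂ] H2, ∀ f : H2, Tendsto (fun n => compress C n f) atTop (𝓝 (L f))) ↔
      (∀ z ∈ ball (0 : ℂ) 1, φ z = z) ∨
        ((¬ ∃ c : ℂ, ‖c‖ = 1 ∧ ∀ z ∈ ball (0 : ℂ) 1, φ z = c * z) ∧
          ∀ᵐ θ ∂mT, ‖bv φ θ‖ = 1 → θ ∈ NS.AS φ) := by
  constructor
  · rintro ⟨L, hL⟩
    by_cases hrot : ∃ c : ℂ, ‖c‖ = 1 ∧ ∀ z ∈ ball (0 : ℂ) 1, φ z = c * z
    · left
      obtain ⟨c, hc, hcz⟩ := hrot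
      have h1 := rot_case hC hc hcz (hL (mono 0))
      intro z hz
      rw [hcz z hz, h1, one_mul]
    · right
      refine ⟨hrot, ?_⟩
      have h1 := limit_zero hφ hm hC hrot (hL (mono 0))
      have h2 := hL (mono 0)
      rw [h1] at h2
      exact nec hφ hm hC h2
  · rintro (hid | ⟨hrot, hE⟩)
    · refine ⟨1, fun f => ?_⟩
      simp only [id_case hC hid]
      exact tendsto_const_nhds
    · exact ⟨0, fun f => FE5 hφ hm hrot hE hC f⟩

end Pool.Agent.Helper203.Hardy
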