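import Pool.Agent.Helper203.WLDefs

/-! # Abstract colligation -/

open scoped InnerProductSpace

noncomputable section

namespace WaveLimit

variable {H 𝒞 : Type*} [NormedAddCommGroup H] [InnerProductSpace ℂ H] [CompleteSpace H]
  [NormedAddCommGroup 𝒞] [InnerProductSpace ℂ 𝒞] [CompleteSpace 𝒞]

/-- the data -/
structure Coll (H 𝒞 : Type*) [NormedAddCommGroup H] [InnerProductSpace ℂ H] [CompleteSpace H]
    [NormedAddCommGroup 𝒞] [InnerProductSpace ℂ 𝒞] [CompleteSpace 𝒞] where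
  Y : H ≃ₗᵢ[ℂ] H
  J : 𝒞 →L[ℂ] H
  C : 𝒞 →L[ℂ] 𝒞
  hC : ∀ x y, ⟪C x, y⟫_ℂ = ⟪x, C y⟫_ℂ
  h1 : ∀ f, ContinuousLinearMap.adjoint J (J f + J (C f)) = f - C f

namespace Coll

variable (D : Coll H 𝒞)

/-- `J^*` -/
def Js : H →L[ℂ] 𝒞 := ContinuousLinearMap.adjoint D.J

lemma Js_inner (x : H) (y : 𝒞) : ⟪D.Js x, y⟫_ℂ = ⟪x, D.J y⟫_ℂ :=
  ContinuousLinearMap.adjoint_inner_left D.J y x

lemma Js_inner' (x : H) (y : 𝒞) : ⟪y, D.Js x⟫_ℂ = ⟪D.J y, x⟫_ℂ :=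
  ContinuousLinearMap.adjoint_inner_right D.J y x

/-- `N = J (1 + C)` -/
def N : 𝒞 →L[ℂ] H := D.J + D.J.comp D.C

/-- `N^* = (1 + C) J^*` -/
def Ns : H →L[ℂ] 𝒞 := D.Js + D.C.comp D.Js

/-- `1 - N J^*` -/
def CH : H →L[ℂ] H := ContinuousLinearMap.id ℂ H - D.N.comp D.Js

lemma N_apply (f : 𝒞) : D.N f = D.J f + D.J (D.C f) := rfl
lemma Ns_apply (h : H) : D.Ns h = D.Js h + D.C (D.Js h) := rfl
lemma CH_apply (h : H) : D.CH h = h - D.N (D.Js h) := rfl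

lemma Js_N (f : 𝒞) : D.Js (D.N f) = f - D.C f := D.h1 f

lemma CH_N (f : 𝒞) : D.CH (D.N f) = D.N (D.C f) := by
  rw [CH_apply, Js_N, map_sub]; abel

lemma Js_CH (h : H) : D.Js (D.CH h) = D.C (D.Js h) := by
  rw [CH_apply, map_sub, Js_N]; abel

lemma Ns_CH (h : H) : D.Ns (D.CH h) = D.C (D.Ns h) := by
  rw [Ns_apply, Js_CH, Ns_apply, map_add]

lemma J_Ns (h : H) : D.J (D.Ns h) = h - D.CH h := by
  rw [Ns_apply, map_add, CH_apply, N_apply]; abel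

lemma CH_CH (h : H) : D.CH (D.CH h) + D.N (D.Ns h) = h := by
  rw [CH_apply _ (D.CH h), Js_CH, Ns_apply, map_add, CH_apply]; abel

lemma C_C (f : 𝒞) : D.C (D.C f) + D.Ns (D.N f) = f := by
  rw [Ns_apply, Js_N, map_sub]; abel

lemma N_inner (x : 𝒞) (y : H) : ⟪D.N x, y⟫_ℂ = ⟪x, D.Ns y⟫_ℂ := by
  rw [N_apply, Ns_apply, inner_add_left, inner_add_right, Js_inner', ← D.hC, Js_inner']

lemma Ns_inner (x : H) (y : 𝒞) : ⟪D.Ns x, y⟫_ℂ = ⟪x, D.N y⟫_ℂ := by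
  rw [← inner_conj_symm, ← D.N_inner, inner_conj_symm]

lemma CH_inner (x y : H) : ⟪D.CH x, y⟫_ℂ = ⟪x, D.CH y⟫_ℂ := by
  rw [CH_apply, CH_apply, inner_sub_left, inner_sub_right, N_inner, Ns_apply, inner_add_right,
    N_apply, inner_add_right, ← D.Js_inner, ← D.Js_inner]

/-- the colligation is unitary: energy identity -/
lemma energy (p : H) (f : 𝒞) :
    ‖D.CH p + D.N f‖ ^ 2 + ‖D.C f - D.Ns p‖ ^ 2 = ‖p‖ ^ 2 + ‖f‖ ^ 2 := by
  have e1 : (⟪D.CH p + D.N f, D.CH p + D.N f⟫_ℂ + ⟪D.C f - D.Ns p, D.C f - D.Ns p⟫_ℂ)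
      = ⟪p, p⟫_ℂ + ⟪f, f⟫_ℂ := by
    have a1 : ⟪D.CH p, D.CH p⟫_ℂ = ⟪p, D.CH (D.CH p)⟫_ℂ := D.CH_inner _ _
    have a2 : ⟪D.Ns p, D.Ns p⟫_ℂ = ⟪p, D.N (D.Ns p)⟫_ℂ := D.Ns_inner _ _
    have a3 : ⟪p, D.CH (D.CH p)⟫_ℂ + ⟪p, D.N (D.Ns p)⟫_ℂ = ⟪p, p⟫_ℂ := by
      rw [← inner_add_right, CH_CH]
    have b1 : ⟪D.N f, D.N f⟫_ℂ = ⟪f, D.Ns (D.N f)⟫_ℂ := D.N_inner _ _
    have b2 : ⟪D.C f, D.C f⟫_ℂ = ⟪f, D.C (D.C f)⟫_ℂ := D.hC _ _
    have b3 : ⟪f, D.C (D.C f)⟫_ℂ + ⟪f, D.Ns (D.N f)⟫_ℂ = ⟪f, f⟫_ℂ := by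
      rw [← inner_add_right, C_C]
    have c1 : ⟪D.CH p, D.N f⟫_ℂ = ⟪p, D.N (D.C f)⟫_ℂ := by rw [CH_inner, CH_N]
    have c2 : ⟪D.Ns p, D.C f⟫_ℂ = ⟪p, D.N (D.C f)⟫_ℂ := D.Ns_inner _ _
    have d1 : ⟪D.N f, D.CH p⟫_ℂ = ⟪D.N (D.C f), p⟫_ℂ := by rw [← CH_inner, CH_N]
    have d2 : ⟪D.C f, D.Ns p⟫_ℂ = ⟪D.N (D.C f), p⟫_ℂ := (D.N_inner _ _).symm
    simp only [inner_add_left, inner_add_right, inner_sub_left, inner_sub_right]
    rw [a1, a2, b1, b2, c1, c2, d1, d2, ← a3, ← b3]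
    ring
  have e2 := congrArg Complex.re e1
  simp only [Complex.add_re] at e2
  have n1 : ∀ x : H, (⟪x, x⟫_ℂ).re = ‖x‖ ^ 2 := fun x => inner_self_eq_norm_sq (𝕜 := ℂ) x
  have n2 : ∀ x : 𝒞, (⟪x, x⟫_ℂ).re = ‖x‖ ^ 2 := fun x => inner_self_eq_norm_sq (𝕜 := ℂ) x
  rw [n1, n2, n1, n2] at e2
  exact e2

/-- inverse of the unitary colligation, state part -/
lemma inv_state (p' : H) (o : 𝒞) :
    D.CH (D.CH p' - D.N o) + D.N (D.Ns p' + D.C o) = p' := by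
  rw [map_sub, map_add, CH_N]
  have := D.CH_CH p'
  calc _ = D.CH (D.CH p') + D.N (D.Ns p') := by abel
    _ = p' := this

lemma inv_out (p' : H) (o : 𝒞) :
    D.C (D.Ns p' + D.C o) - D.Ns (D.CH p' - D.N o) = o := by
  rw [map_sub, map_add, Ns_CH]
  have := D.C_C o
  calc _ = D.C (D.C o) + D.Ns (D.N o) := by abel
    _ = o := this

/-- state sequence -/
def st (x : H) (f : ℕ → 𝒞) : ℕ → H
  | 0 => x
  | n + 1 => D.CH (D.Y (st x f n)) + D.N (f n)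

@[simp] lemma st_zero (x : H) (f : ℕ → 𝒞) : D.st x f 0 = x := rfl
lemma st_succ (x : H) (f : ℕ → 𝒞) (n : ℕ) :
    D.st x f (n + 1) = D.CH (D.Y (D.st x f n)) + D.N (f n) := rfl

/-- output sequence -/
def out (x : H) (f : ℕ → 𝒞) (n : ℕ) : 𝒞 := D.C (f n) - D.Ns (D.Y (D.st x f n))

lemma energy_step (x : H) (f : ℕ → 𝒞) (n : ℕ) :
    ‖D.st x f (n + 1)‖ ^ 2 + ‖D.out x f n‖ ^ 2 = ‖D.st x f n‖ ^ 2 + ‖f n‖ ^ 2 := by
  rw [st_succ, out, energy, LinearIsometryEquiv.norm_map]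

lemma energy_sum (x : H) (f : ℕ → 𝒞) (n : ℕ) :
    ‖D.st x f n‖ ^ 2 + ∑ i ∈ Finset.range n, ‖D.out x f i‖ ^ 2
      = ‖x‖ ^ 2 + ∑ i ∈ Finset.range n, ‖f i‖ ^ 2 := by
  induction n with
  | zero => simp
  | succ n ih =>
    rw [Finset.sum_range_succ, Finset.sum_range_succ]
    have := D.energy_step x f n
    linarith

lemma st_add (x y : H) (f g : ℕ → 𝒞) (n : ℕ) :
    D.st (x + y) (f + g) n = D.st x f n + D.st y g n := by
  induction n with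
  | zero => rfl
  | succ n ih => simp only [st_succ, ih, map_add, Pi.add_apply]; abel

lemma st_smul (c : ℂ) (x : H) (f : ℕ → 𝒞) (n : ℕ) :
    D.st (c • x) (c • f) n = c • D.st x f n := by
  induction n with
  | zero => rfl
  | succ n ih => simp only [st_succ, ih, map_smul, Pi.smul_apply, smul_add]

lemma out_add (x y : H) (f g : ℕ → 𝒞) (n : ℕ) :
    D.out (x + y) (f + g) n = D.out x f n + D.out y g n := by
  simp only [out, st_add, map_add, Pi.add_apply]; abel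

lemma out_smul (c : ℂ) (x : H) (f : ℕ → 𝒞) (n : ℕ) :
    D.out (c • x) (c • f) n = c • D.out x f n := by
  simp only [out, st_smul, map_smul, Pi.smul_apply, smul_sub]

lemma norm_sq_eq (f : CZ 𝒞) : ‖f‖ ^ 2 = ∑' i, ‖f i‖ ^ 2 := by
  have := lp.norm_rpow_eq_tsum (p := 2) (by norm_num) f
  simpa using this

lemma summable_sq (f : CZ 𝒞) : Summable (fun i => ‖f i‖ ^ 2) := by
  have := (lp.memℓp f).summable (by norm_num : 0 < (2 : ENNReal).toReal)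
  simpa using this

lemma sum_le (f : CZ 𝒞) (n : ℕ) : ∑ i ∈ Finset.range n, ‖f i‖ ^ 2 ≤ ‖f‖ ^ 2 := by
  rw [norm_sq_eq]
  exact (summable_sq f).sum_le_tsum _ (fun i _ => by positivity)

lemma out_sum_le (x : H) (f : CZ 𝒞) (n : ℕ) :
    ∑ i ∈ Finset.range n, ‖D.out x f i‖ ^ 2 ≤ ‖x‖ ^ 2 + ‖f‖ ^ 2 := by
  have h1 := D.energy_sum x f n
  have h2 := sum_le f n
  have h3 : 0 ≤ ‖D.st x f n‖ ^ 2 := by positivity
  linarith

lemma out_summable (x : H) (f : CZ 𝒞) : Summable (fun i => ‖D.out x f i‖ ^ 2) :=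
  summable_of_sum_range_le (fun i => by positivity) (D.out_sum_le x f)

lemma out_mem (x : H) (f : CZ 𝒞) : Memℓp (D.out x f) 2 := by
  apply memℓp_gen
  simpa using D.out_summable x f

/-- response as an element of `C(z)` -/
def G (x : H) (f : CZ 𝒞) : CZ 𝒞 := ⟨D.out x f, D.out_mem x f⟩

@[simp] lemma G_apply (x : H) (f : CZ 𝒞) (n : ℕ) : D.G x f n = D.out x f n := rfl

lemma G_norm (x : H) (f : CZ 𝒞) : ‖D.G x f‖ ^ 2 ≤ ‖x‖ ^ 2 + ‖f‖ ^ 2 := by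
  rw [norm_sq_eq]
  exact (D.out_summable x f).tsum_le_of_sum_range_le (D.out_sum_le x f)

/-- multiplication by `B` -/
def M : CZ 𝒞 →L[ℂ] CZ 𝒞 :=
  LinearMap.mkContinuous
    { toFun := fun f => D.G 0 f
      map_add' := fun f g => by
        apply lp.ext; funext n
        have := D.out_add 0 0 f g n
        rw [add_zero] at this
        exact this
      map_smul' := fun c f => by
        apply lp.ext; funext n
        have := D.out_smul c 0 f n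
        rw [smul_zero] at this
        exact this } 1 (fun f => by
          have := D.G_norm 0 f
          rw [norm_zero] at this
          have h : ‖D.G 0 f‖ ^ 2 ≤ ‖f‖ ^ 2 := by simpa using this
          simpa using abs_le_of_sq_le_sq' h (norm_nonneg _) |>.2)

/-- observability operator -/
def O : H →L[ℂ] CZ 𝒞 :=
  LinearMap.mkContinuous
    { toFun := fun x => D.G x 0
      map_add' := fun x y => by
        apply lp.ext; funext n
        have := D.out_add x y 0 0 n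
        rw [add_zero] at this
        exact this
      map_smul' := fun c x => by
        apply lp.ext; funext n
        have := D.out_smul c x 0 n
        rw [smul_zero] at this
        exact this } 1 (fun x => by
          have := D.G_norm x 0
          rw [norm_zero] at this
          have h : ‖D.G x 0‖ ^ 2 ≤ ‖x‖ ^ 2 := by simpa using this
          simpa using abs_le_of_sq_le_sq' h (norm_nonneg _) |>.2)

lemma M_apply (f : CZ 𝒞) (n : ℕ) : D.M f n = D.out 0 f n := rfl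
lemma O_apply (x : H) (n : ℕ) : D.O x n = D.out x 0 n := rfl

lemma O_M (x : H) (f : CZ 𝒞) (n : ℕ) : D.O x n + D.M f n = D.out x f n := by
  rw [M_apply, O_apply, ← out_add, add_zero, zero_add]

lemma M_norm_le : ‖D.M‖ ≤ 1 := LinearMap.mkContinuous_norm_le _ zero_le_one _

end Coll

end WaveLimit
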