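import Pool.Agent.Helper203.WLAbs

/-! # Abstract colligation: power series -/

open scoped InnerProductSpace
open Finset

noncomputable section

namespace WaveLimit

variable {H 𝒞 : Type*} [NormedAddCommGroup H] [InnerProductSpace ℂ H] [CompleteSpace H]
  [NormedAddCommGroup 𝒞] [InnerProductSpace ℂ 𝒞] [CompleteSpace 𝒞]

namespace Coll

variable (D : Coll H 𝒞)

/-- `Y` as a continuous linear map -/
def Yc : H →L[ℂ] H := (D.Y.toContinuousLinearEquiv : H →L[ℂ] H)

@[simp] lemma Yc_apply (x : H) : D.Yc x = D.Y x := rfl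

/-- `X n = (CH Y)^n N` -/
def X : ℕ → (𝒞 →L[ℂ] H)
  | 0 => D.N
  | n + 1 => D.CH.comp (D.Yc.comp (X n))

lemma X_zero_apply (f : 𝒞) : D.X 0 f = D.N f := rfl
lemma X_succ_apply (n : ℕ) (f : 𝒞) : D.X (n + 1) f = D.CH (D.Y (D.X n f)) := rfl

/-- `P n = Y^n J` -/
def P : ℕ → (𝒞 →L[ℂ] H)
  | 0 => D.J
  | n + 1 => D.Yc.comp (P n)

lemma P_zero_apply (f : 𝒞) : D.P 0 f = D.J f := rfl
lemma P_succ_apply (n : ℕ) (f : 𝒞) : D.P (n + 1) f = D.Y (D.P n f) := rfl

/-- coefficients of `B` -/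
def Bc : ℕ → (𝒞 →L[ℂ] 𝒞)
  | 0 => D.C
  | n + 1 => -(D.Ns.comp (D.Yc.comp (D.X n)))

lemma Bc_zero_apply (f : 𝒞) : D.Bc 0 f = D.C f := rfl
lemma Bc_succ_apply (n : ℕ) (f : 𝒞) : D.Bc (n + 1) f = -(D.Ns (D.Y (D.X n f))) := rfl

/-- coefficients of `φ` -/
def φc (n : ℕ) : 𝒞 →L[ℂ] 𝒞 := (if n = 0 then (1 : ℂ) else 2) • D.Js.comp (D.P n)

lemma φc_zero_apply (f : 𝒞) : D.φc 0 f = D.Js (D.J f) := by simp [φc, P]
lemma φc_apply (n : ℕ) (f : 𝒞) :
    D.φc n f = (2 : ℂ) • D.Js (D.P n f) - if n = 0 then D.Js (D.J f) else 0 := by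
  rcases n with _ | n
  · simp [φc, P, two_smul]
  · simp [φc]

/-- `B` -/
def B : PowerSeries (𝒞 →L[ℂ] 𝒞) := PowerSeries.mk D.Bc

/-- `φ` -/
def φ : PowerSeries (𝒞 →L[ℂ] 𝒞) := PowerSeries.mk D.φc

/-- multiplication -/
lemma st_conv (f : ℕ → 𝒞) (n : ℕ) :
    D.st 0 f (n + 1) = ∑ p ∈ HasAntidiagonal.antidiagonal n, D.X p.1 (f p.2) := by
  induction n with
  | zero => simp [st_succ, X_zero_apply]
  | succ n ih =>
    rw [st_succ, ih, Nat.sum_antidiagonal_succ]
    simp only [X_succ_apply, X_zero_apply, map_sum]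
    rw [add_comm]

lemma out_conv (f : ℕ → 𝒞) (n : ℕ) :
    D.out 0 f n = ∑ p ∈ HasAntidiagonal.antidiagonal n, D.Bc p.1 (f p.2) := by
  rcases n with _ | n
  · simp [out, Bc_zero_apply]
  · rw [out, st_conv, Nat.sum_antidiagonal_succ]
    simp only [Bc_succ_apply, Bc_zero_apply, map_sum, Finset.sum_neg_distrib]
    rw [sub_eq_add_neg]

lemma isMul : IsMul D.B D.M := by
  refine ⟨D.M_norm_le, fun f n => ?_⟩
  rw [M_apply, out_conv]
  simp only [act, B, PowerSeries.coeff_mk]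

/-- Cayley transform identity -/
lemma S_eq (f : 𝒞) (n : ℕ) :
    ∑ p ∈ HasAntidiagonal.antidiagonal n, D.P p.1 (D.Bc p.2 f) = D.X n f - D.P n f := by
  induction n with
  | zero =>
    simp only [Nat.antidiagonal_zero, sum_singleton, P_zero_apply, Bc_zero_apply, X_zero_apply,
      N_apply]
    abel
  | succ n ih =>
    rw [Nat.sum_antidiagonal_succ]
    simp only [P_zero_apply, P_succ_apply]
    rw [← map_sum, ih, Bc_succ_apply, map_neg, J_Ns, X_succ_apply, map_sub]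
    abel

lemma conv_eq (f : 𝒞) (n : ℕ) :
    D.Bc n f + ∑ p ∈ HasAntidiagonal.antidiagonal n, D.φc p.1 (D.Bc p.2 f)
      = (if n = 0 then f else 0) - D.φc n f := by
  have h1 : ∑ p ∈ HasAntidiagonal.antidiagonal n, D.φc p.1 (D.Bc p.2 f)
      = (2 : ℂ) • D.Js (D.X n f - D.P n f) - D.Js (D.J (D.Bc n f)) := by
    rw [← D.S_eq, map_sum, smul_sum]
    simp only [φc_apply]
    rw [sum_sub_distrib]
    congr 1
    rcases n with _ | n
    · simp
    · rw [Nat.sum_antidiagonal_succ]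
      simp
  rw [h1, φc_apply]
  rcases n with _ | n
  · simp only [Bc_zero_apply, X_zero_apply, P_zero_apply, if_true, map_sub, Js_N]
    have := D.h1 f
    change D.Js (D.J f + D.J (D.C f)) = f - D.C f at this
    rw [map_add] at this
    have h2 : D.Js (D.J (D.C f)) = f - D.C f - D.Js (D.J f) := by rw [← this]; abel
    rw [h2]
    simp only [two_smul]
    abel
  · simp only [Bc_succ_apply, X_succ_apply, P_succ_apply, map_neg, J_Ns]
    simp only [map_sub, Js_CH, Ns_apply, two_smul]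
    simp
    abel

lemma h1' (g : 𝒞) : D.Js (D.J g) + D.C (D.Js (D.J g)) = g - D.C g := by
  refine ext_inner_left ℂ (fun v => ?_)
  have h := D.h1 v
  change D.Js (D.J v + D.J (D.C v)) = v - D.C v at h
  have h2 : ⟪D.Js (D.J v + D.J (D.C v)), g⟫_ℂ = ⟪v - D.C v, g⟫_ℂ := by rw [h]
  rw [Js_inner, inner_add_left, ← Js_inner', ← Js_inner', D.hC, inner_sub_left, D.hC] at h2
  rw [inner_add_right, inner_sub_right]
  exact h2

lemma cayley_left : (1 + D.φ) * D.B = 1 - D.φ := by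
  apply PowerSeries.ext
  intro n
  rw [add_mul, one_mul, map_add, map_sub, PowerSeries.coeff_mul]
  ext f
  have := D.conv_eq f n
  simp only [B, φ, PowerSeries.coeff_mk, PowerSeries.coeff_one]
  rw [add_apply, sub_apply, _root_.sum_apply]
  simp only [mul_apply_eq_comp]
  rw [this]
  congr 1
  split_ifs <;> simp

/-- the unit `1 + φ(0)` -/
def unit : (𝒞 →L[ℂ] 𝒞)ˣ where
  val := 1 + D.Js.comp D.J
  inv := (1/2 : ℂ) • (1 + D.C)
  val_inv := by
    ext f
    have := D.h1 f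
    change D.Js (D.J f + D.J (D.C f)) = f - D.C f at this
    rw [map_add] at this
    simp only [mul_apply_eq_comp, add_apply,
      smul_apply, one_apply_eq_self,
      ContinuousLinearMap.comp_apply, map_smul, map_add]
    have h2 : f + D.Js (D.J f) + (D.C f + D.Js (D.J (D.C f))) = (2 : ℂ) • f := by
      calc _ = f + D.C f + (D.Js (D.J f) + D.Js (D.J (D.C f))) := by abel
        _ = (2 : ℂ) • f := by rw [this, two_smul]; abel
    rw [h2, smul_smul]
    norm_num
  inv_val := by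
    ext f
    have := D.h1' f
    simp only [mul_apply_eq_comp, add_apply,
      smul_apply, one_apply_eq_self,
      ContinuousLinearMap.comp_apply, map_add]
    have h2 : f + D.C f + (D.Js (D.J f) + D.C (D.Js (D.J f))) = (2 : ℂ) • f := by
      rw [this, two_smul]; abel
    rw [← smul_add, h2, smul_smul]
    norm_num

lemma const_eq : PowerSeries.constantCoeff (1 + D.φ) = (D.unit : 𝒞 →L[ℂ] 𝒞) := by
  rw [map_add, map_one, ← PowerSeries.coeff_zero_eq_constantCoeff_apply]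
  simp [φ, unit, φc, P]

lemma isCayley : IsCayley D.φ D.B := by
  refine ⟨D.cayley_left, ?_⟩
  have h1 := PowerSeries.invOfUnit_mul (1 + D.φ) D.unit D.const_eq
  set Q := PowerSeries.invOfUnit (1 + D.φ) D.unit
  have h2 := PowerSeries.mul_invOfUnit (1 + D.φ) D.unit D.const_eq
  have h3 : D.B = Q * (1 - D.φ) := by
    rw [← D.cayley_left, ← mul_assoc, h1, one_mul]
  rw [h3, mul_assoc]
  have h4 : (1 - D.φ) * (1 + D.φ) = (1 + D.φ) * (1 - D.φ) := by noncomm_ring
  rw [h4, ← mul_assoc, h1, one_mul]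

end Coll

end WaveLimit
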