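import Pool.Agent.Helper203.WLAbs2

/-! # Abstract colligation: positive real part -/

open scoped InnerProductSpace
open Finset

noncomputable section

namespace WaveLimit

variable {H 𝒞 : Type*} [NormedAddCommGroup H] [InnerProductSpace ℂ H] [CompleteSpace H]
  [NormedAddCommGroup 𝒞] [InnerProductSpace ℂ 𝒞] [CompleteSpace 𝒞]

namespace Coll

variable (D : Coll H 𝒞)

lemma P_norm_apply (n : ℕ) (c : 𝒞) : ‖D.P n c‖ = ‖D.J c‖ := by
  induction n with
  | zero => rfl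
  | succ n ih => rw [P_succ_apply, LinearIsometryEquiv.norm_map, ih]

lemma P_norm (n : ℕ) : ‖D.P n‖ ≤ ‖D.J‖ := by
  refine ContinuousLinearMap.opNorm_le_bound _ (norm_nonneg _) (fun c => ?_)
  rw [P_norm_apply]
  exact D.J.le_opNorm c

lemma φc_norm (n : ℕ) : ‖D.φc n‖ ≤ 2 * (‖D.Js‖ * ‖D.J‖) := by
  unfold φc
  rw [norm_smul]
  have h1 : ‖(if n = 0 then (1 : ℂ) else 2)‖ ≤ 2 := by split_ifs <;> norm_num
  have h2 : ‖D.Js.comp (D.P n)‖ ≤ ‖D.Js‖ * ‖D.J‖ :=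
    (ContinuousLinearMap.opNorm_comp_le _ _).trans
      (mul_le_mul_of_nonneg_left (D.P_norm n) (norm_nonneg _))
  exact mul_le_mul h1 h2 (norm_nonneg _) (by norm_num)

lemma φ_summable (z : ℂ) (hz : ‖z‖ < 1) : Summable (fun n : ℕ => z ^ n • PowerSeries.coeff n D.φ) := by
  have hg : Summable (fun n : ℕ => ‖z‖ ^ n * (2 * (‖D.Js‖ * ‖D.J‖))) :=
    (summable_geometric_of_lt_one (norm_nonneg _) hz).mul_right _
  refine Summable.of_norm_bounded hg (fun n => ?_)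
  rw [norm_smul, norm_pow, φ, PowerSeries.coeff_mk]
  exact mul_le_mul_of_nonneg_left (D.φc_norm n) (by positivity)

lemma v_summable (z : ℂ) (hz : ‖z‖ < 1) (c : 𝒞) : Summable (fun n : ℕ => z ^ n • D.P n c) := by
  have hg : Summable (fun n : ℕ => ‖z‖ ^ n * ‖D.J c‖) :=
    (summable_geometric_of_lt_one (norm_nonneg _) hz).mul_right _
  refine Summable.of_norm_bounded hg (fun n => ?_)
  rw [norm_smul, norm_pow, P_norm_apply]

/-- `v(z) = ∑ zⁿ Yⁿ J c` -/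
def v (z : ℂ) (c : 𝒞) : H := ∑' n : ℕ, z ^ n • D.P n c

lemma v_eq (z : ℂ) (hz : ‖z‖ < 1) (c : 𝒞) : D.v z c = D.J c + z • D.Y (D.v z c) := by
  have h1 : D.v z c = D.J c + ∑' n : ℕ, z ^ (n + 1) • D.P (n + 1) c := by
    unfold v
    rw [(D.v_summable z hz c).tsum_eq_zero_add]
    simp [P_zero_apply]
  have h2 : ∑' n : ℕ, z ^ (n + 1) • D.P (n + 1) c = z • D.Y (D.v z c) := by
    have h3 : z • D.Yc (D.v z c) = ∑' n : ℕ, z • D.Yc (z ^ n • D.P n c) := by
      unfold v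
      rw [ContinuousLinearMap.map_tsum _ (D.v_summable z hz c), tsum_const_smul'']
    rw [Yc_apply] at h3
    rw [h3]
    congr 1
    funext n
    rw [P_succ_apply, Yc_apply, map_smul, smul_smul, pow_succ, mul_comm]
  exact h1.trans (by rw [h2])

lemma φ_apply (z : ℂ) (hz : ‖z‖ < 1) (c : 𝒞) :
    (∑' n : ℕ, z ^ n • PowerSeries.coeff n D.φ) c
      = D.Js (D.v z c + z • D.Y (D.v z c)) := by
  have h1 : (∑' n : ℕ, z ^ n • PowerSeries.coeff n D.φ) c
      = ∑' n : ℕ, z ^ n • D.φc n c := by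
    have h := (ContinuousLinearMap.apply ℂ 𝒞 c).map_tsum (D.φ_summable z hz)
    simp only [ContinuousLinearMap.apply_apply] at h
    rw [h]
    congr 1
    funext n
    simp [φ]
  have hs : Summable (fun n : ℕ => D.Js (z ^ n • D.P n c)) :=
    (D.v_summable z hz c).mapL D.Js
  have h2 : ∀ n : ℕ, z ^ n • D.φc n c
      = (2 : ℂ) • D.Js (z ^ n • D.P n c) - (if n = 0 then D.Js (D.J c) else 0) := by
    intro n
    rw [φc_apply, smul_sub, map_smul, smul_comm]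
    congr 1
    rcases n with _ | n <;> simp
  have h3 : ∑' n : ℕ, z ^ n • D.φc n c = (2 : ℂ) • D.Js (D.v z c) - D.Js (D.J c) := by
    simp_rw [h2]
    rw [Summable.tsum_sub (hs.const_smul _), tsum_const_smul'']
    · rw [← ContinuousLinearMap.map_tsum _ (D.v_summable z hz c)]
      simp [v]
    · exact summable_of_ne_finset_zero (s := {0}) (fun n hn => by simp at hn; simp [hn])
  rw [h1, h3]
  have h4 := D.v_eq z hz c
  have h5 : D.J c = D.v z c - z • D.Y (D.v z c) := by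
    exact eq_sub_of_add_eq h4.symm
  rw [h5]
  simp only [map_sub, map_add, two_smul]
  abel

lemma re_eq (z : ℂ) (hz : ‖z‖ < 1) (c : 𝒞) :
    (⟪c, (∑' n : ℕ, z ^ n • PowerSeries.coeff n D.φ) c⟫_ℂ).re
      = (1 - ‖z‖ ^ 2) * ‖D.v z c‖ ^ 2 := by
  rw [D.φ_apply z hz, Js_inner']
  have h4 := D.v_eq z hz c
  have h5 : D.J c = D.v z c - z • D.Y (D.v z c) := eq_sub_of_add_eq h4.symm
  rw [h5]
  set a := D.v z c
  have hw : ‖z • D.Y a‖ ^ 2 = ‖z‖ ^ 2 * ‖a‖ ^ 2 := by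
    rw [norm_smul, LinearIsometryEquiv.norm_map, mul_pow]
  set w := z • D.Y a
  rw [inner_sub_left, inner_add_right, inner_add_right]
  simp only [Complex.sub_re, Complex.add_re]
  have n1 : ∀ x : H, (⟪x, x⟫_ℂ).re = ‖x‖ ^ 2 := fun x => inner_self_eq_norm_sq (𝕜 := ℂ) x
  have n2 : (⟪a, w⟫_ℂ).re = (⟪w, a⟫_ℂ).re := by
    rw [← inner_conj_symm, Complex.conj_re]
  rw [n1, n1, n2, hw]
  ring

lemma posRealPart : PosRealPart D.φ := by
  intro z hz
  refine ⟨D.φ_summable z hz, fun c => ?_⟩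
  rw [D.re_eq z hz]
  have : 0 ≤ 1 - ‖z‖ ^ 2 := by nlinarith [norm_nonneg z]
  positivity

lemma strict (hJ : ∀ c, D.J c = 0 → c = 0) (z : ℂ) (hz : ‖z‖ < 1) (c : 𝒞) (hc : c ≠ 0) :
    0 < (⟪c, (∑' n : ℕ, z ^ n • PowerSeries.coeff n D.φ) c⟫_ℂ).re := by
  rw [D.re_eq z hz]
  have h0 : 0 < 1 - ‖z‖ ^ 2 := by nlinarith [norm_nonneg z]
  have h1 : D.v z c ≠ 0 := by
    intro h
    have h4 := D.v_eq z hz c
    rw [h] at h4
    simp at h4
    exact hc (hJ c h4.symm)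
  have h2 : 0 < ‖D.v z c‖ := norm_pos_iff.mpr h1
  positivity

lemma φ_zero : PowerSeries.coeff 0 D.φ = D.Js.comp D.J := by
  simp [φ, φc, P]

end Coll

end WaveLimit
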