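import Pool.Agent.Helper203.WLAbs3

/-! # Defect operator and Douglas lemma -/

open scoped InnerProductSpace
open Finset

noncomputable section

namespace WaveLimit

section Defect

variable {X : Type*} [NormedAddCommGroup X] [InnerProductSpace ℂ X] [CompleteSpace X]

lemma one_sub_inner (M : X →L[ℂ] X) (x : X) :
    ⟪(1 - M * ContinuousLinearMap.adjoint M) x, x⟫_ℂ
      = ((‖x‖ ^ 2 - ‖ContinuousLinearMap.adjoint M x‖ ^ 2 : ℝ) : ℂ) := by
  have h1 : (1 - M * ContinuousLinearMap.adjoint M) x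
      = x - M (ContinuousLinearMap.adjoint M x) := by
    simp [mul_apply_eq_comp]
  rw [h1, inner_sub_left, ← ContinuousLinearMap.adjoint_inner_right]
  rw [inner_self_eq_norm_sq_to_K, inner_self_eq_norm_sq_to_K]
  push_cast
  rfl

lemma adj_norm_le (M : X →L[ℂ] X) (hM : ‖M‖ ≤ 1) (x : X) :
    ‖ContinuousLinearMap.adjoint M x‖ ≤ ‖x‖ := by
  have h1 := (ContinuousLinearMap.adjoint M).le_opNorm x
  have h2 : ‖ContinuousLinearMap.adjoint M‖ = ‖M‖ := by
    simp
  rw [h2] at h1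
  nlinarith [norm_nonneg x]

lemma one_sub_nonneg (M : X →L[ℂ] X) (hM : ‖M‖ ≤ 1) :
    0 ≤ 1 - M * ContinuousLinearMap.adjoint M := by
  rw [ContinuousLinearMap.nonneg_iff_isPositive, ContinuousLinearMap.isPositive_iff_complex]
  intro x
  rw [one_sub_inner]
  have h := adj_norm_le M hM x
  have h2 : 0 ≤ ‖x‖ ^ 2 - ‖ContinuousLinearMap.adjoint M x‖ ^ 2 := by
    nlinarith [norm_nonneg (ContinuousLinearMap.adjoint M x)]
  refine ⟨?_, ?_⟩
  · rw [RCLike.re_to_complex, Complex.ofReal_re]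
  · rw [RCLike.re_to_complex, Complex.ofReal_re]; exact h2

lemma defect_symm (M : X →L[ℂ] X) (x y : X) : ⟪defect M x, y⟫_ℂ = ⟪x, defect M y⟫_ℂ := by
  have h1 : IsSelfAdjoint (defect M) := (CFC.sqrt_nonneg _).isSelfAdjoint
  have h2 := (ContinuousLinearMap.isSelfAdjoint_iff_isSymmetric).mp h1
  exact h2 x y

lemma defect_defect (M : X →L[ℂ] X) (hM : ‖M‖ ≤ 1) (x : X) :
    defect M (defect M x) = x - M (ContinuousLinearMap.adjoint M x) := by
  have h : defect M * defect M = 1 - M * ContinuousLinearMap.adjoint M :=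
    CFC.sqrt_mul_sqrt_self _ (one_sub_nonneg M hM)
  have h2 := congrArg (fun T : X →L[ℂ] X => T x) h
  simpa [mul_apply_eq_comp] using h2

lemma defect_norm (M : X →L[ℂ] X) (hM : ‖M‖ ≤ 1) (x : X) :
    ‖defect M x‖ ^ 2 = ‖x‖ ^ 2 - ‖ContinuousLinearMap.adjoint M x‖ ^ 2 := by
  have h1 : ⟪defect M x, defect M x⟫_ℂ = ((‖x‖ ^ 2 - ‖ContinuousLinearMap.adjoint M x‖ ^ 2 : ℝ) : ℂ) := by
    rw [← defect_symm, defect_defect M hM, ← one_sub_inner]
    simp [mul_apply_eq_comp]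
  have n1 : (⟪defect M x, defect M x⟫_ℂ).re = ‖defect M x‖ ^ 2 :=
    inner_self_eq_norm_sq (𝕜 := ℂ) (defect M x)
  rw [← n1, h1, Complex.ofReal_re]

end Defect

section Douglas

variable {X H : Type*} [NormedAddCommGroup X] [InnerProductSpace ℂ X] [CompleteSpace X]
  [NormedAddCommGroup H] [InnerProductSpace ℂ H] [CompleteSpace H]

lemma douglas (T : X →L[ℂ] X) (hT : ∀ x y, ⟪T x, y⟫_ℂ = ⟪x, T y⟫_ℂ) (O : H →L[ℂ] X)
    (h : ∀ v, ‖T v‖ ≤ ‖ContinuousLinearMap.adjoint O v‖) (g : X) : ∃ x : H, T g = O x := by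
  classical
  set A := ContinuousLinearMap.adjoint O with hA
  have hwd : ∀ v w, A v = A w → T v = T w := by
    intro v w hvw
    have h1 := h (v - w)
    rw [map_sub, map_sub, hvw, sub_self, norm_zero] at h1
    exact sub_eq_zero.mp (norm_le_zero_iff.mp h1)
  have hch : ∀ y : LinearMap.range (A : X →ₗ[ℂ] H), ∃ v : X, A v = (y : H) := fun y => by
    obtain ⟨v, hv⟩ := y.2
    exact ⟨v, hv⟩
  choose s hs using hch
  let ψ₀ : LinearMap.range (A : X →ₗ[ℂ] H) →ₗ[ℂ] ℂ :=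
    { toFun := fun y => ⟪g, T (s y)⟫_ℂ
      map_add' := fun y z => by
        have h1 : T (s (y + z)) = T (s y + s z) := hwd _ _ (by
          rw [hs, map_add, hs, hs]; rfl)
        rw [h1, map_add, inner_add_right]
      map_smul' := fun c y => by
        have h1 : T (s (c • y)) = T (c • s y) := hwd _ _ (by
          rw [hs, map_smul, hs]; rfl)
        rw [h1, map_smul, inner_smul_right]; rfl }
  have hb : ∀ y, ‖ψ₀ y‖ ≤ ‖g‖ * ‖y‖ := by
    intro y
    calc ‖ψ₀ y‖ = ‖⟪g, T (s y)⟫_ℂ‖ := rfl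
      _ ≤ ‖g‖ * ‖T (s y)‖ := norm_inner_le_norm _ _
      _ ≤ ‖g‖ * ‖A (s y)‖ := mul_le_mul_of_nonneg_left (h _) (norm_nonneg _)
      _ = ‖g‖ * ‖y‖ := by rw [hs]; rfl
  obtain ⟨F, hF, -⟩ := exists_extension_norm_eq _ (ψ₀.mkContinuous ‖g‖ hb)
  refine ⟨(InnerProductSpace.toDual ℂ H).symm F, ?_⟩
  refine ext_inner_right ℂ (fun v => ?_)
  rw [hT]
  have h2 : ⟪O ((InnerProductSpace.toDual ℂ H).symm F), v⟫_ℂ = F (A v) := by
    rw [← ContinuousLinearMap.adjoint_inner_right, InnerProductSpace.toDual_symm_apply]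
  rw [h2]
  have h3 := hF ⟨A v, ⟨v, rfl⟩⟩
  have h4 : T (s ⟨A v, ⟨v, rfl⟩⟩) = T v := hwd _ _ (hs _)
  calc ⟪g, T v⟫_ℂ = ⟪g, T (s ⟨A v, ⟨v, rfl⟩⟩)⟫_ℂ := by rw [h4]
    _ = F (A v) := h3.symm

end Douglas

variable {H 𝒞 : Type*} [NormedAddCommGroup H] [InnerProductSpace ℂ H] [CompleteSpace H]
  [NormedAddCommGroup 𝒞] [InnerProductSpace ℂ 𝒞] [CompleteSpace 𝒞]

namespace Coll

variable (D : Coll H 𝒞)

/-- prepend a coefficient -/
def cons (a : 𝒞) (f : ℕ → 𝒞) : ℕ → 𝒞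
  | 0 => a
  | n + 1 => f n

lemma st_cons (x : H) (a : 𝒞) (f : ℕ → 𝒞) (k : ℕ) :
    D.st x (cons a f) (k + 1) = D.st (D.CH (D.Y x) + D.N a) f k := by
  induction k with
  | zero => rfl
  | succ k ih =>
    rw [st_succ, ih, st_succ]
    rfl

lemma backward (n : ℕ) : ∀ v : ℕ → 𝒞, ∃ (x : H) (f : ℕ → 𝒞),
    (∀ k, n ≤ k → f k = 0) ∧ D.st x f n = 0 ∧ ∀ k, k < n → D.out x f k = v k := by
  induction n with
  | zero =>
    intro v
    exact ⟨0, 0, fun k _ => rfl, rfl, fun k hk => absurd hk (Nat.not_lt_zero k)⟩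
  | succ n ih =>
    intro v
    obtain ⟨x', f', h1, h2, h3⟩ := ih (fun k => v (k + 1))
    have hY : D.CH (D.Y (D.Y.symm (D.CH x' - D.N (v 0)))) + D.N (D.Ns x' + D.C (v 0)) = x' := by
      rw [LinearIsometryEquiv.apply_symm_apply]
      exact D.inv_state x' (v 0)
    refine ⟨D.Y.symm (D.CH x' - D.N (v 0)), cons (D.Ns x' + D.C (v 0)) f', ?_, ?_, ?_⟩
    · intro k hk
      obtain ⟨k', rfl⟩ : ∃ k', k = k' + 1 := ⟨k - 1, by omega⟩
      exact h1 k' (by omega)
    · rw [st_cons, hY, h2]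
    · intro k hk
      rcases k with _ | k
      · change D.C (D.Ns x' + D.C (v 0)) - D.Ns (D.Y (D.Y.symm (D.CH x' - D.N (v 0)))) = v 0
        rw [LinearIsometryEquiv.apply_symm_apply]
        exact D.inv_out x' (v 0)
      · have := h3 k (by omega)
        unfold out
        rw [st_cons, hY]
        exact this

lemma st_zero_of (x : H) (f : ℕ → 𝒞) (n : ℕ) (hf : ∀ k, n ≤ k → f k = 0)
    (h0 : D.st x f n = 0) (k : ℕ) (hk : n ≤ k) : D.st x f k = 0 := by
  induction k, hk using Nat.le_induction with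
  | base => exact h0
  | succ k hk ih => rw [st_succ, ih, hf k hk]; simp

lemma norm_sq_fin (v : CZ 𝒞) (n : ℕ) (hv : ∀ k, n ≤ k → v k = 0) :
    ‖v‖ ^ 2 = ∑ i ∈ range n, ‖v i‖ ^ 2 := by
  rw [norm_sq_eq]
  exact tsum_eq_sum (fun i hi => by
    rw [hv i (by simpa using hi)]; simp)

lemma fin_ineq (v : CZ 𝒞) (n : ℕ) (hv : ∀ k, n ≤ k → v k = 0) :
    ‖v‖ ^ 2 ≤ ‖ContinuousLinearMap.adjoint D.O v‖ ^ 2
      + ‖ContinuousLinearMap.adjoint D.M v‖ ^ 2 := by
  obtain ⟨x, f, h1, h2, h3⟩ := D.backward n v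
  have hfm : Memℓp f 2 := by
    apply memℓp_gen
    exact summable_of_ne_finset_zero (s := range n) (fun k hk => by
      rw [h1 k (by simpa using hk)]; simp)
  let F : CZ 𝒞 := ⟨f, hfm⟩
  have hFf : ∀ k, F k = f k := fun k => rfl
  have hG : v = D.O x + D.M F := by
    apply lp.ext
    funext k
    change v k = D.O x k + D.M F k
    rw [O_M]
    change v k = D.out x f k
    by_cases hk : k < n
    · exact (h3 k hk).symm
    · have hk' : n ≤ k := by omega
      rw [hv k hk', out, D.st_zero_of x f n h1 h2 k hk', h1 k hk']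
      simp
  have hE := D.energy_sum x f n
  have hE2 : ‖x‖ ^ 2 + ‖F‖ ^ 2 = ‖v‖ ^ 2 := by
    rw [norm_sq_fin v n hv, norm_sq_fin F n h1]
    rw [h2, norm_zero] at hE
    have e1 : ∑ i ∈ range n, ‖D.out x f i‖ ^ 2 = ∑ i ∈ range n, ‖v i‖ ^ 2 :=
      sum_congr rfl (fun i hi => by rw [h3 i (by simpa using hi)])
    rw [e1] at hE
    have e2 : ∑ i ∈ range n, ‖F i‖ ^ 2 = ∑ i ∈ range n, ‖f i‖ ^ 2 := rfl
    rw [e2]
    linarith
  have hI : ‖v‖ ^ 2 = (⟪ContinuousLinearMap.adjoint D.O v, x⟫_ℂ).re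
      + (⟪ContinuousLinearMap.adjoint D.M v, F⟫_ℂ).re := by
    rw [ContinuousLinearMap.adjoint_inner_left, ContinuousLinearMap.adjoint_inner_left,
      ← Complex.add_re, ← inner_add_right, ← hG]
    exact (inner_self_eq_norm_sq (𝕜 := ℂ) v).symm
  have b1 : (⟪ContinuousLinearMap.adjoint D.O v, x⟫_ℂ).re
      ≤ ‖ContinuousLinearMap.adjoint D.O v‖ * ‖x‖ :=
    (Complex.re_le_norm _).trans (norm_inner_le_norm _ _)
  have b2 : (⟪ContinuousLinearMap.adjoint D.M v, F⟫_ℂ).re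
      ≤ ‖ContinuousLinearMap.adjoint D.M v‖ * ‖F‖ :=
    (Complex.re_le_norm _).trans (norm_inner_le_norm _ _)
  nlinarith [sq_nonneg (‖ContinuousLinearMap.adjoint D.O v‖ - ‖x‖),
    sq_nonneg (‖ContinuousLinearMap.adjoint D.M v‖ - ‖F‖)]

lemma all_ineq (v : CZ 𝒞) :
    ‖v‖ ^ 2 ≤ ‖ContinuousLinearMap.adjoint D.O v‖ ^ 2
      + ‖ContinuousLinearMap.adjoint D.M v‖ ^ 2 := by
  have ht : Filter.Tendsto (fun s : Finset ℕ => ∑ i ∈ s, lp.single 2 i (v i : 𝒞))
      Filter.atTop (nhds v) := lp.hasSum_single (by norm_num) v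
  have hc1 : Continuous (fun w : CZ 𝒞 => ‖w‖ ^ 2) := by fun_prop
  have hc2 : Continuous (fun w : CZ 𝒞 => ‖ContinuousLinearMap.adjoint D.O w‖ ^ 2
      + ‖ContinuousLinearMap.adjoint D.M w‖ ^ 2) := by fun_prop
  refine le_of_tendsto_of_tendsto' ((hc1.tendsto v).comp ht) ((hc2.tendsto v).comp ht)
    (fun s => ?_)
  obtain ⟨n, hn⟩ := s.exists_nat_subset_range
  refine D.fin_ineq _ n (fun k hk => ?_)
  rw [lp.coeFn_sum, Finset.sum_apply]
  refine sum_eq_zero (fun i hi => ?_)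
  have : k ≠ i := by
    have := hn hi
    simp at this
    omega
  exact lp.single_apply_ne 2 i _ this

lemma defect_le (v : CZ 𝒞) : ‖defect D.M v‖ ≤ ‖ContinuousLinearMap.adjoint D.O v‖ := by
  have h1 := defect_norm D.M D.M_norm_le v
  have h2 := D.all_ineq v
  have h3 : ‖defect D.M v‖ ^ 2 ≤ ‖ContinuousLinearMap.adjoint D.O v‖ ^ 2 := by linarith
  exact (abs_le_of_sq_le_sq' h3 (norm_nonneg _)).2

lemma range_le (g : CZ 𝒞) : ∃ x : H, defect D.M g = D.O x :=
  douglas (defect D.M) (defect_symm D.M) D.O D.defect_le g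

/-- the orbit under `Y` -/
def orb (h : H) : ℕ → H
  | 0 => h
  | n + 1 => D.Y (orb h n)

lemma one_add_C_inj (u : 𝒞) (h : u + D.C u = 0) : u = 0 := by
  have h1 := D.h1 u
  rw [← map_add, h, map_zero, map_zero] at h1
  have h2 : D.C u = -u := by
    rw [eq_neg_iff_add_eq_zero, add_comm]; exact h
  rw [h2, sub_neg_eq_add, ← two_smul ℂ u] at h1
  have := h1.symm
  simpa using this

lemma core (hS : ∀ h : H, Summable (fun n => ‖D.Js (D.orb h n)‖ ^ 2) → h = 0)
    (f : CZ 𝒞) (x : H) (h : f + D.M f = D.O x) : f = 0 := by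
  have hout : ∀ n, D.out (-x) f n = -(f n) := by
    intro n
    rw [← O_M, map_neg]
    have h1 : f n + D.M f n = D.O x n := by
      have := congrArg (fun w : CZ 𝒞 => w n) h
      exact this
    change -(D.O x n) + D.M f n = -(f n)
    rw [← h1]; abel
  have hf : ∀ n, D.Js (D.Y (D.st (-x) f n)) = f n := by
    intro n
    have h1 := hout n
    unfold out at h1
    have h2 : D.Ns (D.Y (D.st (-x) f n)) = f n + D.C (f n) := by
      have : D.Ns (D.Y (D.st (-x) f n)) = D.C (f n) - -(f n) := by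
        rw [← h1]; abel
      rw [this]; abel
    rw [Ns_apply] at h2
    have h3 : (D.Js (D.Y (D.st (-x) f n)) - f n) + D.C (D.Js (D.Y (D.st (-x) f n)) - f n) = 0 := by
      rw [map_sub]
      calc _ = (D.Js (D.Y (D.st (-x) f n)) + D.C (D.Js (D.Y (D.st (-x) f n))))
          - (f n + D.C (f n)) := by abel
        _ = 0 := by rw [h2, sub_self]
    exact sub_eq_zero.mp (D.one_add_C_inj _ h3)
  have hst : ∀ n, D.st (-x) f n = D.orb (-x) n := by
    intro n
    induction n with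
    | zero => rfl
    | succ n ih =>
      rw [st_succ]
      change _ = D.Y (D.orb (-x) n)
      rw [← ih, CH_apply, ← hf n]
      abel
  have hsum : Summable (fun n => ‖D.Js (D.orb (-x) n)‖ ^ 2) := by
    rw [← summable_nat_add_iff 1]
    refine (summable_sq f).congr (fun n => ?_)
    rw [← hf n, hst n]
    rfl
  have hx : -x = 0 := hS _ hsum
  have hst0 : ∀ n, D.orb (-x) n = 0 := by
    intro n
    induction n with
    | zero => exact hx
    | succ n ih => change D.Y (D.orb (-x) n) = 0; rw [ih, map_zero]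
  apply lp.ext
  funext n
  rw [← hf n, hst n, hst0 n]
  simp

lemma core' (hS : ∀ h : H, Summable (fun n => ‖D.Js (D.orb h n)‖ ^ 2) → h = 0)
    (f g : CZ 𝒞) (h : f + D.M f = defect D.M g) : f = 0 := by
  obtain ⟨x, hx⟩ := D.range_le g
  exact D.core hS f x (h.trans hx)

lemma st_single (u : 𝒞) (n : ℕ) :
    D.st 0 (lp.single 2 0 u : CZ 𝒞) (n + 1) = D.X n u := by
  induction n with
  | zero =>
    rw [st_succ, st_zero, map_zero, map_zero, zero_add, X_zero_apply]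
    rw [lp.single_apply_self]
  | succ n ih =>
    rw [st_succ, ih, X_succ_apply]
    have h0 : (lp.single 2 0 u : CZ 𝒞) (n + 1) = 0 :=
      lp.single_apply_ne (E := fun _ : ℕ => 𝒞) 2 0 u (by omega)
    have h1 : D.N ((lp.single 2 0 u : CZ 𝒞) (n + 1)) = 0 := by rw [h0, map_zero]
    exact (congrArg _ h1).trans (add_zero _)

lemma survivor (u : 𝒞) (δ : ℝ) (hδ : 0 < δ) (hX : ∀ n, δ ≤ ‖D.X n u‖) :
    ‖D.M (lp.single 2 0 u : CZ 𝒞)‖ ^ 2 ≤ ‖(lp.single 2 0 u : CZ 𝒞)‖ ^ 2 - δ ^ 2 := by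
  set U : CZ 𝒞 := lp.single 2 0 u with hU
  rw [norm_sq_eq (D.M U)]
  refine (D.out_summable 0 U).tsum_le_of_sum_range_le (fun n => ?_)
  rcases n with _ | n
  · have h1 := D.energy_sum 0 U 1
    have h2 := sum_le U 1
    rw [D.st_single u 0] at h1
    have h3 := hX 0
    have h5 : δ ^ 2 ≤ ‖D.X 0 u‖ ^ 2 := by nlinarith
    have h4 : 0 ≤ ∑ i ∈ range 1, ‖D.out 0 U i‖ ^ 2 := by positivity
    rw [norm_zero] at h1
    simp only [range_zero, sum_empty]
    linarith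
  · have h1 := D.energy_sum 0 U (n + 1)
    have h2 := sum_le U (n + 1)
    rw [D.st_single u n, norm_zero] at h1
    have h3 := hX n
    have h5 : δ ^ 2 ≤ ‖D.X n u‖ ^ 2 := by nlinarith
    linarith

lemma one_add_B_mul : (1 + D.B) * (1 + D.φ) = 2 := by
  have := D.isCayley.2
  rw [add_mul, one_mul, this, show (2 : PowerSeries (𝒞 →L[ℂ] 𝒞)) = 1 + 1 by norm_num]
  abel

lemma mul_one_add_B : (1 + D.φ) * (1 + D.B) = 2 := by
  have := D.isCayley.1
  rw [mul_add, mul_one, this, show (2 : PowerSeries (𝒞 →L[ℂ] 𝒞)) = 1 + 1 by norm_num]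
  abel

lemma coeff_one_add_mul (B F : PowerSeries (𝒞 →L[ℂ] 𝒞)) (c : 𝒞) (n : ℕ) :
    (PowerSeries.coeff n ((1 + B) * F) : 𝒞 →L[ℂ] 𝒞) c
      = (PowerSeries.coeff n F : 𝒞 →L[ℂ] 𝒞) c
        + act B (fun j => (PowerSeries.coeff j F : 𝒞 →L[ℂ] 𝒞) c) n := by
  rw [add_mul, one_mul, map_add, PowerSeries.coeff_mul, add_apply, _root_.sum_apply]
  rfl

/-- every element of `L(φ)` is a unique formal power series -/
lemma exists_unique_series (c : 𝒞) (hc : ⟪c, c⟫_ℂ = 1) (g : Lphi D.M) :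
    ∃! f : ℕ → 𝒞, Represents D.B D.M g f := by
  let T : 𝒞 → (𝒞 →L[ℂ] 𝒞) := fun v => (innerSL ℂ c).smulRight v
  have hT : ∀ v, T v c = v := fun v => by
    change ⟪c, c⟫_ℂ • v = v
    rw [hc, one_smul]
  set y : CZ 𝒞 := defect D.M (g : CZ 𝒞) with hy
  have h2 : ∀ P : PowerSeries (𝒞 →L[ℂ] 𝒞), (2 : PowerSeries (𝒞 →L[ℂ] 𝒞)) * P = 0 → P = 0 := by
    intro P hP
    have h3 : P + P = 0 := by rw [← two_mul]; exact hP
    apply PowerSeries.ext
    intro n
    have h4 := congrArg (PowerSeries.coeff n) h3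
    rw [map_add, map_zero, ← two_smul ℂ] at h4
    rw [map_zero]
    simpa using h4
  let F : PowerSeries (𝒞 →L[ℂ] 𝒞) :=
    (1 + D.φ) * PowerSeries.mk (fun n => (1 / 2 : ℂ) • T (y n))
  have hF : (1 + D.B) * F = PowerSeries.mk (fun n => T (y n)) := by
    change (1 + D.B) * ((1 + D.φ) * _) = _
    rw [← mul_assoc, one_add_B_mul, two_mul]
    apply PowerSeries.ext
    intro n
    rw [map_add, PowerSeries.coeff_mk, PowerSeries.coeff_mk, ← add_smul]
    norm_num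
  refine ⟨fun n => PowerSeries.coeff n F c, fun n => ?_, fun f' hf' => ?_⟩
  · change PowerSeries.coeff n F c + act D.B (fun j => PowerSeries.coeff j F c) n = y n
    rw [← coeff_one_add_mul, hF, PowerSeries.coeff_mk, hT]
  · let F' : PowerSeries (𝒞 →L[ℂ] 𝒞) := PowerSeries.mk (fun n => T (f' n))
    have hF' : (1 + D.B) * F' = PowerSeries.mk (fun n => T (y n)) := by
      apply PowerSeries.ext
      intro n
      rw [PowerSeries.coeff_mk]
      have e1 : (y n) = f' n + act D.B f' n := (hf' n).symm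
      rw [e1, add_mul, one_mul, map_add, PowerSeries.coeff_mul, PowerSeries.coeff_mk]
      ext x
      rw [add_apply, _root_.sum_apply]
      change ⟪c, x⟫_ℂ • f' n + ∑ p ∈ HasAntidiagonal.antidiagonal n,
        (PowerSeries.coeff p.1 D.B) ((PowerSeries.coeff p.2 F') x)
          = ⟪c, x⟫_ℂ • (f' n + act D.B f' n)
      rw [smul_add, act, smul_sum]
      congr 1
      refine sum_congr rfl (fun p _ => ?_)
      rw [PowerSeries.coeff_mk]
      change (PowerSeries.coeff p.1 D.B) (⟪c, x⟫_ℂ • f' p.2) = _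
      rw [map_smul]
    have h5 : (2 : PowerSeries (𝒞 →L[ℂ] 𝒞)) * (F' - F) = 0 := by
      rw [← D.mul_one_add_B, mul_assoc, mul_sub, hF, hF', sub_self, mul_zero]
    have h6 : F' = F := sub_eq_zero.mp (h2 _ h5)
    funext n
    rw [← h6, PowerSeries.coeff_mk, hT]

/-- the abstract theorem -/
theorem main (hS : ∀ h : H, Summable (fun n => ‖D.Js (D.orb h n)‖ ^ 2) → h = 0)
    (u : 𝒞) (δ : ℝ) (hδ : 0 < δ) (hX : ∀ n, δ ≤ ‖D.X n u‖) :
    ∃ W, IsWaveLimit D.B D.M W ∧ (∀ W', IsWaveLimit D.B D.M W' → W' = W) ∧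
      ¬ Function.Surjective W := by
  have key : ∀ (g : Lphi D.M) (f : CZ 𝒞), Represents D.B D.M g f → f = 0 ∧ g = 0 := by
    intro g f h
    have h : f + D.M f = defect D.M (g : CZ 𝒞) := by
      apply lp.ext
      funext n
      have h1 := h n
      rw [← D.isMul.2 f n] at h1
      exact h1
    have hf : f = 0 := D.core' hS f g h
    refine ⟨hf, ?_⟩
    rw [hf, map_zero, add_zero] at h
    have h1 : (g : CZ 𝒞) ∈ LinearMap.ker (defect D.M : CZ 𝒞 →ₗ[ℂ] CZ 𝒞) := by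
      rw [LinearMap.mem_ker]
      exact h.symm
    have h2 := g.2
    rw [Submodule.mem_orthogonal] at h2
    have h3 := h2 g h1
    rw [inner_self_eq_zero] at h3
    exact Subtype.ext h3
  have uniq : ∀ W, IsWaveLimit D.B D.M W → W = 0 := by
    intro W hW
    ext1 g
    rw [hW.off g (fun g' ⟨f, hf⟩ => by rw [(key g' f hf).2, inner_zero_left])]
    rfl
  refine ⟨0, ⟨?_, ?_⟩, uniq, ?_⟩
  · intro g f h
    rw [(key g f h).1]
    simp
  · intro g _
    rfl
  · intro hsurj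
    set U : CZ 𝒞 := lp.single 2 0 u with hU
    have hs := D.survivor u δ hδ hX
    rw [← hU] at hs
    set f : CZ 𝒞 := U - ContinuousLinearMap.adjoint D.M (D.M U) with hf
    have hf0 : f ≠ 0 := by
      intro h0
      have h1 : ⟪f, U⟫_ℂ = 0 := by rw [h0, inner_zero_left]
      rw [hf, inner_sub_left, ContinuousLinearMap.adjoint_inner_left] at h1
      have h2 := congrArg Complex.re h1
      rw [Complex.sub_re] at h2
      have n1 : (⟪U, U⟫_ℂ).re = ‖U‖ ^ 2 := inner_self_eq_norm_sq (𝕜 := ℂ) U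
      have n2 : (⟪D.M U, D.M U⟫_ℂ).re = ‖D.M U‖ ^ 2 := inner_self_eq_norm_sq (𝕜 := ℂ) (D.M U)
      rw [n1, n2] at h2
      simp at h2
      nlinarith
    have hg : defect D.M (D.M U) ∈ (LinearMap.ker (defect D.M : CZ 𝒞 →ₗ[ℂ] CZ 𝒞))ᗮ := by
      rw [Submodule.mem_orthogonal]
      intro k hk
      rw [LinearMap.mem_ker] at hk
      rw [← defect_symm]
      have hk' : defect D.M k = 0 := hk
      rw [hk', inner_zero_left]
    have hMf : D.M f = defect D.M (defect D.M (D.M U)) := by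
      rw [defect_defect _ D.M_norm_le, hf, map_sub]
    let p : Overlap D.M :=
      ⟨WithLp.toLp 2 (f, (⟨defect D.M (D.M U), hg⟩ : HB D.M)), hMf⟩
    obtain ⟨g, hg2⟩ := hsurj p
    have h3 : (p : WithLp 2 (CZ 𝒞 × HB D.M)).fst = 0 := by
      rw [← hg2]; rfl
    exact hf0 h3

end Coll

end WaveLimit
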