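import Mathlib

/-! # Two sequence lemmas -/

namespace WaveLimit

open Finset

lemma no_smooth (a b : ℕ → ℂ) (s κ c : ℕ → ℝ)
    (hs0 : ∀ i, 0 ≤ s i) (hs1 : ∀ i, s i ≤ 1 / 10) (hκ0 : ∀ i, 0 ≤ κ i)
    (hsk : ∀ i, s i ^ 2 + κ i ^ 2 = 1) (hsc : ∀ i, s i ≤ c i)
    (ha : ∀ i, a (i + 1) = κ i * a i - s i * b i)
    (hb : ∀ i, b (i + 1) = s i * a i + κ i * b i)
    (hsum : Summable (fun i => c i * ‖b i‖ ^ 2)) (hns : ¬ Summable s) :
    a 0 = 0 ∧ b 0 = 0 := by
  have hN : ∀ z : ℂ, ‖z‖ ^ 2 = z.re ^ 2 + z.im ^ 2 := fun z => by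
    rw [Complex.sq_norm, Complex.normSq_apply]; ring
  have hE : ∀ i, ‖a i‖ ^ 2 + ‖b i‖ ^ 2 = ‖a 0‖ ^ 2 + ‖b 0‖ ^ 2 := by
    intro i
    induction i with
    | zero => rfl
    | succ i ih =>
      rw [← ih, ha, hb, hN, hN, hN, hN]
      simp only [Complex.sub_re, Complex.sub_im, Complex.add_re, Complex.add_im, Complex.mul_re,
        Complex.mul_im, Complex.ofReal_re, Complex.ofReal_im]
      have := hsk i
      linear_combination ((a i).re ^ 2 + (a i).im ^ 2 + (b i).re ^ 2 + (b i).im ^ 2) * this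
  set E := ‖a 0‖ ^ 2 + ‖b 0‖ ^ 2 with hEdef
  have hE0 : 0 ≤ E := by positivity
  set p : ℕ → ℝ := fun i => (a i).re * (b i).re + (a i).im * (b i).im with hp
  have hpE : ∀ i, |p i| ≤ E / 2 := by
    intro i
    have h1 := hE i
    rw [hN, hN] at h1
    rw [abs_le]
    constructor <;>
    nlinarith [sq_nonneg ((a i).re - (b i).re), sq_nonneg ((a i).im - (b i).im),
      sq_nonneg ((a i).re + (b i).re), sq_nonneg ((a i).im + (b i).im)]
  have hstep : ∀ i, (2 / 5) * E * s i - 2 * (c i * ‖b i‖ ^ 2) ≤ p (i + 1) - p i := by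
    intro i
    have e1 : p (i + 1) - p i = κ i * s i * (E - 2 * ‖b i‖ ^ 2) - 2 * s i ^ 2 * p i := by
      have h1 := hE i
      simp only [hp]
      rw [← h1, ha, hb, hN, hN]
      simp only [Complex.sub_re, Complex.sub_im, Complex.add_re, Complex.add_im, Complex.mul_re,
        Complex.mul_im, Complex.ofReal_re, Complex.ofReal_im]
      have := hsk i
      linear_combination ((a i).re * (b i).re + (a i).im * (b i).im) * this
    rw [e1]
    have hκ1 : κ i ≤ 1 := by nlinarith [hsk i, sq_nonneg (s i), hκ0 i]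
    have hκ2 : 1 / 2 ≤ κ i := by
      have h1 := hsk i
      have h2 := hs0 i
      have h3 := hs1 i
      by_contra hcon
      push Not at hcon
      nlinarith [hκ0 i]
    have hp1 := (abs_le.mp (hpE i)).2
    have hb0 : 0 ≤ ‖b i‖ ^ 2 := by positivity
    have t1 : 2 * s i ^ 2 * p i ≤ s i * (1 / 10) * E := by
      have h2 : s i ^ 2 ≤ s i * (1 / 10) := by nlinarith [hs0 i, hs1 i]
      have h3 : 2 * s i ^ 2 * p i ≤ 2 * s i ^ 2 * (E / 2) :=
        mul_le_mul_of_nonneg_left hp1 (by positivity)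
      nlinarith
    have t2 : κ i * s i * (2 * ‖b i‖ ^ 2) ≤ 2 * (c i * ‖b i‖ ^ 2) := by
      have h2 : κ i * s i ≤ c i := by nlinarith [hs0 i, hsc i]
      nlinarith
    have t3 : (1 / 2) * s i * E ≤ κ i * s i * E := by
      have : 0 ≤ s i * E := mul_nonneg (hs0 i) hE0
      nlinarith
    nlinarith
  have hsumstep : ∀ n, (2 / 5) * E * ∑ i ∈ range n, s i
      ≤ p n - p 0 + 2 * ∑ i ∈ range n, c i * ‖b i‖ ^ 2 := by
    intro n
    induction n with
    | zero => simp
    | succ n ih =>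
      rw [sum_range_succ, sum_range_succ]
      have := hstep n
      nlinarith
  have hc0 : ∀ i, 0 ≤ c i * ‖b i‖ ^ 2 := fun i =>
    mul_nonneg ((hs0 i).trans (hsc i)) (by positivity)
  have hbound : ∀ n, (2 / 5) * E * ∑ i ∈ range n, s i ≤ E + 2 * ∑' i, c i * ‖b i‖ ^ 2 := by
    intro n
    have h1 := hsumstep n
    have h2 := hsum.sum_le_tsum (range n) (fun i _ => hc0 i)
    have h3 := (abs_le.mp (hpE n)).2
    have h4 := (abs_le.mp (hpE 0)).1
    linarith
  have hEz : E = 0 := by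
    by_contra hne
    have hpos : 0 < E := lt_of_le_of_ne hE0 (Ne.symm hne)
    apply hns
    refine summable_of_sum_range_le (c := (E + 2 * ∑' i, c i * ‖b i‖ ^ 2) / ((2 / 5) * E)) hs0
      (fun n => ?_)
    rw [le_div_iff₀ (by positivity)]
    have := hbound n
    linarith
  have h1 : ‖a 0‖ ^ 2 = 0 := by
    have h2 : 0 ≤ ‖a 0‖ ^ 2 := by positivity
    have h3 : 0 ≤ ‖b 0‖ ^ 2 := by positivity
    linarith
  have h2 : ‖b 0‖ ^ 2 = 0 := by
    have h3 : 0 ≤ ‖b 0‖ ^ 2 := by positivity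
    linarith
  constructor
  · simpa using h1
  · simpa using h2

lemma zeno (α β s κ c q : ℕ → ℝ) (h0 : α 0 = 1) (h0' : β 0 = 0)
    (hs0 : ∀ i, 0 ≤ s i) (hκ0 : ∀ i, 0 ≤ κ i) (hsk : ∀ i, s i ^ 2 + κ i ^ 2 = 1)
    (hc0 : ∀ i, 0 < c i) (hc1 : ∀ i, c i ≤ 1) (hq0 : ∀ i, 0 ≤ q i) (hq1 : ∀ i, q i ≤ 1 - c i)
    (hα : ∀ i, α (i + 1) = κ i * α i - s i * β i)
    (hβ : ∀ i, β (i + 1) = q i * (s i * α i + κ i * β i))
    (T : ℝ) (hT : ∀ n, ∑ i ∈ range n, s i ^ 2 / c i ≤ T) (hT4 : T ≤ 1 / 4) (n : ℕ) :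
    1 / 2 ≤ α n := by
  have key : ∀ n, α n ^ 2 + β n ^ 2 ≤ 1 ∧
      1 - 2 * ∑ i ∈ range n, s i ^ 2 / c i ≤ α n - β n ^ 2 / 2 := by
    intro n
    induction n with
    | zero => rw [h0, h0']; norm_num
    | succ n ih =>
      obtain ⟨i1, i2⟩ := ih
      have hS := hT n
      have hα2 : 1 / 2 ≤ α n := by nlinarith [sq_nonneg (β n)]
      have hα1 : α n ≤ 1 := by nlinarith [sq_nonneg (β n)]
      have hsκ := hsk n
      have hκ1 : κ n ≤ 1 := by nlinarith [sq_nonneg (s n), hκ0 n]
      have hs1 : s n ≤ 1 := by nlinarith [sq_nonneg (κ n), hs0 n]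
      have hκ2 : 1 - s n ^ 2 ≤ κ n := by nlinarith [hκ0 n]
      have hc := hc0 n
      have hcl := hc1 n
      set t := s n ^ 2 / c n with ht
      have htc : s n ^ 2 = t * c n := by rw [ht]; field_simp
      have ht0 : 0 ≤ t := by rw [ht]; positivity
      have hst : s n ^ 2 ≤ t := by nlinarith
      have hq1' : q n ≤ 1 := by linarith [hq1 n]
      constructor
      · rw [hα, hβ]
        have h1 : (q n * (s n * α n + κ n * β n)) ^ 2 ≤ (s n * α n + κ n * β n) ^ 2 := by
          rw [mul_pow]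
          have : q n ^ 2 ≤ 1 := by nlinarith [hq0 n]
          nlinarith [sq_nonneg (s n * α n + κ n * β n)]
        have h2 : (κ n * α n - s n * β n) ^ 2 + (s n * α n + κ n * β n) ^ 2
            = α n ^ 2 + β n ^ 2 := by
          linear_combination (α n ^ 2 + β n ^ 2) * hsκ
        linarith
      · rw [sum_range_succ]
        -- bound for β
        have hb1 : β (n + 1) ^ 2 ≤ (1 - c n) * β n ^ 2 + t := by
          rw [hβ, mul_pow]
          have hab : |s n * α n + κ n * β n| ≤ s n + |β n| := by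
            calc |s n * α n + κ n * β n| ≤ |s n * α n| + |κ n * β n| := abs_add_le _ _
              _ = s n * |α n| + κ n * |β n| := by
                rw [abs_mul, abs_mul, abs_of_nonneg (hs0 n), abs_of_nonneg (hκ0 n)]
              _ ≤ s n * 1 + 1 * |β n| := by
                have : |α n| ≤ 1 := by rw [abs_le]; constructor <;> linarith
                exact add_le_add (mul_le_mul_of_nonneg_left this (hs0 n))
                  (mul_le_mul_of_nonneg_right hκ1 (abs_nonneg _))
              _ = s n + |β n| := by ring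
          have hsq : (s n * α n + κ n * β n) ^ 2 ≤ (s n + |β n|) ^ 2 := by
            rw [← sq_abs (s n * α n + κ n * β n)]
            exact pow_le_pow_left₀ (abs_nonneg _) hab 2
          have hq2 : q n ^ 2 ≤ (1 - c n) ^ 2 := pow_le_pow_left₀ (hq0 n) (hq1 n) 2
          have h3 : q n ^ 2 * (s n * α n + κ n * β n) ^ 2 ≤ (1 - c n) ^ 2 * (s n + |β n|) ^ 2 :=
            mul_le_mul hq2 hsq (sq_nonneg _) (sq_nonneg _)
          refine h3.trans ?_
          rw [← sq_abs (β n)]
          set B := |β n|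
          have hB : 0 ≤ B := abs_nonneg _
          -- (1-c)^2 (s+B)^2 ≤ (1-c) B^2 + t, with t c = s^2
          have hcc : 0 ≤ 1 - c n := by linarith
          have h4 : (1 - c n) * (s n + B) ^ 2 ≤ B ^ 2 + t := by
            -- c * (B^2 + t - (1-c)(s+B)^2) ≥ 0
            have h5 : 0 ≤ c n * (B ^ 2 + t - (1 - c n) * (s n + B) ^ 2) := by
              have e : c n * (B ^ 2 + t - (1 - c n) * (s n + B) ^ 2)
                  = (c n * B - (1 - c n) * s n) ^ 2 + c n * (1 - c n) * s n ^ 2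
                    - c n * (1 - c n) * s n ^ 2 + c n * s n ^ 2 := by
                have : c n * t = s n ^ 2 := by rw [htc]; ring
                linear_combination this
              rw [e]
              nlinarith [sq_nonneg (c n * B - (1 - c n) * s n), mul_nonneg hc.le (sq_nonneg (s n))]
            by_contra hcon
            push Not at hcon
            nlinarith
          have h6 : (1 - c n) * ((1 - c n) * (s n + B) ^ 2) ≤ (1 - c n) * (B ^ 2 + t) :=
            mul_le_mul_of_nonneg_left h4 hcc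
          nlinarith
        have hsb : s n * β n ≤ (c n * β n ^ 2 + t) / 2 := by
          -- (s - cβ)^2 ≥ 0 → 2 s c β ≤ s^2 + c^2 β^2 = c t + c^2 β^2
          have h5 : c n * (2 * (s n * β n)) ≤ c n * (c n * β n ^ 2 + t) := by
            nlinarith [sq_nonneg (s n - c n * β n)]
          have h6 := le_of_mul_le_mul_left h5 hc
          linarith
        have hκα : α n - s n ^ 2 ≤ κ n * α n := by nlinarith [sq_nonneg (s n)]
        rw [hα]
        linarith
  have h1 := (key n).2
  have h2 := hT n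
  nlinarith [sq_nonneg (β n)]

end WaveLimit
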