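import Pool.Agent.Helper203.WLAbs4
import Pool.Agent.Helper203.WLSeq

/-! # Concrete operators -/

open scoped InnerProductSpace
open Finset

noncomputable section

namespace WaveLimit

/-- `ℓ²(ℕ)` -/
abbrev L2N : Type := lp (fun _ : ℕ => ℂ) 2

/-- two channels -/
abbrev E2 : Type := EuclideanSpace ℂ (Fin 2)

/-- `ℓ²(ℤ, ℂ²)` -/
abbrev HZ : Type := lp (fun _ : ℤ => E2) 2

section General

variable {ι : Type*} {F : Type*} [NormedAddCommGroup F]

lemma lp_norm_sq (f : lp (fun _ : ι => F) 2) : ‖f‖ ^ 2 = ∑' i, ‖f i‖ ^ 2 := by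
  have := lp.norm_rpow_eq_tsum (p := 2) (by norm_num) f
  simpa using this

lemma lp_summable_sq (f : lp (fun _ : ι => F) 2) : Summable (fun i => ‖f i‖ ^ 2) := by
  have := (lp.memℓp f).summable (by norm_num : 0 < (2 : ENNReal).toReal)
  simpa using this

lemma mem_of_summable_sq (f : ι → F) (h : Summable (fun i => ‖f i‖ ^ 2)) :
    Memℓp f 2 := by
  apply memℓp_gen
  simpa using h

end General

section Shift

variable {F : Type*} [NormedAddCommGroup F] [InnerProductSpace ℂ F]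

/-- bilateral shift with unitary weights: `(Y h)(k+1) = R k (h k)` -/
def shiftIso (R : ℤ → (F ≃ₗᵢ[ℂ] F)) :
    lp (fun _ : ℤ => F) 2 ≃ₗᵢ[ℂ] lp (fun _ : ℤ => F) 2 where
  toFun h := ⟨fun k => R (k - 1) (h (k - 1)), mem_of_summable_sq _ (by
    simp only [LinearIsometryEquiv.norm_map]
    exact (Equiv.subRight (1 : ℤ)).summable_iff.mpr (lp_summable_sq h))⟩
  invFun h := ⟨fun k => (R k).symm (h (k + 1)), mem_of_summable_sq _ (by
    simp only [LinearIsometryEquiv.norm_map]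
    exact (Equiv.addRight (1 : ℤ)).summable_iff.mpr (lp_summable_sq h))⟩
  map_add' f g := by
    apply lp.ext; funext k
    exact map_add (R (k - 1)) (f (k - 1)) (g (k - 1))
  map_smul' c f := by
    apply lp.ext; funext k
    exact map_smul (R (k - 1)) c (f (k - 1))
  left_inv h := by
    apply lp.ext; funext k
    change (R k).symm (R (k + 1 - 1) (h (k + 1 - 1))) = h k
    rw [add_sub_cancel_right, LinearIsometryEquiv.symm_apply_apply]
  right_inv h := by
    apply lp.ext; funext k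
    change R (k - 1) ((R (k - 1)).symm (h (k - 1 + 1))) = h k
    rw [sub_add_cancel, LinearIsometryEquiv.apply_symm_apply]
  norm_map' h := by
    have h1 : ‖(⟨fun k => R (k - 1) (h (k - 1)), mem_of_summable_sq _ (by
        simp only [LinearIsometryEquiv.norm_map]
        exact (Equiv.subRight (1 : ℤ)).summable_iff.mpr (lp_summable_sq h))⟩ :
          lp (fun _ : ℤ => F) 2)‖ ^ 2 = ‖h‖ ^ 2 := by
      rw [lp_norm_sq, lp_norm_sq]
      have h2 : ∀ k, ‖R (k - 1) (h (k - 1))‖ ^ 2 = ‖h ((Equiv.subRight (1 : ℤ)) k)‖ ^ 2 := by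
        intro k
        rw [LinearIsometryEquiv.norm_map]; rfl
      calc _ = ∑' k : ℤ, ‖R (k - 1) (h (k - 1))‖ ^ 2 := rfl
        _ = ∑' k : ℤ, ‖h ((Equiv.subRight (1 : ℤ)) k)‖ ^ 2 := by simp_rw [h2]
        _ = ∑' k : ℤ, ‖h k‖ ^ 2 := (Equiv.subRight (1 : ℤ)).tsum_eq (fun k => ‖h k‖ ^ 2)
    exact (sq_eq_sq₀ (norm_nonneg _) (norm_nonneg _)).mp h1

lemma shiftIso_apply (R : ℤ → (F ≃ₗᵢ[ℂ] F)) (h : lp (fun _ : ℤ => F) 2) (k : ℤ) :
    shiftIso R h (k + 1) = R k (h k) := by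
  change R (k + 1 - 1) (h (k + 1 - 1)) = R k (h k)
  rw [add_sub_cancel_right]

end Shift

lemma e2_norm (x : E2) : ‖x‖ ^ 2 = ‖x 0‖ ^ 2 + ‖x 1‖ ^ 2 := by
  rw [EuclideanSpace.norm_sq_eq, Fin.sum_univ_two]

lemma cnorm_sq (z : ℂ) : ‖z‖ ^ 2 = z.re ^ 2 + z.im ^ 2 := by
  rw [Complex.sq_norm, Complex.normSq_apply]; ring

lemma rot_norm (s κ : ℝ) (h : s ^ 2 + κ ^ 2 = 1) (a b : ℂ) :
    ‖(κ : ℂ) * a - s * b‖ ^ 2 + ‖(s : ℂ) * a + κ * b‖ ^ 2 = ‖a‖ ^ 2 + ‖b‖ ^ 2 := by
  rw [cnorm_sq, cnorm_sq, cnorm_sq, cnorm_sq]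
  simp only [Complex.sub_re, Complex.sub_im, Complex.add_re, Complex.add_im, Complex.mul_re,
    Complex.mul_im, Complex.ofReal_re, Complex.ofReal_im]
  linear_combination (a.re ^ 2 + a.im ^ 2 + b.re ^ 2 + b.im ^ 2) * h

/-- rotation of the two channels -/
def rot (s : ℝ) (hs : s ^ 2 ≤ 1) : E2 ≃ₗᵢ[ℂ] E2 where
  toFun x := !₂[((Real.sqrt (1 - s ^ 2) : ℝ) : ℂ) * x 0 - (s : ℂ) * x 1,
    (s : ℂ) * x 0 + ((Real.sqrt (1 - s ^ 2) : ℝ) : ℂ) * x 1]
  invFun x := !₂[((Real.sqrt (1 - s ^ 2) : ℝ) : ℂ) * x 0 + (s : ℂ) * x 1,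
    -(s : ℂ) * x 0 + ((Real.sqrt (1 - s ^ 2) : ℝ) : ℂ) * x 1]
  map_add' x y := by
    ext i; fin_cases i <;> simp <;> ring
  map_smul' c x := by
    ext i; fin_cases i <;> simp <;> ring
  left_inv x := by
    have h : (s : ℂ) ^ 2 + ((Real.sqrt (1 - s ^ 2) : ℝ) : ℂ) ^ 2 = 1 := by
      have : s ^ 2 + (Real.sqrt (1 - s ^ 2)) ^ 2 = 1 := by
        rw [Real.sq_sqrt (by linarith)]; ring
      exact_mod_cast this
    ext i; fin_cases i
    · simp
      linear_combination (x 0) * h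
    · simp
      linear_combination (x 1) * h
  right_inv x := by
    have h : (s : ℂ) ^ 2 + ((Real.sqrt (1 - s ^ 2) : ℝ) : ℂ) ^ 2 = 1 := by
      have : s ^ 2 + (Real.sqrt (1 - s ^ 2)) ^ 2 = 1 := by
        rw [Real.sq_sqrt (by linarith)]; ring
      exact_mod_cast this
    ext i; fin_cases i
    · simp
      linear_combination (x 0) * h
    · simp
      linear_combination (x 1) * h
  norm_map' x := by
    have h : s ^ 2 + (Real.sqrt (1 - s ^ 2)) ^ 2 = 1 := by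
      rw [Real.sq_sqrt (by linarith)]; ring
    refine (sq_eq_sq₀ (norm_nonneg _) (norm_nonneg _)).mp ?_
    rw [e2_norm, e2_norm]
    have := rot_norm s _ h (x 0) (x 1)
    simpa using this

lemma rot_zero (s : ℝ) (hs : s ^ 2 ≤ 1) (x : E2) :
    rot s hs x 0 = ((Real.sqrt (1 - s ^ 2) : ℝ) : ℂ) * x 0 - (s : ℂ) * x 1 := rfl

lemma rot_one (s : ℝ) (hs : s ^ 2 ≤ 1) (x : E2) :
    rot s hs x 1 = (s : ℂ) * x 0 + ((Real.sqrt (1 - s ^ 2) : ℝ) : ℂ) * x 1 := rfl

/-- diagonal operator on `ℓ²(ℕ)` -/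
def dg (d : ℕ → ℝ) (b : ℝ) (hd : ∀ j, |d j| ≤ b) : L2N →L[ℂ] L2N :=
  LinearMap.mkContinuous
    { toFun := fun f => ⟨fun j => (d j : ℂ) * f j, mem_of_summable_sq _ (by
        have h1 : Summable (fun j => b ^ 2 * ‖f j‖ ^ 2) := (lp_summable_sq f).mul_left _
        refine Summable.of_nonneg_of_le (fun j => by positivity) (fun j => ?_) h1
        rw [norm_mul, mul_pow, Complex.norm_real, Real.norm_eq_abs]
        exact mul_le_mul_of_nonneg_right (pow_le_pow_left₀ (abs_nonneg _) (hd j) 2)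
          (by positivity))⟩
      map_add' := fun f g => by
        apply lp.ext; funext j
        exact mul_add (d j : ℂ) (f j) (g j)
      map_smul' := fun c f => by
        apply lp.ext; funext j
        change (d j : ℂ) * (c * f j) = c * ((d j : ℂ) * f j)
        ring } b (fun f => by
      have hb : 0 ≤ b := (abs_nonneg _).trans (hd 0)
      have h3 : ∀ j, ‖(d j : ℂ) * f j‖ ^ 2 ≤ b ^ 2 * ‖f j‖ ^ 2 := fun j => by
        rw [norm_mul, mul_pow, Complex.norm_real, Real.norm_eq_abs]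
        exact mul_le_mul_of_nonneg_right (pow_le_pow_left₀ (abs_nonneg _) (hd j) 2)
          (by positivity)
      have h2 : Summable (fun j => b ^ 2 * ‖f j‖ ^ 2) := (lp_summable_sq f).mul_left _
      have h4 : Summable (fun j => ‖(d j : ℂ) * f j‖ ^ 2) :=
        Summable.of_nonneg_of_le (fun j => by positivity) h3 h2
      refine (abs_le_of_sq_le_sq' ?_ (by positivity)).2
      rw [lp_norm_sq, mul_pow, lp_norm_sq f, ← tsum_mul_left]
      exact h4.tsum_le_tsum h3 h2)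

lemma dg_apply (d : ℕ → ℝ) (b : ℝ) (hd : ∀ j, |d j| ≤ b) (f : L2N) (j : ℕ) :
    dg d b hd f j = (d j : ℂ) * f j := rfl

lemma dg_norm_le (d : ℕ → ℝ) (b : ℝ) (hd : ∀ j, |d j| ≤ b) : ‖dg d b hd‖ ≤ b :=
  LinearMap.mkContinuous_norm_le _ ((abs_nonneg _).trans (hd 0)) _

lemma dg_symm (d : ℕ → ℝ) (b : ℝ) (hd : ∀ j, |d j| ≤ b) (f g : L2N) :
    ⟪dg d b hd f, g⟫_ℂ = ⟪f, dg d b hd g⟫_ℂ := by
  rw [lp.inner_eq_tsum, lp.inner_eq_tsum]
  congr 1
  funext j
  rw [dg_apply, dg_apply]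
  simp only [RCLike.inner_apply, map_mul, Complex.conj_ofReal]
  ring

/-- embedding of `ℓ²(ℕ)` in the second channel -/
def embFun (f : ℕ → ℂ) : ℤ → E2
  | Int.ofNat j => !₂[0, f j]
  | Int.negSucc _ => 0

lemma embFun_nat (f : ℕ → ℂ) (j : ℕ) : embFun f (j : ℤ) = !₂[0, f j] := rfl

lemma embFun_support {G : Type*} [Zero G] (F : ℤ → G) (hF : ∀ k : ℕ, F (Int.negSucc k) = 0) :
    ∀ x ∉ Set.range (Nat.cast : ℕ → ℤ), F x = 0 := by
  intro x hx
  rcases x with j | k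
  · exact absurd ⟨j, rfl⟩ hx
  · exact hF k

lemma nat_inj : Function.Injective (Nat.cast : ℕ → ℤ) := Nat.cast_injective

lemma embFun_norm (f : ℕ → ℂ) (j : ℕ) : ‖embFun f (j : ℤ)‖ ^ 2 = ‖f j‖ ^ 2 := by
  rw [embFun_nat, e2_norm]; simp

/-- the embedding as a continuous linear map -/
def emb : L2N →L[ℂ] HZ :=
  LinearMap.mkContinuous
    { toFun := fun f => ⟨embFun f, mem_of_summable_sq _ (by
        refine (nat_inj.summable_iff (embFun_support _ (fun k => by simp [embFun]))).mp ?_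
        refine (lp_summable_sq f).congr (fun j => ?_)
        exact (embFun_norm f j).symm)⟩
      map_add' := fun f g => by
        apply lp.ext; funext k
        rcases k with j | k
        · change !₂[0, f j + g j] = !₂[0, f j] + !₂[0, g j]
          ext i; fin_cases i <;> simp
        · change (0 : E2) = 0 + 0
          simp
      map_smul' := fun c f => by
        apply lp.ext; funext k
        rcases k with j | k
        · change !₂[0, c * f j] = c • !₂[0, f j]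
          ext i; fin_cases i <;> simp
        · change (0 : E2) = c • (0 : E2)
          simp } 1 (fun f => by
      rw [one_mul]
      refine (abs_le_of_sq_le_sq' (le_of_eq ?_) (norm_nonneg _)).2
      rw [lp_norm_sq, lp_norm_sq]
      have h1 : ∑' k : ℤ, ‖embFun f k‖ ^ 2 = ∑' j : ℕ, ‖embFun f (j : ℤ)‖ ^ 2 := by
        refine (nat_inj.tsum_eq ?_).symm
        intro x hx
        by_contra hcon
        exact hx (embFun_support (fun k => ‖embFun f k‖ ^ 2) (fun k => by simp [embFun]) x hcon)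
      have h2 : ∑' j : ℕ, ‖embFun f (j : ℤ)‖ ^ 2 = ∑' j : ℕ, ‖f j‖ ^ 2 := by
        simp_rw [embFun_norm]
      exact h1.trans h2)

lemma emb_nat (f : L2N) (j : ℕ) : emb f (j : ℤ) = !₂[0, f j] := rfl
lemma emb_neg (f : L2N) (j : ℕ) : emb f (Int.negSucc j) = 0 := rfl

/-- its adjoint -/
def embs : HZ →L[ℂ] L2N :=
  LinearMap.mkContinuous
    { toFun := fun h => ⟨fun j => h (j : ℤ) 1, mem_of_summable_sq _ (by
        have h1 : Summable (fun j : ℕ => ‖h (j : ℤ)‖ ^ 2) :=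
          (lp_summable_sq h).comp_injective nat_inj
        refine Summable.of_nonneg_of_le (fun j => by positivity) (fun j => ?_) h1
        rw [e2_norm]
        have : 0 ≤ ‖h (j : ℤ) 0‖ ^ 2 := by positivity
        linarith)⟩
      map_add' := fun f g => by
        apply lp.ext; funext k
        rfl
      map_smul' := fun c f => by
        apply lp.ext; funext k
        rfl } 1 (fun h => by
      rw [one_mul]
      have h1 : Summable (fun j : ℕ => ‖h (j : ℤ)‖ ^ 2) :=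
          (lp_summable_sq h).comp_injective nat_inj
      have h3 : ∀ j : ℕ, ‖h (j : ℤ) 1‖ ^ 2 ≤ ‖h (j : ℤ)‖ ^ 2 := fun j => by
        rw [e2_norm]
        have : 0 ≤ ‖h (j : ℤ) 0‖ ^ 2 := by positivity
        linarith
      have h4 : Summable (fun j : ℕ => ‖h (j : ℤ) 1‖ ^ 2) :=
        Summable.of_nonneg_of_le (fun j => by positivity) h3 h1
      refine (abs_le_of_sq_le_sq' ?_ (norm_nonneg _)).2
      rw [lp_norm_sq, lp_norm_sq]
      calc ∑' j : ℕ, ‖h (j : ℤ) 1‖ ^ 2 ≤ ∑' j : ℕ, ‖h (j : ℤ)‖ ^ 2 := h4.tsum_le_tsum h3 h1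
        _ ≤ ∑' k : ℤ, ‖h k‖ ^ 2 :=
          tsum_comp_le_tsum_of_inj (lp_summable_sq h) (fun k => by positivity) nat_inj)

lemma embs_apply (h : HZ) (j : ℕ) : embs h j = h (j : ℤ) 1 := rfl

lemma emb_inner (f : L2N) (h : HZ) : ⟪emb f, h⟫_ℂ = ⟪f, embs h⟫_ℂ := by
  rw [lp.inner_eq_tsum, lp.inner_eq_tsum]
  have h1 : ∑' k : ℤ, ⟪emb f k, h k⟫_ℂ = ∑' j : ℕ, ⟪emb f (j : ℤ), h (j : ℤ)⟫_ℂ := by
    refine (nat_inj.tsum_eq ?_).symm
    intro x hx
    by_contra hcon
    exact hx (embFun_support (fun k => ⟪emb f k, h k⟫_ℂ) (fun k => by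
      rw [emb_neg, inner_zero_left]) x hcon)
  rw [h1]
  congr 1
  funext j
  rw [emb_nat, embs_apply]
  simp [PiLp.inner_apply, Fin.sum_univ_two]

lemma embs_emb (f : L2N) : embs (emb f) = f := by
  apply lp.ext; funext j
  rw [embs_apply, emb_nat]
  simp

end WaveLimit
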