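import Mathlib

/-!
# de Branges' wave-limit: definitions

`𝒞` is the coefficient Hilbert space, `C(z)` is `ℓ²(ℕ, 𝒞)`, a power series with operator
coefficients is a `PowerSeries (𝒞 →L[ℂ] 𝒞)` (its product is the Cauchy product).
-/

open scoped InnerProductSpace

noncomputable section

namespace WaveLimit

variable {𝒞 : Type*} [NormedAddCommGroup 𝒞] [InnerProductSpace ℂ 𝒞] [CompleteSpace 𝒞]

/-- `C(z)`: the Hilbert space of square summable power series `∑ aₙ zⁿ`, `aₙ ∈ 𝒞`;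
the element is the sequence of its coefficients. -/
abbrev CZ (𝒞 : Type*) [NormedAddCommGroup 𝒞] : Type _ := lp (fun _ : ℕ => 𝒞) 2

/-- `φ(z) = ∑ φₙ zⁿ` converges and has positive real part at every point of the unit disc. -/
def PosRealPart (φ : PowerSeries (𝒞 →L[ℂ] 𝒞)) : Prop :=
  ∀ z : ℂ, ‖z‖ < 1 → Summable (fun n : ℕ => z ^ n • PowerSeries.coeff n φ) ∧
    ∀ c : 𝒞, 0 ≤ (⟪c, (∑' n : ℕ, z ^ n • PowerSeries.coeff n φ) c⟫_ℂ).re

/-- `B = (1 - φ)/(1 + φ)`. -/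
def IsCayley (φ B : PowerSeries (𝒞 →L[ℂ] 𝒞)) : Prop :=
  (1 + φ) * B = 1 - φ ∧ B * (1 + φ) = 1 - φ

/-- The product `B(z) f(z)` of a power series `B` with operator coefficients and a (formal)
power series `f` with coefficients in `𝒞`: its `n`-th coefficient is `∑_{i+j=n} Bᵢ fⱼ`. -/
def act (B : PowerSeries (𝒞 →L[ℂ] 𝒞)) (f : ℕ → 𝒞) (n : ℕ) : 𝒞 :=
  ∑ p ∈ Finset.HasAntidiagonal.antidiagonal n, (PowerSeries.coeff p.1 B) (f p.2)

/-- `M` is multiplication by `B(z)` on `C(z)`, and it is a contraction. -/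
def IsMul (B : PowerSeries (𝒞 →L[ℂ] 𝒞)) (M : CZ 𝒞 →L[ℂ] CZ 𝒞) : Prop :=
  ‖M‖ ≤ 1 ∧ ∀ (f : CZ 𝒞) (n : ℕ), (M f) n = act B f n

/-- The defect operator `(1 - M M^*)^{1/2}` of a contraction `M` of a Hilbert space. -/
def defect {X : Type*} [NormedAddCommGroup X] [InnerProductSpace ℂ X] [CompleteSpace X]
    (M : X →L[ℂ] X) : X →L[ℂ] X :=
  CFC.sqrt (1 - M * ContinuousLinearMap.adjoint M)

/-- The space `H(B)`, the range of `D = (1 - M_B M_B^*)^{1/2}` with the range norm: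
`g ∈ (ker D)ᗮ` stands for the element `D g` of `H(B)`, whose norm is `‖g‖`. -/
abbrev HB (M : CZ 𝒞 →L[ℂ] CZ 𝒞) : Type _ :=
  ↥(LinearMap.ker (defect M : CZ 𝒞 →ₗ[ℂ] CZ 𝒞))ᗮ

/-- The space `L(φ)`, the Hilbert space of power series which `f ↦ (1 + B) f` carries
isometrically onto `H(B)`: `g ∈ (ker D)ᗮ` stands for the power series `f` with
`(1 + B) f = D g` (see `Represents`), whose norm is `‖g‖`. -/
abbrev Lphi (M : CZ 𝒞 →L[ℂ] CZ 𝒞) : Type _ := HB M

/-- The (formal) power series `f` is the element of `L(φ)` denoted by `g`: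
`(1 + B) f = D g`. -/
def Represents (B : PowerSeries (𝒞 →L[ℂ] 𝒞)) (M : CZ 𝒞 →L[ℂ] CZ 𝒞) (g : Lphi M)
    (f : ℕ → 𝒞) : Prop :=
  ∀ n, f n + act B f n = (defect M (g : CZ 𝒞)) n

/-- The overlapping space: `f ∈ C(z)` with `B f ∈ H(B)`, normed by
`‖f‖² + ‖B f‖²_{H(B)}`. The element `f` is kept together with the `g ∈ (ker D)ᗮ`
such that `B f = D g` (it is unique), so `‖B f‖_{H(B)} = ‖g‖`. -/
def Overlap (M : CZ 𝒞 →L[ℂ] CZ 𝒞) : Submodule ℂ (WithLp 2 (CZ 𝒞 × HB M)) where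
  carrier := {p | M p.fst = defect M (p.snd : CZ 𝒞)}
  add_mem' {p q} hp hq := by
    simp only [Set.mem_ofPred_eq] at hp hq ⊢
    simp [hp, hq]
  zero_mem' := by simp
  smul_mem' c p hp := by
    simp only [Set.mem_ofPred_eq] at hp ⊢
    simp [hp]

/-- `W` is the wave-limit `L(φ) → 𝓛`: a bounded linear map which sends every square summable
element `f` of `L(φ)` to `(1 + M_B^*) f`, and which vanishes on the orthogonal complement in
`L(φ)` of the set of square summable elements. -/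
structure IsWaveLimit (B : PowerSeries (𝒞 →L[ℂ] 𝒞)) (M : CZ 𝒞 →L[ℂ] CZ 𝒞)
    (W : Lphi M →L[ℂ] Overlap M) : Prop where
  on_sq : ∀ (g : Lphi M) (f : CZ 𝒞), Represents B M g f →
    ((W g : Overlap M) : WithLp 2 (CZ 𝒞 × HB M)).fst = f + ContinuousLinearMap.adjoint M f
  off : ∀ g : Lphi M,
    (∀ g' : Lphi M, (∃ f : CZ 𝒞, Represents B M g' f) → ⟪g', g⟫_ℂ = 0) → W g = 0

/-- `K` is of Matsaev class (on an infinite dimensional space): it is compact, and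
`∑ sⱼ / j < ∞`, where `s₁ ≥ s₂ ≥ …` are the eigenvalues of `(K^* K)^{1/2}` with multiplicity:
there are an orthonormal sequence `eⱼ` with `K^* K eⱼ = sⱼ² eⱼ`, and `K` vanishes on the
orthogonal complement of the `eⱼ`. (The index `j` starts at `0` here.) -/
def Matsaev (K : 𝒞 →L[ℂ] 𝒞) : Prop :=
  IsCompactOperator K ∧ ∃ (s : ℕ → ℝ) (e : ℕ → 𝒞), Antitone s ∧ (∀ j, 0 ≤ s j) ∧
    Orthonormal ℂ e ∧ (∀ j, ContinuousLinearMap.adjoint K (K (e j)) = ((s j ^ 2 : ℝ) : ℂ) • e j) ∧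
    (∀ v : 𝒞, (∀ j, ⟪e j, v⟫_ℂ = 0) → K v = 0) ∧
    Summable (fun j : ℕ => s j / ((j : ℝ) + 1))

end WaveLimit
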