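import Mathlib

/-!
# de Branges' wave-limit: definitions

`𝒞` is the coefficient Hilbert space. A power series with operator coefficients is the sequence
`ℕ → (𝒞 →L[ℂ] 𝒞)` of its coefficients. `X` stands for the space `C(z)`.
-/

open scoped InnerProductSpace

noncomputable section

namespace WLim

variable {𝒞 X : Type} [NormedAddCommGroup 𝒞] [InnerProductSpace ℂ 𝒞]
  [NormedAddCommGroup X] [InnerProductSpace ℂ X]

/-- `X`, with the coefficient maps `co n : f ↦ aₙ`, is the Hilbert space `C(z)` of square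
summable power series `f(z) = ∑ aₙ zⁿ`, `aₙ ∈ 𝒞`, normed by `‖f‖² = ∑ ‖aₙ‖²`. -/
def IsCZ (co : ℕ → X →L[ℂ] 𝒞) : Prop :=
  (∀ f : X, HasSum (fun n : ℕ => ‖co n f‖ ^ 2) (‖f‖ ^ 2)) ∧
    ∀ a : ℕ → 𝒞, Summable (fun n : ℕ => ‖a n‖ ^ 2) → ∃ f : X, ∀ n : ℕ, co n f = a n

/-- The product `B(z) f(z)` of a power series `B` with operator coefficients and a (formal)
power series `f` with coefficients in `𝒞`: its `n`-th coefficient is `∑_{i+j=n} Bᵢ fⱼ`. -/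
def act (B : ℕ → 𝒞 →L[ℂ] 𝒞) (f : ℕ → 𝒞) (n : ℕ) : 𝒞 :=
  ∑ p ∈ Finset.HasAntidiagonal.antidiagonal n, B p.1 (f p.2)

/-- `φ(z) = ∑ φₙ zⁿ` converges and has positive real part at every point of the unit disc. -/
def PosRealPart (φ : ℕ → 𝒞 →L[ℂ] 𝒞) : Prop :=
  ∀ (z : ℂ) (c : 𝒞), ‖z‖ < 1 → Summable (fun n : ℕ => z ^ n • φ n c) ∧
    0 ≤ (⟪c, ∑' n : ℕ, z ^ n • φ n c⟫_ℂ).re

/-- `B = (1 - φ)/(1 + φ)`, i.e. `(1 + φ) B = 1 - φ` and `B (1 + φ) = 1 - φ`. -/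
def IsCayley (φ B : ℕ → 𝒞 →L[ℂ] 𝒞) : Prop :=
  ∀ (n : ℕ) (c : 𝒞),
    B n c + act φ (fun j => B j c) n = (if n = 0 then c else 0) - φ n c ∧
    B n c + act B (fun j => φ j c) n = (if n = 0 then c else 0) - φ n c

/-- `M` is multiplication by `B(z)` on `C(z)`, and it is a contraction. -/
def IsMul (co : ℕ → X →L[ℂ] 𝒞) (B : ℕ → 𝒞 →L[ℂ] 𝒞) (M : X →L[ℂ] X) : Prop :=
  ∀ f : X, ‖M f‖ ≤ ‖f‖ ∧ ∀ n : ℕ, co n (M f) = act B (fun j => co j f) n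

/-- `T = M^*`. -/
def IsAdj (M T : X →L[ℂ] X) : Prop := ∀ f g : X, ⟪T f, g⟫_ℂ = ⟪f, M g⟫_ℂ

/-- `D = (1 - M T)^{1/2}`, the positive square root. -/
def IsRoot (M T D : X →L[ℂ] X) : Prop :=
  ∀ f g : X, ⟪D f, g⟫_ℂ = ⟪f, D g⟫_ℂ ∧ 0 ≤ (⟪D f, f⟫_ℂ).re ∧ D (D f) = f - M (T f)

/-- The space `H(B)`, the range of `D = (1 - M_B M_B^*)^{1/2}` with the range norm:
`g ∈ (ker D)ᗮ` stands for the element `D g` of `H(B)`, whose norm is `‖g‖`. -/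
def HB (D : X →L[ℂ] X) : Submodule ℂ X where
  carrier := {g | ∀ k : X, D k = 0 → ⟪k, g⟫_ℂ = 0}
  add_mem' {a b} ha hb := fun k hk => by rw [inner_add_right, ha k hk, hb k hk, add_zero]
  zero_mem' := fun k _ => inner_zero_right k
  smul_mem' c a ha := fun k hk => by rw [inner_smul_right, ha k hk, mul_zero]

/-- `B f ∈ H(B)`: membership in the overlapping space `𝓛 = {f ∈ C(z) : B f ∈ H(B)}`. -/
def InOverlap (M D : X →L[ℂ] X) (f : X) : Prop := ∃ h : HB D, M f = D h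

/-- `K = (A + A^*)/2`, the self-adjoint part of `A`. -/
def IsRealPart (A K : 𝒞 →L[ℂ] 𝒞) : Prop :=
  ∀ x y : 𝒞, ⟪x, K y⟫_ℂ = (⟪x, A y⟫_ℂ + ⟪A x, y⟫_ℂ) / 2

/-- `K` is of Matsaev class (on an infinite dimensional space): it is compact, and
`∑ sⱼ / j < ∞`, where `s₁ ≥ s₂ ≥ …` are the eigenvalues of `(K^* K)^{1/2}` with multiplicity:
there is an orthonormal sequence `eⱼ` with `K^* K eⱼ = sⱼ² eⱼ`, and `K` vanishes on the
orthogonal complement of the `eⱼ`. (The index `j` starts at `0` here.) -/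
def Matsaev (K : 𝒞 →L[ℂ] 𝒞) : Prop :=
  IsCompactOperator K ∧ ∃ (s : ℕ → ℝ) (e : ℕ → 𝒞), Antitone s ∧ (∀ j, 0 ≤ s j) ∧
    Orthonormal ℂ e ∧ (∀ j v, ⟪K (e j), K v⟫_ℂ = (s j : ℂ) ^ 2 * ⟪e j, v⟫_ℂ) ∧
    (∀ v : 𝒞, (∀ j, ⟪e j, v⟫_ℂ = 0) → K v = 0) ∧
    Summable (fun j : ℕ => s j / ((j : ℝ) + 1))

/-- The space `L(φ)` is the Hilbert space of power series which `f ↦ (1 + B) f` carries
isometrically onto `H(B)`. We denote its elements by `g ∈ (ker D)ᗮ`: the (formal) power series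
`f` is the element denoted by `g` if `(1 + B) f = D g`; its norm is `‖g‖`. -/
def Represents (co : ℕ → X →L[ℂ] 𝒞) (B : ℕ → 𝒞 →L[ℂ] 𝒞) (D : X →L[ℂ] X) (g : HB D)
    (f : ℕ → 𝒞) : Prop :=
  ∀ n, f n + act B f n = co n (D g)

/-- `W` is the wave-limit `L(φ) → 𝓛`. It is linear, has its values in
`𝓛 = {f ∈ C(z) : B f ∈ H(B)}` and is bounded for the norm of `𝓛`, which is given by
`‖f‖² + ‖B f‖²_{H(B)}` (the norm of `B f = D h` in `H(B)` is `‖h‖`); it sends every square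
summable element `f` of `L(φ)` to `(1 + M_B^*) f`; and it vanishes on the orthogonal complement
in `L(φ)` of the set of square summable elements. -/
def IsWaveLimit (co : ℕ → X →L[ℂ] 𝒞) (B : ℕ → 𝒞 →L[ℂ] 𝒞) (M T D : X →L[ℂ] X)
    (W : HB D →ₗ[ℂ] X) : Prop :=
  (∃ κ : ℝ, ∀ g : HB D, ∃ h : HB D, M (W g) = D h ∧ ‖W g‖ ^ 2 + ‖h‖ ^ 2 ≤ κ * ‖g‖ ^ 2) ∧
  (∀ (g : HB D) (f : X), Represents co B D g (fun n => co n f) → W g = f + T f) ∧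
  ∀ g : HB D, (∀ (g' : HB D) (f : X), Represents co B D g' (fun n => co n f) →
    ⟪(g' : X), (g : X)⟫_ℂ = 0) → W g = 0

/-- The hypotheses of the question hold for `φ`, and the conclusion fails. -/
def Counterexample (co : ℕ → X →L[ℂ] 𝒞) (φ : ℕ → 𝒞 →L[ℂ] 𝒞) : Prop :=
  PosRealPart φ ∧
  (∀ (z : ℂ) (c : 𝒞), ‖z‖ < 1 → c ≠ 0 → 0 < (⟪c, ∑' n : ℕ, z ^ n • φ n c⟫_ℂ).re) ∧
  (∃ K : 𝒞 →L[ℂ] 𝒞, IsRealPart (φ 0) K ∧ Matsaev K) ∧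
  ∃ (B : ℕ → 𝒞 →L[ℂ] 𝒞) (M T D : X →L[ℂ] X),
    IsCayley φ B ∧ IsMul co B M ∧ IsAdj M T ∧ IsRoot M T D ∧
    (∀ g : HB D, ∃! f : ℕ → 𝒞, Represents co B D g f) ∧
    ∃ W : HB D →ₗ[ℂ] X, IsWaveLimit co B M T D W ∧
      (∀ W' : HB D →ₗ[ℂ] X, IsWaveLimit co B M T D W' → W' = W) ∧
      ∃ f : X, InOverlap M D f ∧ ∀ g : HB D, W g ≠ f

end WLim
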