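import Pool.Agent.Helper203.WLMain
import Pool.Agent.Helper203.WLStmt

/-! # Transfer to the final statement -/

open scoped InnerProductSpace
open Finset

noncomputable section

namespace WLim

open WaveLimit (Coll CZ defect defect_symm defect_defect)

variable {H 𝒞 : Type} [NormedAddCommGroup H] [InnerProductSpace ℂ H] [CompleteSpace H]
  [NormedAddCommGroup 𝒞] [InnerProductSpace ℂ 𝒞] [CompleteSpace 𝒞]

/-- coefficient maps -/
def co0 (n : ℕ) : CZ 𝒞 →L[ℂ] 𝒞 :=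
  LinearMap.mkContinuous
    { toFun := fun f => f n
      map_add' := fun _ _ => rfl
      map_smul' := fun _ _ => rfl } 1 (fun f => by
        rw [one_mul]
        exact lp.norm_apply_le_norm (by norm_num) f n)

lemma co0_apply (n : ℕ) (f : CZ 𝒞) : co0 n f = f n := rfl

lemma isCZ : IsCZ (co0 : ℕ → CZ 𝒞 →L[ℂ] 𝒞) := by
  refine ⟨fun f => ?_, fun a ha => ⟨⟨a, WaveLimit.mem_of_summable_sq a ha⟩, fun n => rfl⟩⟩
  rw [WaveLimit.lp_norm_sq f]
  exact (WaveLimit.lp_summable_sq f).hasSum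

variable (D : Coll H 𝒞)

lemma tsum_point (z : ℂ) (hz : ‖z‖ < 1) (c : 𝒞) :
    Summable (fun n : ℕ => z ^ n • D.φc n c) ∧
    ∑' n : ℕ, z ^ n • D.φc n c = (∑' n : ℕ, z ^ n • PowerSeries.coeff n D.φ) c := by
  have hs := D.φ_summable z hz
  have h1 := hs.mapL (ContinuousLinearMap.apply ℂ 𝒞 c)
  have h2 := (ContinuousLinearMap.apply ℂ 𝒞 c).map_tsum hs
  have e : (fun n : ℕ => (ContinuousLinearMap.apply ℂ 𝒞 c) (z ^ n • PowerSeries.coeff n D.φ))
      = fun n : ℕ => z ^ n • D.φc n c := by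
    funext n
    simp [Coll.φ]
  rw [e] at h1
  simp_rw [ContinuousLinearMap.apply_apply] at h2
  refine ⟨h1, ?_⟩
  rw [h2]
  congr 1
  funext n
  simp [Coll.φ]

lemma fin_pos : PosRealPart D.φc := by
  intro z c hz
  obtain ⟨h1, h2⟩ := tsum_point D z hz c
  refine ⟨h1, ?_⟩
  rw [h2]
  exact (D.posRealPart z hz).2 c

lemma fin_strict (hJ : ∀ c, D.J c = 0 → c = 0) (z : ℂ) (c : 𝒞) (hz : ‖z‖ < 1) (hc : c ≠ 0) :
    0 < (⟪c, ∑' n : ℕ, z ^ n • D.φc n c⟫_ℂ).re := by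
  rw [(tsum_point D z hz c).2]
  exact D.strict hJ z hz c hc

lemma fin_cayley : IsCayley D.φc D.Bc := by
  intro n c
  refine ⟨D.conv_eq c n, ?_⟩
  have h := congrArg (fun P : PowerSeries (𝒞 →L[ℂ] 𝒞) => (PowerSeries.coeff n P : 𝒞 →L[ℂ] 𝒞) c)
    D.isCayley.2
  simp only [mul_add, mul_one, map_add, map_sub, PowerSeries.coeff_mul, Coll.B, Coll.φ,
    PowerSeries.coeff_mk, PowerSeries.coeff_one] at h
  rw [add_apply, sub_apply, _root_.sum_apply] at h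
  simp only [mul_apply_eq_comp] at h
  rw [act, h]
  congr 1
  split_ifs <;> simp

lemma fin_mul : IsMul co0 D.Bc D.M := by
  intro f
  refine ⟨?_, fun n => ?_⟩
  · have h1 : ‖D.M f‖ ≤ ‖D.M‖ * ‖f‖ := D.M.le_opNorm f
    have h2 := D.M_norm_le
    have h3 : 0 ≤ ‖f‖ := norm_nonneg f
    calc ‖D.M f‖ ≤ ‖D.M‖ * ‖f‖ := h1
      _ ≤ 1 * ‖f‖ := mul_le_mul_of_nonneg_right h2 h3
      _ = ‖f‖ := one_mul _
  · exact D.out_conv _ n

lemma fin_adj : IsAdj D.M (ContinuousLinearMap.adjoint D.M) := fun f g =>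
  ContinuousLinearMap.adjoint_inner_left D.M g f

lemma fin_root : IsRoot D.M (ContinuousLinearMap.adjoint D.M) (defect D.M) := by
  intro f g
  refine ⟨defect_symm D.M f g, ?_, defect_defect D.M D.M_norm_le f⟩
  have h1 : 0 ≤ defect D.M := CFC.sqrt_nonneg _
  rw [ContinuousLinearMap.nonneg_iff_isPositive] at h1
  have h2 := h1.2 f
  exact h2

lemma fin_key (hS : ∀ h : H, Summable (fun n => ‖D.Js (D.orb h n)‖ ^ 2) → h = 0)
    (g : HB (defect D.M)) (f : CZ 𝒞)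
    (h : Represents co0 D.Bc (defect D.M) g (fun n => co0 n f)) : f = 0 ∧ g = 0 := by
  have h : f + D.M f = defect D.M (g : CZ 𝒞) := by
    apply lp.ext
    funext n
    have h1 := h n
    have h2 : act D.Bc (fun n => co0 n f) n = co0 n (D.M f) := (D.out_conv _ n).symm
    rw [h2] at h1
    exact h1
  have hf : f = 0 := D.core' hS f (g : CZ 𝒞) h
  refine ⟨hf, ?_⟩
  rw [hf, map_zero, add_zero] at h
  have h4 := g.2 (g : CZ 𝒞) h.symm
  have h5 : (g : CZ 𝒞) = 0 := inner_self_eq_zero.mp h4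
  exact Subtype.ext h5

lemma fin_series (c : 𝒞) (hc : ⟪c, c⟫_ℂ = 1) (g : HB (defect D.M)) :
    ∃! f : ℕ → 𝒞, Represents co0 D.Bc (defect D.M) g f := by
  have hg : (g : CZ 𝒞) ∈ (LinearMap.ker (defect D.M : CZ 𝒞 →ₗ[ℂ] CZ 𝒞))ᗮ := by
    rw [Submodule.mem_orthogonal]
    intro k hk
    exact g.2 k hk
  have h := D.exists_unique_series c hc ⟨(g : CZ 𝒞), hg⟩
  have e : ∀ f : ℕ → 𝒞, Represents co0 D.Bc (defect D.M) g f ↔
      WaveLimit.Represents D.B D.M ⟨(g : CZ 𝒞), hg⟩ f := by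
    intro f
    unfold Represents WaveLimit.Represents act WaveLimit.act Coll.B
    simp only [PowerSeries.coeff_mk]
    exact Iff.rfl
  obtain ⟨f, h1, h2⟩ := h
  exact ⟨f, (e f).mpr h1, fun f' hf' => h2 f' ((e f').mp hf')⟩

lemma fin_main (hS : ∀ h : H, Summable (fun n => ‖D.Js (D.orb h n)‖ ^ 2) → h = 0)
    (u : 𝒞) (δ : ℝ) (hδ : 0 < δ) (hX : ∀ n, δ ≤ ‖D.X n u‖) :
    ∃ W : HB (defect D.M) →ₗ[ℂ] CZ 𝒞,
      IsWaveLimit co0 D.Bc D.M (ContinuousLinearMap.adjoint D.M) (defect D.M) W ∧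
      (∀ W' : HB (defect D.M) →ₗ[ℂ] CZ 𝒞,
        IsWaveLimit co0 D.Bc D.M (ContinuousLinearMap.adjoint D.M) (defect D.M) W' → W' = W) ∧
      ∃ f : CZ 𝒞, InOverlap D.M (defect D.M) f ∧ ∀ g : HB (defect D.M), W g ≠ f := by
  refine ⟨0, ⟨⟨0, fun g => ⟨0, ?_, ?_⟩⟩, ?_, ?_⟩, ?_, ?_⟩
  · simp
  · simp
  · intro g f h
    rw [(fin_key D hS g f h).1]
    simp
  · intro g _
    rfl
  · intro W hW
    ext1 g
    rw [hW.2.2 g (fun g' f hf => by
      rw [(fin_key D hS g' f hf).2]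
      exact inner_zero_left _)]
    rfl
  · set U : CZ 𝒞 := lp.single 2 0 u with hU
    have hs := D.survivor u δ hδ hX
    rw [← hU] at hs
    set f : CZ 𝒞 := U - ContinuousLinearMap.adjoint D.M (D.M U) with hf
    have hf0 : f ≠ 0 := by
      intro h0
      have h1 : ⟪f, U⟫_ℂ = 0 := by rw [h0, inner_zero_left]
      rw [hf, inner_sub_left, ContinuousLinearMap.adjoint_inner_left] at h1
      have h2 := congrArg Complex.re h1
      rw [Complex.sub_re] at h2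
      have n1 : (⟪U, U⟫_ℂ).re = ‖U‖ ^ 2 := inner_self_eq_norm_sq (𝕜 := ℂ) U
      have n2 : (⟪D.M U, D.M U⟫_ℂ).re = ‖D.M U‖ ^ 2 := inner_self_eq_norm_sq (𝕜 := ℂ) (D.M U)
      rw [n1, n2] at h2
      simp at h2
      nlinarith
    have hg : ∀ k : CZ 𝒞, defect D.M k = 0 → ⟪k, defect D.M (D.M U)⟫_ℂ = 0 := by
      intro k hk
      rw [← defect_symm, hk, inner_zero_left]
    have hMf : D.M f = defect D.M (defect D.M (D.M U)) := by
      rw [defect_defect _ D.M_norm_le, hf, map_sub]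
    refine ⟨f, ⟨⟨defect D.M (D.M U), hg⟩, hMf⟩, fun g hg2 => hf0 ?_⟩
    exact hg2.symm

end WLim
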