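import Pool.Agent.Helper203.WLConc

/-! # Assembly -/

open scoped InnerProductSpace
open Finset

noncomputable section

namespace WaveLimit

/-- `c_j = (j+1)^{-1/2}` -/
def cc (j : ℕ) : ℝ := ((j : ℝ) + 1) ^ (-(1 / 2) : ℝ)

/-- `r_j = (j+1)^{-1/4}` -/
def rr (j : ℕ) : ℝ := ((j : ℝ) + 1) ^ (-(1 / 4) : ℝ)

/-- `q_j = (1 - c_j)/(1 + c_j)` -/
def qq (j : ℕ) : ℝ := (1 - cc j) / (1 + cc j)

lemma cc_pos (j : ℕ) : 0 < cc j := by unfold cc; positivity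
lemma rr_pos (j : ℕ) : 0 < rr j := by unfold rr; positivity

lemma cc_le_one (j : ℕ) : cc j ≤ 1 := by
  unfold cc
  exact Real.rpow_le_one_of_one_le_of_nonpos (by linarith [Nat.cast_nonneg (α := ℝ) j])
    (by norm_num)

lemma rr_le_one (j : ℕ) : rr j ≤ 1 := by
  unfold rr
  exact Real.rpow_le_one_of_one_le_of_nonpos (by linarith [Nat.cast_nonneg (α := ℝ) j])
    (by norm_num)

lemma rr_sq (j : ℕ) : rr j ^ 2 = cc j := by
  unfold rr cc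
  rw [← Real.rpow_natCast, ← Real.rpow_mul (by positivity)]
  norm_num

lemma cc_zero : cc 0 = 1 := by simp [cc]
lemma rr_zero : rr 0 = 1 := by simp [rr]
lemma qq_zero : qq 0 = 0 := by simp [qq, cc_zero]

lemma qq_nonneg (j : ℕ) : 0 ≤ qq j := by
  unfold qq
  exact div_nonneg (by linarith [cc_le_one j]) (by linarith [cc_pos j])

lemma qq_le (j : ℕ) : qq j ≤ 1 - cc j := by
  unfold qq
  rw [div_le_iff₀ (by linarith [cc_pos j])]
  nlinarith [cc_pos j, cc_le_one j]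

lemma qq_le_one (j : ℕ) : qq j ≤ 1 := by linarith [qq_le j, cc_pos j]

lemma cc_qq (j : ℕ) : cc j * (1 + qq j) = 1 - qq j := by
  have h : (1 + cc j) ≠ 0 := by linarith [cc_pos j]
  unfold qq
  field_simp
  ring

lemma cc_antitone : Antitone cc := by
  intro i j hij
  unfold cc
  have : (i : ℝ) ≤ j := by exact_mod_cast hij
  exact Real.rpow_le_rpow_of_nonpos (by positivity) (by linarith) (by norm_num)

/-- the diagonal operators -/
def Rop : L2N →L[ℂ] L2N := dg rr 1 (fun j => by rw [abs_of_pos (rr_pos j)]; exact rr_le_one j)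

def Cop : L2N →L[ℂ] L2N := dg qq 1 (fun j => by rw [abs_of_nonneg (qq_nonneg j)]; exact qq_le_one j)

lemma Rop_apply (f : L2N) (j : ℕ) : Rop f j = (rr j : ℂ) * f j := rfl
lemma Cop_apply (f : L2N) (j : ℕ) : Cop f j = (qq j : ℂ) * f j := rfl

lemma adj_J : ContinuousLinearMap.adjoint (emb.comp Rop) = Rop.comp embs := by
  symm
  rw [ContinuousLinearMap.eq_adjoint_iff]
  intro x y
  change ⟪Rop (embs x), y⟫_ℂ = ⟪x, emb (Rop y)⟫_ℂ
  have h1 : ⟪Rop (embs x), y⟫_ℂ = ⟪embs x, Rop y⟫_ℂ := dg_symm _ _ _ _ _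
  rw [h1, ← inner_conj_symm, ← emb_inner, inner_conj_symm]

/-- the rotation sines -/
def sf (δ : ℝ) (k : ℤ) : ℝ := if k = 0 then 1 else if 0 < k then δ / (k : ℝ) else 0

lemma sf_sq (δ : ℝ) (h0 : 0 ≤ δ) (h1 : δ ≤ 1) (k : ℤ) : sf δ k ^ 2 ≤ 1 := by
  unfold sf
  split_ifs with h2 h3
  · norm_num
  · have h4 : (1 : ℝ) ≤ k := by exact_mod_cast h3
    have h5 : δ / (k : ℝ) ≤ 1 := by
      rw [div_le_one (by linarith)]; linarith
    have h6 : 0 ≤ δ / (k : ℝ) := by positivity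
    nlinarith
  · norm_num

lemma sf_nat (δ : ℝ) (n : ℕ) : sf δ ((n + 1 : ℕ) : ℤ) = δ / ((n : ℝ) + 1) := by
  unfold sf
  have h1 : ((n + 1 : ℕ) : ℤ) ≠ 0 := by positivity
  have h2 : (0 : ℤ) < ((n + 1 : ℕ) : ℤ) := by positivity
  rw [if_neg h1, if_pos h2]
  push_cast
  rfl

/-- the colligation -/
def DD (δ : ℝ) (h0 : 0 ≤ δ) (h1 : δ ≤ 1) : Coll HZ L2N where
  Y := shiftIso (fun k => rot (sf δ k) (sf_sq δ h0 h1 k))
  J := emb.comp Rop
  C := Cop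
  hC := fun x y => dg_symm _ _ _ _ _
  h1 := fun f => by
    rw [adj_J]
    apply lp.ext; funext j
    change (rr j : ℂ) * (embs (emb (Rop f) + emb (Rop (Cop f))) j) = f j - (qq j : ℂ) * f j
    have e1 : embs (emb (Rop f) + emb (Rop (Cop f))) = Rop f + Rop (Cop f) := by
      rw [map_add, embs_emb, embs_emb]
    rw [e1]
    change (rr j : ℂ) * ((rr j : ℂ) * f j + (rr j : ℂ) * ((qq j : ℂ) * f j))
      = f j - (qq j : ℂ) * f j
    have e2 : (rr j : ℂ) ^ 2 = (cc j : ℂ) := by exact_mod_cast rr_sq j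
    have e3 : (cc j : ℂ) * (1 + (qq j : ℂ)) = 1 - (qq j : ℂ) := by exact_mod_cast cc_qq j
    linear_combination (f j * (1 + (qq j : ℂ))) * e2 + f j * e3

variable (δ : ℝ) (h0 : 0 ≤ δ) (h1 : δ ≤ 1)

lemma DD_Js (h : HZ) (j : ℕ) : (DD δ h0 h1).Js h j = (rr j : ℂ) * h (j : ℤ) 1 := by
  have : (DD δ h0 h1).Js = Rop.comp embs := adj_J
  rw [this]; rfl

lemma DD_J (f : L2N) (j : ℕ) : (DD δ h0 h1).J f (j : ℤ) = !₂[0, (rr j : ℂ) * f j] := rfl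

lemma DD_N0 (f : L2N) (j : ℕ) : (DD δ h0 h1).N f (j : ℤ) 0 = 0 := by
  change ((DD δ h0 h1).J f (j : ℤ) + (DD δ h0 h1).J (Cop f) (j : ℤ)) 0 = 0
  rw [DD_J, DD_J]
  simp

lemma DD_N1 (f : L2N) (j : ℕ) :
    (DD δ h0 h1).N f (j : ℤ) 1 = (rr j : ℂ) * (1 + (qq j : ℂ)) * f j := by
  change ((DD δ h0 h1).J f (j : ℤ) + (DD δ h0 h1).J (Cop f) (j : ℤ)) 1 = _
  rw [DD_J, DD_J]
  change (rr j : ℂ) * f j + (rr j : ℂ) * ((qq j : ℂ) * f j) = _
  ring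

lemma DD_CH0 (h : HZ) (j : ℕ) : (DD δ h0 h1).CH h (j : ℤ) 0 = h (j : ℤ) 0 := by
  change (h (j : ℤ) - (DD δ h0 h1).N ((DD δ h0 h1).Js h) (j : ℤ)) 0 = _
  change h (j : ℤ) 0 - (DD δ h0 h1).N ((DD δ h0 h1).Js h) (j : ℤ) 0 = _
  rw [DD_N0, sub_zero]

lemma DD_CH1 (h : HZ) (j : ℕ) : (DD δ h0 h1).CH h (j : ℤ) 1 = (qq j : ℂ) * h (j : ℤ) 1 := by
  change h (j : ℤ) 1 - (DD δ h0 h1).N ((DD δ h0 h1).Js h) (j : ℤ) 1 = _
  rw [DD_N1, DD_Js]
  have e2 : (rr j : ℂ) ^ 2 = (cc j : ℂ) := by exact_mod_cast rr_sq j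
  have e3 : (cc j : ℂ) * (1 + (qq j : ℂ)) = 1 - (qq j : ℂ) := by exact_mod_cast cc_qq j
  linear_combination (-(h (j : ℤ) 1) * (1 + (qq j : ℂ))) * e2 - h (j : ℤ) 1 * e3

lemma DD_Y (h : HZ) (k : ℤ) :
    (DD δ h0 h1).Y h (k + 1) = rot (sf δ k) (sf_sq δ h0 h1 k) (h k) := shiftIso_apply _ _ _

/-- real survivor sequence -/
def ab (δ : ℝ) : ℕ → ℝ × ℝ
  | 0 => (0, 1)
  | n + 1 => (Real.sqrt (1 - sf δ n ^ 2) * (ab δ n).1 - sf δ n * (ab δ n).2,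
      qq (n + 1) * (sf δ n * (ab δ n).1 + Real.sqrt (1 - sf δ n ^ 2) * (ab δ n).2))

lemma X_ab (n : ℕ) :
    (DD δ h0 h1).X n (lp.single 2 0 1 : L2N) (n : ℤ) 0 = ((ab δ n).1 : ℂ) ∧
    (DD δ h0 h1).X n (lp.single 2 0 1 : L2N) (n : ℤ) 1 = ((ab δ n).2 : ℂ) := by
  induction n with
  | zero =>
    constructor
    · exact (DD_N0 δ h0 h1 _ 0).trans (by simp [ab])
    · refine (DD_N1 δ h0 h1 _ 0).trans ?_
      have h2 : (lp.single 2 0 1 : L2N) 0 = 1 := lp.single_apply_self (E := fun _ : ℕ => ℂ) 2 0 1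
      rw [h2, rr_zero, qq_zero]
      simp [ab]
  | succ n ih =>
    obtain ⟨i1, i2⟩ := ih
    constructor
    · change (DD δ h0 h1).CH ((DD δ h0 h1).Y ((DD δ h0 h1).X n (lp.single 2 0 1 : L2N)))
        ((n + 1 : ℕ) : ℤ) 0 = _
      rw [DD_CH0]
      have e : ((n + 1 : ℕ) : ℤ) = (n : ℤ) + 1 := by push_cast; rfl
      rw [e, DD_Y, rot_zero, i1, i2]
      simp [ab]
    · change (DD δ h0 h1).CH ((DD δ h0 h1).Y ((DD δ h0 h1).X n (lp.single 2 0 1 : L2N)))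
        ((n + 1 : ℕ) : ℤ) 1 = _
      rw [DD_CH1]
      have e : ((n + 1 : ℕ) : ℤ) = (n : ℤ) + 1 := by push_cast; rfl
      rw [e, DD_Y, rot_one, i1, i2]
      simp [ab]

lemma norm_site (h : HZ) (k : ℤ) : ‖h k‖ ≤ ‖h‖ :=
  lp.norm_apply_le_norm (by norm_num) h k

lemma norm_comp0 (x : E2) : ‖x 0‖ ≤ ‖x‖ := by
  have := e2_norm x
  have h2 : ‖x 0‖ ^ 2 ≤ ‖x‖ ^ 2 := by
    have : 0 ≤ ‖x 1‖ ^ 2 := by positivity
    linarith
  exact (abs_le_of_sq_le_sq' h2 (norm_nonneg _)).2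

lemma norm_comp1 (x : E2) : ‖x 1‖ ≤ ‖x‖ := by
  have := e2_norm x
  have h2 : ‖x 1‖ ^ 2 ≤ ‖x‖ ^ 2 := by
    have : 0 ≤ ‖x 0‖ ^ 2 := by positivity
    linarith
  exact (abs_le_of_sq_le_sq' h2 (norm_nonneg _)).2

lemma tt_summable : Summable (fun i : ℕ => 2 * ((i : ℝ) + 1) ^ (-(3 / 2) : ℝ)) := by
  apply Summable.mul_left
  have h := (Real.summable_nat_rpow (p := (-(3 / 2) : ℝ))).mpr (by norm_num)
  have h2 := (summable_nat_add_iff 1).mpr h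
  refine h2.congr (fun i => ?_)
  push_cast
  rfl

lemma inv_cc_le (i : ℕ) : (1 / ((i : ℝ) + 1)) ^ 2 / cc (i + 2)
    ≤ 2 * ((i : ℝ) + 1) ^ (-(3 / 2) : ℝ) := by
  set x : ℝ := (i : ℝ) + 1 with hx
  have hx1 : 1 ≤ x := by rw [hx]; linarith [Nat.cast_nonneg (α := ℝ) i]
  have hx0 : 0 < x := by linarith
  have h1 : cc (i + 2) = (x + 2) ^ (-(1 / 2) : ℝ) := by
    unfold cc; congr 1; push_cast; rw [hx]; ring
  have h2 : (x + 2) ^ (-(1 / 2) : ℝ) = ((x + 2) ^ (1 / 2 : ℝ))⁻¹ := by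
    rw [Real.rpow_neg (by linarith)]
  have h3 : (x + 2) ^ (1 / 2 : ℝ) ≤ 2 * x ^ (1 / 2 : ℝ) := by
    have h4 : (2 : ℝ) = 4 ^ (1 / 2 : ℝ) := by
      rw [← Real.sqrt_eq_rpow]
      rw [show (4 : ℝ) = 2 ^ 2 by norm_num, Real.sqrt_sq (by norm_num)]
    calc (x + 2) ^ (1 / 2 : ℝ) ≤ (4 * x) ^ (1 / 2 : ℝ) :=
          Real.rpow_le_rpow (by linarith) (by linarith) (by norm_num)
      _ = 4 ^ (1 / 2 : ℝ) * x ^ (1 / 2 : ℝ) := Real.mul_rpow (by norm_num) hx0.le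
      _ = 2 * x ^ (1 / 2 : ℝ) := by rw [← h4]
  have h5 : (1 / x) ^ 2 = x ^ (-2 : ℝ) := by
    rw [Real.rpow_neg hx0.le, one_div, inv_pow]
    congr 1
    exact_mod_cast (Real.rpow_natCast x 2).symm
  rw [h1, h2, div_inv_eq_mul, h5]
  calc x ^ (-2 : ℝ) * (x + 2) ^ (1 / 2 : ℝ) ≤ x ^ (-2 : ℝ) * (2 * x ^ (1 / 2 : ℝ)) :=
        mul_le_mul_of_nonneg_left h3 (by positivity)
    _ = 2 * (x ^ (-2 : ℝ) * x ^ (1 / 2 : ℝ)) := by ring
    _ = 2 * x ^ (-(3 / 2) : ℝ) := by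
      rw [← Real.rpow_add hx0]; norm_num

lemma ab_bound (hδ : δ ^ 2 * ∑' i : ℕ, 2 * ((i : ℝ) + 1) ^ (-(3 / 2) : ℝ) ≤ 1 / 4)
    (h0 : 0 ≤ δ) (h1 : δ ≤ 1) (n : ℕ) :
    1 / 2 ≤ -(ab δ (n + 1)).1 := by
  have hs0 : sf δ ((0 : ℕ) : ℤ) = 1 := by simp [sf]
  refine zeno (fun n => -(ab δ (n + 1)).1) (fun n => -(ab δ (n + 1)).2)
    (fun n => sf δ ((n + 1 : ℕ) : ℤ)) (fun n => Real.sqrt (1 - sf δ ((n + 1 : ℕ) : ℤ) ^ 2))
    (fun n => cc (n + 2)) (fun n => qq (n + 2)) ?_ ?_ ?_ ?_ ?_ ?_ ?_ ?_ ?_ ?_ ?_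
    (1 / 4) ?_ le_rfl n
  · change -(Real.sqrt (1 - sf δ ((0 : ℕ) : ℤ) ^ 2) * (ab δ 0).1
      - sf δ ((0 : ℕ) : ℤ) * (ab δ 0).2) = 1
    rw [hs0]; simp [ab]
  · change -(qq (0 + 1) * (sf δ ((0 : ℕ) : ℤ) * (ab δ 0).1
      + Real.sqrt (1 - sf δ ((0 : ℕ) : ℤ) ^ 2) * (ab δ 0).2)) = 0
    rw [hs0]; simp [ab]
  · intro i
    change 0 ≤ sf δ ((i + 1 : ℕ) : ℤ)
    rw [sf_nat]; positivity
  · intro i; exact Real.sqrt_nonneg _
  · intro i
    change sf δ ((i + 1 : ℕ) : ℤ) ^ 2 + Real.sqrt (1 - sf δ ((i + 1 : ℕ) : ℤ) ^ 2) ^ 2 = 1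
    rw [Real.sq_sqrt (by linarith [sf_sq δ h0 h1 ((i + 1 : ℕ) : ℤ)])]; ring
  · intro i; exact cc_pos _
  · intro i; exact cc_le_one _
  · intro i; exact qq_nonneg _
  · intro i; exact qq_le _
  · intro i
    change -(Real.sqrt (1 - sf δ ((i + 1 : ℕ) : ℤ) ^ 2) * (ab δ (i + 1)).1
      - sf δ ((i + 1 : ℕ) : ℤ) * (ab δ (i + 1)).2) = _
    ring
  · intro i
    change -(qq (i + 1 + 1) * (sf δ ((i + 1 : ℕ) : ℤ) * (ab δ (i + 1)).1
      + Real.sqrt (1 - sf δ ((i + 1 : ℕ) : ℤ) ^ 2) * (ab δ (i + 1)).2)) = _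
    ring
  · intro n
    have h2 : ∀ i : ℕ, sf δ ((i + 1 : ℕ) : ℤ) ^ 2 / cc (i + 2)
        ≤ δ ^ 2 * (2 * ((i : ℝ) + 1) ^ (-(3 / 2) : ℝ)) := by
      intro i
      rw [sf_nat]
      have h3 := inv_cc_le i
      have h4 : (δ / ((i : ℝ) + 1)) ^ 2 / cc (i + 2)
          = δ ^ 2 * ((1 / ((i : ℝ) + 1)) ^ 2 / cc (i + 2)) := by
        ring
      rw [h4]
      exact mul_le_mul_of_nonneg_left h3 (by positivity)
    calc ∑ i ∈ range n, sf δ ((i + 1 : ℕ) : ℤ) ^ 2 / cc (i + 2)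
        ≤ ∑ i ∈ range n, δ ^ 2 * (2 * ((i : ℝ) + 1) ^ (-(3 / 2) : ℝ)) :=
          sum_le_sum (fun i _ => h2 i)
      _ = δ ^ 2 * ∑ i ∈ range n, 2 * ((i : ℝ) + 1) ^ (-(3 / 2) : ℝ) := by rw [mul_sum]
      _ ≤ δ ^ 2 * ∑' i : ℕ, 2 * ((i : ℝ) + 1) ^ (-(3 / 2) : ℝ) :=
          mul_le_mul_of_nonneg_left (tt_summable.sum_le_tsum _ (fun i _ => by positivity))
            (by positivity)
      _ ≤ 1 / 4 := hδ

lemma X_lower (hδ : δ ^ 2 * ∑' i : ℕ, 2 * ((i : ℝ) + 1) ^ (-(3 / 2) : ℝ) ≤ 1 / 4) (n : ℕ) :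
    1 / 2 ≤ ‖(DD δ h0 h1).X n (lp.single 2 0 1 : L2N)‖ := by
  set x := (DD δ h0 h1).X n (lp.single 2 0 1 : L2N) with hx
  obtain ⟨e0, e1⟩ := X_ab δ h0 h1 n
  rw [← hx] at e0 e1
  rcases n with _ | n
  · have h3 := (norm_comp1 (x ((0 : ℕ) : ℤ))).trans (norm_site x _)
    rw [e1] at h3
    simp [ab] at h3
    linarith
  · have h3 := (norm_comp0 (x ((n + 1 : ℕ) : ℤ))).trans (norm_site x _)
    rw [e0] at h3
    have h4 := ab_bound δ hδ h0 h1 n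
    rw [Complex.norm_real, Real.norm_eq_abs] at h3
    have h5 := neg_le_abs (ab δ (n + 1)).1
    linarith

lemma orb_norm (h : HZ) (k : ℤ) (n : ℕ) :
    ‖(DD δ h0 h1).orb h n (k + n)‖ = ‖h k‖ := by
  induction n with
  | zero => simp [Coll.orb]
  | succ n ih =>
    have e : k + ((n + 1 : ℕ) : ℤ) = (k + n) + 1 := by push_cast; ring
    rw [e]
    change ‖(DD δ h0 h1).Y ((DD δ h0 h1).orb h n) (k + n + 1)‖ = _
    rw [DD_Y, LinearIsometryEquiv.norm_map, ih]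

lemma noSmooth (hpos : 0 < δ) (h10 : δ ≤ 1 / 10) (h : HZ)
    (hsum : Summable (fun n => ‖(DD δ h0 h1).Js ((DD δ h0 h1).orb h n)‖ ^ 2)) : h = 0 := by
  apply lp.ext
  funext k
  -- choose n₀ with k + n₀ = m + 1
  obtain ⟨n₀, m, hm⟩ : ∃ n₀ m : ℕ, k + (n₀ : ℤ) = ((m + 1 : ℕ) : ℤ) := by
    refine ⟨(1 - k).toNat, (k + (1 - k).toNat - 1).toNat, ?_⟩
    push_cast
    omega
  have hsite : ∀ i : ℕ, k + ((n₀ + i : ℕ) : ℤ) = ((m + i + 1 : ℕ) : ℤ) := by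
    intro i
    push_cast at hm ⊢
    linarith
  set e : ℕ → E2 := fun i => (DD δ h0 h1).orb h (n₀ + i) ((m + i + 1 : ℕ) : ℤ) with he
  have hstep : ∀ i, e (i + 1) = rot (sf δ ((m + i + 1 : ℕ) : ℤ)) (sf_sq δ h0 h1 _) (e i) := by
    intro i
    change (DD δ h0 h1).Y ((DD δ h0 h1).orb h (n₀ + i)) ((m + (i + 1) + 1 : ℕ) : ℤ) = _
    have e1 : ((m + (i + 1) + 1 : ℕ) : ℤ) = ((m + i + 1 : ℕ) : ℤ) + 1 := by push_cast; ring
    rw [e1, DD_Y]
  have hlow : ∀ i, cc (m + i + 1) * ‖e i 1‖ ^ 2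
      ≤ ‖(DD δ h0 h1).Js ((DD δ h0 h1).orb h (n₀ + i))‖ ^ 2 := by
    intro i
    have h3 : ‖(DD δ h0 h1).Js ((DD δ h0 h1).orb h (n₀ + i)) (m + i + 1)‖
        ≤ ‖(DD δ h0 h1).Js ((DD δ h0 h1).orb h (n₀ + i))‖ :=
      lp.norm_apply_le_norm (by norm_num) _ _
    have h4 : ‖(DD δ h0 h1).Js ((DD δ h0 h1).orb h (n₀ + i)) (m + i + 1)‖ ^ 2
        = cc (m + i + 1) * ‖e i 1‖ ^ 2 := by
      rw [DD_Js, norm_mul, mul_pow, Complex.norm_real, Real.norm_eq_abs, sq_abs, rr_sq]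
    rw [← h4]
    exact pow_le_pow_left₀ (norm_nonneg _) h3 2
  have hs2 : Summable (fun i => cc (m + i + 1) * ‖e i 1‖ ^ 2) := by
    have h3 : Summable (fun i =>
        ‖(DD δ h0 h1).Js ((DD δ h0 h1).orb h (n₀ + i))‖ ^ 2) := by
      have := (summable_nat_add_iff n₀).mpr hsum
      refine this.congr (fun i => ?_)
      rw [add_comm]
    exact Summable.of_nonneg_of_le (fun i => by have := cc_pos (m + i + 1); positivity) hlow h3
  have hsfv : ∀ i, sf δ ((m + i + 1 : ℕ) : ℤ) = δ / ((m : ℝ) + i + 1) := by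
    intro i
    rw [sf_nat]; push_cast; rfl
  have hpair := no_smooth (fun i => e i 0) (fun i => e i 1)
    (fun i => sf δ ((m + i + 1 : ℕ) : ℤ))
    (fun i => Real.sqrt (1 - sf δ ((m + i + 1 : ℕ) : ℤ) ^ 2))
    (fun i => cc (m + i + 1)) ?_ ?_ ?_ ?_ ?_ ?_ ?_ hs2 ?_
  · have hz : e 0 = 0 := by
      obtain ⟨z0, z1⟩ := hpair
      ext i
      fin_cases i
      · exact z0
      · exact z1
    have h3 := orb_norm δ h0 h1 h k n₀
    have h4 : (DD δ h0 h1).orb h n₀ (k + n₀) = e 0 := by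
      change _ = (DD δ h0 h1).orb h (n₀ + 0) ((m + 0 + 1 : ℕ) : ℤ)
      rw [hm]; rfl
    rw [h4, hz, norm_zero] at h3
    exact norm_eq_zero.mp h3.symm
  · intro i
    change 0 ≤ sf δ ((m + i + 1 : ℕ) : ℤ)
    rw [hsfv]; positivity
  · intro i
    change sf δ ((m + i + 1 : ℕ) : ℤ) ≤ 1 / 10
    rw [hsfv, div_le_iff₀ (by positivity)]
    have : (0 : ℝ) ≤ (m : ℝ) + i := by positivity
    nlinarith
  · intro i; exact Real.sqrt_nonneg _
  · intro i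
    change sf δ ((m + i + 1 : ℕ) : ℤ) ^ 2
      + Real.sqrt (1 - sf δ ((m + i + 1 : ℕ) : ℤ) ^ 2) ^ 2 = 1
    rw [Real.sq_sqrt (by linarith [sf_sq δ h0 h1 ((m + i + 1 : ℕ) : ℤ)])]; ring
  · intro i
    change sf δ ((m + i + 1 : ℕ) : ℤ) ≤ cc (m + i + 1)
    rw [hsfv]
    set x : ℝ := (m : ℝ) + i + 1 with hx
    have hx1 : 1 ≤ x := by
      have : (0 : ℝ) ≤ (m : ℝ) + i := by positivity
      linarith
    have h3 : cc (m + i + 1) = (x + 1) ^ (-(1 / 2) : ℝ) := by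
      unfold cc; push_cast; rfl
    rw [h3]
    have h4 : (x + 1) ^ (-1 : ℝ) ≤ (x + 1) ^ (-(1 / 2) : ℝ) :=
      Real.rpow_le_rpow_of_exponent_le (by linarith) (by norm_num)
    refine le_trans ?_ h4
    rw [Real.rpow_neg_one, div_le_iff₀ (by linarith)]
    rw [← div_eq_inv_mul, le_div_iff₀ (by linarith)]
    nlinarith
  · intro i
    have h3 := congrArg (fun x : E2 => x 0) (hstep i)
    exact h3.trans (rot_zero _ _ _)
  · intro i
    have h3 := congrArg (fun x : E2 => x 1) (hstep i)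
    exact h3.trans (rot_one _ _ _)
  · intro hcon
    have h3 : Summable (fun i : ℕ => δ / (((i + (m + 1) : ℕ) : ℝ))) := by
      refine hcon.congr (fun i => ?_)
      rw [hsfv]; push_cast; ring
    have h4 : Summable (fun i : ℕ => δ / ((i : ℕ) : ℝ)) :=
      (summable_nat_add_iff (f := fun i : ℕ => δ / ((i : ℕ) : ℝ)) (m + 1)).mp h3
    have h5 : Summable (fun i : ℕ => δ⁻¹ * (δ / ((i : ℕ) : ℝ))) := h4.mul_left _
    have h6 : Summable (fun i : ℕ => ((i : ℕ) : ℝ)⁻¹) := by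
      refine h5.congr (fun i => ?_)
      field_simp
    exact Real.not_summable_natCast_inv h6

/-! ### Matsaev class -/

lemma cc_abs (j : ℕ) : |cc j| ≤ 1 := by rw [abs_of_pos (cc_pos j)]; exact cc_le_one j

/-- `diag c_j` -/
def Kop : L2N →L[ℂ] L2N := dg cc 1 cc_abs

lemma Kop_apply (f : L2N) (j : ℕ) : Kop f j = (cc j : ℂ) * f j := rfl

lemma Kop_adj : ContinuousLinearMap.adjoint Kop = Kop := by
  symm
  rw [ContinuousLinearMap.eq_adjoint_iff]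
  intro x y
  exact dg_symm _ _ _ _ _

lemma phi0 : PowerSeries.coeff 0 (DD δ h0 h1).φ = Kop := by
  rw [Coll.φ_zero]
  ext1 f
  apply lp.ext; funext j
  change (DD δ h0 h1).Js ((DD δ h0 h1).J f) j = Kop f j
  rw [DD_Js, DD_J, Kop_apply]
  have e2 : (rr j : ℂ) ^ 2 = (cc j : ℂ) := by exact_mod_cast rr_sq j
  change (rr j : ℂ) * ((rr j : ℂ) * f j) = _
  linear_combination (f j) * e2

lemma half_eq : (1 / 2 : ℂ) • (PowerSeries.coeff 0 (DD δ h0 h1).φ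
    + ContinuousLinearMap.adjoint (PowerSeries.coeff 0 (DD δ h0 h1).φ)) = Kop := by
  rw [phi0, Kop_adj, ← two_smul ℂ Kop, smul_smul]
  norm_num

lemma rankOne_compact (v w : L2N) :
    IsCompactOperator ((innerSL ℂ v).smulRight w : L2N →L[ℂ] L2N) := by
  have h1 : IsCompactOperator (innerSL ℂ v : L2N →L[ℂ] ℂ) :=
    isCompactOperator_of_locallyCompactSpace_dom _
  have h2 := h1.clm_comp (ContinuousLinearMap.toSpanSingleton ℂ w)
  have h3 : (⇑(ContinuousLinearMap.toSpanSingleton ℂ w) ∘ ⇑(innerSL ℂ v))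
      = ⇑((innerSL ℂ v).smulRight w : L2N →L[ℂ] L2N) := by
    ext z
    simp [ContinuousLinearMap.toSpanSingleton_apply]
  rwa [h3] at h2

/-- standard basis -/
def ee (j : ℕ) : L2N := lp.single 2 j 1

lemma ee_self (j : ℕ) : ee j j = 1 := lp.single_apply_self (E := fun _ : ℕ => ℂ) 2 j 1
lemma ee_ne (i j : ℕ) (h : j ≠ i) : ee i j = 0 :=
  lp.single_apply_ne (E := fun _ : ℕ => ℂ) 2 i 1 h

lemma ee_inner (j : ℕ) (f : L2N) : ⟪ee j, f⟫_ℂ = f j := by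
  unfold ee
  have := lp.inner_single_left (𝕜 := ℂ) (G := fun _ : ℕ => ℂ) j (1 : ℂ) f
  rw [this]
  simp

lemma ee_orth : Orthonormal ℂ ee := by
  rw [orthonormal_iff_ite]
  intro i j
  rw [ee_inner]
  split_ifs with h
  · rw [h, ee_self]
  · exact ee_ne j i h

lemma sum_smulRight_compact (n : ℕ) :
    IsCompactOperator (⇑(∑ i ∈ range n, (cc i : ℂ) •
      ((innerSL ℂ (ee i)).smulRight (ee i) : L2N →L[ℂ] L2N))) := by
  induction n with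
  | zero => simpa using isCompactOperator_zero
  | succ n ih =>
    rw [sum_range_succ]
    exact ih.add ((rankOne_compact _ _).smul (cc n : ℂ))

lemma Kop_sub_norm (n : ℕ) :
    ‖Kop - ∑ i ∈ range n, (cc i : ℂ) •
      ((innerSL ℂ (ee i)).smulRight (ee i) : L2N →L[ℂ] L2N)‖ ≤ cc n := by
  have hb : ∀ j, |(if j < n then 0 else cc j)| ≤ cc n := by
    intro j
    split_ifs with h
    · rw [abs_zero]; exact (cc_pos n).le
    · rw [abs_of_pos (cc_pos j)]; exact cc_antitone (by omega)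
  have e : Kop - ∑ i ∈ range n, (cc i : ℂ) •
      ((innerSL ℂ (ee i)).smulRight (ee i) : L2N →L[ℂ] L2N)
      = dg (fun j => if j < n then 0 else cc j) (cc n) hb := by
    ext1 f
    apply lp.ext; funext j
    have h1 : ((∑ i ∈ range n, (cc i : ℂ) •
      ((innerSL ℂ (ee i)).smulRight (ee i) : L2N →L[ℂ] L2N)) f) j
        = if j < n then (cc j : ℂ) * f j else 0 := by
      rw [_root_.sum_apply, lp.coeFn_sum, Finset.sum_apply]
      have h2 : ∀ i, ((((cc i : ℂ) •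
        ((innerSL ℂ (ee i)).smulRight (ee i) : L2N →L[ℂ] L2N)) f : L2N)) j
          = if i = j then (cc j : ℂ) * f j else 0 := by
        intro i
        change (cc i : ℂ) * (⟪ee i, f⟫_ℂ * ee i j) = _
        rw [ee_inner]
        split_ifs with h
        · subst h
          rw [ee_self]; ring
        · rw [ee_ne i j (Ne.symm h)]; ring
      simp_rw [h2]
      rw [Finset.sum_ite_eq']
      simp
    change Kop f j - ((∑ i ∈ range n, (cc i : ℂ) •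
      ((innerSL ℂ (ee i)).smulRight (ee i) : L2N →L[ℂ] L2N)) f) j
        = (((if j < n then 0 else cc j : ℝ)) : ℂ) * f j
    rw [h1, Kop_apply]
    split_ifs <;> simp
  rw [e]
  exact dg_norm_le _ _ _

lemma cc_tendsto : Filter.Tendsto cc Filter.atTop (nhds 0) := by
  have h1 : Filter.Tendsto (fun x : ℝ => x ^ (-(1 / 2) : ℝ)) Filter.atTop (nhds 0) :=
    tendsto_rpow_neg_atTop (by norm_num)
  have h2 : Filter.Tendsto (fun n : ℕ => (n : ℝ) + 1) Filter.atTop Filter.atTop :=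
    Filter.tendsto_atTop_add_const_right _ _ tendsto_natCast_atTop_atTop
  exact h1.comp h2

lemma Kop_compact : IsCompactOperator Kop := by
  refine isCompactOperator_of_tendsto (l := Filter.atTop)
    (F := fun n : ℕ => ∑ i ∈ range n, (cc i : ℂ) •
      ((innerSL ℂ (ee i)).smulRight (ee i) : L2N →L[ℂ] L2N)) ?_
    (Filter.Eventually.of_forall sum_smulRight_compact)
  rw [tendsto_iff_norm_sub_tendsto_zero]
  refine squeeze_zero (fun n => norm_nonneg _) (fun n => ?_) cc_tendsto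
  rw [norm_sub_rev]
  exact Kop_sub_norm n

lemma Kop_matsaev : Matsaev Kop := by
  refine ⟨Kop_compact, cc, ee, cc_antitone, fun j => (cc_pos j).le, ee_orth, ?_, ?_, ?_⟩
  · intro j
    rw [Kop_adj]
    apply lp.ext; funext i
    change (cc i : ℂ) * ((cc i : ℂ) * ee j i) = ((cc j ^ 2 : ℝ) : ℂ) * ee j i
    by_cases h : i = j
    · subst h; push_cast; ring
    · rw [ee_ne j i h]; ring
  · intro v hv
    have : v = 0 := by
      apply lp.ext; funext j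
      have := hv j
      rw [ee_inner] at this
      exact this
    rw [this, map_zero]
  · have h := (Real.summable_nat_rpow (p := (-(3 / 2) : ℝ))).mpr (by norm_num)
    have h2 := (summable_nat_add_iff 1).mpr h
    refine h2.congr (fun j => ?_)
    unfold cc
    have hx : (0 : ℝ) < (j : ℝ) + 1 := by positivity
    have e1 : (((j + 1 : ℕ) : ℝ)) = (j : ℝ) + 1 := by push_cast; rfl
    rw [e1]
    have e2 : ((j : ℝ) + 1) ^ (-(1 / 2) : ℝ) / ((j : ℝ) + 1)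
        = ((j : ℝ) + 1) ^ (-(1 / 2) - 1 : ℝ) := by
      rw [Real.rpow_sub hx, Real.rpow_one]
    rw [e2]
    norm_num

lemma J_inj (c : L2N) (h : (DD δ h0 h1).J c = 0) : c = 0 := by
  apply lp.ext; funext j
  have h2 : (DD δ h0 h1).J c (j : ℤ) 1 = 0 := by rw [h]; rfl
  have h3 : (rr j : ℂ) * c j = 0 := h2
  have h4 : (rr j : ℂ) ≠ 0 := by exact_mod_cast (rr_pos j).ne'
  exact (mul_eq_zero.mp h3).resolve_left h4

/-- a small rotation parameter -/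
lemma exists_delta : ∃ δ : ℝ, 0 < δ ∧ δ ≤ 1 / 10 ∧
    δ ^ 2 * ∑' i : ℕ, 2 * ((i : ℝ) + 1) ^ (-(3 / 2) : ℝ) ≤ 1 / 4 := by
  set T := ∑' i : ℕ, 2 * ((i : ℝ) + 1) ^ (-(3 / 2) : ℝ)
  have hT : 0 ≤ T := tsum_nonneg (fun i => by positivity)
  refine ⟨1 / (10 * (1 + T)), by positivity, ?_, ?_⟩
  · rw [div_le_div_iff₀ (by positivity) (by norm_num)]
    linarith
  · rw [div_pow, one_pow, one_div_mul_eq_div, div_le_div_iff₀ (by positivity) (by norm_num)]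
    nlinarith [sq_nonneg T]

end WaveLimit
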